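import Pool.Agent.Helper19.BL.GBasic

/-! # MODULE B1: basic facts on a Bratteli system

`emb_injective`: if `emb n x = 0` then multiply by `e n v μ μ` left, `e n v ν μ` right: `x v μ ν • e n v μ μ = 0`, `e_ne`.
`norm_emb`: injective star homomorphism (`NonUnitalStarAlgHom.norm_map`).
`exists_near`: `dense` + the spans are the ranges of `emb n`, which increase.
`exists_up`: one step: `x ↦ fun w => of (fun i j => sum over the decomposition ext n w)`; i.e.
its entry at (ext ⟨v,μ,k⟩, ext ⟨v',ν,k'⟩) is x v μ ν if v = v' and k = k', else 0; with `e_succ`, `emb (n+1) (up x) = emb n x`;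
alternatively define `up` as the composite of `emb n` with the inverse of `emb (n+1)` on its range (then multiplicativity
etc. are free: `emb (n+1)` is injective), and compute the trace on matrix units only.  Then induct on `m - n`. -/

set_option linter.unusedSectionVars false

open scoped Matrix

namespace Helper19.BL

variable {V0 : Type} [Fintype V0] [DecidableEq V0] {T : V0 → V0 → ℕ}
  {A : Type*} [CStarAlgebra A] (B : Brat V0 T A)

theorem Brat.B1_sandwich (n : ℕ) (v : V0) (a μ ν : B.P n v) (x : B.D n) :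
    B.e n v a μ * B.emb n x * B.e n v ν a = (x v).mat μ ν • B.e n v a a := by
  rw [B.emb_apply, Finset.mul_sum, Finset.sum_mul, Finset.sum_eq_single v]
  · rw [Finset.mul_sum, Finset.sum_mul, Finset.sum_eq_single μ]
    · rw [Finset.mul_sum, Finset.sum_mul, Finset.sum_eq_single ν]
      · rw [mul_smul_comm, smul_mul_assoc, B.e_mul, if_pos rfl, B.e_mul, if_pos rfl]
      · intro b _ hb
        rw [mul_smul_comm, smul_mul_assoc, B.e_mul, if_pos rfl, B.e_mul, if_neg hb, smul_zero]
      · intro h; exact absurd (Finset.mem_univ _) h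
    · intro b _ hb
      rw [Finset.mul_sum, Finset.sum_mul]
      refine Finset.sum_eq_zero fun c _ => ?_
      rw [mul_smul_comm, smul_mul_assoc, B.e_mul, if_neg (Ne.symm hb), zero_mul, smul_zero]
    · intro h; exact absurd (Finset.mem_univ _) h
  · intro w _ hw
    rw [Finset.mul_sum, Finset.sum_mul]
    refine Finset.sum_eq_zero fun b _ => ?_
    rw [Finset.mul_sum, Finset.sum_mul]
    refine Finset.sum_eq_zero fun c _ => ?_
    rw [mul_smul_comm, smul_mul_assoc, B.e_mul_ne n v w _ _ _ _ (Ne.symm hw), zero_mul, smul_zero]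
  · intro h; exact absurd (Finset.mem_univ _) h

theorem Brat.emb_injective (n : ℕ) : Function.Injective (B.emb n) := by
  rw [injective_iff_map_eq_zero]
  intro x hx
  funext v
  apply MM.ext'
  intro μ ν
  have h := B.B1_sandwich n v μ μ ν x
  rw [hx, mul_zero, zero_mul] at h
  have h2 := smul_eq_zero.mp h.symm
  rcases h2 with h2 | h2
  · rw [h2]; rfl
  · exact absurd h2 (B.e_ne n v μ)

theorem Brat.norm_emb (n : ℕ) (x : B.D n) : ‖B.emb n x‖ = ‖x‖ :=
  NonUnitalStarAlgHom.norm_map (B.emb n) (B.emb_injective n) x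

/-- matrix units of level `n` -/
noncomputable def Brat.B1_E (n : ℕ) (v : V0) (μ ν : B.P n v) : B.D n :=
  Pi.single v (MM.single μ ν 1)

theorem Brat.B1_E_mat (n : ℕ) (v w : V0) (μ ν : B.P n v) (a b : B.P n w) :
    (B.B1_E n v μ ν w).mat a b =
      if h : w = v then (if μ = h ▸ a ∧ ν = h ▸ b then 1 else 0) else 0 := by
  unfold B1_E
  by_cases h : w = v
  · subst h
    rw [dif_pos rfl, Pi.single_eq_same]
    simp [MM.single, Matrix.single_apply]
  · rw [dif_neg h, Pi.single_eq_of_ne h]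
    simp

theorem Brat.B1_emb_E (n : ℕ) (v : V0) (μ ν : B.P n v) :
    B.emb n (B.B1_E n v μ ν) = B.e n v μ ν := by
  rw [B.emb_apply, Finset.sum_eq_single v]
  · rw [Finset.sum_eq_single μ]
    · rw [Finset.sum_eq_single ν]
      · rw [B.B1_E_mat]; simp
      · intro b _ hb
        rw [B.B1_E_mat]; simp [Ne.symm hb]
      · intro h; exact absurd (Finset.mem_univ _) h
    · intro b _ hb
      refine Finset.sum_eq_zero fun c _ => ?_
      rw [B.B1_E_mat]; simp [Ne.symm hb]
    · intro h; exact absurd (Finset.mem_univ _) h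
  · intro w _ hw
    refine Finset.sum_eq_zero fun b _ => Finset.sum_eq_zero fun c _ => ?_
    rw [B.B1_E_mat, dif_neg hw, zero_smul]
  · intro h; exact absurd (Finset.mem_univ _) h

/-- trace as a linear map -/
noncomputable def Brat.B1_trL (n : ℕ) (v : V0) : B.D n →ₗ[ℂ] ℂ where
  toFun := B.tr n v
  map_add' x y := by
    change ((x + y) v).mat.trace = _
    rw [Pi.add_apply, MM.mat_add, Matrix.trace_add]; rfl
  map_smul' c x := by
    change ((c • x) v).mat.trace = _
    rw [Pi.smul_apply, MM.mat_smul, Matrix.trace_smul]; rfl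

theorem Brat.B1_tr_E (n : ℕ) (v w : V0) (μ ν : B.P n v) :
    B.B1_trL n w (B.B1_E n v μ ν) = if w = v ∧ μ = ν then 1 else 0 := by
  change Matrix.trace _ = _
  unfold Matrix.trace
  by_cases h : w = v
  · subst h
    by_cases h2 : μ = ν
    · subst h2
      rw [if_pos ⟨rfl, rfl⟩, Finset.sum_eq_single μ]
      · rw [Matrix.diag_apply, B.B1_E_mat]; simp
      · intro b _ hb
        rw [Matrix.diag_apply, B.B1_E_mat]; simp [Ne.symm hb]
      · intro h; exact absurd (Finset.mem_univ _) h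
    · rw [if_neg (fun h => h2 h.2)]
      refine Finset.sum_eq_zero fun b _ => ?_
      rw [Matrix.diag_apply, B.B1_E_mat, dif_pos rfl]
      dsimp only
      rw [if_neg]
      rintro ⟨h3, h4⟩
      exact h2 (h3.trans h4.symm)
  · rw [if_neg (fun h' => h h'.1)]
    refine Finset.sum_eq_zero fun b _ => ?_
    rw [Matrix.diag_apply, B.B1_E_mat, dif_neg h]

/-- one step up -/
noncomputable def Brat.B1_g (n : ℕ) (x : B.D n) : B.D (n + 1) :=
  ∑ v, ∑ μ, ∑ ν, (x v).mat μ ν • ∑ w, ∑ k : Fin (T v w),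
    B.B1_E (n + 1) w (B.ext n w ⟨v, μ, k⟩) (B.ext n w ⟨v, ν, k⟩)

theorem Brat.B1_emb_g (n : ℕ) (x : B.D n) : B.emb (n + 1) (B.B1_g n x) = B.emb n x := by
  unfold Brat.B1_g
  rw [map_sum, B.emb_apply]
  refine Finset.sum_congr rfl fun v _ => ?_
  rw [map_sum]
  refine Finset.sum_congr rfl fun μ _ => ?_
  rw [map_sum]
  refine Finset.sum_congr rfl fun ν _ => ?_
  rw [map_smul, map_sum, B.e_succ]
  congr 1
  refine Finset.sum_congr rfl fun w _ => ?_
  rw [map_sum]
  refine Finset.sum_congr rfl fun k _ => ?_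
  exact B.B1_emb_E _ _ _ _

theorem Brat.B1_tr_g (n : ℕ) (w : V0) (x : B.D n) :
    B.tr (n + 1) w (B.B1_g n x) = ∑ v, (T v w : ℂ) * B.tr n v x := by
  change B.B1_trL (n + 1) w (B.B1_g n x) = _
  unfold Brat.B1_g
  rw [map_sum]
  refine Finset.sum_congr rfl fun v _ => ?_
  rw [map_sum]
  have h1 : B.tr n v x = ∑ μ, (x v).mat μ μ := rfl
  rw [h1, Finset.mul_sum]
  refine Finset.sum_congr rfl fun μ _ => ?_
  rw [map_sum, Finset.sum_eq_single μ]
  · rw [map_smul, map_sum, Finset.sum_eq_single w]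
    · rw [map_sum]
      have h2 : ∀ k : Fin (T v w), B.B1_trL (n + 1) w
          (B.B1_E (n + 1) w (B.ext n w ⟨v, μ, k⟩) (B.ext n w ⟨v, μ, k⟩)) = 1 := by
        intro k
        rw [B.B1_tr_E, if_pos ⟨rfl, rfl⟩]
      rw [Finset.sum_congr rfl fun k _ => h2 k]
      simp [mul_comm]
    · intro w' _ hw'
      rw [map_sum]
      refine Finset.sum_eq_zero fun k _ => ?_
      rw [B.B1_tr_E, if_neg (fun h => hw' h.1.symm)]
    · intro h; exact absurd (Finset.mem_univ _) h
  · intro ν _ hν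
    rw [map_smul, map_sum]
    have h3 : (∑ w', B.B1_trL (n + 1) w (∑ k : Fin (T v w'),
        B.B1_E (n + 1) w' (B.ext n w' ⟨v, μ, k⟩) (B.ext n w' ⟨v, ν, k⟩))) = 0 := by
      refine Finset.sum_eq_zero fun w' _ => ?_
      rw [map_sum]
      refine Finset.sum_eq_zero fun k _ => ?_
      rw [B.B1_tr_E, if_neg]
      rintro ⟨_, h⟩
      have h4 := (B.ext n w').injective h
      simp only [Sigma.mk.injEq, heq_eq_eq, Prod.mk.injEq, true_and, and_true] at h4
      exact hν h4.symm
    rw [h3, smul_zero]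
  · intro h; exact absurd (Finset.mem_univ _) h

/-- one step up as a star homomorphism -/
noncomputable def Brat.B1_up1 (n : ℕ) : B.D n →⋆ₐ[ℂ] B.D (n + 1) where
  toFun := B.B1_g n
  map_one' := B.emb_injective (n + 1) (by rw [B.B1_emb_g, map_one, map_one])
  map_mul' x y := B.emb_injective (n + 1) (by
    rw [B.B1_emb_g, map_mul, map_mul, B.B1_emb_g, B.B1_emb_g])
  map_zero' := B.emb_injective (n + 1) (by rw [B.B1_emb_g, map_zero, map_zero])
  map_add' x y := B.emb_injective (n + 1) (by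
    rw [B.B1_emb_g, map_add, map_add, B.B1_emb_g, B.B1_emb_g])
  commutes' c := B.emb_injective (n + 1) (by
    rw [B.B1_emb_g, AlgHomClass.commutes, AlgHomClass.commutes])
  map_star' x := B.emb_injective (n + 1) (by
    rw [B.B1_emb_g, map_star, map_star, B.B1_emb_g])

theorem Brat.B1_exists_up (n k : ℕ) : ∃ f : B.D n →⋆ₐ[ℂ] B.D (n + k),
    (∀ x, B.emb (n + k) (f x) = B.emb n x) ∧
    ∀ w x, B.tr (n + k) w (f x) = ∑ v, (((Matrix.of T) ^ k) v w : ℂ) * B.tr n v x := by
  induction k with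
  | zero =>
    refine ⟨StarAlgHom.id ℂ (B.D n), fun x => rfl, fun w x => ?_⟩
    change B.tr n w x = _
    rw [pow_zero, Finset.sum_eq_single w]
    · simp
    · intro v _ hv
      rw [Matrix.one_apply_ne hv, Nat.cast_zero, zero_mul]
    · intro h; exact absurd (Finset.mem_univ _) h
  | succ k ih =>
    obtain ⟨f, hf1, hf2⟩ := ih
    refine ⟨(B.B1_up1 (n + k)).comp f, fun x => ?_, fun w x => ?_⟩
    · change B.emb (n + k + 1) (B.B1_g (n + k) (f x)) = _
      rw [B.B1_emb_g, hf1]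
    · change B.tr (n + k + 1) w (B.B1_g (n + k) (f x)) = _
      rw [B.B1_tr_g]
      simp_rw [hf2]
      rw [pow_succ]
      simp_rw [Matrix.mul_apply, Finset.mul_sum]
      rw [Finset.sum_comm]
      refine Finset.sum_congr rfl fun v _ => ?_
      rw [Nat.cast_sum, Finset.sum_mul]
      refine Finset.sum_congr rfl fun u _ => ?_
      rw [Nat.cast_mul, Matrix.of_apply]
      ring

theorem Brat.exists_near (a : A) {ε : ℝ} (hε : 0 < ε) (N : ℕ) :
    ∃ n, N ≤ n ∧ ∃ x : B.D n, ‖B.emb n x - a‖ ≤ ε := by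
  obtain ⟨y, hy, hd⟩ := Metric.mem_closure_iff.mp (B.dense a) ε hε
  obtain ⟨n, hn⟩ := hy
  have hle : Submodule.span ℂ {y | ∃ v μ ν, y = B.e n v μ ν} ≤
      LinearMap.range ((B.emb n : B.D n →ₐ[ℂ] A).toLinearMap) := by
    rw [Submodule.span_le]
    rintro z ⟨v, μ, ν, rfl⟩
    exact ⟨B.B1_E n v μ ν, B.B1_emb_E n v μ ν⟩
  obtain ⟨x, hx⟩ := hle hn
  obtain ⟨f, hf1, -⟩ := B.B1_exists_up n N
  refine ⟨n + N, by omega, f x, ?_⟩
  rw [hf1]
  have hx' : B.emb n x = y := hx
  rw [hx', ← dist_eq_norm, dist_comm]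
  exact hd.le

theorem Brat.exists_up {n m : ℕ} (h : n ≤ m) : ∃ f : B.D n →⋆ₐ[ℂ] B.D m,
    (∀ x, B.emb m (f x) = B.emb n x) ∧
    ∀ w x, B.tr m w (f x) = ∑ v, (((Matrix.of T) ^ (m - n)) v w : ℂ) * B.tr n v x := by
  obtain ⟨k, rfl⟩ := Nat.exists_eq_add_of_le h
  rw [Nat.add_sub_cancel_left]
  exact B.B1_exists_up n k

/-- the inclusion of level `n` in level `m` -/
noncomputable def Brat.up {n m : ℕ} (h : n ≤ m) : B.D n →⋆ₐ[ℂ] B.D m := (B.exists_up h).choose

theorem Brat.emb_up {n m : ℕ} (h : n ≤ m) (x : B.D n) : B.emb m (B.up h x) = B.emb n x :=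
  (B.exists_up h).choose_spec.1 x

theorem Brat.tr_up {n m : ℕ} (h : n ≤ m) (w : V0) (x : B.D n) :
    B.tr m w (B.up h x) = ∑ v, (((Matrix.of T) ^ (m - n)) v w : ℂ) * B.tr n v x :=
  (B.exists_up h).choose_spec.2 w x

theorem Brat.norm_up {n m : ℕ} (h : n ≤ m) (x : B.D n) : ‖B.up h x‖ = ‖x‖ := by
  rw [← B.norm_emb m, B.emb_up, B.norm_emb]

end Helper19.BL
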