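import Pool.Agent.Helper19.BL.GBasic

/-! # MODULE G1: polar decomposition in a corner, close projections, projections near almost projections

General facts in a unital C*-algebra.  Tools: `cfc` for self-adjoint elements
(`Real` version), `norm` bounds `norm_cfc_le`, spectrum of `a` with `‖a - 1‖ ≤ 1/2`.

Proof of `polar_corner`: `a := star x * x + (1 - p)`, `‖a - 1‖ ≤ δ ≤ 1/2`, `a` commutes with `p`
(`x * p = x`, so `star x * x` is in the corner of `p`).  `b := cfc (fun t => 1 / √t) a`, commutes with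
everything commuting with `a`, `b * b * a = 1`; `y := b * p`.
`star (x*y) * (x*y) = p b (x* x) b p = p b (a - (1-p)) b p = p b a b p = p`.
`‖b - 1‖ ≤ δ` (for `|t-1| ≤ δ ≤ 1/2`: `|1/√t - 1| ≤ δ`), `‖x‖² ≤ 1 + δ`, `‖x y - x‖ = ‖x (b - 1) p‖`.
Ideal: if `star x * x - p = a - 1 ∈ I` then `b b - 1 = - (b b) (a - 1) ∈ I` and
`b - 1 = (b b - 1) (b + 1)⁻¹ ∈ I` (`b + 1` is invertible: positive plus one; or directly
`b + 1 = cfc (..)` with inverse `cfc (fun t => 1/(1/√t + 1)) a`).

Proof of `proj_close`: apply `polar_corner` to `x = q * p`; `v = x y`, `q v = v`, so `v v*` is a projection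
below `q` near `q`: use `pj_eq_of_near`.

Proof of `near_proj`: `q = cfc (fun t => if t < 1/2 then 0 else 1) y`; on the spectrum of `y`
`|t² - t| ≤ δ`, so `|t| ≤ 2δ` or `|t-1| ≤ 2δ` and the function is continuous on the spectrum. -/

set_option linter.unusedSectionVars false

namespace Helper19.BL

variable {A : Type*} [CStarAlgebra A]

lemma G1_spec {a : A} (ha : IsSelfAdjoint a) {δ : ℝ} (h : ‖a - 1‖ ≤ δ) {t : ℝ}
    (ht : t ∈ spectrum ℝ a) : |t - 1| ≤ δ := by
  have h1 : cfc (fun t : ℝ => t - 1) a = a - 1 := by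
    rw [cfc_sub (fun t : ℝ => t) (fun _ => (1 : ℝ)) a, cfc_id' ℝ a, cfc_const_one ℝ a]
  have h2 := norm_apply_le_norm_cfc (fun t : ℝ => t - 1) a ht
  rw [h1] at h2
  exact (Real.norm_eq_abs _ ▸ h2).trans h

theorem polar_corner {p x : A} (hp : IsStarProjection p) (hx : x * p = x) {δ : ℝ}
    (hδ : ‖star x * x - p‖ ≤ δ) (hδ2 : δ ≤ 1 / 2) :
    ∃ y : A, y * p = y ∧ p * y = y ∧ star (x * y) * (x * y) = p ∧ ‖x * y - x‖ ≤ 2 * δ ∧
      ∀ I : Submodule ℂ A, IsCI I → star x * x - p ∈ I → x * y - x ∈ I := by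
  set a : A := star x * x + (1 - p) with ha_def
  have ha1 : a - 1 = star x * x - p := by rw [ha_def]; abel
  have hxp : p * star x = star x := by
    have := congrArg star hx
    rwa [star_mul, pjs hp] at this
  have hsa : IsSelfAdjoint a := by
    have : star a = a := by
      rw [ha_def, star_add, star_mul, star_star, star_sub, star_one, pjs hp]
    exact this
  have hδ0 : 0 ≤ δ := (norm_nonneg _).trans hδ
  have hna : ‖a - 1‖ ≤ δ := by rw [ha1]; exact hδ
  have hspec : ∀ t ∈ spectrum ℝ a, |t - 1| ≤ δ := fun t ht => G1_spec hsa hna ht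
  have hpos : ∀ t ∈ spectrum ℝ a, 1 / 2 ≤ t := by
    intro t ht
    have := (abs_le.1 (hspec t ht)).1
    linarith
  have hcomm : Commute a p := by
    have h1 : a * p = star x * x * p + (1 - p) * p := by rw [ha_def, add_mul]
    have h2 : p * a = p * (star x * x) + p * (1 - p) := by rw [ha_def, mul_add]
    change a * p = p * a
    rw [h1, h2, mul_assoc, hx, ← mul_assoc p, hxp, sub_mul, mul_sub, pjm hp, one_mul, mul_one]
  set g : ℝ → ℝ := fun t => 1 / √t with hg
  set h : ℝ → ℝ := fun t => -(1 / (√t * (1 + √t))) with hh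
  have hgc : ContinuousOn g (spectrum ℝ a) := by
    apply ContinuousOn.div continuousOn_const (Real.continuous_sqrt.continuousOn)
    intro t ht
    have := hpos t ht
    exact (Real.sqrt_pos.2 (by linarith)).ne'
  have hhc : ContinuousOn h (spectrum ℝ a) := by
    apply ContinuousOn.neg
    apply ContinuousOn.div continuousOn_const
    · exact (Real.continuous_sqrt.mul (continuous_const.add Real.continuous_sqrt)).continuousOn
    · intro t ht
      have := hpos t ht
      have h1 : 0 < √t := Real.sqrt_pos.2 (by linarith)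
      positivity
  set b : A := cfc g a with hb
  have hbsa : star b = b := (cfc_predicate g a : IsSelfAdjoint (cfc g a)).star_eq
  have hbp : Commute b p := hcomm.cfc_real g
  have hba : Commute b a := (Commute.refl a).cfc_real g
  have hbba : b * a * b = 1 := by
    have e1 : b * b = cfc (fun t => g t * g t) a := by
      rw [hb, cfc_mul g g a hgc hgc]
    have e2 : b * b * a = 1 := by
      rw [e1]
      conv_lhs => rw [← cfc_id' ℝ a]
      rw [cfc_id' ℝ a]
      have e3 : cfc (fun t => g t * g t) a * cfc (fun t : ℝ => t) a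
          = cfc (fun t => g t * g t * t) a := by
        rw [cfc_mul (fun t => g t * g t) (fun t => t) a (hgc.mul hgc) continuousOn_id]
      rw [cfc_id' ℝ a] at e3
      rw [e3]
      rw [← cfc_const_one ℝ a]
      apply cfc_congr
      intro t ht
      have h0 := hpos t ht
      have h1 : 0 < √t := Real.sqrt_pos.2 (by linarith)
      have h2 : √t * √t = t := Real.mul_self_sqrt (by linarith)
      simp only [hg]
      field_simp
      nlinarith
    calc b * a * b = b * (a * b) := mul_assoc _ _ _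
      _ = b * (b * a) := by rw [hba.eq]
      _ = 1 := by rw [← mul_assoc, e2]
  have hb1 : b - 1 = cfc h a * (a - 1) := by
    have e1 : cfc (fun t : ℝ => t - 1) a = a - 1 := by
      rw [cfc_sub (fun t : ℝ => t) (fun _ => (1 : ℝ)) a, cfc_id' ℝ a, cfc_const_one ℝ a]
    have e2 : b - 1 = cfc (fun t => g t - 1) a := by
      rw [cfc_sub g (fun _ => (1 : ℝ)) a hgc continuousOn_const, cfc_const_one ℝ a]
    rw [e2, ← e1, ← cfc_mul h (fun t => t - 1) a hhc (by fun_prop)]
    apply cfc_congr
    intro t ht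
    have h0 := hpos t ht
    have h1 : 0 < √t := Real.sqrt_pos.2 (by linarith)
    have h2 : √t * √t = t := Real.mul_self_sqrt (by linarith)
    have h3 : t = √t ^ 2 := by rw [sq, h2]
    simp only [hg, hh]
    have h4 : (t - 1 : ℝ) = (√t - 1) * (1 + √t) := by nlinarith
    rw [h4]
    field_simp
    ring
  have hnb : ‖b - 1‖ ≤ δ := by
    have e2 : b - 1 = cfc (fun t => g t - 1) a := by
      rw [cfc_sub g (fun _ => (1 : ℝ)) a hgc continuousOn_const, cfc_const_one ℝ a]
    rw [e2]
    apply norm_cfc_le hδ0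
    intro t ht
    have h0 := hpos t ht
    have h1 : 0 < √t := Real.sqrt_pos.2 (by linarith)
    have h2 : √t * √t = t := Real.mul_self_sqrt (by linarith)
    obtain ⟨hl, hr⟩ := abs_le.1 (hspec t ht)
    rw [Real.norm_eq_abs, abs_le]
    simp only [hg]
    constructor
    · rw [neg_le_sub_iff_le_add, ← sub_le_iff_le_add, le_div_iff₀ h1]
      have h5 : (1 - δ) * √t ≤ (1 - δ) * (1 + δ) := by
        apply mul_le_mul_of_nonneg_left _ (by linarith)
        rw [Real.sqrt_le_left (by linarith)]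
        nlinarith
      nlinarith
    · rw [sub_le_iff_le_add, div_le_iff₀ h1]
      have h6 : 1 ≤ ((δ + 1) * √t) ^ 2 := by
        have : ((δ + 1) * √t) ^ 2 = (δ + 1) ^ 2 * t := by rw [mul_pow, sq (√t), h2]
        rw [this]
        have h7 : (δ + 1) ^ 2 * (1 - δ) ≤ (δ + 1) ^ 2 * t := by
          apply mul_le_mul_of_nonneg_left _ (by positivity)
          linarith
        have h8 : 1 ≤ (δ + 1) ^ 2 * (1 - δ) := by nlinarith [mul_nonneg hδ0 hδ0]
        linarith
      have h9 : 0 ≤ (δ + 1) * √t := by positivity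
      nlinarith
  refine ⟨b * p, ?_, ?_, ?_, ?_, ?_⟩
  · rw [mul_assoc, pjm hp]
  · rw [← mul_assoc, ← hbp.eq, mul_assoc, pjm hp]
  · have e1 : star (x * (b * p)) * (x * (b * p)) = p * b * (star x * x) * b * p := by
      rw [star_mul, star_mul, hbsa, pjs hp]; noncomm_ring
    have e2 : star x * x = a - (1 - p) := by rw [ha_def]; abel
    have e3 : p * b * (a - (1 - p)) * b * p = p * (b * a * b) * p - p * b * (1 - p) * (b * p) := by
      noncomm_ring
    have e4 : p * b * (1 - p) * (b * p) = 0 := by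
      have : p * b * (1 - p) = 0 := by
        rw [← hbp.eq, mul_assoc, mul_sub, mul_one, pjm hp, sub_self, mul_zero]
      rw [this, zero_mul]
    rw [e1, e2, e3, e4, hbba, mul_one, pjm hp, sub_zero]
  · have e1 : x * (b * p) - x = x * (b - 1) * p := by
      rw [mul_sub, sub_mul, mul_one, hx, mul_assoc]
    rw [e1]
    have hxn : ‖x‖ * ‖x‖ ≤ 3 / 2 := by
      rw [← CStarRing.norm_star_mul_self]
      calc ‖star x * x‖ = ‖(star x * x - p) + p‖ := by rw [sub_add_cancel]
        _ ≤ ‖star x * x - p‖ + ‖p‖ := norm_add_le _ _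
        _ ≤ 1 / 2 + 1 := add_le_add (hδ.trans hδ2) (pj_norm_le hp)
        _ = 3 / 2 := by norm_num
    have hxn2 : ‖x‖ ≤ 2 := by nlinarith [norm_nonneg x]
    calc ‖x * (b - 1) * p‖ ≤ ‖x * (b - 1)‖ * ‖p‖ := norm_mul_le _ _
      _ ≤ ‖x * (b - 1)‖ * 1 := by gcongr; exact pj_norm_le hp
      _ ≤ ‖x‖ * ‖b - 1‖ := by rw [mul_one]; exact norm_mul_le _ _
      _ ≤ 2 * δ := mul_le_mul hxn2 hnb (norm_nonneg _) (by norm_num)
  · intro I hI hmem
    have e1 : x * (b * p) - x = x * (b - 1) * p := by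
      rw [mul_sub, sub_mul, mul_one, hx, mul_assoc]
    rw [e1, hb1, ha1]
    exact hI.mul_right _ (hI.mul_left _ (hI.mul_left _ hmem))

theorem proj_close {p q : A} (hp : IsStarProjection p) (hq : IsStarProjection q)
    (h : ‖p - q‖ ≤ 1 / 10) :
    ∃ v : A, star v * v = p ∧ v * star v = q ∧ ‖v - p‖ ≤ 4 * ‖p - q‖ := by
  set x : A := q * p with hx_def
  have hx : x * p = x := by rw [hx_def, mul_assoc, pjm hp]
  have hxx : star x * x - p = p * ((q - p) * p) := by
    rw [hx_def, star_mul, pjs hp, pjs hq]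
    have : p * q * (q * p) = p * (q * q) * p := by noncomm_ring
    rw [this, pjm hq, sub_mul, pjm hp, mul_sub, pjm hp, mul_assoc]
  have hn1 : ‖(q - p) * p‖ ≤ ‖p - q‖ := by
    calc ‖(q - p) * p‖ ≤ ‖q - p‖ * ‖p‖ := norm_mul_le _ _
      _ ≤ ‖q - p‖ * 1 := by gcongr; exact pj_norm_le hp
      _ = ‖p - q‖ := by rw [mul_one, norm_sub_rev]
  have hδ : ‖star x * x - p‖ ≤ ‖p - q‖ := by
    rw [hxx]
    calc ‖p * ((q - p) * p)‖ ≤ ‖p‖ * ‖(q - p) * p‖ := norm_mul_le _ _
      _ ≤ 1 * ‖p - q‖ := mul_le_mul (pj_norm_le hp) hn1 (norm_nonneg _) zero_le_one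
      _ = ‖p - q‖ := one_mul _
  obtain ⟨y, hy1, hy2, hy3, hy4, -⟩ := polar_corner hp hx hδ (by linarith)
  set v := x * y with hv
  have hvp : ‖v - p‖ ≤ 3 * ‖p - q‖ := by
    have e : v - p = (x * y - x) + (q - p) * p := by
      rw [hv, sub_mul, pjm hp, hx_def]; abel
    rw [e]
    calc ‖(x * y - x) + (q - p) * p‖ ≤ ‖x * y - x‖ + ‖(q - p) * p‖ := norm_add_le _ _
      _ ≤ 2 * ‖p - q‖ + ‖p - q‖ := add_le_add hy4 hn1
      _ = 3 * ‖p - q‖ := by ring
  refine ⟨v, hy3, ?_, hvp.trans (by linarith [norm_nonneg (p - q)])⟩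
  have hvv : IsStarProjection (v * star v) := pi_range (by rw [hy3]; exact hp)
  have hqv : q * v = v := by
    rw [hv, hx_def]
    simp only [← mul_assoc]
    rw [pjm hq]
  have hvn : ‖v‖ ≤ 1 := by
    have : ‖v‖ * ‖v‖ ≤ 1 := by
      rw [← CStarRing.norm_star_mul_self, hy3]; exact pj_norm_le hp
    nlinarith [norm_nonneg v]
  apply pj_eq_of_near hvv hq (by rw [← mul_assoc, hqv])
  have e : v * star v - q = (v - p) * star v + p * star (v - p) + (p - q) := by
    rw [star_sub, pjs hp, sub_mul, mul_sub, pjm hp]; abel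
  rw [e]
  calc ‖(v - p) * star v + p * star (v - p) + (p - q)‖
      ≤ ‖(v - p) * star v‖ + ‖p * star (v - p)‖ + ‖p - q‖ := norm_add₃_le
    _ ≤ 3 * ‖p - q‖ + 3 * ‖p - q‖ + ‖p - q‖ := by
        gcongr
        · calc ‖(v - p) * star v‖ ≤ ‖v - p‖ * ‖star v‖ := norm_mul_le _ _
            _ ≤ ‖v - p‖ * 1 := by gcongr; rw [norm_star]; exact hvn
            _ ≤ 3 * ‖p - q‖ := by rw [mul_one]; exact hvp
        · calc ‖p * star (v - p)‖ ≤ ‖p‖ * ‖star (v - p)‖ := norm_mul_le _ _
            _ ≤ 1 * ‖star (v - p)‖ := by gcongr; exact pj_norm_le hp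
            _ ≤ 3 * ‖p - q‖ := by rw [one_mul, norm_star]; exact hvp
    _ < 1 := by linarith

theorem near_proj {y : A} (hy : IsSelfAdjoint y) {δ : ℝ} (h : ‖y * y - y‖ ≤ δ) (hδ : δ ≤ 1 / 8) :
    ∃ q : A, IsStarProjection q ∧ ‖q - y‖ ≤ 2 * δ := by
  have hδ0 : 0 ≤ δ := (norm_nonneg _).trans h
  have hspec : ∀ t ∈ spectrum ℝ y, |t * t - t| ≤ δ := by
    intro t ht
    have h1 : cfc (fun t : ℝ => t * t - t) y = y * y - y := by
      rw [cfc_sub (fun t : ℝ => t * t) (fun t => t) y, cfc_mul (fun t : ℝ => t) (fun t => t) y,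
        cfc_id' ℝ y]
    have h2 := norm_apply_le_norm_cfc (fun t : ℝ => t * t - t) y ht
    rw [h1] at h2
    exact (Real.norm_eq_abs _ ▸ h2).trans h
  set g : ℝ → ℝ := fun t => max 0 (min 1 (4 * (t - 1 / 2) + 1 / 2)) with hg
  have hgc : Continuous g := by fun_prop
  have key : ∀ t ∈ spectrum ℝ y, (g t = 0 ∧ |t| ≤ 2 * δ) ∨ (g t = 1 ∧ |t - 1| ≤ 2 * δ) := by
    intro t ht
    obtain ⟨hl, hr⟩ := abs_le.1 (hspec t ht)
    have h1 : t * t - t + 1 / 4 ≥ 1 / 8 := by linarith
    rcases le_or_gt t (1 / 2) with h2 | h2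
    · left
      have h3 : t ≤ 1 / 5 := by nlinarith
      constructor
      · simp only [hg]
        have : 4 * (t - 1 / 2) + 1 / 2 ≤ 0 := by linarith
        rw [min_eq_right (by linarith), max_eq_left this]
      · rw [abs_le]
        constructor
        · by_contra hc
          push Not at hc
          have : t < 0 := by linarith
          nlinarith
        · by_contra hc
          push Not at hc
          nlinarith
    · right
      have h3 : 4 / 5 ≤ t := by nlinarith
      constructor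
      · simp only [hg]
        have : 1 ≤ 4 * (t - 1 / 2) + 1 / 2 := by linarith
        rw [min_eq_left this, max_eq_right zero_le_one]
      · rw [abs_le]
        constructor
        · by_contra hc
          push Not at hc
          nlinarith
        · by_contra hc
          push Not at hc
          nlinarith
  refine ⟨cfc g y, ?_, ?_⟩
  · refine pj_mk ?_ (cfc_predicate g y : IsSelfAdjoint (cfc g y)).star_eq
    rw [← cfc_mul g g y hgc.continuousOn hgc.continuousOn]
    apply cfc_congr
    intro t ht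
    rcases key t ht with h1 | h1
    · simp only [h1.1, mul_zero]
    · simp only [h1.1, mul_one]
  · have e : cfc g y - y = cfc (fun t => g t - t) y := by
      rw [cfc_sub g (fun t => t) y hgc.continuousOn continuousOn_id, cfc_id' ℝ y]
    rw [e]
    apply norm_cfc_le (by linarith)
    intro t ht
    rw [Real.norm_eq_abs]
    rcases key t ht with h1 | h1
    · rw [h1.1, zero_sub, abs_neg]; exact h1.2
    · rw [h1.1, abs_sub_comm]; exact h1.2

end Helper19.BL
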