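import Pool.Agent.Helper19.BL.B9
import Pool.Agent.Helper19.BL.G1

/-! # MODULE B10: approximation of unitaries by exponentials of a finite level

`x ∈ D n` near `v` (`exists_near`), `x* x` near `1` (`norm_emb`), `polar_corner` with `p = 1` in `D n`: `w = x y`, `w* w = 1`, `w` near `x`;
`w w*` is a projection (`pi_range`) near `1` (since `emb w` is near the unitary `v`), so it is `1` (`pj_eq_of_near`).  So `w` is unitary, and
`w = exp (i a)` by `exists_exp`. -/

set_option linter.unusedSectionVars false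

open scoped Matrix

namespace Helper19.BL

variable {V0 : Type} [Fintype V0] [DecidableEq V0] {T : V0 → V0 → ℕ}
  {A : Type*} [CStarAlgebra A] (B : Brat V0 T A)

theorem Brat.exp_approx {v : A} (hv : v ∈ unitary A) {ε : ℝ} (hε : 0 < ε) (N : ℕ) :
    ∃ n, N ≤ n ∧ ∃ a : selfAdjoint (B.D n),
      ‖B.emb n ((selfAdjoint.expUnitary a : unitary (B.D n)) : B.D n) - v‖ ≤ ε := by
  obtain ⟨hv1, hv2⟩ := Unitary.mem_iff.1 hv
  set δ : ℝ := min (ε / 7) (1 / 40) with hδdef
  have hδ : 0 < δ := lt_min (by positivity) (by norm_num)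
  have hδ1 : 7 * δ ≤ ε := by
    have := min_le_left (ε / 7) (1 / 40 : ℝ)
    rw [← hδdef] at this
    linarith
  have hδ2 : δ ≤ 1 / 40 := min_le_right _ _
  have hvn : ‖v‖ ≤ 1 := by
    have h : ‖v‖ * ‖v‖ ≤ 1 := by
      rw [← CStarRing.norm_star_mul_self, hv1]
      exact pj_norm_le pj_one
    nlinarith [norm_nonneg v]
  have hvn' : ‖star v‖ ≤ 1 := by rw [norm_star]; exact hvn
  obtain ⟨n, hn, x, hx⟩ := B.exists_near v hδ N
  have hxs : ‖star (B.emb n x) - star v‖ ≤ δ := by rw [← star_sub, norm_star]; exact hx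
  have hxn : ‖star (B.emb n x)‖ ≤ 1 + δ := by
    calc ‖star (B.emb n x)‖ = ‖(star (B.emb n x) - star v) + star v‖ := by rw [sub_add_cancel]
      _ ≤ ‖star (B.emb n x) - star v‖ + ‖star v‖ := norm_add_le _ _
      _ ≤ 1 + δ := by linarith
  have h1 : ‖star x * x - 1‖ ≤ 3 * δ := by
    rw [← B.norm_emb n, map_sub, map_mul, map_one, map_star]
    have h2 : star (B.emb n x) * B.emb n x - 1
        = star (B.emb n x) * (B.emb n x - v) + (star (B.emb n x) - star v) * v := by
      rw [mul_sub, sub_mul, hv1]; abel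
    rw [h2]
    calc ‖star (B.emb n x) * (B.emb n x - v) + (star (B.emb n x) - star v) * v‖
        ≤ ‖star (B.emb n x) * (B.emb n x - v)‖ + ‖(star (B.emb n x) - star v) * v‖ :=
          norm_add_le _ _
      _ ≤ ‖star (B.emb n x)‖ * ‖B.emb n x - v‖ + ‖star (B.emb n x) - star v‖ * ‖v‖ :=
          add_le_add (norm_mul_le _ _) (norm_mul_le _ _)
      _ ≤ (1 + δ) * δ + δ * 1 :=
          add_le_add (mul_le_mul hxn hx (norm_nonneg _) (by positivity))
            (mul_le_mul hxs hvn (norm_nonneg _) (by positivity))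
      _ ≤ 3 * δ := by nlinarith
  obtain ⟨y, -, -, hw, hwn, -⟩ := polar_corner (p := (1 : B.D n)) (x := x) pj_one (mul_one x)
    h1 (by linarith)
  set w : B.D n := x * y with hwdef
  have hwv : ‖B.emb n w - v‖ ≤ 7 * δ := by
    calc ‖B.emb n w - v‖ = ‖B.emb n (w - x) + (B.emb n x - v)‖ := by
          rw [map_sub]; congr 1; abel
      _ ≤ ‖B.emb n (w - x)‖ + ‖B.emb n x - v‖ := norm_add_le _ _
      _ ≤ 2 * (3 * δ) + δ := by
          rw [B.norm_emb]; exact add_le_add hwn hx
      _ = 7 * δ := by ring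
  have hwvs : ‖star (B.emb n w) - star v‖ ≤ 7 * δ := by rw [← star_sub, norm_star]; exact hwv
  have hpj : IsStarProjection (w * star w) := pi_range (by rw [hw]; exact pj_one)
  have hwn1 : ‖B.emb n w‖ ≤ 1 := by
    have h : ‖B.emb n w‖ * ‖B.emb n w‖ ≤ 1 := by
      rw [← CStarRing.norm_star_mul_self, ← map_star, ← map_mul, hw, map_one]
      exact pj_norm_le pj_one
    nlinarith [norm_nonneg (B.emb n w)]
  have hnear : ‖w * star w - 1‖ < 1 := by
    rw [← B.norm_emb n, map_sub, map_mul, map_one, map_star]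
    have h2 : B.emb n w * star (B.emb n w) - 1
        = B.emb n w * (star (B.emb n w) - star v) + (B.emb n w - v) * star v := by
      rw [mul_sub, sub_mul, hv2]; abel
    rw [h2]
    calc ‖B.emb n w * (star (B.emb n w) - star v) + (B.emb n w - v) * star v‖
        ≤ ‖B.emb n w * (star (B.emb n w) - star v)‖ + ‖(B.emb n w - v) * star v‖ :=
          norm_add_le _ _
      _ ≤ ‖B.emb n w‖ * ‖star (B.emb n w) - star v‖ + ‖B.emb n w - v‖ * ‖star v‖ :=
          add_le_add (norm_mul_le _ _) (norm_mul_le _ _)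
      _ ≤ 1 * (7 * δ) + (7 * δ) * 1 :=
          add_le_add (mul_le_mul hwn1 hwvs (norm_nonneg _) (by norm_num))
            (mul_le_mul hwv hvn' (norm_nonneg _) (by positivity))
      _ < 1 := by linarith
  have hww : w * star w = 1 := pj_eq_of_near hpj pj_one (one_mul _) hnear
  have hmem : w ∈ unitary (B.D n) := Unitary.mem_iff.2 ⟨hw, hww⟩
  obtain ⟨a, ha⟩ := B.exists_exp (⟨w, hmem⟩ : unitary (B.D n))
  refine ⟨n, hn, a, ?_⟩
  rw [ha]
  exact hwv.trans hδ1

end Helper19.BL
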