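import Pool.Agent.Helper19.BL.B6

/-! # MODULE B11: the automorphism of `V A` given by a matrix `S` with `S T = T S`, `S S = T T`

`exists_alphaV`: for `x : V A` choose `n, z` with `x = ∑ z v • u n v` (`V_gen`) and put
`αV x := ∑_v z v • ∑_w S v w • u (n+1) w = ∑_w (z S)_w • u (n+1) w`.  KEY CLAIM: if `∑ z v • u n v = ∑ z' v • u m v` then
`∑_w (z S)_w • u (n+1) w = ∑_w (z' S)_w • u (m+1) w`.  Proof: move both to the common level `max n m` by `u_add` (`S` commutes with powers of
`T`), then `V_inj`: `z T^k = z' T^k`, so `z S T^k = z T^k S = z' T^k S = z' S T^k`, and `u_add` from level `n+1` to `n+1+k`.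
Additivity follows from the key claim (choose the sum of representatives at a common level).
`αV (αV (u n v)) = ∑ (S S) v w • u (n+2) w = ∑ (T T) v w • u (n+2) w = u n v`.

`exists_alphaK`: `α : K0 A ≃+ K0 A` from `αV` by functoriality of the Grothendieck group
(`Algebra.GrothendieckAddGroup.lift`, see `K0map` in KDefs.lean; `K0.exists_sub` for uniqueness).  Positive cone: `α (Vto x) = Vto (αV x)`,
`αV` is bijective.  Scale: if `p` is a projection of `A` then `[p] + [1-p] = [1]`, so `αV [p] + αV [1-p] = [1]`; write `αV [p] = cls q`,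
`αV [1-p] = cls q'`: `MvN (fromBlocks q 0 0 q') (1 : 1×1)` by `v`; then `v (q ⊕ 0) v*` is a `1 × 1` projection equivalent to `q`
(use `MvN.nice`), so `αV [p]` is the class of a projection of `A`.  Same for the inverse (`α = α⁻¹`). -/

set_option linter.unusedSectionVars false

open scoped Matrix

namespace Helper19.BL

variable {V0 : Type} [Fintype V0] [DecidableEq V0] {T : V0 → V0 → ℕ}
  {A : Type*} [CStarAlgebra A] (B : Brat V0 T A)

theorem Brat.B11_lift {n k N : ℕ} (h : N = n + k) (z : V0 → ℕ) :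
    ∑ v, z v • B.u n v = ∑ w, Matrix.vecMul z ((Matrix.of T) ^ k) w • B.u N w := by
  subst h
  exact B.B6_lift n k z

theorem Brat.B11_key {S : V0 → V0 → ℕ}
    (hST : Matrix.of S * Matrix.of T = Matrix.of T * Matrix.of S)
    {n m : ℕ} {z z' : V0 → ℕ} (h : ∑ v, z v • B.u n v = ∑ v, z' v • B.u m v) :
    ∑ w, Matrix.vecMul z (Matrix.of S) w • B.u (n + 1) w =
      ∑ w, Matrix.vecMul z' (Matrix.of S) w • B.u (m + 1) w := by
  have hcomm : Commute (Matrix.of S) (Matrix.of T) := hST
  rw [B.B11_lift (n := n) (k := m) (N := n + m) rfl z,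
    B.B11_lift (n := m) (k := n) (N := n + m) (add_comm _ _) z'] at h
  obtain ⟨j, hj⟩ := B.V_inj _ _ _ h
  rw [Matrix.vecMul_vecMul, Matrix.vecMul_vecMul, ← pow_add, ← pow_add] at hj
  rw [B.B11_lift (n := n + 1) (k := m + j) (N := n + m + j + 1) (by ring),
    B.B11_lift (n := m + 1) (k := n + j) (N := n + m + j + 1) (by ring),
    Matrix.vecMul_vecMul, Matrix.vecMul_vecMul, (hcomm.pow_right (m + j)).eq,
    (hcomm.pow_right (n + j)).eq, ← Matrix.vecMul_vecMul, ← Matrix.vecMul_vecMul, hj]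

/-- the function underlying `αV` -/
noncomputable def Brat.B11_fun (S : V0 → V0 → ℕ) (x : V A) : V A :=
  ∑ w, Matrix.vecMul (B.V_gen x).choose_spec.choose (Matrix.of S) w •
    B.u ((B.V_gen x).choose + 1) w

theorem Brat.B11_fun_eq {S : V0 → V0 → ℕ}
    (hST : Matrix.of S * Matrix.of T = Matrix.of T * Matrix.of S) {n : ℕ} {z : V0 → ℕ} {x : V A}
    (h : x = ∑ v, z v • B.u n v) :
    B.B11_fun S x = ∑ w, Matrix.vecMul z (Matrix.of S) w • B.u (n + 1) w := by
  unfold Brat.B11_fun
  apply B.B11_key hST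
  rw [← h]
  exact (B.V_gen x).choose_spec.choose_spec.symm

theorem Brat.exists_alphaV (S : V0 → V0 → ℕ)
    (hST : Matrix.of S * Matrix.of T = Matrix.of T * Matrix.of S)
    (hSS : Matrix.of S * Matrix.of S = Matrix.of T * Matrix.of T) :
    ∃ αV : V A →+ V A, (∀ n v, αV (B.u n v) = ∑ w, S v w • B.u (n + 1) w) ∧
      ∀ x, αV (αV x) = x := by
  refine ⟨{ toFun := B.B11_fun S, map_zero' := ?_, map_add' := ?_ }, ?_, ?_⟩
  · rw [B.B11_fun_eq hST (n := 0) (z := 0) (by simp)]
    simp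
  · intro x y
    obtain ⟨n1, zx, hx⟩ := B.V_gen x
    obtain ⟨n2, zy, hy⟩ := B.V_gen y
    rw [B.B11_lift (n := n1) (k := n2) (N := n1 + n2) rfl] at hx
    rw [B.B11_lift (n := n2) (k := n1) (N := n1 + n2) (add_comm _ _)] at hy
    have hxy : x + y = ∑ v, (Matrix.vecMul zx (Matrix.of T ^ n2) +
        Matrix.vecMul zy (Matrix.of T ^ n1)) v • B.u (n1 + n2) v := by
      simp only [Pi.add_apply, add_smul, Finset.sum_add_distrib]
      rw [← hx, ← hy]
    rw [B.B11_fun_eq hST hx, B.B11_fun_eq hST hy, B.B11_fun_eq hST hxy, Matrix.add_vecMul]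
    simp only [Pi.add_apply, add_smul, Finset.sum_add_distrib]
  · intro n v
    change B.B11_fun S _ = _
    rw [B.B11_fun_eq hST (n := n) (z := Pi.single v 1)]
    · refine Finset.sum_congr rfl fun w _ => ?_
      rw [Matrix.single_one_vecMul]
      rfl
    · rw [Finset.sum_eq_single v]
      · simp
      · intro w _ hw
        simp [hw]
      · intro h; exact absurd (Finset.mem_univ _) h
  · intro x
    change B.B11_fun S (B.B11_fun S x) = x
    obtain ⟨n, z, hx⟩ := B.V_gen x
    rw [B.B11_fun_eq hST (B.B11_fun_eq hST hx), Matrix.vecMul_vecMul, hSS, hx,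
      B.B11_lift (n := n) (k := 2) (N := n + 1 + 1) rfl z, sq]

/-- a class below the class of the unit is the class of a projection of `A` -/
theorem B11_scale {x y : V A} (h : x + y = cls1 (1 : A) pj_one) :
    ∃ (q : A) (hq : IsStarProjection q), x = cls1 q hq := by
  obtain ⟨n, P, hP, rfl⟩ := V.exists_rep x
  obtain ⟨m, Q, hQ, rfl⟩ := V.exists_rep y
  rw [cls_add_cls] at h
  unfold cls1 at h
  rw [cls_eq_iff] at h
  obtain ⟨v, h1, h2, h3, h4⟩ := MvN.nice (hP.blocks hQ) (isPj_of1 pj_one) h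
  set v1 : Matrix (Fin 1) (Fin n) A := v.toCols₁ with hv1
  have hv : v = Matrix.fromCols v1 v.toCols₂ := (Matrix.fromCols_toCols v).symm
  rw [hv, Matrix.conjTranspose_fromCols_eq_fromRows_conjTranspose,
    Matrix.fromRows_mul_fromCols] at h1
  have e1 : v1ᴴ * v1 = P := (Matrix.fromBlocks_inj.1 h1).1
  rw [hv, Matrix.fromCols_mul_fromBlocks] at h3
  have e2 : v1 * P = v1 := by
    have h5 := congrArg Matrix.toCols₁ h3
    rw [Matrix.toCols₁_fromCols, Matrix.toCols₁_fromCols] at h5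
    simpa using h5
  have hpj : IsPj (v1 * v1ᴴ) := by
    constructor
    · calc v1 * v1ᴴ * (v1 * v1ᴴ) = v1 * (v1ᴴ * v1) * v1ᴴ := by simp only [Matrix.mul_assoc]
        _ = v1 * v1ᴴ := by rw [e1, e2]
    · rw [Matrix.conjTranspose_mul, Matrix.conjTranspose_conjTranspose]
  have he : ∀ M : Matrix (Fin 1) (Fin 1) A, M = Matrix.of fun _ _ => M 0 0 := by
    intro M
    ext i j
    rw [Subsingleton.elim i 0, Subsingleton.elim j 0]
    rfl
  have hq : IsStarProjection ((v1 * v1ᴴ) 0 0) := by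
    refine pj_mk ?_ ?_
    · have h5 := congrFun (congrFun hpj.1 0) 0
      rw [Matrix.mul_apply] at h5
      simpa using h5
    · have h5 := congrFun (congrFun hpj.2 0) 0
      rwa [Matrix.conjTranspose_apply] at h5
  refine ⟨(v1 * v1ᴴ) 0 0, hq, ?_⟩
  unfold cls1
  rw [cls_eq_iff]
  refine ⟨v1, e1, ?_⟩
  exact he _

theorem exists_alphaK (αV : V A →+ V A) (h2 : ∀ x, αV (αV x) = x)
    (h1 : αV (cls1 (1 : A) pj_one) = cls1 (1 : A) pj_one) :
    ∃ α : K0 A ≃+ K0 A, (∀ x, α (Vto A x) = Vto A (αV x)) ∧ (∀ g, α (α g) = g) ∧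
      α '' K0pos A = K0pos A ∧ α '' K0scale A = K0scale A := by
  set f : K0 A →+ K0 A := Algebra.GrothendieckAddGroup.lift
    ((Algebra.GrothendieckAddGroup.of : V A →+ K0 A).comp αV) with hf
  have hfV : ∀ x, f (Vto A x) = Vto A (αV x) := by
    intro x
    have := Algebra.GrothendieckAddGroup.lift.symm_apply_apply
      ((Algebra.GrothendieckAddGroup.of : V A →+ K0 A).comp αV)
    exact congrArg (fun h : V A →+ K0 A => h x) this
  have hff : ∀ g, f (f g) = g := by
    intro g
    obtain ⟨x, y, rfl⟩ := K0.exists_sub g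
    rw [map_sub, map_sub, hfV, hfV, hfV, hfV, h2, h2]
  have hsc : ∀ (p : A) (hp : IsStarProjection p), ∃ (q : A) (hq : IsStarProjection q),
      αV (cls1 p hp) = cls1 q hq := by
    intro p hp
    have hp' : IsStarProjection (1 - p) := pj_sub pj_one hp (one_mul p)
    have h3 : cls1 p hp + cls1 (1 - p) hp' = cls1 (1 : A) pj_one := by
      have h4 : p * (1 - p) = 0 := by rw [mul_sub, mul_one, pjm hp, sub_self]
      have h5 : p + (1 - p) = 1 := by abel
      rw [← cls1_add hp hp' (by rw [h5]; exact pj_one) h4]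
      exact cls1_congr _ _ h5
    apply B11_scale (y := αV (cls1 (1 - p) hp'))
    rw [← map_add, h3, h1]
  refine ⟨{ toFun := f, invFun := f, left_inv := hff, right_inv := hff, map_add' := map_add f },
    hfV, hff, ?_, ?_⟩
  · ext g
    constructor
    · rintro ⟨_, ⟨x, rfl⟩, rfl⟩
      exact ⟨αV x, (hfV x).symm⟩
    · rintro ⟨x, rfl⟩
      exact ⟨Vto A (αV x), ⟨αV x, rfl⟩, by
        change f _ = _
        rw [hfV, h2]⟩
  · ext g
    constructor
    · rintro ⟨_, ⟨p, hp, rfl⟩, rfl⟩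
      obtain ⟨q, hq, h3⟩ := hsc p hp
      exact ⟨q, hq, by
        change f _ = _
        rw [hfV, h3]⟩
    · rintro ⟨p, hp, rfl⟩
      obtain ⟨q, hq, h3⟩ := hsc p hp
      refine ⟨Vto A (cls1 q hq), ⟨q, hq, rfl⟩, ?_⟩
      change f _ = _
      rw [hfV, ← h3, h2]

end Helper19.BL
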