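import Pool.Agent.Helper19.BL.G1
import Pool.Agent.Helper19.BL.B1

/-! # MODULE B2: approximation of projections and partial isometries by a finite level

`proj_approx`: `y ∈ D n` with `emb n y` near `p` (`exists_near`), symmetrise (`(y + star y)/2`), `‖y y - y‖` small
(`norm_emb`), `near_proj` in the C*-algebra `D n`.
`pi_approx`: with `N' ≥ n, N` and `x₀ ∈ D m` near `w` (`exists_near`), `P = up p`, `Q = up q`, `x₁ = Q x₀ P` is still near `w`
(`w = emb q * w * emb p` by `pi_mul'`, `pi_swap`), `star x₁ * x₁` is near `P`; `polar_corner` in `D m` gives `x = x₁ y`,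
`star x * x = P`, `Q x = x`, `x star x ≤ Q` is a projection near `Q` (as `emb x` is near `w`), so it is `Q` (`pj_eq_of_near`). -/

set_option linter.unusedSectionVars false

open scoped Matrix

namespace Helper19.BL

variable {V0 : Type} [Fintype V0] [DecidableEq V0] {T : V0 → V0 → ℕ}
  {A : Type*} [CStarAlgebra A] (B : Brat V0 T A)

lemma B2_norm_sq (p d : A) (hp : IsStarProjection p) {η : ℝ} (hd : ‖d‖ ≤ η) (hη : η ≤ 1) :
    ‖(p + d) * (p + d) - (p + d)‖ ≤ 4 * η := by
  have hη0 : 0 ≤ η := (norm_nonneg _).trans hd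
  have e : (p + d) * (p + d) - (p + d) = (p * d + d * p + d * d) - d := by
    rw [add_mul, mul_add, mul_add, pjm hp]; abel
  rw [e]
  have h1 : ‖p * d‖ ≤ η := by
    calc ‖p * d‖ ≤ ‖p‖ * ‖d‖ := norm_mul_le _ _
      _ ≤ 1 * η := mul_le_mul (pj_norm_le hp) hd (norm_nonneg _) zero_le_one
      _ = η := one_mul _
  have h2 : ‖d * p‖ ≤ η := by
    calc ‖d * p‖ ≤ ‖d‖ * ‖p‖ := norm_mul_le _ _
      _ ≤ η * 1 := mul_le_mul hd (pj_norm_le hp) (norm_nonneg _) hη0
      _ = η := mul_one _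
  have h3 : ‖d * d‖ ≤ η := by
    calc ‖d * d‖ ≤ ‖d‖ * ‖d‖ := norm_mul_le _ _
      _ ≤ η * 1 := mul_le_mul hd (hd.trans hη) (norm_nonneg _) hη0
      _ = η := mul_one _
  calc ‖(p * d + d * p + d * d) - d‖ ≤ ‖p * d + d * p + d * d‖ + ‖d‖ := norm_sub_le _ _
    _ ≤ (‖p * d‖ + ‖d * p‖ + ‖d * d‖) + ‖d‖ := by gcongr; exact norm_add₃_le
    _ ≤ 4 * η := by linarith

lemma B2_norm_star (w d : A) {η : ℝ} (hw : ‖w‖ ≤ 1) (hd : ‖d‖ ≤ η) :
    ‖star (w + d) * (w + d) - star w * w‖ ≤ 2 * η + η * η := by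
  have hη0 : 0 ≤ η := (norm_nonneg _).trans hd
  have e : star (w + d) * (w + d) - star w * w = star w * d + star d * w + star d * d := by
    rw [star_add, add_mul, mul_add, mul_add]; abel
  rw [e]
  have h1 : ‖star w * d‖ ≤ η := by
    calc ‖star w * d‖ ≤ ‖star w‖ * ‖d‖ := norm_mul_le _ _
      _ ≤ 1 * η := mul_le_mul (by rwa [norm_star]) hd (norm_nonneg _) zero_le_one
      _ = η := one_mul _
  have h2 : ‖star d * w‖ ≤ η := by
    calc ‖star d * w‖ ≤ ‖star d‖ * ‖w‖ := norm_mul_le _ _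
      _ ≤ η * 1 := mul_le_mul (by rwa [norm_star]) hw (norm_nonneg _) hη0
      _ = η := mul_one _
  have h3 : ‖star d * d‖ ≤ η * η := by
    calc ‖star d * d‖ ≤ ‖star d‖ * ‖d‖ := norm_mul_le _ _
      _ ≤ η * η := mul_le_mul (by rwa [norm_star]) hd (norm_nonneg _) hη0
  calc ‖star w * d + star d * w + star d * d‖
      ≤ ‖star w * d‖ + ‖star d * w‖ + ‖star d * d‖ := norm_add₃_le
    _ ≤ 2 * η + η * η := by linarith

theorem Brat.proj_approx {p : A} (hp : IsStarProjection p) {ε : ℝ} (hε : 0 < ε) (N : ℕ) :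
    ∃ n, N ≤ n ∧ ∃ q : B.D n, IsStarProjection q ∧ ‖B.emb n q - p‖ ≤ ε := by
  set η : ℝ := min (ε / 9) (1 / 32) with hη
  have hη0 : 0 < η := lt_min (by linarith) (by norm_num)
  have hη1 : η ≤ ε / 9 := min_le_left _ _
  have hη2 : η ≤ 1 / 32 := min_le_right _ _
  obtain ⟨n, hn, x, hx⟩ := B.exists_near p hη0 N
  have hsx : ‖B.emb n (star x) - p‖ ≤ η := by
    have : B.emb n (star x) - p = star (B.emb n x - p) := by
      rw [star_sub, map_star, pjs hp]
    rw [this, norm_star]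
    exact hx
  set y : B.D n := (1 / 2 : ℂ) • (x + star x) with hy
  have hey : ‖B.emb n y - p‖ ≤ η := by
    have e : B.emb n y - p =
        (1 / 2 : ℂ) • ((B.emb n x - p) + (B.emb n (star x) - p)) := by
      rw [hy, map_smul, map_add]
      have : p = (1 / 2 : ℂ) • (p + p) := by
        rw [← two_smul ℂ p, smul_smul]
        norm_num
      nth_rewrite 1 [this]
      rw [← smul_sub]
      congr 1
      abel
    rw [e, norm_smul]
    have h1 : ‖(1 / 2 : ℂ)‖ = 1 / 2 := by norm_num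
    rw [h1]
    have h2 := norm_add_le (B.emb n x - p) (B.emb n (star x) - p)
    linarith
  have hysa : IsSelfAdjoint y := by
    have : star y = y := by
      rw [hy, star_smul, star_add, star_star, add_comm (star x) x]
      congr 1
      simp
    exact this
  have hyy : ‖y * y - y‖ ≤ 4 * η := by
    rw [← B.norm_emb n, map_sub, map_mul]
    have h1 := B2_norm_sq p (B.emb n y - p) hp hey (by linarith)
    rw [add_sub_cancel] at h1
    exact h1
  obtain ⟨q, hq, hqy⟩ := near_proj hysa hyy (by linarith)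
  refine ⟨n, hn, q, hq, ?_⟩
  have e : B.emb n q - p = B.emb n (q - y) + (B.emb n y - p) := by
    rw [map_sub]; abel
  rw [e]
  calc ‖B.emb n (q - y) + (B.emb n y - p)‖ ≤ ‖B.emb n (q - y)‖ + ‖B.emb n y - p‖ :=
        norm_add_le _ _
    _ ≤ 2 * (4 * η) + η := by
        rw [B.norm_emb]
        exact add_le_add hqy hey
    _ ≤ ε := by linarith

theorem Brat.pi_approx {n : ℕ} {p q : B.D n} (hp : IsStarProjection p) (hq : IsStarProjection q)
    {w : A} (h1 : star w * w = B.emb n p) (h2 : w * star w = B.emb n q) {ε : ℝ} (hε : 0 < ε)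
    (N : ℕ) : ∃ m, N ≤ m ∧ ∃ h : n ≤ m, ∃ x : B.D m, star x * x = B.up h p ∧
      x * star x = B.up h q ∧ ‖B.emb m x - w‖ ≤ ε := by
  set η : ℝ := min (ε / 7) (1 / 32) with hη
  have hη0 : 0 < η := lt_min (by linarith) (by norm_num)
  have hη1 : η ≤ ε / 7 := min_le_left _ _
  have hη2 : η ≤ 1 / 32 := min_le_right _ _
  obtain ⟨m, hm, x₀, hx₀⟩ := B.exists_near w hη0 (max N n)
  have hN : N ≤ m := (le_max_left _ _).trans hm
  have h : n ≤ m := (le_max_right _ _).trans hm
  have hP : IsStarProjection (B.up h p) := pj_map _ hp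
  have hQ : IsStarProjection (B.up h q) := pj_map _ hq
  have hep : IsStarProjection (B.emb n p) := pj_map _ hp
  have heq : IsStarProjection (B.emb n q) := pj_map _ hq
  have hwp : w * B.emb n p = w := pi_mul' hep h1
  have hqw : B.emb n q * w = w := pi_swap heq h2
  have hwn : ‖w‖ ≤ 1 := by
    have : ‖w‖ * ‖w‖ ≤ 1 := by
      rw [← CStarRing.norm_star_mul_self, h1]; exact pj_norm_le hep
    nlinarith [norm_nonneg w]
  set x₁ : B.D m := B.up h q * x₀ * B.up h p with hx₁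
  have hd1 : ‖B.emb m x₁ - w‖ ≤ η := by
    have e : B.emb m x₁ - w = B.emb n q * (B.emb m x₀ - w) * B.emb n p := by
      rw [hx₁, map_mul, map_mul, B.emb_up, B.emb_up, mul_sub, sub_mul, hqw, hwp]
    rw [e]
    calc ‖B.emb n q * (B.emb m x₀ - w) * B.emb n p‖
        ≤ ‖B.emb n q * (B.emb m x₀ - w)‖ * ‖B.emb n p‖ := norm_mul_le _ _
      _ ≤ ‖B.emb n q * (B.emb m x₀ - w)‖ * 1 := by gcongr; exact pj_norm_le hep
      _ ≤ ‖B.emb n q‖ * ‖B.emb m x₀ - w‖ := by rw [mul_one]; exact norm_mul_le _ _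
      _ ≤ 1 * η := mul_le_mul (pj_norm_le heq) hx₀ (norm_nonneg _) zero_le_one
      _ = η := one_mul _
  have hx₁P : x₁ * B.up h p = x₁ := by rw [hx₁, mul_assoc, pjm hP]
  have hδ : ‖star x₁ * x₁ - B.up h p‖ ≤ 3 * η := by
    rw [← B.norm_emb m, map_sub, map_mul, map_star, B.emb_up, ← h1]
    have h3 := B2_norm_star w (B.emb m x₁ - w) hwn hd1
    rw [add_sub_cancel] at h3
    have : η * η ≤ η := by nlinarith
    linarith
  obtain ⟨y, hy1, hy2, hy3, hy4, -⟩ := polar_corner hP hx₁P hδ (by linarith)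
  have hd2 : ‖B.emb m (x₁ * y) - w‖ ≤ 7 * η := by
    have e : B.emb m (x₁ * y) - w = B.emb m (x₁ * y - x₁) + (B.emb m x₁ - w) := by
      rw [map_sub]; abel
    rw [e]
    calc ‖B.emb m (x₁ * y - x₁) + (B.emb m x₁ - w)‖
        ≤ ‖B.emb m (x₁ * y - x₁)‖ + ‖B.emb m x₁ - w‖ := norm_add_le _ _
      _ ≤ 2 * (3 * η) + η := by
          rw [B.norm_emb]
          exact add_le_add hy4 hd1
      _ = 7 * η := by ring
  refine ⟨m, hN, h, x₁ * y, hy3, ?_, hd2.trans (by linarith)⟩
  have hrange : IsStarProjection (x₁ * y * star (x₁ * y)) := pi_range (by rw [hy3]; exact hP)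
  have hQx : B.up h q * (x₁ * y) = x₁ * y := by
    rw [hx₁]
    simp only [← mul_assoc]
    rw [pjm hQ]
  apply pj_eq_of_near hrange hQ (by rw [← mul_assoc, hQx])
  rw [← B.norm_emb m, map_sub, map_mul, map_star, B.emb_up, ← h2]
  have h3 := B2_norm_star (η := 7 * η) (star w) (star (B.emb m (x₁ * y) - w)) (by rwa [norm_star])
    (by rw [norm_star]; exact hd2)
  rw [← star_add, add_sub_cancel, star_star, star_star] at h3
  refine lt_of_le_of_lt h3 ?_
  nlinarith

end Helper19.BL
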