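import Pool.Agent.Helper19.BL.G1

/-! # MODULE B3: projections in `M_κ(ℂ)`: rank and Murray-von Neumann equivalence

`proj_trace`: for an idempotent matrix trace = rank (`LinearMap.IsProj.trace` / `Matrix.IsHermitian` spectral theorem:
eigenvalues are 0 or 1, `rank = number of nonzero eigenvalues` `Matrix.IsHermitian.rank_eq_card_non_zero_eigs`).
`mvn_of_rank`: by the spectral theorem `q = U D U*` with `D` diagonal with entries 0/1; two diagonal 0/1 matrices with the same number
of ones are conjugate by a permutation matrix.  So there is even a unitary `w₀` with `w₀ q w₀* = q'`; take `w = w₀ q`.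
`rank_eq_of_near`: `proj_close` gives `v` with `star v * v = q`, `v * star v = q'`, traces agree.
`exists_diag`: diagonal 0/1 matrices. -/

set_option linter.unusedSectionVars false

open scoped Matrix

namespace Helper19.BL

variable {κ : Type*} [Fintype κ] [DecidableEq κ]

/-- diagonalisation of a projection -/
theorem MM.proj_diag {q : MM κ ℂ} (hq : IsStarProjection q) :
    ∃ (U : Matrix κ κ ℂ) (s : Finset κ), Uᴴ * U = 1 ∧ U * Uᴴ = 1 ∧
      q.mat = U * Matrix.diagonal (fun i => if i ∈ s then (1 : ℂ) else 0) * Uᴴ := by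
  classical
  have hidem : q.mat * q.mat = q.mat := by
    rw [← MM.mat_mul, hq.isIdempotentElem.eq]
  have hH : q.mat.IsHermitian := by
    have h := congrArg MM.mat hq.isSelfAdjoint.star_eq
    rw [MM.mat_star] at h
    exact h
  obtain ⟨U, d, h1, h2, hs'⟩ : ∃ (U : Matrix κ κ ℂ) (d : κ → ℂ), Uᴴ * U = 1 ∧ U * Uᴴ = 1 ∧
      q.mat = U * Matrix.diagonal d * Uᴴ := by
    have hU := (hH.eigenvectorUnitary).2
    have hs := hH.spectral_theorem
    rw [Unitary.conjStarAlgAut_apply] at hs
    exact ⟨_, _, (Unitary.mem_iff.1 hU).1, (Unitary.mem_iff.1 hU).2, hs⟩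
  have hD : Matrix.diagonal d = Uᴴ * q.mat * U := by
    rw [hs']
    calc Matrix.diagonal d
        = (Uᴴ * U) * Matrix.diagonal d * (Uᴴ * U) := by
          rw [h1]; simp
      _ = _ := by noncomm_ring
  have hDD : Matrix.diagonal d * Matrix.diagonal d = Matrix.diagonal d := by
    rw [hD]
    calc Uᴴ * q.mat * U * (Uᴴ * q.mat * U) = Uᴴ * q.mat * (U * Uᴴ) * q.mat * U := by noncomm_ring
      _ = Uᴴ * (q.mat * q.mat) * U := by rw [h2]; noncomm_ring
      _ = _ := by rw [hidem]
  refine ⟨U, Finset.univ.filter fun i => d i ≠ 0, h1, h2, ?_⟩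
  rw [hs']
  congr 2
  refine congrArg Matrix.diagonal (funext fun i => ?_)
  have h3 := congrFun (congrFun hDD i) i
  rw [Matrix.diagonal_mul_diagonal, Matrix.diagonal_apply_eq, Matrix.diagonal_apply_eq] at h3
  by_cases h0 : d i = 0
  · simp [h0]
  · have h5 : d i = 1 := mul_left_cancel₀ h0 (by rw [h3, mul_one])
    rw [h5]
    simp [h0]

theorem MM.trace_of_diag {U M : Matrix κ κ ℂ} {s : Finset κ} (h1 : Uᴴ * U = 1)
    (hM : M = U * Matrix.diagonal (fun i => if i ∈ s then (1 : ℂ) else 0) * Uᴴ) :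
    M.trace = (s.card : ℂ) := by
  rw [hM, Matrix.trace_mul_comm, ← Matrix.mul_assoc, h1, Matrix.one_mul, Matrix.trace_diagonal]
  simp

theorem MM.rank_of_diag {U M : Matrix κ κ ℂ} {s : Finset κ} (h1 : Uᴴ * U = 1) (h2 : U * Uᴴ = 1)
    (hM : M = U * Matrix.diagonal (fun i => if i ∈ s then (1 : ℂ) else 0) * Uᴴ) :
    M.rank = s.card := by
  have hu : IsUnit U.det := by
    have h := congrArg Matrix.det h1
    rw [Matrix.det_mul, Matrix.det_one] at h
    exact IsUnit.of_mul_eq_one _ (by rw [mul_comm]; exact h)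
  have hu' : IsUnit Uᴴ.det := by
    have h := congrArg Matrix.det h2
    rw [Matrix.det_mul, Matrix.det_one] at h
    exact IsUnit.of_mul_eq_one _ (by rw [mul_comm]; exact h)
  rw [hM, Matrix.rank_mul_eq_left_of_isUnit_det _ _ hu', Matrix.rank_mul_eq_right_of_isUnit_det _ _ hu,
    Matrix.rank_diagonal, Fintype.card_subtype]
  congr 1
  ext i
  simp

theorem MM.proj_trace {q : MM κ ℂ} (hq : IsStarProjection q) : q.mat.trace = (q.mat.rank : ℂ) := by
  obtain ⟨U, s, h1, h2, h3⟩ := MM.proj_diag hq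
  rw [MM.trace_of_diag h1 h3, MM.rank_of_diag h1 h2 h3]

theorem MM.mvn_of_rank {q q' : MM κ ℂ} (hq : IsStarProjection q) (hq' : IsStarProjection q')
    (h : q.mat.rank = q'.mat.rank) : ∃ w : MM κ ℂ, star w * w = q ∧ w * star w = q' := by
  classical
  obtain ⟨U, s, h1, h2, h3⟩ := MM.proj_diag hq
  obtain ⟨U', s', h1', h2', h3'⟩ := MM.proj_diag hq'
  have hc : s.card = s'.card := by
    rw [← MM.rank_of_diag h1 h2 h3, ← MM.rank_of_diag h1' h2' h3', h]
  have he : Nonempty ({i // i ∈ s} ≃ {i // i ∈ s'}) := by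
    rw [← Fintype.card_eq]
    simpa using hc
  obtain ⟨e⟩ := he
  set σ : Equiv.Perm κ := e.extendSubtype with hσ
  have hσm : ∀ i, i ∈ s ↔ σ i ∈ s' := by
    intro i
    constructor
    · intro hi; exact e.extendSubtype_mem i hi
    · intro hi
      by_contra hni
      exact e.extendSubtype_not_mem i hni hi
  set N : Matrix κ κ ℂ := Matrix.of fun i j => if i = σ j ∧ j ∈ s then (1 : ℂ) else 0 with hN
  have hN1 : Nᴴ * N = Matrix.diagonal (fun i => if i ∈ s then (1 : ℂ) else 0) := by
    ext a b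
    rw [Matrix.mul_apply, Finset.sum_eq_single (σ a)]
    · simp only [hN, Matrix.conjTranspose_apply, Matrix.of_apply, Matrix.diagonal_apply]
      by_cases hab : a = b
      · subst hab
        by_cases ha : a ∈ s <;> simp [ha]
      · have : ¬ (σ a = σ b) := fun e => hab (σ.injective e)
        simp [hab, this]
    · intro i _ hi
      simp [hN, hi]
    · intro hh; exact absurd (Finset.mem_univ _) hh
  have hN2 : N * Nᴴ = Matrix.diagonal (fun i => if i ∈ s' then (1 : ℂ) else 0) := by
    ext a b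
    rw [Matrix.mul_apply, Finset.sum_eq_single (σ.symm a)]
    · simp only [hN, Matrix.conjTranspose_apply, Matrix.of_apply, Matrix.diagonal_apply]
      have hm : σ.symm a ∈ s ↔ a ∈ s' := by rw [hσm]; simp
      by_cases hab : a = b
      · subst hab
        by_cases ha : a ∈ s' <;> simp [hm, ha]
      · have : ¬ (b = a) := fun e => hab e.symm
        simp [hab, this]
    · intro i _ hi
      have : ¬ (a = σ i) := fun e => hi (by rw [e]; simp)
      simp [hN, this]
    · intro hh; exact absurd (Finset.mem_univ _) hh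
  refine ⟨MM.of (U' * N * Uᴴ), ?_, ?_⟩
  · apply MM.mat_injective
    rw [MM.mat_mul, MM.mat_star, MM.mat_of, h3, ← hN1, Matrix.conjTranspose_mul,
      Matrix.conjTranspose_mul, Matrix.conjTranspose_conjTranspose]
    calc U * (Nᴴ * U'ᴴ) * (U' * N * Uᴴ) = U * Nᴴ * (U'ᴴ * U') * N * Uᴴ := by
          simp only [Matrix.mul_assoc]
      _ = U * (Nᴴ * N) * Uᴴ := by rw [h1']; simp only [Matrix.mul_assoc, Matrix.one_mul]
  · apply MM.mat_injective
    rw [MM.mat_mul, MM.mat_star, MM.mat_of, h3', ← hN2, Matrix.conjTranspose_mul,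
      Matrix.conjTranspose_mul, Matrix.conjTranspose_conjTranspose]
    calc U' * N * Uᴴ * (U * (Nᴴ * U'ᴴ)) = U' * N * (Uᴴ * U) * Nᴴ * U'ᴴ := by
          simp only [Matrix.mul_assoc]
      _ = U' * (N * Nᴴ) * U'ᴴ := by rw [h1]; simp only [Matrix.mul_assoc, Matrix.one_mul]

theorem MM.rank_eq_of_mvn {q q' w : MM κ ℂ} (hq : IsStarProjection q) (hq' : IsStarProjection q')
    (h1 : star w * w = q) (h2 : w * star w = q') : q.mat.rank = q'.mat.rank := by
  have h : q.mat.trace = q'.mat.trace := by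
    rw [← h1, ← h2, MM.mat_mul, MM.mat_mul, MM.mat_star, Matrix.trace_mul_comm]
  rw [MM.proj_trace hq, MM.proj_trace hq'] at h
  exact_mod_cast h

theorem MM.rank_diag (s : Finset κ) :
    (MM.diag (fun i => if i ∈ s then (1 : ℂ) else 0) : MM κ ℂ).mat.rank = s.card := by
  classical
  rw [MM.diag_mat, Matrix.rank_diagonal, Fintype.card_subtype]
  congr 1
  ext i
  simp

end Helper19.BL
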