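import Pool.Agent.Helper19.BL.B1
import Pool.Agent.Helper19.BL.B3

/-! # MODULE B4: classes in `V A` of projections of level `n`

`rk n v q` = rank of the `v`-block.  `D_mvn`: blockwise `MM.mvn_of_rank`.
`cls1_unit`: `e n v μ ν` implements an equivalence between `e n v ν ν` and `e n v μ μ` (`cls1_eq_iff`).
`cls_emb`: by `D_mvn`, `q` is equivalent in `D n` to the diagonal projection `q₀` with `rk n v q` ones in block `v` (choose a finset of
that cardinality in `P n v`, `rank ≤ card`, `MM.rank_diag`), `emb n q₀ = ∑_v ∑_{μ ∈ s_v} e n v μ μ`, orthogonal sum, `cls1_sum` (over a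
sigma finset), `cls1_unit`.
`u_succ`: `e n v μ μ = ∑_w ∑_k e (n+1) w (ext ..) (ext ..)`, `cls1_sum`, `cls1_unit`.  `u_add`: induction, `pow_succ`. -/

set_option linter.unusedSectionVars false

open scoped Matrix

namespace Helper19.BL

variable {V0 : Type} [Fintype V0] [DecidableEq V0] {T : V0 → V0 → ℕ}
  {A : Type*} [CStarAlgebra A] (B : Brat V0 T A)

/-- rank of the `v`-block of a projection -/
noncomputable def Brat.rk (n : ℕ) (v : V0) (q : B.D n) : ℕ := (q v).mat.rank

theorem Brat.B4_pj {n : ℕ} {q : B.D n} (hq : IsStarProjection q) (v : V0) :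
    IsStarProjection (q v) :=
  pj_mk (congrFun hq.isIdempotentElem.eq v) (congrFun hq.isSelfAdjoint.star_eq v)

theorem Brat.tr_proj {n : ℕ} {q : B.D n} (hq : IsStarProjection q) (v : V0) :
    B.tr n v q = (B.rk n v q : ℂ) :=
  MM.proj_trace (B.B4_pj hq v)

theorem Brat.D_mvn {n : ℕ} {q q' : B.D n} (hq : IsStarProjection q) (hq' : IsStarProjection q')
    (h : ∀ v, B.rk n v q = B.rk n v q') : ∃ w : B.D n, star w * w = q ∧ w * star w = q' := by
  choose w hw1 hw2 using fun v => MM.mvn_of_rank (B.B4_pj hq v) (B.B4_pj hq' v) (h v)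
  exact ⟨w, funext hw1, funext hw2⟩

theorem Brat.D_mvn' {n : ℕ} {q q' w : B.D n} (hq : IsStarProjection q) (hq' : IsStarProjection q')
    (h1 : star w * w = q) (h2 : w * star w = q') (v : V0) : B.rk n v q = B.rk n v q' :=
  MM.rank_eq_of_mvn (w := w v) (B.B4_pj hq v) (B.B4_pj hq' v) (congrFun h1 v) (congrFun h2 v)

/-- diagonal projections -/
noncomputable def Brat.B4_dg (n : ℕ) (s : ∀ v, Finset (B.P n v)) : B.D n :=
  fun v => MM.diag (fun i => if i ∈ s v then (1 : ℂ) else 0)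

theorem Brat.B4_dg_pj (n : ℕ) (s : ∀ v, Finset (B.P n v)) :
    IsStarProjection (B.B4_dg n s) := by
  have h : ∀ v, IsStarProjection (B.B4_dg n s v) := fun v => pj_diag (fun i => by
    split_ifs
    · exact pj_one
    · exact pj_zero)
  exact ⟨funext fun v => pjm (h v), funext fun v => pjs (h v)⟩

theorem Brat.B4_dg_rk (n : ℕ) (s : ∀ v, Finset (B.P n v)) (v : V0) :
    B.rk n v (B.B4_dg n s) = (s v).card := MM.rank_diag (s v)

theorem Brat.exists_proj (n : ℕ) (r : V0 → ℕ) (hr : ∀ v, r v ≤ Fintype.card (B.P n v)) :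
    ∃ q : B.D n, IsStarProjection q ∧ ∀ v, B.rk n v q = r v := by
  choose s hs1 hs2 using fun v => Finset.exists_subset_card_eq
    (s := (Finset.univ : Finset (B.P n v))) (n := r v) (by rw [Finset.card_univ]; exact hr v)
  exact ⟨B.B4_dg n s, B.B4_dg_pj n s, fun v => by rw [B.B4_dg_rk, hs2]⟩

theorem Brat.cls1_unit (n : ℕ) (v : V0) (μ : B.P n v) (h : IsStarProjection (B.e n v μ μ)) :
    cls1 (B.e n v μ μ) h = B.u n v := by
  unfold Brat.u
  rw [cls1_eq_iff]
  refine ⟨B.e n v (Classical.arbitrary _) μ, ?_, ?_⟩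
  · rw [B.e_star, B.e_mul, if_pos rfl]
  · rw [B.e_star, B.e_mul, if_pos rfl]

theorem Brat.B4_emb_dg (n : ℕ) (s : ∀ v, Finset (B.P n v)) :
    B.emb n (B.B4_dg n s) = ∑ a ∈ Finset.univ.sigma s, B.e n a.1 a.2 a.2 := by
  rw [Finset.sum_sigma, B.emb_apply]
  refine Finset.sum_congr rfl fun v _ => ?_
  rw [← Finset.sum_subset (Finset.subset_univ (s v))]
  · refine Finset.sum_congr rfl fun μ hμ => ?_
    rw [Finset.sum_eq_single μ]
    · simp [Brat.B4_dg, hμ]
    · intro ν _ hν
      simp [Brat.B4_dg, Matrix.diagonal_apply_ne _ (Ne.symm hν)]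
    · intro h; exact absurd (Finset.mem_univ _) h
  · intro μ _ hμ
    refine Finset.sum_eq_zero fun ν _ => ?_
    by_cases h : μ = ν
    · subst h; simp [Brat.B4_dg, hμ]
    · simp [Brat.B4_dg, Matrix.diagonal_apply_ne _ h]

theorem Brat.cls_emb {n : ℕ} {q : B.D n} (hq : IsStarProjection q)
    (hq' : IsStarProjection (B.emb n q)) :
    cls1 (B.emb n q) hq' = ∑ v, B.rk n v q • B.u n v := by
  classical
  choose s hs1 hs2 using fun v => Finset.exists_subset_card_eq
    (s := (Finset.univ : Finset (B.P n v))) (n := B.rk n v q)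
    (by rw [Finset.card_univ]; exact Matrix.rank_le_card_width _)
  obtain ⟨w, hw1, hw2⟩ := B.D_mvn hq (B.B4_dg_pj n s) (fun v => by rw [B.B4_dg_rk, hs2])
  have hp0 : IsStarProjection (B.emb n (B.B4_dg n s)) := pj_map _ (B.B4_dg_pj n s)
  have e1 : cls1 (B.emb n q) hq' = cls1 (B.emb n (B.B4_dg n s)) hp0 := by
    rw [cls1_eq_iff]
    exact ⟨B.emb n w, by rw [← map_star, ← map_mul, hw1], by rw [← map_star, ← map_mul, hw2]⟩
  have hp1 : IsStarProjection (∑ a ∈ Finset.univ.sigma s, B.e n a.1 a.2 a.2) := by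
    rw [← B.B4_emb_dg]; exact hp0
  rw [e1, cls1_congr hp0 hp1 (B.B4_emb_dg n s),
    cls1_sum (Finset.univ.sigma s) (fun a : (Σ v, B.P n v) => B.e n a.1 a.2 a.2)
      (fun a => B.e_proj n a.1 a.2) ?_ hp1]
  · rw [Finset.sum_sigma]
    refine Finset.sum_congr rfl fun v _ => ?_
    rw [Finset.sum_congr rfl fun μ _ => B.cls1_unit n v μ (B.e_proj n v μ), Finset.sum_const, hs2]
  · rintro ⟨v, μ⟩ _ ⟨v', ν⟩ _ hne
    by_cases h : v = v'
    · subst h
      change B.e n v μ μ * B.e n v ν ν = 0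
      rw [B.e_mul, if_neg]
      rintro rfl
      exact hne rfl
    · exact B.e_mul_ne n v v' _ _ _ _ h

theorem Brat.cls_one : cls1 (1 : A) pj_one = ∑ v, Fintype.card (B.P 0 v) • B.u 0 v := by
  have h1 : IsStarProjection (1 : B.D 0) := pj_one
  have h2 : IsStarProjection (B.emb 0 1) := pj_map _ h1
  rw [cls1_congr pj_one h2 (map_one (B.emb 0)).symm, B.cls_emb h1 h2]
  refine Finset.sum_congr rfl fun v _ => ?_
  congr 1
  change ((1 : MM (B.P 0 v) ℂ)).mat.rank = _
  rw [MM.mat_one, Matrix.rank_one]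

theorem Brat.u_succ (n : ℕ) (v : V0) : B.u n v = ∑ w, T v w • B.u (n + 1) w := by
  classical
  set a : B.P n v := Classical.arbitrary _ with ha
  set p : (Σ w, Fin (T v w)) → A := fun b =>
    B.e (n + 1) b.1 (B.ext n b.1 ⟨v, a, b.2⟩) (B.ext n b.1 ⟨v, a, b.2⟩) with hp
  have e0 : B.e n v a a = ∑ b, p b := by
    rw [Fintype.sum_sigma, B.e_succ]
  have hp1 : IsStarProjection (∑ b, p b) := by rw [← e0]; exact B.e_proj n v a
  change cls1 (B.e n v a a) _ = _
  rw [cls1_congr _ hp1 e0, cls1_sum Finset.univ p (fun b => B.e_proj _ _ _) ?_ hp1]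
  · rw [Fintype.sum_sigma]
    refine Finset.sum_congr rfl fun w _ => ?_
    rw [Finset.sum_congr rfl fun k _ => B.cls1_unit (n + 1) w _ (B.e_proj (n + 1) w _),
      Finset.sum_const, Finset.card_univ, Fintype.card_fin]
  · rintro ⟨w, k⟩ _ ⟨w', k'⟩ _ hne
    by_cases h : w = w'
    · subst h
      change B.e (n + 1) w _ _ * B.e (n + 1) w _ _ = 0
      rw [B.e_mul, if_neg]
      intro h4
      have h5 := (B.ext n w).injective h4
      simp only [Sigma.mk.injEq, heq_eq_eq, Prod.mk.injEq, true_and] at h5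
      exact hne (by rw [h5])
    · exact B.e_mul_ne (n + 1) w w' _ _ _ _ h

theorem Brat.u_add (n k : ℕ) (v : V0) :
    B.u n v = ∑ w, ((Matrix.of T) ^ k) v w • B.u (n + k) w := by
  induction k with
  | zero =>
    rw [pow_zero, Finset.sum_eq_single v]
    · rw [Matrix.one_apply_eq, one_smul]; rfl
    · intro w _ hw
      rw [Matrix.one_apply_ne (Ne.symm hw), zero_smul]
    · intro h; exact absurd (Finset.mem_univ _) h
  | succ k ih =>
    rw [ih, pow_succ]
    simp_rw [B.u_succ (n + k), Matrix.mul_apply, Finset.smul_sum, Finset.sum_smul]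
    rw [Finset.sum_comm]
    refine Finset.sum_congr rfl fun w _ => Finset.sum_congr rfl fun u _ => ?_
    rw [← mul_smul]; rfl

end Helper19.BL
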