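import Pool.Agent.Helper19.BL.GBasic

/-! # MODULE F1: flattening `V (M_κ(A)) → V A`, inner automorphisms act trivially

`flatM p` turns an `ι × ι'` matrix over `MM κ A` into an `(ι×κ) × (ι'×κ)` matrix over `A`.  It is multiplicative
and compatible with `ᴴ` (rectangular), so it maps projections to projections and `MvN` to `MvN`; it induces
`flat κ A : V (MM κ A) →+ V A` (a `Quotient` map, additive because `flatM` of a block sum is a block sum after the
reindexing `(ι ⊕ ι') × κ ≃ ι × κ ⊕ ι' × κ`, `MvN.submatrix`, `cls_add_cls`).  You may change the proof-carrying part of the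
definition of `flat`, but it must satisfy the stated lemmas.

`flat_cls`: value on the class of a projection over any finite index type (`cls_eq_iff`, `MvN.submatrix`).
`Vmap_conj`: if `f a = U a U*` with `U` unitary then `p.map f = (diag U) p (diag U)*`, so `MvN p (p.map f)` by `v = (diag U) p`. -/

set_option linter.unusedSectionVars false

open scoped Matrix

namespace Helper19.BL

variable {κ : Type*} {A B : Type*} [Fintype κ] [DecidableEq κ] [CStarAlgebra A] [CStarAlgebra B]
variable {ι ι' : Type*} [Fintype ι] [Fintype ι']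

/-- flatten a matrix over `MM κ A` -/
def flatM (p : Matrix ι ι' (MM κ A)) : Matrix (ι × κ) (ι' × κ) A :=
  Matrix.of fun a b => (p a.1 b.1).mat a.2 b.2

theorem F1_mul {ι'' : Type*} [Fintype ι''] (p : Matrix ι ι' (MM κ A))
    (q : Matrix ι' ι'' (MM κ A)) : flatM (p * q) = flatM p * flatM q := by
  ext ⟨i, a⟩ ⟨k, b⟩
  simp only [flatM, Matrix.of_apply, Matrix.mul_apply, Fintype.sum_prod_type]
  rw [MM.mat_sum, Matrix.sum_apply]
  refine Finset.sum_congr rfl fun j _ => ?_
  rw [MM.mat_mul, Matrix.mul_apply]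

theorem F1_star (p : Matrix ι ι' (MM κ A)) : flatM pᴴ = (flatM p)ᴴ := by
  ext ⟨i, a⟩ ⟨k, b⟩
  simp [flatM, Matrix.conjTranspose_apply]

theorem flatM_isPj {p : Matrix ι ι (MM κ A)} (hp : IsPj p) : IsPj (flatM p) :=
  ⟨by rw [← F1_mul, hp.1], by rw [← F1_star, hp.2]⟩

theorem flatM_MvN {p : Matrix ι ι (MM κ A)} {q : Matrix ι' ι' (MM κ A)} (h : MvN p q) :
    MvN (flatM p) (flatM q) := by
  obtain ⟨v, h1, h2⟩ := h
  exact ⟨flatM v, by rw [← F1_star, ← F1_mul, h1], by rw [← F1_star, ← F1_mul, h2]⟩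

/-- the function underlying `flat` -/
noncomputable def flatFun (κ A : Type*) [Fintype κ] [DecidableEq κ] [CStarAlgebra A] :
    V (MM κ A) → V A :=
  Quotient.lift (fun a : PjM (MM κ A) => cls (flatM a.p) (flatM_isPj a.hp))
    (fun a b h => (cls_eq_iff _ _).2 (flatM_MvN h))

theorem F1_flatFun_cls {p : Matrix ι ι (MM κ A)} (hp : IsPj p) :
    flatFun κ A (cls p hp) = cls (flatM p) (flatM_isPj hp) := by
  change cls (flatM (PjM.mk' p hp).p) (flatM_isPj (PjM.mk' p hp).hp) = _
  rw [cls_eq_iff]
  exact flatM_MvN (MvN.submatrix hp (Fintype.equivFin ι).symm).symm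

theorem F1_zero : flatFun κ A 0 = 0 := by
  rw [← cls_zero (A := MM κ A) (ι := Fin 0), F1_flatFun_cls, ← cls_zero (A := A) (ι := Fin 0),
    cls_eq_iff]
  exact ⟨0, by ext ⟨i, a⟩; exact i.elim0, by ext i; exact i.elim0⟩

theorem F1_add (x y : V (MM κ A)) : flatFun κ A (x + y) = flatFun κ A x + flatFun κ A y := by
  induction x using V.ind with
  | h n p hp =>
  induction y using V.ind with
  | h m q hq =>
  rw [cls_add_cls, F1_flatFun_cls, F1_flatFun_cls, F1_flatFun_cls, cls_add_cls, cls_eq_iff]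
  have h0 := MvN.submatrix (flatM_isPj (hp.blocks hq)) (Equiv.sumProdDistrib (Fin n) (Fin m) κ).symm
  have e : (flatM (Matrix.fromBlocks p 0 0 q)).submatrix
      (Equiv.sumProdDistrib (Fin n) (Fin m) κ).symm (Equiv.sumProdDistrib (Fin n) (Fin m) κ).symm =
      Matrix.fromBlocks (flatM p) 0 0 (flatM q) := by
    ext i j
    rcases i with ⟨i, a⟩ | ⟨i, a⟩ <;> rcases j with ⟨j, b⟩ | ⟨j, b⟩ <;> rfl
  rwa [e] at h0

/-- flattening as a homomorphism of monoids -/
noncomputable def flat (κ A : Type*) [Fintype κ] [DecidableEq κ] [CStarAlgebra A] :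
    V (MM κ A) →+ V A where
  toFun := flatFun κ A
  map_zero' := F1_zero
  map_add' x y := F1_add x y

theorem flat_cls {p : Matrix ι ι (MM κ A)} (hp : IsPj p) :
    flat κ A (cls p hp) = cls (flatM p) (flatM_isPj hp) := F1_flatFun_cls hp

theorem flat_cls1 {x : MM κ A} (hx : IsStarProjection x) : flat κ A (cls1 x hx) = clsM x hx := by
  unfold cls1 clsM
  rw [flat_cls, cls_eq_iff]
  have h0 := MvN.submatrix (flatM_isPj (isPj_of1 hx)) (Equiv.uniqueProd κ (Fin 1)).symm
  have e : (flatM (Matrix.of fun (_ _ : Fin 1) => x)).submatrix (Equiv.uniqueProd κ (Fin 1)).symm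
      (Equiv.uniqueProd κ (Fin 1)).symm = x.mat := by
    ext i j; rfl
  rwa [e] at h0

theorem flat_Vmap (f : A →⋆ₐ[ℂ] B) (x : V (MM κ A)) :
    flat κ B (Vmap (MM.map f) x) = Vmap f (flat κ A x) := by
  induction x using V.ind with
  | h n p hp =>
  rw [Vmap_cls, flat_cls, flat_cls, Vmap_cls]
  rfl

/-- inner automorphisms act trivially -/
theorem Vmap_conj {U : A} (hU : U ∈ unitary A) (f : A →⋆ₐ[ℂ] A) (h : ∀ a, f a = U * a * star U)
    (x : V A) : Vmap f x = x := by
  induction x using V.ind with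
  | h n p hp =>
  rw [Vmap_cls, cls_eq_iff]
  have hp1 := hp.1
  have hp2 := hp.2
  have hUs : star U * U = 1 := Unitary.star_mul_self_of_mem hU
  have hD : p.map f = Matrix.diagonal (fun _ => U) * p * Matrix.diagonal (fun _ => star U) := by
    ext i j
    rw [Matrix.mul_diagonal, Matrix.diagonal_mul, Matrix.map_apply, h]
  have hDs : (Matrix.diagonal (fun _ : Fin n => U))ᴴ = Matrix.diagonal (fun _ => star U) := by
    rw [Matrix.diagonal_conjTranspose]; rfl
  have hDD : Matrix.diagonal (fun _ : Fin n => star U) * Matrix.diagonal (fun _ => U) = 1 := by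
    rw [Matrix.diagonal_mul_diagonal, hUs, Matrix.diagonal_one]
  refine MvN.symm ⟨Matrix.diagonal (fun _ => U) * p, ?_, ?_⟩
  · rw [Matrix.conjTranspose_mul, hp2, hDs]
    calc p * Matrix.diagonal (fun _ => star U) * (Matrix.diagonal (fun _ => U) * p) =
        p * (Matrix.diagonal (fun _ => star U) * Matrix.diagonal (fun _ => U)) * p := by
          simp only [Matrix.mul_assoc]
      _ = p := by rw [hDD, Matrix.mul_one, hp1]
  · rw [Matrix.conjTranspose_mul, hp2, hDs, hD]
    calc Matrix.diagonal (fun _ => U) * p * (p * Matrix.diagonal (fun _ => star U)) =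
        Matrix.diagonal (fun _ => U) * (p * p) * Matrix.diagonal (fun _ => star U) := by
          simp only [Matrix.mul_assoc]
      _ = _ := by rw [hp1]

end Helper19.BL
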