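import Pool.Agent.Helper19.BL.B1
import Pool.Agent.Helper19.BL.F1
import Pool.Agent.Helper19.BL.B4

/-! # MODULE B5: matrix algebras over a Bratteli system

`MM κ A` has the Bratteli system with index sets `κ × P n v` and units `e' n v (i,μ) (j,ν) = single i j (e n v μ ν)`
(`MM.single_mul_single`, `MM.star_single`, `MM.diag_eq_sum` for the unit), `ext' n w ⟨v,(i,μ),k⟩ = (i, ext n w ⟨v,μ,k⟩)`.
Dense: approximate every entry at a common level, `MM.norm_le_sum`, `MM.norm_single`.
`emb'` versus `MM.map (emb n)`: rearrangement of finite sums.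
`flat κ A (u' n v) = clsM (single i i (e n v μ μ)) = u n v` (`flat_cls1`, `clsM_single`, `cls1_unit`). -/

set_option linter.unusedSectionVars false

open scoped Matrix

namespace Helper19.BL

variable {V0 : Type} [Fintype V0] [DecidableEq V0] {T : V0 → V0 → ℕ}
  {A : Type*} [CStarAlgebra A] (B : Brat V0 T A)

/-- `single i j` as a linear map -/
noncomputable def B5_sL {κ : Type*} [Fintype κ] [DecidableEq κ] (i j : κ) : A →ₗ[ℂ] MM κ A where
  toFun a := MM.single i j a
  map_add' a b := by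
    apply MM.ext'
    intro k l
    simp only [MM.single, MM.mat_of, MM.mat_add, Matrix.add_apply, Matrix.single_apply]
    split_ifs <;> simp
  map_smul' c a := by
    apply MM.ext'
    intro k l
    simp only [MM.single, MM.mat_of, MM.mat_smul, Matrix.smul_apply, Matrix.single_apply,
      RingHom.id_apply]
    split_ifs <;> simp

lemma B5_sL_apply {κ : Type*} [Fintype κ] [DecidableEq κ] (i j : κ) (a : A) :
    B5_sL i j a = (MM.single i j a : MM κ A) := rfl

/-- equivalence of the index sets -/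
def B5_ext (κ : Type) {ι : V0 → Type} {F : V0 → Type} {Q : Type}
    (f : (Σ v, ι v × F v) ≃ Q) : (Σ v, (κ × ι v) × F v) ≃ κ × Q where
  toFun x := (x.2.1.1, f ⟨x.1, x.2.1.2, x.2.2⟩)
  invFun y := ⟨(f.symm y.2).1, (y.1, (f.symm y.2).2.1), (f.symm y.2).2.2⟩
  left_inv x := by
    rcases x with ⟨v, ⟨i, a⟩, k⟩
    change (⟨(f.symm (f ⟨v, a, k⟩)).1, (i, (f.symm (f ⟨v, a, k⟩)).2.1),
      (f.symm (f ⟨v, a, k⟩)).2.2⟩ : (Σ v, (κ × ι v) × F v)) = _
    rw [f.symm_apply_apply]
  right_inv y := by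
    apply Prod.ext
    · rfl
    · change f ⟨(f.symm y.2).1, ((f.symm y.2).2.1, (f.symm y.2).2.2)⟩ = y.2
      simp

/-- the matrix units over `MM κ A` -/
noncomputable def B5_e (κ : Type) [Fintype κ] [DecidableEq κ] (n : ℕ) (v : V0)
    (a b : κ × B.P n v) : MM κ A := MM.single a.1 b.1 (B.e n v a.2 b.2)

lemma B5_e_mul (κ : Type) [Fintype κ] [DecidableEq κ] (n : ℕ) (v : V0)
    (a b b' c : κ × B.P n v) :
    B5_e B κ n v a b * B5_e B κ n v b' c = if b = b' then B5_e B κ n v a c else 0 := by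
  unfold B5_e
  by_cases h1 : b.1 = b'.1
  · by_cases h2 : b.2 = b'.2
    · rw [if_pos (Prod.ext h1 h2), h1, MM.single_mul_single, B.e_mul, if_pos h2]
    · rw [if_neg (fun h => h2 (congrArg Prod.snd h)), h1, MM.single_mul_single, B.e_mul,
        if_neg h2]
      exact (B5_sL a.1 c.1).map_zero
  · rw [if_neg (fun h => h1 (congrArg Prod.fst h)), MM.single_mul_single_ne _ _ _ _ _ _ h1]

lemma B5_one (κ : Type) [Fintype κ] [DecidableEq κ] (n : ℕ) :
    ∑ v, ∑ a, B5_e B κ n v a a = 1 := by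
  have h1 : ∀ v, ∑ a, B5_e B κ n v a a = ∑ i, B5_sL i i (∑ μ, B.e n v μ μ) := by
    intro v
    rw [Fintype.sum_prod_type]
    refine Finset.sum_congr rfl fun i _ => ?_
    rw [map_sum]
    rfl
  rw [Finset.sum_congr rfl fun v _ => h1 v, Finset.sum_comm]
  have h2 : ∀ i : κ, ∑ v, B5_sL i i (∑ μ, B.e n v μ μ) = MM.single i i (1 : A) := by
    intro i
    rw [← map_sum, B.e_one]
    rfl
  rw [Finset.sum_congr rfl fun i _ => h2 i]
  have h3 := MM.diag_eq_sum (κ := κ) (fun _ => (1 : A))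
  rw [← h3]
  apply MM.mat_injective
  rw [MM.diag_mat, MM.mat_one, Matrix.diagonal_one]

lemma B5_succ (κ : Type) [Fintype κ] [DecidableEq κ] (n : ℕ) (v : V0) (a b : κ × B.P n v) :
    B5_e B κ n v a b = ∑ w, ∑ k : Fin (T v w),
      B5_e B κ (n + 1) w (B5_ext κ (B.ext n w) ⟨v, a, k⟩) (B5_ext κ (B.ext n w) ⟨v, b, k⟩) := by
  unfold B5_e
  rw [← B5_sL_apply, B.e_succ, map_sum]
  refine Finset.sum_congr rfl fun w _ => ?_
  rw [map_sum]
  rfl

lemma B5_dense (κ : Type) [Fintype κ] [DecidableEq κ] [Nonempty κ] :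
    Dense {x : MM κ A | ∃ n, x ∈ Submodule.span ℂ {y | ∃ v μ ν, y = B5_e B κ n v μ ν}} := by
  rw [Metric.dense_iff]
  intro x r hr
  set c : ℝ := (Fintype.card κ : ℝ) with hc
  have hc0 : 0 < c := by
    rw [hc]
    exact_mod_cast Fintype.card_pos
  set ε : ℝ := r / (2 * (c * c)) with hε
  have hε0 : 0 < ε := by positivity
  have h1 : ∀ i j : κ, ∃ n, ∃ y : B.D n, ‖B.emb n y - x.mat i j‖ ≤ ε := by
    intro i j
    obtain ⟨n, _, y, hy⟩ := B.exists_near (x.mat i j) hε0 0
    exact ⟨n, y, hy⟩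
  choose n y hy using h1
  set N : ℕ := Finset.univ.sup fun i => Finset.univ.sup fun j => n i j with hN
  have hle : ∀ i j, n i j ≤ N := by
    intro i j
    refine le_trans ?_ (Finset.le_sup (f := fun i => Finset.univ.sup fun j => n i j)
      (Finset.mem_univ i))
    exact Finset.le_sup (f := fun j => n i j) (Finset.mem_univ j)
  set z : MM κ A := ∑ i, ∑ j, B5_sL i j (B.emb N (B.up (hle i j) (y i j))) with hz
  refine ⟨z, ?_, N, ?_⟩
  · rw [Metric.mem_ball, dist_eq_norm]
    have h2 : z - x = ∑ i, ∑ j, (MM.single i j (B.emb (n i j) (y i j) - x.mat i j) : MM κ A) := by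
      nth_rewrite 1 [MM.sum_single x]
      rw [hz, ← Finset.sum_sub_distrib]
      refine Finset.sum_congr rfl fun i _ => ?_
      rw [← Finset.sum_sub_distrib]
      refine Finset.sum_congr rfl fun j _ => ?_
      rw [← B5_sL_apply, ← B5_sL_apply, ← map_sub, B.emb_up]
    rw [h2]
    have h3 : ‖∑ i, ∑ j, (MM.single i j (B.emb (n i j) (y i j) - x.mat i j) : MM κ A)‖ ≤
        ∑ i : κ, ∑ j : κ, ε := by
      refine (norm_sum_le _ _).trans (Finset.sum_le_sum fun i _ => ?_)
      refine (norm_sum_le _ _).trans (Finset.sum_le_sum fun j _ => ?_)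
      rw [MM.norm_single]
      exact hy i j
    refine lt_of_le_of_lt h3 ?_
    rw [Finset.sum_const, Finset.sum_const, Finset.card_univ, nsmul_eq_mul, nsmul_eq_mul, ← hc]
    have h4 : c * (c * ε) = r / 2 := by
      rw [hε]
      field_simp
    rw [h4]
    linarith
  · rw [hz]
    refine Submodule.sum_mem _ fun i _ => Submodule.sum_mem _ fun j _ => ?_
    rw [B.emb_apply, map_sum]
    refine Submodule.sum_mem _ fun v _ => ?_
    rw [map_sum]
    refine Submodule.sum_mem _ fun μ _ => ?_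
    rw [map_sum]
    refine Submodule.sum_mem _ fun ν _ => ?_
    rw [map_smul]
    refine Submodule.smul_mem _ _ (Submodule.subset_span ?_)
    exact ⟨v, (i, μ), (j, ν), rfl⟩

/-- the Bratteli system of the matrix algebra, explicitly -/
noncomputable def B5_amp (κ : Type) [Fintype κ] [DecidableEq κ] [Nonempty κ] :
    Brat V0 T (MM κ A) where
  P n v := κ × B.P n v
  fin n v := inferInstance
  dec n v := inferInstance
  ne n v := inferInstance
  e n v a b := B5_e B κ n v a b
  e_ne n v a := by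
    intro h
    have h1 : ‖B5_e B κ n v a a‖ = ‖B.e n v a.2 a.2‖ := MM.norm_single _ _ _
    rw [h, norm_zero] at h1
    exact B.e_ne n v a.2 (norm_eq_zero.mp h1.symm)
  e_mul n v a b b' c := B5_e_mul B κ n v a b b' c
  e_mul_ne n v w a b a' b' h := by
    unfold B5_e
    by_cases h1 : b.1 = a'.1
    · rw [h1, MM.single_mul_single, B.e_mul_ne n v w _ _ _ _ h]
      exact (B5_sL a.1 b'.1).map_zero
    · exact MM.single_mul_single_ne _ _ _ _ _ _ h1
  e_star n v a b := by
    unfold B5_e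
    rw [MM.star_single, B.e_star]
  e_one n := B5_one B κ n
  ext n w := B5_ext κ (B.ext n w)
  e_succ n v a b := B5_succ B κ n v a b
  dense := B5_dense B κ

lemma B5_emb_mat (κ : Type) [Fintype κ] [DecidableEq κ] [Nonempty κ] (n : ℕ)
    (x : (B5_amp B κ).D n) (i j : κ) : ((B5_amp B κ).emb n x).mat i j =
      ∑ v, ∑ μ, ∑ ν, (x v).mat (i, μ) (j, ν) • B.e n v μ ν := by
  rw [Brat.emb_apply, MM.mat_sum, Matrix.sum_apply]
  refine Finset.sum_congr rfl fun v _ => ?_
  have h1 : ∀ f : κ × B.P n v → MM κ A, ∑ a : (B5_amp B κ).P n v, f a =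
      ∑ i, ∑ μ, f (i, μ) := fun f => Fintype.sum_prod_type f
  rw [h1, MM.mat_sum, Matrix.sum_apply, Finset.sum_eq_single i]
  · rw [MM.mat_sum, Matrix.sum_apply]
    refine Finset.sum_congr rfl fun μ _ => ?_
    rw [h1, MM.mat_sum, Matrix.sum_apply, Finset.sum_eq_single j]
    · rw [MM.mat_sum, Matrix.sum_apply]
      refine Finset.sum_congr rfl fun ν _ => ?_
      change ((x v).mat (i, μ) (j, ν) • (MM.single i j (B.e n v μ ν) : MM κ A)).mat i j = _
      rw [MM.mat_smul, Matrix.smul_apply, MM.single, MM.mat_of, Matrix.single_apply,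
        if_pos ⟨rfl, rfl⟩]
    · intro j' _ hj
      rw [MM.mat_sum, Matrix.sum_apply]
      refine Finset.sum_eq_zero fun ν _ => ?_
      change ((x v).mat (i, μ) (j', ν) • (MM.single i j' (B.e n v μ ν) : MM κ A)).mat i j = _
      rw [MM.mat_smul, Matrix.smul_apply, MM.single, MM.mat_of, Matrix.single_apply,
        if_neg (fun h => hj h.2), smul_zero]
    · intro h
      exact absurd (Finset.mem_univ _) h
  · intro i' _ hi
    rw [MM.mat_sum, Matrix.sum_apply]
    refine Finset.sum_eq_zero fun μ _ => ?_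
    rw [h1, MM.mat_sum, Matrix.sum_apply]
    refine Finset.sum_eq_zero fun j' _ => ?_
    rw [MM.mat_sum, Matrix.sum_apply]
    refine Finset.sum_eq_zero fun ν _ => ?_
    change ((x v).mat (i', μ) (j', ν) • (MM.single i' j' (B.e n v μ ν) : MM κ A)).mat i j = _
    rw [MM.mat_smul, Matrix.smul_apply, MM.single, MM.mat_of, Matrix.single_apply,
      if_neg (fun h => hi h.1), smul_zero]
  · intro h
    exact absurd (Finset.mem_univ _) h

theorem Brat.exists_amp (κ : Type) [Fintype κ] [DecidableEq κ] [Nonempty κ] :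
    ∃ B' : Brat V0 T (MM κ A), (∀ n v, flat κ A (B'.u n v) = B.u n v) ∧
      (∀ n v, Fintype.card (B'.P n v) = Fintype.card κ * Fintype.card (B.P n v)) ∧
      (∀ n, (∀ x : B'.D n, ∃ y : MM κ (B.D n), B'.emb n x = MM.map (B.emb n) y) ∧
        (∀ y : MM κ (B.D n), ∃ x : B'.D n, B'.emb n x = MM.map (B.emb n) y)) := by
  refine ⟨B5_amp B κ, ?_, ?_, ?_⟩
  · intro n v
    unfold Brat.u
    rw [flat_cls1]
    set a : κ × B.P n v := Classical.arbitrary _ with ha
    have hp : IsStarProjection (B.e n v a.2 a.2) := B.e_proj n v a.2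
    have h1 := clsM_single (κ := κ) a.1 hp
    exact h1.trans (B.cls1_unit n v a.2 hp)
  · intro n v
    exact Fintype.card_prod κ (B.P n v)
  · intro n
    constructor
    · intro x
      refine ⟨MM.of (Matrix.of fun i j => fun v => MM.of (Matrix.of fun μ ν =>
        (x v).mat (i, μ) (j, ν))), ?_⟩
      apply MM.ext'
      intro i j
      rw [B5_emb_mat, MM.map_apply, B.emb_apply]
      rfl
    · intro y
      refine ⟨fun v => MM.of (Matrix.of fun a b => ((y.mat a.1 b.1) v).mat a.2 b.2), ?_⟩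
      apply MM.ext'
      intro i j
      rw [B5_emb_mat, MM.map_apply, B.emb_apply]
      rfl

/-- the Bratteli system of `MM κ A` -/
noncomputable def Brat.amp (κ : Type) [Fintype κ] [DecidableEq κ] [Nonempty κ] :
    Brat V0 T (MM κ A) := (B.exists_amp κ).choose

theorem Brat.flat_amp_u (κ : Type) [Fintype κ] [DecidableEq κ] [Nonempty κ] (n : ℕ) (v : V0) :
    flat κ A ((B.amp κ).u n v) = B.u n v := (B.exists_amp κ).choose_spec.1 n v

theorem Brat.card_amp (κ : Type) [Fintype κ] [DecidableEq κ] [Nonempty κ] (n : ℕ) (v : V0) :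
    Fintype.card ((B.amp κ).P n v) = Fintype.card κ * Fintype.card (B.P n v) :=
  (B.exists_amp κ).choose_spec.2.1 n v

theorem Brat.amp_emb (κ : Type) [Fintype κ] [DecidableEq κ] [Nonempty κ] (n : ℕ)
    (x : (B.amp κ).D n) : ∃ y : MM κ (B.D n), (B.amp κ).emb n x = MM.map (B.emb n) y :=
  ((B.exists_amp κ).choose_spec.2.2 n).1 x

theorem Brat.emb_amp (κ : Type) [Fintype κ] [DecidableEq κ] [Nonempty κ] (n : ℕ)
    (y : MM κ (B.D n)) : ∃ x : (B.amp κ).D n, (B.amp κ).emb n x = MM.map (B.emb n) y :=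
  ((B.exists_amp κ).choose_spec.2.2 n).2 y

end Helper19.BL
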