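import Pool.Agent.Helper19.BL.B2
import Pool.Agent.Helper19.BL.B5

/-! # MODULE B6: `V A` and `K0 A` of a Bratteli system

`V_gen`: `x = cls p`, `p` an `n × n` projection (`V.exists_rep`; if `n = 0` then `x = 0`, else) seen in `MM (Fin n) A`;
`x = clsM p`; `proj_approx` in `B.amp (Fin n)`: `p` near `emb m q`, equivalent to it (`proj_close`, `clsM_eq_iff`), and
`clsM (emb m q) = flat (cls1 (emb m q)) = flat (∑ rk • u') = ∑ rk • u` (`flat_cls1`, `cls_emb`, `flat_amp_u`).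
`V_inj`: choose `κ = Fin (r+1)` with `z v, z' v ≤ card (P' n v)` (`card_amp`); projections `q, q'` of level `n` of `B.amp κ` with ranks
`z, z'` (`exists_proj`); `clsM (emb q) = ∑ z • u = ∑ z' • u = clsM (emb q')` (as above), so they are equivalent by some `w ∈ MM κ A` (`clsM_eq_iff`);
`pi_approx` gives `m ≥ n` and `x ∈ D m` with `x* x = up q`, `x x* = up q'`, so `tr m w (up q) = tr m w (up q')`, and `tr_up`, `tr_proj` give
the vector equality with `k = m - n` (cast `ℂ → ℕ`).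
`V_cancel`: from `V_gen` (common level by `u_add`) and `V_inj`: `(c + z) T^k = (c + z') T^k` implies `z T^k = z' T^k`, then `u_add` back.
`Vto_inj`: `Vto_eq_iff` + `V_cancel`.  `K0_gen`, `K0_inj`: `K0.exists_sub`; for `K0_inj` split `z - z'` in positive and negative parts. -/

set_option linter.unusedSectionVars false

open scoped Matrix

namespace Helper19.BL

variable {V0 : Type} [Fintype V0] [DecidableEq V0] {T : V0 → V0 → ℕ}
  {A : Type*} [CStarAlgebra A] (B : Brat V0 T A)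

/-- the class of a projection of level `n` of the amplification -/
theorem Brat.B6_clsM_emb (κ : Type) [Fintype κ] [DecidableEq κ] [Nonempty κ] {n : ℕ}
    {q : (B.amp κ).D n} (hq : IsStarProjection q)
    (hq' : IsStarProjection ((B.amp κ).emb n q)) :
    clsM ((B.amp κ).emb n q) hq' = ∑ v, (B.amp κ).rk n v q • B.u n v := by
  rw [← flat_cls1, (B.amp κ).cls_emb hq, map_sum]
  refine Finset.sum_congr rfl fun v _ => ?_
  rw [map_nsmul, B.flat_amp_u]

/-- moving an element to a later level -/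
theorem Brat.B6_lift (n k : ℕ) (z : V0 → ℕ) :
    ∑ v, z v • B.u n v = ∑ w, Matrix.vecMul z ((Matrix.of T) ^ k) w • B.u (n + k) w := by
  have h1 : ∀ v, z v • B.u n v =
      ∑ w, (z v * ((Matrix.of T) ^ k) v w) • B.u (n + k) w := by
    intro v
    rw [B.u_add n k v, Finset.smul_sum]
    refine Finset.sum_congr rfl fun w _ => ?_
    rw [mul_smul]
  rw [Finset.sum_congr rfl fun v _ => h1 v, Finset.sum_comm]
  refine Finset.sum_congr rfl fun w _ => ?_
  rw [← Finset.sum_smul]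
  rfl

theorem Brat.B6_lift' {n m : ℕ} (h : n ≤ m) (z : V0 → ℕ) :
    ∃ z' : V0 → ℕ, ∑ v, z v • B.u n v = ∑ w, z' w • B.u m w := by
  obtain ⟨k, rfl⟩ := Nat.exists_eq_add_of_le h
  exact ⟨_, B.B6_lift n k z⟩

theorem Brat.V_gen (x : V A) : ∃ (n : ℕ) (z : V0 → ℕ), x = ∑ v, z v • B.u n v := by
  obtain ⟨n, p, hp, rfl⟩ := V.exists_rep x
  rcases n with _ | r
  · refine ⟨0, 0, ?_⟩
    have h0 : p = 0 := by ext i; exact i.elim0
    subst h0
    rw [cls_zero]
    simp
  · set P : MM (Fin (r + 1)) A := MM.of p with hPdef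
    have hP : IsStarProjection P := pj_mk (MM.mat_injective hp.1) (MM.mat_injective hp.2)
    obtain ⟨m, _, q, hq, hqP⟩ := (B.amp (Fin (r + 1))).proj_approx hP (ε := 1 / 10)
      (by norm_num) 0
    obtain ⟨v, h1, h2, _⟩ := proj_close (pj_map _ hq) hP hqP
    refine ⟨m, fun v => (B.amp (Fin (r + 1))).rk m v q, ?_⟩
    rw [← B.B6_clsM_emb (Fin (r + 1)) hq (pj_map _ hq)]
    exact ((clsM_eq_iff (pj_map _ hq) hP).2 ⟨v, h1, h2⟩).symm

theorem Brat.V_inj (n : ℕ) (z z' : V0 → ℕ) (h : ∑ v, z v • B.u n v = ∑ v, z' v • B.u n v) :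
    ∃ k : ℕ, Matrix.vecMul z ((Matrix.of T) ^ k) = Matrix.vecMul z' ((Matrix.of T) ^ k) := by
  set r : ℕ := ∑ v, (z v + z' v) with hr
  have hle : ∀ v, z v ≤ r ∧ z' v ≤ r := by
    intro v
    have h1 : z v + z' v ≤ r :=
      Finset.single_le_sum (f := fun v => z v + z' v) (fun _ _ => Nat.zero_le _)
        (Finset.mem_univ v)
    exact ⟨by omega, by omega⟩
  have hcard : ∀ v, r ≤ Fintype.card ((B.amp (Fin (r + 1))).P n v) := by
    intro v
    rw [B.card_amp, Fintype.card_fin]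
    have h1 : 0 < Fintype.card (B.P n v) := Fintype.card_pos
    nlinarith
  obtain ⟨q, hq, hqr⟩ := (B.amp (Fin (r + 1))).exists_proj n z
    (fun v => (hle v).1.trans (hcard v))
  obtain ⟨q', hq', hqr'⟩ := (B.amp (Fin (r + 1))).exists_proj n z'
    (fun v => (hle v).2.trans (hcard v))
  have hc : clsM ((B.amp (Fin (r + 1))).emb n q) (pj_map _ hq) =
      clsM ((B.amp (Fin (r + 1))).emb n q') (pj_map _ hq') := by
    rw [B.B6_clsM_emb _ hq, B.B6_clsM_emb _ hq']
    simp only [hqr, hqr']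
    exact h
  obtain ⟨w, h1, h2⟩ := (clsM_eq_iff _ _).1 hc
  obtain ⟨m, _, hnm, x, h3, h4, _⟩ := (B.amp (Fin (r + 1))).pi_approx hq hq' h1 h2
    (ε := 1) one_pos 0
  refine ⟨m - n, ?_⟩
  funext w
  have h5 : (B.amp (Fin (r + 1))).tr m w ((B.amp (Fin (r + 1))).up hnm q) =
      (B.amp (Fin (r + 1))).tr m w ((B.amp (Fin (r + 1))).up hnm q') := by
    rw [(B.amp (Fin (r + 1))).tr_proj (pj_map _ hq), (B.amp (Fin (r + 1))).tr_proj (pj_map _ hq'),
      (B.amp (Fin (r + 1))).D_mvn' (pj_map _ hq) (pj_map _ hq') h3 h4 w]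
  rw [(B.amp (Fin (r + 1))).tr_up, (B.amp (Fin (r + 1))).tr_up] at h5
  have h6 : ∀ v, (B.amp (Fin (r + 1))).tr n v q = (z v : ℂ) := fun v => by
    rw [(B.amp (Fin (r + 1))).tr_proj hq, hqr]
  have h7 : ∀ v, (B.amp (Fin (r + 1))).tr n v q' = (z' v : ℂ) := fun v => by
    rw [(B.amp (Fin (r + 1))).tr_proj hq', hqr']
  simp only [h6, h7] at h5
  have h8 : ∑ v, ((Matrix.of T) ^ (m - n)) v w * z v =
      ∑ v, ((Matrix.of T) ^ (m - n)) v w * z' v := by exact_mod_cast h5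
  change ∑ v, z v * ((Matrix.of T) ^ (m - n)) v w = ∑ v, z' v * ((Matrix.of T) ^ (m - n)) v w
  rw [Finset.sum_congr rfl fun v _ => mul_comm (z v) _, h8]
  exact Finset.sum_congr rfl fun v _ => mul_comm _ _

include B in
theorem Brat.V_cancel {x y c : V A} (h : c + x = c + y) : x = y := by
  obtain ⟨n1, zx, rfl⟩ := B.V_gen x
  obtain ⟨n2, zy, rfl⟩ := B.V_gen y
  obtain ⟨n3, zc, rfl⟩ := B.V_gen c
  set N := max n1 (max n2 n3) with hN
  obtain ⟨zx', hx⟩ := B.B6_lift' (le_max_left n1 (max n2 n3)) zx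
  obtain ⟨zy', hy⟩ := B.B6_lift' (n := n2) (m := N) ((le_max_left _ _).trans (le_max_right _ _)) zy
  obtain ⟨zc', hc⟩ := B.B6_lift' (n := n3) (m := N) ((le_max_right _ _).trans (le_max_right _ _)) zc
  rw [hx, hy]
  rw [hx, hy, hc, ← Finset.sum_add_distrib, ← Finset.sum_add_distrib] at h
  have h' : ∑ v, (zc' + zx') v • B.u N v = ∑ v, (zc' + zy') v • B.u N v := by
    simp only [Pi.add_apply, add_smul]; exact h
  obtain ⟨k, hk⟩ := B.V_inj N _ _ h'
  rw [Matrix.add_vecMul, Matrix.add_vecMul] at hk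
  have hk' := add_left_cancel hk
  rw [B.B6_lift _ k zx', B.B6_lift _ k zy', hk']

include B in
theorem Brat.Vto_inj : Function.Injective (Vto A) := by
  intro x y h
  obtain ⟨c, hc⟩ := Vto_eq_iff.1 h
  exact B.V_cancel hc

theorem Brat.K0_gen (g : K0 A) (N : ℕ) :
    ∃ (n : ℕ) (z : V0 → ℤ), N ≤ n ∧ g = ∑ v, z v • Vto A (B.u n v) := by
  obtain ⟨x, y, rfl⟩ := K0.exists_sub g
  obtain ⟨n1, zx, rfl⟩ := B.V_gen x
  obtain ⟨n2, zy, rfl⟩ := B.V_gen y
  obtain ⟨zx', hx⟩ := B.B6_lift' (n := n1) (m := max N (max n1 n2))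
    ((le_max_left _ _).trans (le_max_right _ _)) zx
  obtain ⟨zy', hy⟩ := B.B6_lift' (n := n2) (m := max N (max n1 n2))
    ((le_max_right _ _).trans (le_max_right _ _)) zy
  refine ⟨max N (max n1 n2), fun v => (zx' v : ℤ) - (zy' v : ℤ), le_max_left _ _, ?_⟩
  rw [hx, hy, map_sum, map_sum, ← Finset.sum_sub_distrib]
  refine Finset.sum_congr rfl fun v _ => ?_
  rw [sub_smul, natCast_zsmul, natCast_zsmul, map_nsmul, map_nsmul]

theorem Brat.K0_inj (n : ℕ) (z z' : V0 → ℤ)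
    (h : ∑ v, z v • Vto A (B.u n v) = ∑ v, z' v • Vto A (B.u n v)) :
    ∃ k : ℕ, Matrix.vecMul z (((Matrix.of T) ^ k).map (Nat.cast : ℕ → ℤ)) =
      Matrix.vecMul z' (((Matrix.of T) ^ k).map (Nat.cast : ℕ → ℤ)) := by
  set a : V0 → ℕ := fun v => (z v - z' v).toNat with ha
  set b : V0 → ℕ := fun v => (z' v - z v).toNat with hb
  have hab : ∀ v, z v + (b v : ℤ) = z' v + (a v : ℤ) := by
    intro v
    simp only [ha, hb]
    omega
  have h1 : Vto A (∑ v, a v • B.u n v) = Vto A (∑ v, b v • B.u n v) := by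
    have e1 : ∑ v, (z v + (b v : ℤ)) • Vto A (B.u n v) =
        ∑ v, (z' v + (a v : ℤ)) • Vto A (B.u n v) :=
      Finset.sum_congr rfl fun v _ => by rw [hab v]
    simp only [add_smul, natCast_zsmul, Finset.sum_add_distrib] at e1
    rw [h] at e1
    have e2 := add_left_cancel e1
    rw [map_sum, map_sum]
    simp only [map_nsmul]
    exact e2.symm
  have h2 := B.Vto_inj h1
  obtain ⟨k, hk⟩ := B.V_inj n a b h2
  refine ⟨k, ?_⟩
  funext w
  have h3 := congrFun hk w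
  have h4 : ∑ v, (a v : ℤ) * (((Matrix.of T) ^ k) v w : ℤ) =
      ∑ v, (b v : ℤ) * (((Matrix.of T) ^ k) v w : ℤ) := by
    have h5 : ∑ v, a v * ((Matrix.of T) ^ k) v w = ∑ v, b v * ((Matrix.of T) ^ k) v w := h3
    exact_mod_cast h5
  change ∑ v, z v * (((Matrix.of T) ^ k) v w : ℤ) = ∑ v, z' v * (((Matrix.of T) ^ k) v w : ℤ)
  have h6 : ∑ v, (z v + (b v : ℤ)) * (((Matrix.of T) ^ k) v w : ℤ) =
      ∑ v, (z' v + (a v : ℤ)) * (((Matrix.of T) ^ k) v w : ℤ) :=
    Finset.sum_congr rfl fun v _ => by rw [hab v]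
  simp only [add_mul, Finset.sum_add_distrib] at h6
  rw [h4] at h6
  exact add_right_cancel h6

end Helper19.BL
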