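import Pool.Agent.Helper19.BL.B4

/-! # MODULE B7: multiplicities of homomorphisms between levels

`exists_mult`: for `ψ : D n → D m` and fixed `w`, `x ↦ tr m w (ψ x)` is a trace on `D n` (linear, `f (x y) = f (y x)`), so it kills the off-diagonal
matrix units and is constant on the diagonal ones of each block; its value on `E_{v μ μ}` (a projection of `D n`) is
`tr m w (ψ E) = rk m w (ψ E)`, a natural number (`tr_proj`).  Here `E_{v μ ν} : D n` is `Pi.single v (MM.single μ ν 1)`.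
`tr_eq_of_near_proj`: `proj_close` in `D m` gives `v* v = p`, `v v* = q`.
`tr_eq_of_near`: by `exists_mult` for both and nearness on the projections `E_{v μ μ}` (norm `≤ 1`).
`Vmap_u_of_near`: `u n v = cls1 (emb n E_{vμμ})`; `Φ (emb n E)` is near `emb m (ψ E)`, equivalent (`proj_close`), class `∑ rk m w (ψ E) • u m w`
(`cls_emb`), and `rk m w (ψ E) = c v w` by `hc` and `tr_proj`. -/

set_option linter.unusedSectionVars false

open scoped Matrix

namespace Helper19.BL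

variable {V0 : Type} [Fintype V0] [DecidableEq V0] {T : V0 → V0 → ℕ}
  {A : Type*} [CStarAlgebra A] (B : Brat V0 T A)

/-- matrix units of level `n` -/
noncomputable def Brat.B7E (n : ℕ) (v : V0) (μ ν : B.P n v) : B.D n :=
  Pi.single v (MM.single μ ν (1 : ℂ))

theorem Brat.B7E_mul (n : ℕ) (v : V0) (μ ν l : B.P n v) :
    B.B7E n v μ ν * B.B7E n v ν l = B.B7E n v μ l := by
  unfold Brat.B7E
  rw [← Pi.single_mul, MM.single_mul_single, mul_one]

theorem Brat.B7E_mul_ne (n : ℕ) (v : V0) (μ ν ν' l : B.P n v) (h : ν ≠ ν') :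
    B.B7E n v μ ν * B.B7E n v ν' l = 0 := by
  unfold Brat.B7E
  rw [← Pi.single_mul, MM.single_mul_single_ne _ _ _ _ _ _ h, Pi.single_zero]

theorem Brat.B7E_star (n : ℕ) (v : V0) (μ ν : B.P n v) :
    star (B.B7E n v μ ν) = B.B7E n v ν μ := by
  unfold Brat.B7E
  funext w
  rw [Pi.star_apply]
  by_cases h : w = v
  · subst h
    rw [Pi.single_eq_same, Pi.single_eq_same, MM.star_single, star_one]
  · rw [Pi.single_eq_of_ne h, Pi.single_eq_of_ne h, star_zero]

theorem Brat.B7E_proj (n : ℕ) (v : V0) (μ : B.P n v) : IsStarProjection (B.B7E n v μ μ) :=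
  pj_mk (B.B7E_mul n v μ μ μ) (B.B7E_star n v μ μ)

theorem Brat.B7E_sum {n : ℕ} (x : B.D n) :
    x = ∑ v, ∑ μ, ∑ ν, (x v).mat μ ν • B.B7E n v μ ν := by
  funext w
  rw [Finset.sum_apply, Finset.sum_eq_single w]
  · rw [Finset.sum_apply]
    conv_lhs => rw [MM.sum_single (x w)]
    refine Finset.sum_congr rfl fun μ _ => ?_
    rw [Finset.sum_apply]
    refine Finset.sum_congr rfl fun ν _ => ?_
    rw [Pi.smul_apply]
    unfold Brat.B7E
    rw [Pi.single_eq_same]
    apply MM.mat_injective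
    rw [MM.mat_smul]
    unfold MM.single
    rw [MM.mat_of, MM.mat_of, Matrix.smul_single, smul_eq_mul, mul_one]
  · intro v _ hv
    rw [Finset.sum_apply]
    refine Finset.sum_eq_zero fun μ _ => ?_
    rw [Finset.sum_apply]
    refine Finset.sum_eq_zero fun ν _ => ?_
    rw [Pi.smul_apply]
    unfold Brat.B7E
    rw [Pi.single_eq_of_ne (Ne.symm hv), smul_zero]
  · intro h; exact absurd (Finset.mem_univ _) h

theorem Brat.B7E_tr (n : ℕ) (v w : V0) (μ : B.P n v) :
    B.tr n w (B.B7E n v μ μ) = if v = w then 1 else 0 := by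
  unfold Brat.tr Brat.B7E
  by_cases h : v = w
  · subst h
    rw [Pi.single_eq_same, if_pos rfl]
    unfold MM.single
    rw [MM.mat_of, Matrix.trace_single_eq_same]
  · rw [Pi.single_eq_of_ne (Ne.symm h), if_neg h, MM.mat_zero, Matrix.trace_zero]

theorem Brat.B7E_emb (n : ℕ) (v : V0) (μ ν : B.P n v) :
    B.emb n (B.B7E n v μ ν) = B.e n v μ ν := by
  rw [B.emb_apply, Finset.sum_eq_single v]
  · unfold Brat.B7E
    rw [Pi.single_eq_same]
    unfold MM.single
    rw [Finset.sum_eq_single μ]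
    · rw [Finset.sum_eq_single ν]
      · simp
      · intro l _ hl
        rw [MM.mat_of, Matrix.single_apply, if_neg (fun h => hl h.2.symm), zero_smul]
      · intro h; exact absurd (Finset.mem_univ _) h
    · intro l _ hl
      refine Finset.sum_eq_zero fun k _ => ?_
      rw [MM.mat_of, Matrix.single_apply, if_neg (fun h => hl h.1.symm), zero_smul]
    · intro h; exact absurd (Finset.mem_univ _) h
  · intro w _ hw
    unfold Brat.B7E
    rw [Pi.single_eq_of_ne hw]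
    simp
  · intro h; exact absurd (Finset.mem_univ _) h

theorem Brat.B7_tr_add {m : ℕ} (w : V0) (x y : B.D m) :
    B.tr m w (x + y) = B.tr m w x + B.tr m w y := by
  unfold Brat.tr
  rw [Pi.add_apply, MM.mat_add, Matrix.trace_add]

theorem Brat.B7_tr_smul {m : ℕ} (w : V0) (c : ℂ) (x : B.D m) :
    B.tr m w (c • x) = c * B.tr m w x := by
  unfold Brat.tr
  rw [Pi.smul_apply, MM.mat_smul, Matrix.trace_smul, smul_eq_mul]

theorem Brat.B7_tr_zero {m : ℕ} (w : V0) : B.tr m w (0 : B.D m) = 0 := by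
  unfold Brat.tr
  rw [Pi.zero_apply, MM.mat_zero, Matrix.trace_zero]

theorem Brat.B7_tr_sum {m : ℕ} (w : V0) {α : Type*} (s : Finset α) (f : α → B.D m) :
    B.tr m w (∑ a ∈ s, f a) = ∑ a ∈ s, B.tr m w (f a) := by
  classical
  induction s using Finset.induction_on with
  | empty => rw [Finset.sum_empty, Finset.sum_empty, B.B7_tr_zero]
  | insert a s ha ih => rw [Finset.sum_insert ha, Finset.sum_insert ha, B.B7_tr_add, ih]

theorem Brat.B7_tr_mul {m : ℕ} (w : V0) (x y : B.D m) :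
    B.tr m w (x * y) = B.tr m w (y * x) := by
  unfold Brat.tr
  rw [Pi.mul_apply, Pi.mul_apply, MM.mat_mul, MM.mat_mul, Matrix.trace_mul_comm]

theorem Brat.exists_mult {n m : ℕ} (ψ : B.D n →⋆ₐ[ℂ] B.D m) :
    ∃ c : V0 → V0 → ℕ, ∀ x w, B.tr m w (ψ x) = ∑ v, (c v w : ℂ) * B.tr n v x := by
  refine ⟨fun v w => B.rk m w (ψ (B.B7E n v (Classical.arbitrary _) (Classical.arbitrary _))),
    fun x w => ?_⟩
  have hoff : ∀ v (μ ν : B.P n v), μ ≠ ν → B.tr m w (ψ (B.B7E n v μ ν)) = 0 := by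
    intro v μ ν h
    rw [← B.B7E_mul n v μ μ ν, map_mul, B.B7_tr_mul, ← map_mul,
      B.B7E_mul_ne n v μ ν μ μ (Ne.symm h), map_zero, B.B7_tr_zero]
  have hdiag : ∀ v (μ ν : B.P n v), B.tr m w (ψ (B.B7E n v μ μ)) =
      B.tr m w (ψ (B.B7E n v ν ν)) := by
    intro v μ ν
    rw [← B.B7E_mul n v μ ν μ, map_mul, B.B7_tr_mul, ← map_mul, B.B7E_mul]
  conv_lhs => rw [B.B7E_sum x]
  rw [map_sum, B.B7_tr_sum]
  refine Finset.sum_congr rfl fun v _ => ?_
  rw [map_sum, B.B7_tr_sum]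
  have h1 : ∀ μ : B.P n v, B.tr m w (ψ (∑ ν, (x v).mat μ ν • B.B7E n v μ ν)) =
      (x v).mat μ μ * (B.rk m w (ψ (B.B7E n v (Classical.arbitrary _)
        (Classical.arbitrary _))) : ℂ) := by
    intro μ
    rw [map_sum, B.B7_tr_sum, Finset.sum_eq_single μ]
    · rw [map_smul, B.B7_tr_smul, hdiag v μ (Classical.arbitrary _),
        B.tr_proj (pj_map _ (B.B7E_proj n v _))]
    · intro ν _ hν
      rw [map_smul, B.B7_tr_smul, hoff v μ ν (Ne.symm hν), mul_zero]
    · intro h; exact absurd (Finset.mem_univ _) h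
  rw [Finset.sum_congr rfl fun μ _ => h1 μ, ← Finset.sum_mul, mul_comm]
  rfl

theorem Brat.tr_eq_of_near_proj {m : ℕ} {p q : B.D m} (hp : IsStarProjection p)
    (hq : IsStarProjection q) (h : ‖p - q‖ ≤ 1 / 10) (w : V0) : B.tr m w p = B.tr m w q := by
  obtain ⟨v, h1, h2, _⟩ := proj_close hp hq h
  rw [← h1, ← h2, B.B7_tr_mul]

theorem Brat.tr_eq_of_near {n m : ℕ} (ψ ψ' : B.D n →⋆ₐ[ℂ] B.D m)
    (h : ∀ x, ‖ψ x - ψ' x‖ ≤ 1 / 10 * ‖x‖) (x : B.D n) (w : V0) :
    B.tr m w (ψ x) = B.tr m w (ψ' x) := by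
  obtain ⟨c, hc⟩ := B.exists_mult ψ
  obtain ⟨c', hc'⟩ := B.exists_mult ψ'
  rw [hc, hc']
  refine Finset.sum_congr rfl fun v _ => ?_
  have hP := B.B7E_proj n v (Classical.arbitrary _)
  have h1 : ‖ψ (B.B7E n v (Classical.arbitrary _) (Classical.arbitrary _)) -
      ψ' (B.B7E n v (Classical.arbitrary _) (Classical.arbitrary _))‖ ≤ 1 / 10 := by
    refine (h _).trans ?_
    have := pj_norm_le hP
    linarith
  have h2 := B.tr_eq_of_near_proj (pj_map ψ hP) (pj_map ψ' hP) h1 w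
  rw [hc, hc'] at h2
  simp only [B.B7E_tr, mul_ite, mul_one, mul_zero, Finset.sum_ite_eq, Finset.mem_univ,
    if_true] at h2
  rw [h2]

theorem Brat.Vmap_u_of_near (Φ : A →⋆ₐ[ℂ] A) {n m : ℕ} (ψ : B.D n →⋆ₐ[ℂ] B.D m)
    (h : ∀ x, ‖B.emb m (ψ x) - Φ (B.emb n x)‖ ≤ 1 / 10 * ‖x‖) (c : V0 → V0 → ℕ)
    (hc : ∀ x w, B.tr m w (ψ x) = ∑ v, (c v w : ℂ) * B.tr n v x) (v : V0) :
    Vmap Φ (B.u n v) = ∑ w, c v w • B.u m w := by
  have hP := B.B7E_proj n v (Classical.arbitrary _)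
  set E := B.B7E n v (Classical.arbitrary _) (Classical.arbitrary _) with hE
  have h0 : B.u n v = cls1 (B.emb n E) (pj_map _ hP) := by
    unfold Brat.u
    exact cls1_congr _ _ (B.B7E_emb n v _ _).symm
  rw [h0, Vmap_cls1 Φ (pj_map _ hP) (pj_map _ (pj_map _ hP))]
  have h1 : ‖B.emb m (ψ E) - Φ (B.emb n E)‖ ≤ 1 / 10 := by
    refine (h _).trans ?_
    have := pj_norm_le hP
    linarith
  obtain ⟨z, h2, h3, _⟩ := proj_close (pj_map _ (pj_map _ hP)) (pj_map _ (pj_map _ hP)) h1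
  rw [← (cls1_eq_iff (pj_map _ (pj_map _ hP)) (pj_map _ (pj_map _ hP))).2 ⟨z, h2, h3⟩,
    B.cls_emb (pj_map _ hP)]
  refine Finset.sum_congr rfl fun w _ => ?_
  have h4 := hc E w
  rw [B.tr_proj (pj_map _ hP)] at h4
  simp only [hE, B.B7E_tr, mul_ite, mul_one, mul_zero, Finset.sum_ite_eq, Finset.mem_univ,
    if_true] at h4
  have h5 : B.rk m w (ψ E) = c v w := by
    rw [hE]
    exact_mod_cast h4
  rw [h5]

end Helper19.BL
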