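import Pool.Agent.Helper19.BL.B2
import Pool.Agent.Helper19.BL.B5

/-! # MODULE B8: homomorphisms of a finite level are near homomorphisms into a finite level

Let `Ψ : D n → A`.  Fix `μ_v ∈ P n v`, `E_{v μ ν} := Pi.single v (MM.single μ ν 1) ∈ D n`, `p_v := Ψ E_{v μ_v μ_v}`,
`G := Σ v, P n v`, `κ := Option G`.  In `MM κ A` let `R := ∑_{(v,μ) ∈ G} single none (some (v,μ)) (Ψ E_{v μ μ_v})`.  Then
`R* R = diag (0 at none, p_v at some (v,μ))` and `R R* = single none none 1` (matrix unit relations).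
STEP 1: `proj_approx` for each `v` (common level by `up`): projections `q_v ∈ D m` with `emb q_v` near `p_v`; `proj_close`:
`s_v ∈ A`, `s_v* s_v = emb q_v`, `s_v s_v* = p_v`, `s_v` near `p_v`.
STEP 2: `R'' := R * diag (0, s_v)`: `R''* R'' = diag (0, emb q_v)`, `R'' R''* = single none none 1`, `R''` near `R`.
STEP 3: these two projections are `MM.map (emb m)` of projections of `MM κ (D m)`, so `emb m` of projections of level `m` of `B.amp κ`
(`emb_amp`; they are projections by injectivity of `emb`); `pi_approx` for `B.amp κ`: `x` at level `m'` with `x* x`, `x x*` exactly these and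
`emb x` near `R''`; by `amp_emb`, `emb x = MM.map (emb m') y`, `y ∈ MM κ (D m')`, `y* y = diag (0, up q_v)`, `y y* = single none none 1` (injectivity of
`MM.map (emb m')`).  Let `w_{v μ} := y none (some (v,μ)) ∈ D m'`: `w_{vμ}* w_{v'μ'} = δ up q_v`, `∑ w_{vμ} w_{vμ}* = 1`.
STEP 4: `ψ x := ∑_v ∑_{μ,ν} x v μ ν • w_{v μ} w_{v ν}*` is a unital star homomorphism `D n → D m'`; `emb (w_{vμ} w_{vν}*)` is near
`Ψ E_{v μ μ_v} (Ψ E_{v ν μ_v})* = Ψ E_{v μ ν}`, and `|x v μ ν| ≤ ‖x‖`, so `‖emb (ψ x) - Ψ x‖ ≤ ∑ .. ≤ ε ‖x‖`. -/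

set_option linter.unusedSectionVars false

open scoped Matrix

namespace Helper19.BL

variable {V0 : Type} [Fintype V0] [DecidableEq V0] {T : V0 → V0 → ℕ}
  {A : Type*} [CStarAlgebra A] (B : Brat V0 T A)

/-- star homomorphism given by a system of matrix units -/
theorem B8_hom {n : ℕ} {R : Type*} [Ring R] [StarRing R] [Algebra ℂ R] [StarModule ℂ R]
    (F : ∀ v, B.P n v → B.P n v → R)
    (hmul : ∀ v μ ν ν' l, F v μ ν * F v ν' l = if ν = ν' then F v μ l else 0)
    (hne : ∀ v w μ ν μ' ν', v ≠ w → F v μ ν * F w μ' ν' = 0)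
    (hstar : ∀ v μ ν, star (F v μ ν) = F v ν μ) (hone : ∑ v, ∑ μ, F v μ μ = 1) :
    ∃ ψ : B.D n →⋆ₐ[ℂ] R, ∀ x, ψ x = ∑ v, ∑ μ, ∑ ν, (x v).mat μ ν • F v μ ν := by
  refine ⟨{ toFun := fun x => ∑ v, ∑ μ, ∑ ν, (x v).mat μ ν • F v μ ν
            map_one' := ?_
            map_mul' := ?_
            map_zero' := by simp
            map_add' := fun x y => by simp [add_smul, Finset.sum_add_distrib]
            commutes' := ?_
            map_star' := ?_ }, fun x => rfl⟩
  · rw [← hone]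
    refine Finset.sum_congr rfl fun v _ => Finset.sum_congr rfl fun μ _ => ?_
    rw [Finset.sum_eq_single μ]
    · simp
    · intro ν _ hν
      simp [Matrix.one_apply_ne (Ne.symm hν)]
    · intro h; exact absurd (Finset.mem_univ _) h
  · intro x y
    rw [Finset.sum_mul_sum]
    refine Finset.sum_congr rfl fun v _ => ?_
    rw [Finset.sum_eq_single v]
    · rw [Finset.sum_mul_sum]
      refine Finset.sum_congr rfl fun μ _ => ?_
      have h1 : ∀ μ' : B.P n v, (∑ ν, (x v).mat μ ν • F v μ ν) * (∑ ν, (y v).mat μ' ν • F v μ' ν)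
          = ∑ ν, ((x v).mat μ μ' * (y v).mat μ' ν) • F v μ ν := by
        intro μ'
        rw [Finset.sum_mul_sum, Finset.sum_comm]
        refine Finset.sum_congr rfl fun ν _ => ?_
        rw [Finset.sum_eq_single μ']
        · rw [smul_mul_smul_comm, hmul, if_pos rfl]
        · intro b _ hb
          rw [smul_mul_smul_comm, hmul, if_neg hb, smul_zero]
        · intro h; exact absurd (Finset.mem_univ _) h
      rw [Finset.sum_congr rfl fun μ' _ => h1 μ', Finset.sum_comm]
      refine Finset.sum_congr rfl fun ν _ => ?_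
      rw [← Finset.sum_smul]
      rfl
    · intro w _ hw
      rw [Finset.sum_mul_sum]
      refine Finset.sum_eq_zero fun μ _ => Finset.sum_eq_zero fun μ' _ => ?_
      rw [Finset.sum_mul_sum]
      refine Finset.sum_eq_zero fun ν _ => Finset.sum_eq_zero fun ν' _ => ?_
      rw [smul_mul_smul_comm, hne v w _ _ _ _ (Ne.symm hw), smul_zero]
    · intro h; exact absurd (Finset.mem_univ _) h
  · intro c
    rw [Algebra.algebraMap_eq_smul_one, Algebra.algebraMap_eq_smul_one, ← hone]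
    rw [Finset.smul_sum]
    refine Finset.sum_congr rfl fun v _ => ?_
    rw [Finset.smul_sum]
    refine Finset.sum_congr rfl fun μ _ => ?_
    rw [Finset.sum_eq_single μ]
    · simp
    · intro ν _ hν
      simp [Matrix.one_apply_ne (Ne.symm hν)]
    · intro h; exact absurd (Finset.mem_univ _) h
  · intro x
    rw [star_sum]
    refine Finset.sum_congr rfl fun v _ => ?_
    rw [star_sum]
    simp_rw [star_sum]
    rw [Finset.sum_comm]
    refine Finset.sum_congr rfl fun μ _ => Finset.sum_congr rfl fun ν _ => ?_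
    rw [star_smul, hstar]
    simp [Matrix.conjTranspose_apply]

theorem B8_E_mul (n : ℕ) (v : V0) (μ ν ν' l : B.P n v) :
    B.B1_E n v μ ν * B.B1_E n v ν' l = if ν = ν' then B.B1_E n v μ l else 0 := by
  apply B.emb_injective
  rw [map_mul, B.B1_emb_E, B.B1_emb_E, B.e_mul]
  split_ifs
  · rw [B.B1_emb_E]
  · rw [map_zero]

theorem B8_E_mul_ne (n : ℕ) (v w : V0) (μ ν : B.P n v) (μ' ν' : B.P n w) (h : v ≠ w) :
    B.B1_E n v μ ν * B.B1_E n w μ' ν' = 0 := by
  apply B.emb_injective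
  rw [map_mul, B.B1_emb_E, B.B1_emb_E, B.e_mul_ne n v w _ _ _ _ h, map_zero]

theorem B8_E_star (n : ℕ) (v : V0) (μ ν : B.P n v) :
    star (B.B1_E n v μ ν) = B.B1_E n v ν μ := by
  apply B.emb_injective
  rw [map_star, B.B1_emb_E, B.B1_emb_E, B.e_star]

theorem B8_E_one (n : ℕ) : ∑ v, ∑ μ, B.B1_E n v μ μ = (1 : B.D n) := by
  apply B.emb_injective
  rw [map_one, ← B.e_one n, map_sum]
  refine Finset.sum_congr rfl fun v _ => ?_
  rw [map_sum]
  exact Finset.sum_congr rfl fun μ _ => B.B1_emb_E n v μ μ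

theorem B8_E_sum (n : ℕ) (x : B.D n) :
    x = ∑ v, ∑ μ, ∑ ν, (x v).mat μ ν • B.B1_E n v μ ν := by
  apply B.emb_injective
  rw [B.emb_apply, map_sum]
  refine Finset.sum_congr rfl fun v _ => ?_
  rw [map_sum]
  refine Finset.sum_congr rfl fun μ _ => ?_
  rw [map_sum]
  refine Finset.sum_congr rfl fun ν _ => ?_
  rw [map_smul, B.B1_emb_E]

theorem Brat.near_hom {n : ℕ} (Ψ : B.D n →⋆ₐ[ℂ] A) {ε : ℝ} (hε : 0 < ε) (N : ℕ) :
    ∃ m, N ≤ m ∧ ∃ ψ : B.D n →⋆ₐ[ℂ] B.D m, ∀ x, ‖B.emb m (ψ x) - Ψ x‖ ≤ ε * ‖x‖ := by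
  classical
  -- matrix units
  set F : ∀ v, B.P n v → B.P n v → A := fun v μ ν => Ψ (B.B1_E n v μ ν) with hF
  have Fmul : ∀ v μ ν ν' l, F v μ ν * F v ν' l = if ν = ν' then F v μ l else 0 := by
    intro v μ ν ν' l
    simp only [hF]
    rw [← map_mul, B8_E_mul]
    split_ifs
    · rfl
    · rw [map_zero]
  have Fne : ∀ v w μ ν μ' ν', v ≠ w → F v μ ν * F w μ' ν' = 0 := by
    intro v w μ ν μ' ν' h
    simp only [hF]
    rw [← map_mul, B8_E_mul_ne B n v w _ _ _ _ h, map_zero]
  have Fstar : ∀ v μ ν, star (F v μ ν) = F v ν μ := by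
    intro v μ ν
    simp only [hF]
    rw [← map_star, B8_E_star]
  have Fone : ∑ v, ∑ μ, F v μ μ = 1 := by
    simp only [hF]
    rw [← map_one Ψ, ← B8_E_one B n, map_sum]
    refine Finset.sum_congr rfl fun v _ => ?_
    rw [map_sum]
  have FΨ : ∀ x, Ψ x = ∑ v, ∑ μ, ∑ ν, (x v).mat μ ν • F v μ ν := by
    intro x
    conv_lhs => rw [B8_E_sum B n x]
    rw [map_sum]
    refine Finset.sum_congr rfl fun v _ => ?_
    rw [map_sum]
    refine Finset.sum_congr rfl fun μ _ => ?_
    rw [map_sum]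
    refine Finset.sum_congr rfl fun ν _ => ?_
    rw [map_smul]
  have Fpj : ∀ v μ, IsStarProjection (F v μ μ) := fun v μ =>
    pj_mk (by rw [Fmul, if_pos rfl]) (Fstar v μ μ)
  have Fnorm : ∀ v μ ν, ‖F v μ ν‖ ≤ 1 := by
    intro v μ ν
    have h1 : ‖F v μ ν‖ * ‖F v μ ν‖ ≤ 1 := by
      rw [← CStarRing.norm_star_mul_self, Fstar, Fmul, if_pos rfl]
      exact pj_norm_le (Fpj v ν)
    nlinarith [norm_nonneg (F v μ ν)]
  -- base points
  set μ0 : ∀ v, B.P n v := fun v => Classical.arbitrary _ with hμ0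
  -- constants
  obtain ⟨K, hK⟩ : ∃ K : ℝ, K = ∑ v : V0, ∑ _μ : B.P n v, ∑ _ν : B.P n v, (1 : ℝ) := ⟨_, rfl⟩
  have hK0 : 0 ≤ K := by
    rw [hK]
    exact Finset.sum_nonneg fun v _ => Finset.sum_nonneg fun μ _ => Finset.sum_nonneg
      fun ν _ => zero_le_one
  set η : ℝ := ε / (2 * (K + 1)) with hη
  have hη0 : 0 < η := div_pos hε (by linarith)
  set ε1 : ℝ := min (η / 10) (1 / 10) with hε1
  have hε10 : 0 < ε1 := lt_min (by linarith) (by norm_num)
  -- step 1: projections near `F v μ0 μ0`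
  have step1 : ∀ v, ∃ k, ∃ q : B.D k, IsStarProjection q ∧ ‖B.emb k q - F v (μ0 v) (μ0 v)‖ ≤ ε1 := by
    intro v
    obtain ⟨k, _, q, hq, hq2⟩ := B.proj_approx (Fpj v (μ0 v)) hε10 0
    exact ⟨k, q, hq, hq2⟩
  choose k q hq hq2 using step1
  set m0 : ℕ := Finset.univ.sup k with hm0
  have hk : ∀ v, k v ≤ m0 := fun v => Finset.le_sup (f := k) (Finset.mem_univ v)
  set Q : V0 → B.D m0 := fun v => B.up (hk v) (q v) with hQ
  have hQp : ∀ v, IsStarProjection (Q v) := fun v => pj_map _ (hq v)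
  have hQe : ∀ v, B.emb m0 (Q v) = B.emb (k v) (q v) := fun v => B.emb_up _ _
  have hQn : ∀ v, ‖B.emb m0 (Q v) - F v (μ0 v) (μ0 v)‖ ≤ ε1 := by
    intro v; rw [hQe]; exact hq2 v
  have hQpe : ∀ v, IsStarProjection (B.emb m0 (Q v)) := fun v => pj_map _ (hQp v)
  have step1b : ∀ v, ∃ s : A, star s * s = B.emb m0 (Q v) ∧ s * star s = F v (μ0 v) (μ0 v) ∧
      ‖s - F v (μ0 v) (μ0 v)‖ ≤ 5 * ε1 := by
    intro v
    obtain ⟨s, h1, h2, h3⟩ := proj_close (hQpe v) (Fpj v (μ0 v))
      ((hQn v).trans (min_le_right _ _))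
    refine ⟨s, h1, h2, ?_⟩
    calc ‖s - F v (μ0 v) (μ0 v)‖
        = ‖(s - B.emb m0 (Q v)) + (B.emb m0 (Q v) - F v (μ0 v) (μ0 v))‖ := by congr 1; abel
      _ ≤ ‖s - B.emb m0 (Q v)‖ + ‖B.emb m0 (Q v) - F v (μ0 v) (μ0 v)‖ := norm_add_le _ _
      _ ≤ 4 * ‖B.emb m0 (Q v) - F v (μ0 v) (μ0 v)‖ + ‖B.emb m0 (Q v) - F v (μ0 v) (μ0 v)‖ := by
          gcongr
      _ ≤ 4 * ε1 + ε1 := by gcongr <;> exact hQn v
      _ = 5 * ε1 := by ring
  choose s hs1 hs2 hs3 using step1b
  -- step 2: the partial isometry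
  let G := Σ v, B.P n v
  let κ := Option G
  let r : G → A := fun g => F g.1 g.2 (μ0 g.1) * s g.1
  have hsl : ∀ v, F v (μ0 v) (μ0 v) * s v = s v := fun v => pi_swap (Fpj v (μ0 v)) (hs2 v)
  have hrr : ∀ g h : G, star (r g) * r h = if g = h then B.emb m0 (Q g.1) else 0 := by
    rintro ⟨v, μ⟩ ⟨w, ν⟩
    change star (F v μ (μ0 v) * s v) * (F w ν (μ0 w) * s w) = _
    have e : star (F v μ (μ0 v) * s v) * (F w ν (μ0 w) * s w)
        = star (s v) * (F v (μ0 v) μ * F w ν (μ0 w)) * s w := by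
      rw [star_mul, Fstar]; noncomm_ring
    rw [e]
    by_cases hvw : v = w
    · subst hvw
      rw [Fmul]
      by_cases hμν : μ = ν
      · subst hμν
        rw [if_pos rfl, if_pos rfl, mul_assoc, hsl, hs1]
      · rw [if_neg hμν, if_neg, mul_zero, zero_mul]
        intro h
        exact hμν (eq_of_heq (Sigma.mk.inj_iff.1 h).2)
    · rw [Fne v w _ _ _ _ hvw, mul_zero, zero_mul, if_neg]
      intro h
      exact hvw (Sigma.mk.inj_iff.1 h).1
  have hrs : ∑ g : G, r g * star (r g) = 1 := by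
    rw [Fintype.sum_sigma, ← Fone]
    refine Finset.sum_congr rfl fun v _ => Finset.sum_congr rfl fun μ _ => ?_
    change F v μ (μ0 v) * s v * star (F v μ (μ0 v) * s v) = F v μ μ
    have e : F v μ (μ0 v) * s v * star (F v μ (μ0 v) * s v)
        = F v μ (μ0 v) * (s v * star (s v)) * F v (μ0 v) μ := by
      rw [star_mul, Fstar]; noncomm_ring
    rw [e, hs2, Fmul, if_pos rfl, Fmul, if_pos rfl]
  let Rm : Matrix κ κ A := Matrix.of fun a b =>
    match a, b with
    | none, some g => r g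
    | _, _ => 0
  let R : MM κ A := MM.of Rm
  have hRR : ∀ a b : κ, (star R * R).mat a b =
      match a, b with
      | some g, some h => if g = h then B.emb m0 (Q g.1) else 0
      | _, _ => 0 := by
    intro a b
    rw [MM.mat_mul, MM.mat_star, Matrix.mul_apply, Fintype.sum_option]
    rcases a with _ | g <;> rcases b with _ | h
    · simp [R, Rm, Matrix.conjTranspose_apply]
    · simp [R, Rm, Matrix.conjTranspose_apply]
    · simp [R, Rm, Matrix.conjTranspose_apply]
    · have := hrr g h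
      simp [R, Rm, Matrix.conjTranspose_apply, this]
  have hRR' : R * star R = MM.single none none 1 := by
    apply MM.ext'
    intro a b
    rw [MM.mat_mul, MM.mat_star, Matrix.mul_apply, Fintype.sum_option]
    rcases a with _ | g <;> rcases b with _ | h
    · simp [R, Rm, Matrix.conjTranspose_apply, MM.single, hrs]
    · simp [R, Rm, Matrix.conjTranspose_apply, MM.single]
    · simp [R, Rm, Matrix.conjTranspose_apply, MM.single]
    · simp [R, Rm, Matrix.conjTranspose_apply, MM.single]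
  -- step 3
  let dg : κ → B.D m0 := fun a => match a with
    | none => 0
    | some g => Q g.1
  have hdg : star R * R = MM.map (B.emb m0) (MM.diag dg) := by
    apply MM.ext'
    intro a b
    rw [hRR, MM.map_apply, MM.diag_mat]
    rcases a with _ | g <;> rcases b with _ | h
    · simp [dg, Matrix.diagonal_apply]
    · simp [Matrix.diagonal_apply]
    · simp [Matrix.diagonal_apply]
    · by_cases hgh : g = h
      · subst hgh; simp [dg]
      · rw [Matrix.diagonal_apply_ne _ (fun h' => hgh (Option.some_injective _ h')), map_zero]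
        simp only [if_neg hgh]
  have hone : R * star R = MM.map (B.emb m0) (MM.single none none 1) := by
    rw [hRR', MM.map_single, map_one]
  obtain ⟨x0, hx0⟩ := B.emb_amp κ m0 (MM.diag dg)
  obtain ⟨x1, hx1⟩ := B.emb_amp κ m0 (MM.single none none 1)
  have hpRR' : IsStarProjection (R * star R) := by
    rw [hRR']; exact pj_single none pj_one
  have hpRR : IsStarProjection (star R * R) := by
    have := pi_range (v := star R) (by rw [star_star]; exact hpRR')
    rwa [star_star] at this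
  have hx0p : IsStarProjection x0 := by
    have h1 := hpRR
    rw [hdg, ← hx0] at h1
    refine pj_mk ?_ ?_
    · apply (B.amp κ).emb_injective
      rw [map_mul]; exact pjm h1
    · apply (B.amp κ).emb_injective
      rw [map_star]; exact pjs h1
  have hx1p : IsStarProjection x1 := by
    have h1 := hpRR'
    rw [hone, ← hx1] at h1
    refine pj_mk ?_ ?_
    · apply (B.amp κ).emb_injective
      rw [map_mul]; exact pjm h1
    · apply (B.amp κ).emb_injective
      rw [map_star]; exact pjs h1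
  obtain ⟨m, hNm, hm0m, x, hxx, hxx', hxn⟩ := (B.amp κ).pi_approx hx0p hx1p (w := R)
    (by rw [hdg, hx0]) (by rw [hone, hx1]) (half_pos hη0) N
  obtain ⟨y, hy⟩ := B.amp_emb κ m x
  have hmapinj : Function.Injective (MM.map (κ := κ) (B.emb m)) := by
    intro a b hab
    apply MM.ext'
    intro i j
    apply B.emb_injective m
    have := congrArg (fun z : MM κ A => z.mat i j) hab
    exact this
  have hyy : MM.map (B.emb m) (star y * y) = star R * R := by
    rw [map_mul, map_star, ← hy, ← map_star, ← map_mul, hxx, Brat.emb_up, hx0, hdg]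
  have hyy' : MM.map (B.emb m) (y * star y) = R * star R := by
    rw [map_mul, map_star, ← hy, ← map_star, ← map_mul, hxx', Brat.emb_up, hx1, hone]
  have hyy'' : y * star y = MM.single none none 1 := by
    apply hmapinj
    rw [hyy', hRR', MM.map_single, map_one]
  have hyrow : ∀ (a b : κ), a ≠ none → y.mat a b = 0 := by
    intro a b ha
    have hpy : IsStarProjection (y * star y) := by
      rw [hyy'']; exact pj_single none pj_one
    have h1 : (y * star y) * y = y := by
      have := pi_swap (v := y) hpy rfl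
      exact this
    rw [← h1, hyy'', MM.mat_mul, Matrix.mul_apply]
    refine Finset.sum_eq_zero fun c _ => ?_
    rw [MM.single, MM.mat_of, Matrix.single_apply, if_neg (fun h => ha h.1.symm), zero_mul]
  have hentry : ∀ a b : κ, B.emb m (star (y.mat none a) * y.mat none b) =
      (star R * R).mat a b := by
    intro a b
    rw [← hyy, MM.map_apply, MM.mat_mul, MM.mat_star, Matrix.mul_apply]
    congr 1
    rw [Finset.sum_eq_single none]
    · rfl
    · intro c _ hc
      rw [hyrow c b hc, mul_zero]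
    · intro h; exact absurd (Finset.mem_univ _) h
  have hy00 : y.mat none none = 0 := by
    have h1 := hentry none none
    rw [hRR] at h1
    have h2 : B.emb m (star (y.mat none none) * y.mat none none) = B.emb m 0 := by
      rw [h1, map_zero]
    exact (CStarRing.star_mul_self_eq_zero_iff _).1 (B.emb_injective m h2)
  let w : G → B.D m := fun g => y.mat none (some g)
  have hww : ∀ g h : G, star (w g) * w h = if g = h then B.up hm0m (Q g.1) else 0 := by
    intro g h
    apply B.emb_injective m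
    have h1 := hentry (some g) (some h)
    rw [hRR] at h1
    change B.emb m (star (w g) * w h) = _ at h1
    rw [h1]
    by_cases hgh : g = h
    · simp [hgh, B.emb_up]
    · simp [hgh]
  have hwws : ∑ g : G, w g * star (w g) = 1 := by
    have h1 := congrArg (fun z : MM κ (B.D m) => z.mat none none) hyy''
    simp only [MM.mat_mul, MM.mat_star, Matrix.mul_apply, Matrix.conjTranspose_apply] at h1
    rw [MM.single, MM.mat_of, Matrix.single_apply, if_pos ⟨rfl, rfl⟩] at h1
    have h2 := Fintype.sum_option (fun j : Option G => y.mat none j * star (y.mat none j))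
    rw [hy00, zero_mul, zero_add] at h2
    exact h2.symm.trans h1
  have hwp : ∀ g : G, IsStarProjection (star (w g) * w g) := by
    intro g
    rw [hww, if_pos rfl]
    exact pj_map _ (hQp g.1)
  have hwn : ∀ g : G, ‖B.emb m (w g)‖ ≤ 1 := by
    intro g
    have h1 : ‖B.emb m (w g)‖ * ‖B.emb m (w g)‖ ≤ 1 := by
      rw [← CStarRing.norm_star_mul_self, ← map_star, ← map_mul]
      exact pj_norm_le (pj_map _ (hwp g))
    nlinarith [norm_nonneg (B.emb m (w g))]
  have hwnear : ∀ g : G, ‖B.emb m (w g) - F g.1 g.2 (μ0 g.1)‖ ≤ η := by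
    intro g
    have h1 : ‖B.emb m (w g) - r g‖ ≤ η / 2 := by
      have h2 := MM.norm_entry_le ((B.amp κ).emb m x - R) none (some g)
      rw [hy] at h2
      have h3 : (MM.map (B.emb m) y - R).mat none (some g) = B.emb m (w g) - r g := rfl
      rw [h3] at h2
      rw [hy] at hxn
      exact h2.trans hxn
    have h4 : ‖r g - F g.1 g.2 (μ0 g.1)‖ ≤ η / 2 := by
      have e : r g - F g.1 g.2 (μ0 g.1) = F g.1 g.2 (μ0 g.1) *
          (s g.1 - F g.1 (μ0 g.1) (μ0 g.1)) := by
        rw [mul_sub, Fmul, if_pos rfl]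
      rw [e]
      calc ‖F g.1 g.2 (μ0 g.1) * (s g.1 - F g.1 (μ0 g.1) (μ0 g.1))‖
          ≤ ‖F g.1 g.2 (μ0 g.1)‖ * ‖s g.1 - F g.1 (μ0 g.1) (μ0 g.1)‖ := norm_mul_le _ _
        _ ≤ 1 * (5 * ε1) := mul_le_mul (Fnorm _ _ _) (hs3 _) (norm_nonneg _) zero_le_one
        _ ≤ 1 * (5 * (η / 10)) := by gcongr; exact min_le_left _ _
        _ = η / 2 := by ring
    calc ‖B.emb m (w g) - F g.1 g.2 (μ0 g.1)‖
        = ‖(B.emb m (w g) - r g) + (r g - F g.1 g.2 (μ0 g.1))‖ := by congr 1; abel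
      _ ≤ ‖B.emb m (w g) - r g‖ + ‖r g - F g.1 g.2 (μ0 g.1)‖ := norm_add_le _ _
      _ ≤ η / 2 + η / 2 := add_le_add h1 h4
      _ = η := by ring
  -- step 4
  obtain ⟨ψ, hψ⟩ := B8_hom B (n := n) (R := B.D m)
    (fun v μ ν => w ⟨v, μ⟩ * star (w ⟨v, ν⟩))
    (by
      intro v μ ν ν' l
      have e : w ⟨v, μ⟩ * star (w ⟨v, ν⟩) * (w ⟨v, ν'⟩ * star (w ⟨v, l⟩))
          = w ⟨v, μ⟩ * (star (w ⟨v, ν⟩) * w ⟨v, ν'⟩) * star (w ⟨v, l⟩) := by noncomm_ring
      rw [e, hww]
      by_cases h : ν = ν'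
      · subst h
        rw [if_pos rfl, if_pos rfl]
        have h2 : w ⟨v, μ⟩ * B.up hm0m (Q v) = w ⟨v, μ⟩ := by
          have h3 := hww ⟨v, μ⟩ ⟨v, μ⟩
          rw [if_pos rfl] at h3
          change w ⟨v, μ⟩ * B.up hm0m (Q (⟨v, μ⟩ : G).1) = w ⟨v, μ⟩
          rw [← h3]
          exact pi_mul (hwp _)
        rw [h2]
      · rw [if_neg h, if_neg, mul_zero, zero_mul]
        intro h'
        exact h (eq_of_heq (Sigma.mk.inj_iff.1 h').2))
    (by
      intro v v' μ ν μ' ν' h
      have e : w ⟨v, μ⟩ * star (w ⟨v, ν⟩) * (w ⟨v', μ'⟩ * star (w ⟨v', ν'⟩))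
          = w ⟨v, μ⟩ * (star (w ⟨v, ν⟩) * w ⟨v', μ'⟩) * star (w ⟨v', ν'⟩) := by noncomm_ring
      rw [e, hww, if_neg, mul_zero, zero_mul]
      intro h'
      exact h (Sigma.mk.inj_iff.1 h').1)
    (by
      intro v μ ν
      rw [star_mul, star_star])
    (by
      rw [← hwws, Fintype.sum_sigma])
  refine ⟨m, hNm, ψ, fun z => ?_⟩
  have hdiff : B.emb m (ψ z) - Ψ z = ∑ v, ∑ μ, ∑ ν, (z v).mat μ ν •
      (B.emb m (w ⟨v, μ⟩) * star (B.emb m (w ⟨v, ν⟩)) - F v μ ν) := by
    rw [hψ, FΨ, map_sum, ← Finset.sum_sub_distrib]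
    refine Finset.sum_congr rfl fun v _ => ?_
    rw [map_sum, ← Finset.sum_sub_distrib]
    refine Finset.sum_congr rfl fun μ _ => ?_
    rw [map_sum, ← Finset.sum_sub_distrib]
    refine Finset.sum_congr rfl fun ν _ => ?_
    rw [map_smul, map_mul, map_star, smul_sub]
  have hterm : ∀ v (μ ν : B.P n v), ‖(z v).mat μ ν •
      (B.emb m (w ⟨v, μ⟩) * star (B.emb m (w ⟨v, ν⟩)) - F v μ ν)‖ ≤ ‖z‖ * (2 * η) := by
    intro v μ ν
    rw [norm_smul]
    have h1 : ‖(z v).mat μ ν‖ ≤ ‖z‖ := (MM.norm_entry_le (z v) μ ν).trans (norm_le_pi_norm z v)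
    have h2 : ‖B.emb m (w ⟨v, μ⟩) * star (B.emb m (w ⟨v, ν⟩)) - F v μ ν‖ ≤ 2 * η := by
      set a := B.emb m (w ⟨v, μ⟩) with ha
      set b := B.emb m (w ⟨v, ν⟩) with hb
      have e : a * star b - F v μ ν = (a - F v μ (μ0 v)) * star b +
          F v μ (μ0 v) * star (b - F v ν (μ0 v)) := by
        rw [star_sub, Fstar, sub_mul, mul_sub, Fmul, if_pos rfl]; abel
      rw [e]
      calc ‖(a - F v μ (μ0 v)) * star b + F v μ (μ0 v) * star (b - F v ν (μ0 v))‖
          ≤ ‖(a - F v μ (μ0 v)) * star b‖ + ‖F v μ (μ0 v) * star (b - F v ν (μ0 v))‖ :=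
            norm_add_le _ _
        _ ≤ ‖a - F v μ (μ0 v)‖ * ‖star b‖ + ‖F v μ (μ0 v)‖ * ‖star (b - F v ν (μ0 v))‖ :=
            add_le_add (norm_mul_le _ _) (norm_mul_le _ _)
        _ ≤ η * 1 + 1 * η := by
            rw [norm_star, norm_star]
            exact add_le_add (mul_le_mul (hwnear ⟨v, μ⟩) (hwn _) (norm_nonneg _) hη0.le)
              (mul_le_mul (Fnorm _ _ _) (hwnear ⟨v, ν⟩) (norm_nonneg _) zero_le_one)
        _ = 2 * η := by ring
    exact mul_le_mul h1 h2 (norm_nonneg _) (norm_nonneg _)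
  rw [hdiff]
  calc ‖∑ v, ∑ μ, ∑ ν, (z v).mat μ ν •
      (B.emb m (w ⟨v, μ⟩) * star (B.emb m (w ⟨v, ν⟩)) - F v μ ν)‖
      ≤ ∑ v, ∑ μ : B.P n v, ∑ ν : B.P n v, ‖z‖ * (2 * η) := by
        refine (norm_sum_le _ _).trans (Finset.sum_le_sum fun v _ => ?_)
        refine (norm_sum_le _ _).trans (Finset.sum_le_sum fun μ _ => ?_)
        exact (norm_sum_le _ _).trans (Finset.sum_le_sum fun ν _ => hterm v μ ν)
    _ = K * (‖z‖ * (2 * η)) := by
        rw [hK]
        simp only [Finset.sum_mul, one_mul]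
    _ ≤ (K + 1) * (‖z‖ * (2 * η)) := by gcongr; linarith
    _ = ε * ‖z‖ := by
        rw [hη]
        have h1 : K + 1 ≠ 0 := by linarith
        field_simp

end Helper19.BL
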