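import Pool.Agent.Helper19.BL.B1

/-! # MODULE B9: a Bratteli system gives an AF algebra; unitaries of level n are exponentials

`isAF`: separable: `A` is the closure of the union over `n` of the spans of the finite sets of matrix units
(`TopologicalSpace.IsSeparable.span`, `Set.Finite`/countable union, `Dense.separableSpace`-type lemma).
The chain `F n := (B.emb n).range` (`StarAlgHom.range`), monotone by `emb_up`, finite dimensional.
`exists_exp`: the spectrum of `u ∈ D n` (finite dimensional algebra) is finite, so `Complex.arg` is continuous on it;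
`a := cfc (fun z => (Complex.arg z : ℂ)) u`, `exp (i a) = cfc (exp (i arg z)) u = cfc id u = u`
(see `Unitary.argSelfAdjoint`, `Unitary.expUnitary_argSelfAdjoint` in Mathlib/Analysis/CStarAlgebra/Unitary/Connected.lean, same proof).
`exp_approx`: `x ∈ D n` near `v`; `x* x` near `1`, so `x` is invertible, `x (x* x)^{-1/2}` is unitary near `v`
(or use `polar_corner` with `p = 1` in `D n`; `x y` is an isometry of a finite dimensional algebra; simplest: `star (xy) (xy) = 1` and
`xy` invertible because near the unitary `v`... or `(xy)(xy)*` is a projection near 1, `pj_eq_of_near`), then `exists_exp`. -/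

set_option linter.unusedSectionVars false

open scoped Matrix

namespace Helper19.BL

variable {V0 : Type} [Fintype V0] [DecidableEq V0] {T : V0 → V0 → ℕ}
  {A : Type*} [CStarAlgebra A] (B : Brat V0 T A)

theorem Brat.finiteDimensional_D (n : ℕ) : FiniteDimensional ℂ (B.D n) := by
  have h : ∀ v, FiniteDimensional ℂ (MM (B.P n v) ℂ) := fun v =>
    Module.Finite.of_surjective
      ((MM.matEquiv (κ := B.P n v) (A := ℂ)).symm.toAlgEquiv.toLinearMap)
      (MM.matEquiv (κ := B.P n v) (A := ℂ)).symm.surjective
  exact Module.Finite.pi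

include B in
theorem Brat.isAF : IsAF A := by
  refine ⟨?_, fun n => (B.emb n).range, ?_, ?_, ?_⟩
  · rw [← TopologicalSpace.isSeparable_univ_iff]
    have h1 : TopologicalSpace.IsSeparable
        {x : A | ∃ n, x ∈ Submodule.span ℂ {y | ∃ v μ ν, y = B.e n v μ ν}} := by
      have h2 : {x : A | ∃ n, x ∈ Submodule.span ℂ {y | ∃ v μ ν, y = B.e n v μ ν}}
          = ⋃ n, (Submodule.span ℂ {y | ∃ v μ ν, y = B.e n v μ ν} : Set A) := by
        ext x
        simp
      rw [h2]
      refine TopologicalSpace.IsSeparable.iUnion fun n => ?_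
      refine TopologicalSpace.IsSeparable.span ?_
      refine Set.Countable.isSeparable (Set.Finite.countable ?_)
      have h3 : {y | ∃ v μ ν, y = B.e n v μ ν}
          ⊆ ⋃ v, Set.range (fun a : B.P n v × B.P n v => B.e n v a.1 a.2) := by
        rintro y ⟨v, μ, ν, rfl⟩
        exact Set.mem_iUnion.2 ⟨v, ⟨(μ, ν), rfl⟩⟩
      exact (Set.finite_iUnion fun v => Set.finite_range _).subset h3
    have h4 := h1.closure
    rwa [B.dense.closure_eq] at h4
  · intro n m hnm x hx
    obtain ⟨y, rfl⟩ := hx
    exact ⟨B.up hnm y, B.emb_up hnm y⟩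
  · intro n
    have := B.finiteDimensional_D n
    exact Module.Finite.of_surjective
      ((B.emb n).rangeRestrict.toAlgHom.toLinearMap)
      (fun ⟨y, x, hx⟩ => ⟨x, Subtype.ext hx⟩)
  · intro a
    rw [Metric.mem_closure_iff]
    intro ε hε
    obtain ⟨n, -, x, hx⟩ := B.exists_near a (half_pos hε) 0
    refine ⟨B.emb n x, Set.mem_iUnion.2 ⟨n, ⟨x, rfl⟩⟩, ?_⟩
    rw [dist_comm, dist_eq_norm]
    linarith

theorem Brat.finite_spectrum {n : ℕ} (u : B.D n) : (spectrum ℂ u).Finite := by
  have := B.finiteDimensional_D n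
  rcases subsingleton_or_nontrivial (B.D n) with h | h
  · rw [spectrum.of_subsingleton]; exact Set.finite_empty
  · have hint : IsIntegral ℂ u := Algebra.IsIntegral.isIntegral u
    have hne : minpoly ℂ u ≠ 0 := minpoly.ne_zero hint
    refine ((minpoly ℂ u).roots.toFinset.finite_toSet).subset ?_
    intro z hz
    have h1 := spectrum.subset_polynomial_aeval u (minpoly ℂ u) ⟨z, hz, rfl⟩
    rw [minpoly.aeval, spectrum.zero_eq] at h1
    simpa [hne] using h1

open Complex Metric NormedSpace selfAdjoint Unitary in
theorem Brat.exists_exp {n : ℕ} (u : unitary (B.D n)) :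
    ∃ a : selfAdjoint (B.D n), selfAdjoint.expUnitary a = u := by
  refine ⟨argSelfAdjoint u, Subtype.ext ?_⟩
  have : ContinuousOn arg (spectrum ℂ (u : B.D n)) :=
    (B.finite_spectrum (u : B.D n)).continuousOn _
  rw [expUnitary_coe, argSelfAdjoint_coe, ← CFC.exp_eq_normedSpace_exp (𝕜 := ℂ),
    ← cfc_comp_smul .., ← cfc_comp' ..]
  conv_rhs => rw [← cfc_id' ℂ (u : B.D n)]
  refine cfc_congr fun y hy ↦ ?_
  have hy₁ : ‖y‖ = 1 := spectrum.norm_eq_one_of_unitary u.2 hy
  have : I * y.arg = log y :=
    Complex.ext (by simp [log_re, spectrum.norm_eq_one_of_unitary u.2 hy]) (by simp [log_im])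
  simpa [← exp_eq_exp_ℂ, this] using exp_log (by aesop)

end Helper19.BL
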