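import Pool.Agent.Helper19.BL.GBasic

/-! # MODULE C1: determinants of exponentials

`map_expUnitary`: star homomorphisms between C*-algebras are continuous, so commute with `NormedSpace.exp` (`NormedSpace.map_exp`).
`det_expUnitary`: `det (exp (i a)) = exp (i tr a)` for `a` self-adjoint in `M_κ(ℂ)`: spectral theorem
`a.mat = U diag(λ) U*` (`Matrix.IsHermitian.spectral_theorem`); `exp (i a) = U exp(i diag λ) U*`, `det = ∏ exp (i λ_j) = exp (i ∑ λ_j)`,
`trace = ∑ λ_j` (`Matrix.IsHermitian.trace_eq_sum_eigenvalues`).  The exponential of `MM κ ℂ` versus the one of `Matrix κ κ ℂ`: the topologies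
agree (finite dimensional; `MM.matEquiv` is continuous), or apply `map_exp` to a continuous star homomorphism; alternatively use
`cfc`.
`det_symm`: `1 - 2r = exp (i π r)` for a projection `r` (power series, or: eigenvalues), then `det_expUnitary`; or directly by the spectral theorem. -/

set_option linter.unusedSectionVars false

open scoped Matrix

namespace Helper19.BL

variable {κ : Type*} [Fintype κ] [DecidableEq κ]

theorem C1_cont {A B : Type*} [CStarAlgebra A] [CStarAlgebra B] (f : A →⋆ₐ[ℂ] B) : Continuous f := by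
  refine LipschitzWith.continuous (K := 1) (LipschitzWith.of_dist_le_mul fun x y => ?_)
  rw [dist_eq_norm, dist_eq_norm, NNReal.coe_one, one_mul, ← map_sub]
  exact NonUnitalStarAlgHom.norm_apply_le (f : A →⋆ₙₐ[ℂ] B) (x - y)

theorem map_expUnitary {A B : Type*} [CStarAlgebra A] [CStarAlgebra B] (f : A →⋆ₐ[ℂ] B)
    (a : selfAdjoint A) :
    f ((selfAdjoint.expUnitary a : unitary A) : A) =
      ((selfAdjoint.expUnitary ⟨f (a : A), by
        rw [selfAdjoint.mem_iff, ← map_star, a.2.star_eq]⟩ : unitary B) : B) := by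
  rw [selfAdjoint.expUnitary_coe, selfAdjoint.expUnitary_coe]
  let +nondep : NormedAlgebra ℚ A := .restrictScalars ℚ ℂ A
  let +nondep : NormedAlgebra ℚ B := .restrictScalars ℚ ℂ B
  have hf : Continuous f := C1_cont f
  rw [NormedSpace.map_exp f hf, map_smul]

/-- diagonalisation of a self-adjoint matrix by a star homomorphism -/
theorem C1_diag {a : MM κ ℂ} (ha : star a = a) :
    ∃ (f : (κ → ℂ) →⋆ₐ[ℂ] MM κ ℂ) (l : κ → ℝ), f (fun i => (l i : ℂ)) = a ∧
      (∀ d, (f d).mat.det = ∏ i, d i) ∧ Function.Injective f ∧ a.mat.trace = ∑ i, (l i : ℂ) := by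
  have hA : a.mat.IsHermitian := by
    have := congrArg MM.mat ha
    rwa [MM.mat_star] at this
  let U := hA.eigenvectorUnitary
  let g : (κ → ℂ) →⋆ₐ[ℂ] Matrix κ κ ℂ :=
    { Matrix.diagonalAlgHom ℂ with
      map_star' := fun d => by
        change Matrix.diagonal (star d) = (Matrix.diagonal d)ᴴ
        rw [Matrix.diagonal_conjTranspose] }
  have hg : ∀ d, g d = Matrix.diagonal d := fun d => rfl
  let f : (κ → ℂ) →⋆ₐ[ℂ] MM κ ℂ :=
    ((MM.matEquiv (κ := κ) (A := ℂ)).symm : Matrix κ κ ℂ →⋆ₐ[ℂ] MM κ ℂ).comp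
      (((Unitary.conjStarAlgAut ℂ (Matrix κ κ ℂ) U : Matrix κ κ ℂ ≃⋆ₐ[ℂ] Matrix κ κ ℂ) :
        Matrix κ κ ℂ →⋆ₐ[ℂ] Matrix κ κ ℂ).comp g)
  have hf : ∀ d, (f d).mat = Unitary.conjStarAlgAut ℂ (Matrix κ κ ℂ) U (Matrix.diagonal d) :=
    fun d => rfl
  refine ⟨f, hA.eigenvalues, ?_, ?_, ?_, ?_⟩
  · apply MM.mat_injective
    rw [hf]
    exact hA.spectral_theorem.symm
  · intro d
    rw [hf, Unitary.conjStarAlgAut_apply, Matrix.det_mul_right_comm, ← Matrix.det_diagonal]
    have : (U : Matrix κ κ ℂ) * star (U : Matrix κ κ ℂ) = 1 := Unitary.coe_mul_star_self U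
    rw [this, one_mul]
  · intro d d' h
    have h1 : (f d).mat = (f d').mat := by rw [h]
    rw [hf, hf] at h1
    have h2 := (Unitary.conjStarAlgAut ℂ (Matrix κ κ ℂ) U).injective h1
    exact Matrix.diagonal_injective h2
  · exact hA.trace_eq_sum_eigenvalues

theorem det_expUnitary (a : selfAdjoint (MM κ ℂ)) :
    ((selfAdjoint.expUnitary a : unitary (MM κ ℂ)) : MM κ ℂ).mat.det =
      Complex.exp (Complex.I * (a : MM κ ℂ).mat.trace) := by
  obtain ⟨f, l, h1, h2, -, h4⟩ := C1_diag (a := (a : MM κ ℂ)) a.2.star_eq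
  rw [selfAdjoint.expUnitary_coe, h4]
  let +nondep : NormedAlgebra ℚ (MM κ ℂ) := .restrictScalars ℚ ℂ _
  let +nondep : NormedAlgebra ℚ (κ → ℂ) := .restrictScalars ℚ ℂ _
  have hf : Continuous f := C1_cont f
  have h5 : Complex.I • (a : MM κ ℂ) = f (Complex.I • (fun i => (l i : ℂ))) := by
    rw [map_smul, h1]
  rw [h5, ← NormedSpace.map_exp f hf, h2, Finset.mul_sum, Complex.exp_sum]
  refine Finset.prod_congr rfl fun i _ => ?_
  have h6 : ∀ x : κ → ℂ, (NormedSpace.exp x) i = NormedSpace.exp (x i) := by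
    intro x
    exact NormedSpace.map_exp (Pi.evalRingHom (fun _ : κ => ℂ) i) (continuous_apply i) x
  rw [h6, Complex.exp_eq_exp_ℂ]
  rfl

theorem det_symm {r : MM κ ℂ} (hr : IsStarProjection r) :
    (1 - (2 : ℂ) • r).mat.det = Complex.exp (Complex.I * (Real.pi * r.mat.trace)) := by
  obtain ⟨f, l, h1, h2, h3, h4⟩ := C1_diag (a := r) (pjs hr)
  have h5 : (fun i => (l i : ℂ)) * (fun i => (l i : ℂ)) = (fun i => (l i : ℂ)) := by
    apply h3
    rw [map_mul, h1, pjm hr]
  have h6 : (1 - (2 : ℂ) • r) = f (1 - (2 : ℂ) • (fun i => (l i : ℂ))) := by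
    rw [map_sub, map_one, map_smul, h1]
  rw [h6, h2, h4, Finset.mul_sum, Finset.mul_sum, Complex.exp_sum]
  refine Finset.prod_congr rfl fun i _ => ?_
  have h7 := congrFun h5 i
  simp only [Pi.mul_apply] at h7
  have h8 : (l i : ℂ) = 0 ∨ (l i : ℂ) = 1 := by
    have : (l i : ℂ) * ((l i : ℂ) - 1) = 0 := by rw [mul_sub, h7]; ring
    rcases mul_eq_zero.1 this with h | h
    · exact Or.inl h
    · exact Or.inr (sub_eq_zero.1 h)
  simp only [Pi.sub_apply, Pi.one_apply, Pi.smul_apply, smul_eq_mul]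
  rcases h8 with h | h
  · rw [h]; simp
  · rw [h, mul_one, mul_one, mul_comm, Complex.exp_pi_mul_I]; norm_num

end Helper19.BL
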