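import Pool.Agent.Helper19.BL.C1

/-! # MODULE C2: the trace of the logarithm of unitary matrices near 1

`trArg u = tr (arg u)`, `arg u = Unitary.argSelfAdjoint u` (Mathlib/Analysis/CStarAlgebra/Unitary/Connected.lean).
`exp_trArg`: `expUnitary_argSelfAdjoint` + `det_expUnitary`.
`trArg_exp`: `argSelfAdjoint_expUnitary`.
`trArg_path`: `t ↦ trArg (u t)` is continuous on `[0,1]` (`Unitary.continuousOn_argSelfAdjoint`; `X ↦ X.mat.trace` is continuous by
`MM.continuous_entry`), and `exp (i trArg (u t)) = 1`, so its values are in `2π ℤ`; it vanishes at `0` (`trArg 1 = 0`); a continuous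
function on `[0,1]` with values in `2πℤ` is constant (`IsPreconnected.constant`-type lemma, or intermediate value theorem for the real part).
`trArg_mul`: apply the same argument to `t ↦ trArg (u * e_t) - trArg u - trArg e_t`, `e_t = expUnitary (t • argSelfAdjoint v)`,
`‖e_t - 1‖ ≤ ‖v - 1‖` (`Unitary.norm_expUnitary_smul_argSelfAdjoint_sub_one_le`), `‖u e_t - 1‖ ≤ ‖u-1‖ + ‖e_t - 1‖ < 1`.
`trArg_conj`: `s (arg u) s*` is self-adjoint of norm `≤ ‖arg u‖ < π` (`Unitary.norm_argSelfAdjoint`) with exponential `s u s*`. -/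

set_option linter.unusedSectionVars false

open scoped Matrix

namespace Helper19.BL

variable {κ : Type*} [Fintype κ] [DecidableEq κ]

/-- trace of the logarithm (divided by `i`) -/
noncomputable def trArg (u : unitary (MM κ ℂ)) : ℂ :=
  ((Unitary.argSelfAdjoint u : selfAdjoint (MM κ ℂ)) : MM κ ℂ).mat.trace

theorem exp_trArg {u : unitary (MM κ ℂ)} (hu : ‖(u : MM κ ℂ) - 1‖ < 2) :
    Complex.exp (Complex.I * trArg u) = (u : MM κ ℂ).mat.det := by
  have h := det_expUnitary (Unitary.argSelfAdjoint u)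
  rw [expUnitary_argSelfAdjoint hu] at h
  rw [h]
  rfl

theorem trArg_exp {a : selfAdjoint (MM κ ℂ)} (ha : ‖(a : MM κ ℂ)‖ < Real.pi) :
    trArg (selfAdjoint.expUnitary a) = (a : MM κ ℂ).mat.trace := by
  unfold trArg
  rw [argSelfAdjoint_expUnitary ha]

theorem trArg_one : trArg (1 : unitary (MM κ ℂ)) = 0 := by
  have h : ‖((0 : selfAdjoint (MM κ ℂ)) : MM κ ℂ)‖ < Real.pi := by
    simp [Real.pi_pos]
  have h2 := trArg_exp h
  rw [selfAdjoint.expUnitary_zero] at h2
  rw [h2]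
  simp

theorem C2_continuous_trace : Continuous (fun X : MM κ ℂ => X.mat.trace) := by
  unfold Matrix.trace
  simp only [Matrix.diag_apply]
  exact continuous_finsetSum _ fun i _ => MM.continuous_entry i i

theorem C2_continuousOn_trArg :
    ContinuousOn (trArg : unitary (MM κ ℂ) → ℂ) (Metric.ball 1 2) := by
  have h := (Unitary.continuousOn_argSelfAdjoint (A := MM κ ℂ))
  exact (C2_continuous_trace.comp continuous_subtype_val).comp_continuousOn h

theorem C2_mem_ball {u : unitary (MM κ ℂ)} (hu : ‖(u : MM κ ℂ) - 1‖ < 2) :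
    u ∈ Metric.ball (1 : unitary (MM κ ℂ)) 2 := by
  rw [Metric.mem_ball, Subtype.dist_eq, dist_eq_norm]
  exact hu

/-- a continuous function with values in `2 π ℤ` is constant -/
theorem C2_const {f : ℝ → ℂ} (hc : ContinuousOn f (Set.Icc 0 1))
    (he : ∀ t ∈ Set.Icc (0 : ℝ) 1, Complex.exp (Complex.I * f t) = 1) (h0 : f 0 = 0) :
    f 1 = 0 := by
  have hint : ∀ t ∈ Set.Icc (0 : ℝ) 1, ∃ n : ℤ, f t = n * (2 * Real.pi) := by
    intro t ht
    obtain ⟨n, hn⟩ := Complex.exp_eq_one_iff.mp (he t ht)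
    refine ⟨n, ?_⟩
    have h1 : Complex.I * f t = Complex.I * (n * (2 * Real.pi)) := by rw [hn]; ring
    exact mul_left_cancel₀ Complex.I_ne_zero h1
  have hpi : (2 * Real.pi) ≠ 0 := by positivity
  have hg : ContinuousOn (fun t => (f t).re / (2 * Real.pi)) (Set.Icc 0 1) :=
    (Complex.continuous_re.comp_continuousOn hc).div_const _
  have hval : ∀ t ∈ Set.Icc (0 : ℝ) 1, ∀ n : ℤ, f t = n * (2 * Real.pi) →
      (f t).re / (2 * Real.pi) = n := by
    intro t _ n hn
    have h1 : f t = ((n * (2 * Real.pi) : ℝ) : ℂ) := by rw [hn]; push_cast; ring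
    rw [h1, Complex.ofReal_re]
    field_simp
  have hdisc : IsDiscrete (Set.range (Int.cast : ℤ → ℝ)) := by
    constructor
    have h := (Int.isClosedEmbedding_coe_real.isEmbedding.toHomeomorph).symm.isEmbedding
    exact h.discreteTopology
  have h01 : (fun t => (f t).re / (2 * Real.pi)) 1 = (fun t => (f t).re / (2 * Real.pi)) 0 := by
    refine isPreconnected_Icc.constant_of_mapsTo hdisc hg ?_ (by simp) (by simp)
    intro t ht
    obtain ⟨n, hn⟩ := hint t ht
    exact ⟨n, (hval t ht n hn).symm⟩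
  obtain ⟨n, hn⟩ := hint 1 (by simp)
  have h1 := hval 1 (by simp) n hn
  simp only [h0, Complex.zero_re, zero_div] at h01
  rw [h01] at h1
  have hn0 : n = 0 := by exact_mod_cast h1.symm
  rw [hn, hn0]
  simp

theorem trArg_path {u : ℝ → unitary (MM κ ℂ)} (hc : ContinuousOn u (Set.Icc 0 1)) (h0 : u 0 = 1)
    (hn : ∀ t ∈ Set.Icc (0 : ℝ) 1, ‖(u t : MM κ ℂ) - 1‖ < 2)
    (hd : ∀ t ∈ Set.Icc (0 : ℝ) 1, (u t : MM κ ℂ).mat.det = 1) : trArg (u 1) = 0 := by
  refine C2_const (f := fun t => trArg (u t)) ?_ ?_ ?_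
  · exact C2_continuousOn_trArg.comp hc (fun t ht => C2_mem_ball (hn t ht))
  · intro t ht
    rw [exp_trArg (hn t ht), hd t ht]
  · rw [h0, trArg_one]

theorem C2_norm_mul_sub_one (u v : unitary (MM κ ℂ)) :
    ‖((u * v : unitary (MM κ ℂ)) : MM κ ℂ) - 1‖ ≤ ‖(u : MM κ ℂ) - 1‖ + ‖(v : MM κ ℂ) - 1‖ := by
  have h : ((u * v : unitary (MM κ ℂ)) : MM κ ℂ) - 1 =
      ((u : MM κ ℂ) - 1) + (u : MM κ ℂ) * ((v : MM κ ℂ) - 1) := by
    rw [Submonoid.coe_mul]
    noncomm_ring
  rw [h]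
  refine (norm_add_le _ _).trans ?_
  rw [CStarRing.norm_coe_unitary_mul]

theorem trArg_mul {u v : unitary (MM κ ℂ)} (hu : ‖(u : MM κ ℂ) - 1‖ < 1 / 2)
    (hv : ‖(v : MM κ ℂ) - 1‖ < 1 / 2) : trArg (u * v) = trArg u + trArg v := by
  have hv2 : ‖(v : MM κ ℂ) - 1‖ < 2 := by linarith
  have hu2 : ‖(u : MM κ ℂ) - 1‖ < 2 := by linarith
  let e : ℝ → unitary (MM κ ℂ) :=
    fun t => selfAdjoint.expUnitary (t • Unitary.argSelfAdjoint v)
  have hec : Continuous e := by
    refine selfAdjoint.continuous_expUnitary.comp ?_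
    fun_prop
  have hen : ∀ t ∈ Set.Icc (0 : ℝ) 1, ‖(e t : MM κ ℂ) - 1‖ < 1 / 2 := fun t ht =>
    (Unitary.norm_expUnitary_smul_argSelfAdjoint_sub_one_le v ht hv2).trans_lt hv
  have huen : ∀ t ∈ Set.Icc (0 : ℝ) 1, ‖((u * e t : unitary (MM κ ℂ)) : MM κ ℂ) - 1‖ < 2 := by
    intro t ht
    have h1 := C2_norm_mul_sub_one u (e t)
    have h2 := hen t ht
    linarith
  have e0 : e 0 = 1 := by
    change selfAdjoint.expUnitary ((0 : ℝ) • Unitary.argSelfAdjoint v) = 1
    rw [zero_smul, selfAdjoint.expUnitary_zero]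
  have e1 : e 1 = v := by
    change selfAdjoint.expUnitary ((1 : ℝ) • Unitary.argSelfAdjoint v) = v
    rw [one_smul, expUnitary_argSelfAdjoint hv2]
  have key := C2_const (f := fun t => trArg (u * e t) - trArg u - trArg (e t)) ?_ ?_ ?_
  · change trArg (u * e 1) - trArg u - trArg (e 1) = 0 at key
    rw [e1] at key
    linear_combination key
  · refine ContinuousOn.sub (ContinuousOn.sub ?_ continuousOn_const) ?_
    · have h1 : ContinuousOn (fun t => u * e t) (Set.Icc 0 1) :=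
        (continuous_const.mul hec).continuousOn
      exact ContinuousOn.comp (g := (trArg : unitary (MM κ ℂ) → ℂ)) C2_continuousOn_trArg h1
        (fun t ht => C2_mem_ball (huen t ht))
    · exact ContinuousOn.comp (g := (trArg : unitary (MM κ ℂ) → ℂ)) C2_continuousOn_trArg
        hec.continuousOn (fun t ht => C2_mem_ball ((hen t ht).trans (by norm_num)))
  · intro t ht
    have h1 := exp_trArg (huen t ht)
    have h2 := exp_trArg hu2
    have h3 := exp_trArg ((hen t ht).trans (by norm_num))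
    have h4 : ((u * e t : unitary (MM κ ℂ)) : MM κ ℂ).mat.det =
        (u : MM κ ℂ).mat.det * (e t : MM κ ℂ).mat.det := by
      rw [Submonoid.coe_mul, MM.mat_mul, Matrix.det_mul]
    rw [← h1, ← h2, ← h3] at h4
    have h5 : Complex.I * (trArg (u * e t) - trArg u - trArg (e t)) =
        Complex.I * trArg (u * e t) - (Complex.I * trArg u + Complex.I * trArg (e t)) := by ring
    rw [h5, Complex.exp_sub, Complex.exp_add, h4, div_self]
    exact mul_ne_zero (Complex.exp_ne_zero _) (Complex.exp_ne_zero _)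
  · rw [e0, mul_one, trArg_one]
    ring

theorem C2_norm_arg_lt {u : unitary (MM κ ℂ)} (hu : ‖(u : MM κ ℂ) - 1‖ < 2) :
    ‖((Unitary.argSelfAdjoint u : selfAdjoint (MM κ ℂ)) : MM κ ℂ)‖ < Real.pi := by
  have h := (Unitary.openPartialHomeomorph (A := MM κ ℂ)).map_source (x := u) (C2_mem_ball hu)
  have h2 : Unitary.argSelfAdjoint u ∈ Metric.ball (0 : selfAdjoint (MM κ ℂ)) Real.pi := h
  rw [Metric.mem_ball, dist_zero_right] at h2
  exact h2

theorem trArg_conj {s u : unitary (MM κ ℂ)} (hu : ‖(u : MM κ ℂ) - 1‖ < 2) :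
    trArg (s * u * star s) = trArg u := by
  set a := Unitary.argSelfAdjoint u with ha
  have hua : selfAdjoint.expUnitary a = u := expUnitary_argSelfAdjoint hu
  let f : MM κ ℂ →⋆ₐ[ℂ] MM κ ℂ := ((Unitary.conjStarAlgAut ℂ (MM κ ℂ) s : MM κ ℂ ≃⋆ₐ[ℂ] MM κ ℂ) :
    MM κ ℂ →⋆ₐ[ℂ] MM κ ℂ)
  have hf : ∀ x, f x = (s : MM κ ℂ) * x * star (s : MM κ ℂ) := fun x =>
    Unitary.conjStarAlgAut_apply (S := ℂ) s x
  have h1 := map_expUnitary f a
  rw [hua, hf] at h1
  set b : selfAdjoint (MM κ ℂ) := ⟨f (a : MM κ ℂ), by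
        rw [selfAdjoint.mem_iff, ← map_star, a.2.star_eq]⟩ with hb
  have h2 : s * u * star s = selfAdjoint.expUnitary b := by
    apply Subtype.ext
    rw [← h1]
    simp
  have hbn : ‖(b : MM κ ℂ)‖ < Real.pi := by
    have h3 : (b : MM κ ℂ) = (s : MM κ ℂ) * (a : MM κ ℂ) * star (s : MM κ ℂ) := hf _
    rw [h3]
    have h4 : ‖(s : MM κ ℂ) * (a : MM κ ℂ) * star (s : MM κ ℂ)‖ ≤ ‖(a : MM κ ℂ)‖ := by
      have h5 : (s : MM κ ℂ) * (a : MM κ ℂ) * star (s : MM κ ℂ) =
        (s : MM κ ℂ) * ((a : MM κ ℂ) * ((star s : unitary (MM κ ℂ)) : MM κ ℂ)) := by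
        rw [mul_assoc]; simp
      rw [h5, CStarRing.norm_coe_unitary_mul, CStarRing.norm_mul_coe_unitary]
    exact h4.trans_lt (C2_norm_arg_lt hu)
  rw [h2, trArg_exp hbn]
  change (f (a : MM κ ℂ)).mat.trace = _
  rw [hf, MM.mat_mul, MM.mat_mul, Matrix.trace_mul_cycle, ← MM.mat_mul]
  have h6 : star (s : MM κ ℂ) * (s : MM κ ℂ) = 1 := Unitary.coe_star_mul_self s
  rw [h6, MM.mat_one, one_mul]
  rfl

end Helper19.BL
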