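import Pool.Agent.Helper19.BL.C2

/-! # MODULE C3: the two block computations for Lemma C

Write `U t := expUnitary (t • a)` (`t : ℝ`), `U (-t) = (U t)⁻¹` (commuting exponentials: `Commute.expUnitary_add`).

`block_int`: take determinants: `det f1(U 1) = exp (i tr f1 a)`, `det f2 (U(-1)) = exp (-i tr f2 a)` (`map_expUnitary`, `det_expUnitary`), `det (1-2r) =
exp (iπ tr r)` (`det_symm`), so `exp (i (tr f1 a - tr f2 a - tr h - π tr r)) = 1` (`Complex.exp_eq_one_iff`).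

`block_main`: `C_t := f1(U t) f2(U(-t)) f3(U t) f4(U(-t))`, a continuous path of unitaries, `C_0 = 1`,
`‖C_t - 1‖ ≤ ‖f2(U(-t)) f3(U t) - 1‖ + ‖f1(U t) f4(U(-t)) - 1‖ ≤ 1/20 + 1/20` (`f2(U(-t)) f2(U t) = 1`), `det C_t = exp (it (tr f1 a - tr f2 a + tr f3 a - tr f4 a)) = 1`.
So `trArg C_1 = 0` (`trArg_path`).  With `s = 1-2r`, `s' = 1-2r'` (symmetries, unitary), `E = exp(ih)`, `E' = exp(ih')`:
`C_1 = s E s' E' = (s s') (s' E s') E'`.  `‖s s' - 1‖ = ‖s' - s‖ ≤ 1/8`, `‖E - 1‖ ≤ 1/8` (`selfAdjoint.norm_sq_expUnitary_sub_one`, `1 - cos x ≤ x²/2`).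
`trArg_mul` twice, `trArg_conj`, `trArg_exp`: `0 = trArg (s s') + tr h + tr h'`.  Finally `trArg (s s') = 0`: `s' s = s' (s s') s'⁻¹` is conjugate to `s s'` and is its inverse:
`0 = trArg 1 = trArg (s s') + trArg (s' s) = 2 trArg (s s')`. -/

set_option linter.unusedSectionVars false

open scoped Matrix

namespace Helper19.BL

variable {κ : Type*} [Fintype κ] [DecidableEq κ]

theorem C3_det {M : Type*} [CStarAlgebra M] (f : M →⋆ₐ[ℂ] MM κ ℂ) (a : selfAdjoint M) :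
    (f ((selfAdjoint.expUnitary a : unitary M) : M)).mat.det =
      Complex.exp (Complex.I * (f (a : M)).mat.trace) := by
  rw [map_expUnitary, det_expUnitary]

theorem block_int {M : Type*} [CStarAlgebra M] (f1 f2 : M →⋆ₐ[ℂ] MM κ ℂ) (a : selfAdjoint M)
    {r : MM κ ℂ} (hr : IsStarProjection r) (h : selfAdjoint (MM κ ℂ))
    (e : f1 ((selfAdjoint.expUnitary a : unitary M) : M) *
      f2 ((selfAdjoint.expUnitary (-a) : unitary M) : M) =
      (1 - (2 : ℂ) • r) * ((selfAdjoint.expUnitary h : unitary (MM κ ℂ)) : MM κ ℂ)) :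
    ∃ g : ℤ, (f1 (a : M)).mat.trace - (f2 (a : M)).mat.trace - (h : MM κ ℂ).mat.trace -
      Real.pi * r.mat.trace = 2 * Real.pi * g := by
  have h1 := congrArg (fun x : MM κ ℂ => x.mat.det) e
  simp only [MM.mat_mul, Matrix.det_mul] at h1
  rw [C3_det, C3_det, det_symm hr, det_expUnitary] at h1
  have h2 : (f2 ((-a : selfAdjoint M) : M)).mat.trace = -(f2 (a : M)).mat.trace := by
    have h3 : ((-a : selfAdjoint M) : M) = -(a : M) := rfl
    rw [h3, map_neg, MM.mat_neg, Matrix.trace_neg]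
  rw [h2, ← Complex.exp_add, ← Complex.exp_add] at h1
  have h4 : Complex.exp (Complex.I * ((f1 (a : M)).mat.trace - (f2 (a : M)).mat.trace -
      (h : MM κ ℂ).mat.trace - Real.pi * r.mat.trace)) = 1 := by
    have h5 : Complex.I * ((f1 (a : M)).mat.trace - (f2 (a : M)).mat.trace -
        (h : MM κ ℂ).mat.trace - Real.pi * r.mat.trace) =
        (Complex.I * (f1 (a : M)).mat.trace + Complex.I * -(f2 (a : M)).mat.trace) -
        (Complex.I * (Real.pi * r.mat.trace) + Complex.I * (h : MM κ ℂ).mat.trace) := by ring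
    rw [h5, Complex.exp_sub, h1, div_self (Complex.exp_ne_zero _)]
  obtain ⟨n, hn⟩ := Complex.exp_eq_one_iff.mp h4
  refine ⟨n, mul_left_cancel₀ Complex.I_ne_zero ?_⟩
  rw [hn]
  ring

theorem C3_norm_unitary_le {M : Type*} [CStarAlgebra M] (u : unitary M) : ‖(u : M)‖ ≤ 1 := by
  rcases subsingleton_or_nontrivial M with hM | hM
  · rw [Subsingleton.elim (u : M) 0, norm_zero]
    exact zero_le_one
  · exact (CStarRing.norm_coe_unitary u).le

theorem C3_norm_exp_sub_one_le {h : selfAdjoint (MM κ ℂ)} (hh : ‖(h : MM κ ℂ)‖ ≤ 1 / 8) :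
    ‖((selfAdjoint.expUnitary h : unitary (MM κ ℂ)) : MM κ ℂ) - 1‖ ≤ 1 / 8 := by
  have hpi : ‖h‖ ≤ Real.pi := by
    have h1 : ‖h‖ ≤ 1 / 8 := hh
    have h2 := Real.pi_gt_three
    linarith
  have h1 := selfAdjoint.norm_sq_expUnitary_sub_one hpi
  have h2 : 1 - ‖h‖ ^ 2 / 2 ≤ Real.cos ‖h‖ := Real.one_sub_sq_div_two_le_cos
  have h3 : ‖((selfAdjoint.expUnitary h : unitary (MM κ ℂ)) : MM κ ℂ) - 1‖ ^ 2 ≤ (1 / 8) ^ 2 := by
    have h4 : ‖h‖ ^ 2 ≤ (1 / 8) ^ 2 := by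
      have h5 : ‖h‖ ≤ 1 / 8 := hh
      have h6 : 0 ≤ ‖h‖ := norm_nonneg _
      nlinarith
    linarith
  exact le_of_sq_le_sq h3 (by norm_num)

/-- the path of unitaries attached to a homomorphism -/
noncomputable def C3_F {M : Type*} [CStarAlgebra M] (f : M →⋆ₐ[ℂ] MM κ ℂ) (a : selfAdjoint M)
    (t : ℝ) : unitary (MM κ ℂ) :=
  selfAdjoint.expUnitary (t • (⟨f (a : M), by
        rw [selfAdjoint.mem_iff, ← map_star, a.2.star_eq]⟩ : selfAdjoint (MM κ ℂ)))

theorem C3_F_coe {M : Type*} [CStarAlgebra M] (f : M →⋆ₐ[ℂ] MM κ ℂ) (a : selfAdjoint M)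
    (t : ℝ) : (C3_F f a t : MM κ ℂ) =
      f ((selfAdjoint.expUnitary (t • a) : unitary M) : M) := by
  rw [map_expUnitary, C3_F]
  congr 2
  apply Subtype.ext
  change t • f (a : M) = f (t • (a : M))
  rw [← Complex.coe_smul, ← Complex.coe_smul, map_smul]

theorem C3_F_continuous {M : Type*} [CStarAlgebra M] (f : M →⋆ₐ[ℂ] MM κ ℂ) (a : selfAdjoint M) :
    Continuous (C3_F f a) := by
  unfold C3_F
  exact selfAdjoint.continuous_expUnitary.comp (by fun_prop)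

theorem C3_F_zero {M : Type*} [CStarAlgebra M] (f : M →⋆ₐ[ℂ] MM κ ℂ) (a : selfAdjoint M) :
    C3_F f a 0 = 1 := by
  rw [C3_F, zero_smul, selfAdjoint.expUnitary_zero]

theorem C3_F_neg {M : Type*} [CStarAlgebra M] (f : M →⋆ₐ[ℂ] MM κ ℂ) (a : selfAdjoint M) (t : ℝ) :
    C3_F f a (-t) * C3_F f a t = 1 := by
  unfold C3_F
  rw [← Commute.expUnitary_add, ← add_smul, neg_add_cancel, zero_smul,
    selfAdjoint.expUnitary_zero]
  change Commute ((-t) • f (a : M)) (t • f (a : M))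
  exact ((Commute.refl _).smul_left _).smul_right _

theorem C3_F_neg' {M : Type*} [CStarAlgebra M] (f : M →⋆ₐ[ℂ] MM κ ℂ) (a : selfAdjoint M) (t : ℝ) :
    C3_F f a t * C3_F f a (-t) = 1 := by
  have h := C3_F_neg f a (-t)
  rwa [neg_neg] at h

theorem C3_F_det {M : Type*} [CStarAlgebra M] (f : M →⋆ₐ[ℂ] MM κ ℂ) (a : selfAdjoint M) (t : ℝ) :
    (C3_F f a t : MM κ ℂ).mat.det = Complex.exp (Complex.I * (t * (f (a : M)).mat.trace)) := by
  rw [C3_F, det_expUnitary]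
  congr 2
  change (t • f (a : M)).mat.trace = _
  rw [← Complex.coe_smul, MM.mat_smul, Matrix.trace_smul, smul_eq_mul]

/-- the symmetry `1 - 2 r` -/
noncomputable def C3_s {r : MM κ ℂ} (hr : IsStarProjection r) : unitary (MM κ ℂ) :=
  ⟨1 - (2 : ℂ) • r, by
    have h1 : star (1 - (2 : ℂ) • r) = 1 - (2 : ℂ) • r := by
      rw [star_sub, star_one, star_smul, hr.isSelfAdjoint.star_eq]
      congr 2
      simp
    have h2 : (1 - (2 : ℂ) • r) * (1 - (2 : ℂ) • r) = 1 := by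
      have h3 : r * r = r := hr.isIdempotentElem.eq
      rw [sub_mul, mul_sub, mul_sub, one_mul, one_mul, mul_one, smul_mul_smul_comm, h3]
      module
    rw [Unitary.mem_iff, h1]
    exact ⟨h2, h2⟩⟩

theorem C3_s_coe {r : MM κ ℂ} (hr : IsStarProjection r) :
    (C3_s hr : MM κ ℂ) = 1 - (2 : ℂ) • r := rfl

theorem C3_s_star {r : MM κ ℂ} (hr : IsStarProjection r) : star (C3_s hr) = C3_s hr := by
  apply Subtype.ext
  change star (1 - (2 : ℂ) • r) = 1 - (2 : ℂ) • r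
  rw [star_sub, star_one, star_smul, hr.isSelfAdjoint.star_eq]
  congr 2
  simp

theorem C3_s_mul_self {r : MM κ ℂ} (hr : IsStarProjection r) : C3_s hr * C3_s hr = 1 := by
  have h : star (C3_s hr) * C3_s hr = 1 := Unitary.star_mul_self (C3_s hr)
  rwa [C3_s_star] at h

theorem block_main {M : Type*} [CStarAlgebra M] (f1 f2 f3 f4 : M →⋆ₐ[ℂ] MM κ ℂ)
    (a : selfAdjoint M) {r r' : MM κ ℂ} (hr : IsStarProjection r) (hr' : IsStarProjection r')
    (h h' : selfAdjoint (MM κ ℂ)) (hh : ‖(h : MM κ ℂ)‖ ≤ 1 / 8) (hh' : ‖(h' : MM κ ℂ)‖ ≤ 1 / 8)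
    (hrr : ‖r - r'‖ ≤ 1 / 16)
    (e : f1 ((selfAdjoint.expUnitary a : unitary M) : M) *
      f2 ((selfAdjoint.expUnitary (-a) : unitary M) : M) =
      (1 - (2 : ℂ) • r) * ((selfAdjoint.expUnitary h : unitary (MM κ ℂ)) : MM κ ℂ))
    (e' : f3 ((selfAdjoint.expUnitary a : unitary M) : M) *
      f4 ((selfAdjoint.expUnitary (-a) : unitary M) : M) =
      (1 - (2 : ℂ) • r') * ((selfAdjoint.expUnitary h' : unitary (MM κ ℂ)) : MM κ ℂ))
    (hn1 : ∀ x, ‖f1 x - f4 x‖ ≤ 1 / 20 * ‖x‖) (hn2 : ∀ x, ‖f2 x - f3 x‖ ≤ 1 / 20 * ‖x‖)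
    (ht1 : (f1 (a : M)).mat.trace = (f4 (a : M)).mat.trace)
    (ht2 : (f2 (a : M)).mat.trace = (f3 (a : M)).mat.trace) :
    (h : MM κ ℂ).mat.trace + (h' : MM κ ℂ).mat.trace = 0 := by
  -- the path
  let C : ℝ → unitary (MM κ ℂ) :=
    fun t => C3_F f1 a t * (C3_F f2 a (-t) * C3_F f3 a t) * C3_F f4 a (-t)
  have hCc : Continuous C :=
    ((C3_F_continuous f1 a).mul (((C3_F_continuous f2 a).comp continuous_neg).mul
      (C3_F_continuous f3 a))).mul ((C3_F_continuous f4 a).comp continuous_neg)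
  have hC0 : C 0 = 1 := by
    change C3_F f1 a 0 * (C3_F f2 a (-0) * C3_F f3 a 0) * C3_F f4 a (-0) = 1
    rw [neg_zero, C3_F_zero, C3_F_zero, C3_F_zero, C3_F_zero]
    simp
  have hW : ∀ t, ‖((C3_F f2 a (-t) * C3_F f3 a t : unitary (MM κ ℂ)) : MM κ ℂ) - 1‖ ≤ 1 / 20 := by
    intro t
    have h1 : ((C3_F f2 a (-t) * C3_F f3 a t : unitary (MM κ ℂ)) : MM κ ℂ) - 1 =
        (C3_F f2 a (-t) : MM κ ℂ) * ((C3_F f3 a t : MM κ ℂ) - (C3_F f2 a t : MM κ ℂ)) := by
      rw [mul_sub, ← Submonoid.coe_mul, ← Submonoid.coe_mul, C3_F_neg]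
      rfl
    rw [h1, CStarRing.norm_coe_unitary_mul, C3_F_coe, C3_F_coe, norm_sub_rev]
    refine (hn2 _).trans ?_
    have h2 := C3_norm_unitary_le (selfAdjoint.expUnitary (t • a))
    linarith
  have hV : ∀ t, ‖((C3_F f1 a t * C3_F f4 a (-t) : unitary (MM κ ℂ)) : MM κ ℂ) - 1‖ ≤ 1 / 20 := by
    intro t
    have h1 : ((C3_F f1 a t * C3_F f4 a (-t) : unitary (MM κ ℂ)) : MM κ ℂ) - 1 =
        ((C3_F f1 a t : MM κ ℂ) - (C3_F f4 a t : MM κ ℂ)) * (C3_F f4 a (-t) : MM κ ℂ) := by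
      rw [sub_mul, ← Submonoid.coe_mul, ← Submonoid.coe_mul, C3_F_neg']
      rfl
    rw [h1, CStarRing.norm_mul_coe_unitary, C3_F_coe, C3_F_coe]
    refine (hn1 _).trans ?_
    have h2 := C3_norm_unitary_le (selfAdjoint.expUnitary (t • a))
    linarith
  have hCn : ∀ t, ‖(C t : MM κ ℂ) - 1‖ < 2 := by
    intro t
    have h1 : (C t : MM κ ℂ) - 1 =
        (C3_F f1 a t : MM κ ℂ) *
          ((((C3_F f2 a (-t) * C3_F f3 a t : unitary (MM κ ℂ)) : MM κ ℂ) - 1) *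
          (C3_F f4 a (-t) : MM κ ℂ)) +
        (((C3_F f1 a t * C3_F f4 a (-t) : unitary (MM κ ℂ)) : MM κ ℂ) - 1) := by
      change ((C3_F f1 a t * (C3_F f2 a (-t) * C3_F f3 a t) * C3_F f4 a (-t) :
        unitary (MM κ ℂ)) : MM κ ℂ) - 1 = _
      simp only [Submonoid.coe_mul]
      noncomm_ring
    rw [h1]
    have h2 := norm_add_le ((C3_F f1 a t : MM κ ℂ) *
          ((((C3_F f2 a (-t) * C3_F f3 a t : unitary (MM κ ℂ)) : MM κ ℂ) - 1) *
          (C3_F f4 a (-t) : MM κ ℂ)))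
          (((C3_F f1 a t * C3_F f4 a (-t) : unitary (MM κ ℂ)) : MM κ ℂ) - 1)
    rw [CStarRing.norm_coe_unitary_mul, CStarRing.norm_mul_coe_unitary] at h2
    have h3 := hW t
    have h4 := hV t
    linarith
  have hCd : ∀ t, (C t : MM κ ℂ).mat.det = 1 := by
    intro t
    change ((C3_F f1 a t * (C3_F f2 a (-t) * C3_F f3 a t) * C3_F f4 a (-t) :
        unitary (MM κ ℂ)) : MM κ ℂ).mat.det = 1
    simp only [Submonoid.coe_mul, MM.mat_mul, Matrix.det_mul, C3_F_det]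
    rw [← Complex.exp_add, ← Complex.exp_add, ← Complex.exp_add, ht1, ht2]
    rw [← Complex.exp_zero]
    congr 1
    push_cast
    ring
  have hC1 : trArg (C 1) = 0 :=
    trArg_path hCc.continuousOn hC0 (fun t _ => hCn t) (fun t _ => hCd t)
  -- the factorisation
  set s := C3_s hr with hs
  set s' := C3_s hr' with hs'
  set E : unitary (MM κ ℂ) := selfAdjoint.expUnitary h with hE
  set E' : unitary (MM κ ℂ) := selfAdjoint.expUnitary h' with hE'
  have hss : s' * s' = 1 := C3_s_mul_self hr'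
  have hf1 : C3_F f1 a 1 * C3_F f2 a (-1) = s * E := by
    apply Subtype.ext
    rw [Submonoid.coe_mul, Submonoid.coe_mul, C3_F_coe, C3_F_coe, one_smul, neg_one_smul]
    exact e
  have hf3 : C3_F f3 a 1 * C3_F f4 a (-1) = s' * E' := by
    apply Subtype.ext
    rw [Submonoid.coe_mul, Submonoid.coe_mul, C3_F_coe, C3_F_coe, one_smul, neg_one_smul]
    exact e'
  have hfac : C 1 = ((s * s') * (s' * E * star s')) * E' := by
    change C3_F f1 a 1 * (C3_F f2 a (-1) * C3_F f3 a 1) * C3_F f4 a (-1) = _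
    have h1 : C3_F f1 a 1 * (C3_F f2 a (-1) * C3_F f3 a 1) * C3_F f4 a (-1) =
        (C3_F f1 a 1 * C3_F f2 a (-1)) * (C3_F f3 a 1 * C3_F f4 a (-1)) := by
      simp only [mul_assoc]
    rw [h1, hf1, hf3, hs', C3_s_star, ← hs']
    have h2 : (s * s') * (s' * E * s') * E' = s * (s' * s') * E * s' * E' := by
      simp only [mul_assoc]
    rw [h2, hss, mul_one]
    simp only [mul_assoc]
  -- norms
  have hnE : ‖(E : MM κ ℂ) - 1‖ ≤ 1 / 8 := C3_norm_exp_sub_one_le hh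
  have hnE' : ‖(E' : MM κ ℂ) - 1‖ ≤ 1 / 8 := C3_norm_exp_sub_one_le hh'
  have hnss : ‖((s * s' : unitary (MM κ ℂ)) : MM κ ℂ) - 1‖ ≤ 1 / 8 := by
    have hss2 : s * s = 1 := C3_s_mul_self hr
    have h1 : ((s * s' : unitary (MM κ ℂ)) : MM κ ℂ) - 1 =
        (s : MM κ ℂ) * ((s' : MM κ ℂ) - (s : MM κ ℂ)) := by
      rw [mul_sub, ← Submonoid.coe_mul, ← Submonoid.coe_mul, hss2]
      rfl
    rw [h1, CStarRing.norm_coe_unitary_mul, hs, hs', C3_s_coe, C3_s_coe]
    have h2 : (1 - (2 : ℂ) • r') - (1 - (2 : ℂ) • r) = (2 : ℂ) • (r - r') := by module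
    rw [h2, norm_smul, Complex.norm_ofNat]
    linarith
  have hnconj : ‖((s' * E * star s' : unitary (MM κ ℂ)) : MM κ ℂ) - 1‖ ≤ 1 / 8 := by
    have h1 : ((s' * E * star s' : unitary (MM κ ℂ)) : MM κ ℂ) - 1 =
        (s' : MM κ ℂ) * (((E : MM κ ℂ) - 1) * ((star s' : unitary (MM κ ℂ)) : MM κ ℂ)) := by
      have h2 : (s' : MM κ ℂ) * ((star s' : unitary (MM κ ℂ)) : MM κ ℂ) = 1 := by
        rw [← Submonoid.coe_mul]
        have h3 : s' * star s' = 1 := Unitary.mul_star_self _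
        rw [h3]
        rfl
      rw [sub_mul, mul_sub, one_mul, h2, Submonoid.coe_mul, Submonoid.coe_mul, mul_assoc]
    rw [h1, CStarRing.norm_coe_unitary_mul, CStarRing.norm_mul_coe_unitary]
    exact hnE
  have hnprod : ‖(((s * s') * (s' * E * star s') : unitary (MM κ ℂ)) : MM κ ℂ) - 1‖ ≤ 1 / 4 := by
    refine (C2_norm_mul_sub_one _ _).trans ?_
    linarith
  rw [hfac, trArg_mul (by linarith) (by linarith), trArg_mul (by linarith) (by linarith),
    trArg_conj (by linarith)] at hC1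
  have hpi := Real.pi_gt_three
  rw [hE, hE', trArg_exp (by linarith), trArg_exp (by linarith)] at hC1
  -- the symmetries
  have hzero : trArg (s * s') = 0 := by
    have h1 : s' * (s * s') * star s' = s' * s := by
      rw [hs', C3_s_star, ← hs', mul_assoc, mul_assoc, hss, mul_one]
    have h2 : trArg (s' * s) = trArg (s * s') := by
      rw [← h1]
      exact trArg_conj (by linarith)
    have h3 : ‖((s' * s : unitary (MM κ ℂ)) : MM κ ℂ) - 1‖ ≤ 1 / 8 := by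
      have h4 : ((s' * s : unitary (MM κ ℂ)) : MM κ ℂ) - 1 =
          star (((s * s' : unitary (MM κ ℂ)) : MM κ ℂ) - 1) := by
        rw [star_sub, star_one, ← Unitary.coe_star, star_mul, hs, hs', C3_s_star, C3_s_star]
      rw [h4, norm_star]
      exact hnss
    have h5 := trArg_mul (u := s * s') (v := s' * s) (by linarith) (by linarith)
    have h6 : s * s' * (s' * s) = 1 := by
      have h7 : s * s' * (s' * s) = s * (s' * s') * s := by simp only [mul_assoc]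
      rw [h7, hss, mul_one]
      exact C3_s_mul_self hr
    rw [h6, trArg_one, h2] at h5
    have h8 : (2 : ℂ) * trArg (s * s') = 0 := by rw [two_mul]; exact h5.symm
    exact (mul_eq_zero.mp h8).resolve_left two_ne_zero
  rw [hzero, zero_add] at hC1
  exact hC1

end Helper19.BL
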