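import Pool.Agent.Helper19.BL.C3
import Pool.Agent.Helper19.BL.B6
import Pool.Agent.Helper19.BL.B7
import Pool.Agent.Helper19.BL.B8
import Pool.Agent.Helper19.BL.B10

/-! # MODULE C4: Lemma C

`Φ² = 1`, `v Φ(v)* = 1 - 2r`.  Then `[r] = g + Φ_* g` for some `g ∈ K0 A`.

Proof.  `ε = 1/400`.  Since `v Φ(v)* = 1-2r`, applying `Φ`: `Φ(v) v* = 1 - 2Φ(r)`, and taking adjoints `v Φ(v)* = 1 - 2Φ(r)`, so `Φ(r) = r`.
STEP 1. `exp_approx`: `a₁ ∈ D n₁` self-adjoint with `emb (exp i a₁)` within `ε` of `v`; `proj_approx` at a level `n ≥ n₁`: `r₀ ∈ D n` projection, `emb r₀` within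
`ε` of `r`; `a := up a₁ ∈ D n` (`map_expUnitary`).  `U := expUnitary a ∈ D n`, `expUnitary (-a) = star U`.
STEP 2. `near_hom` for `Φ ∘ emb n`: `ψ1 : D n → D m` within `ε`, `m ≥ n`; `near_hom` for `Φ ∘ emb m`: `ψ2 : D m → D k` within `ε`, `k ≥ m`.
STEP 3. `c₁ := up U * ψ1 (star U) ∈ D m`, `R := up r₀ ∈ D m`; `emb c₁` is within `3ε` of `v Φ(v)* = 1 - 2r`, so `c₁` is within `5ε` of `1 - 2R`.
`(1-2R) c₁` is unitary within `5ε` of `1`; `h := argSelfAdjoint ((1-2R) c₁) ∈ D m`, `exp (i h) = (1-2R) c₁` (`expUnitary_argSelfAdjoint`),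
`‖h‖ ≤ 1/8` (`Unitary.norm_argSelfAdjoint`: `‖h‖ = arccos (1 - δ²/2)`, `δ ≤ 5ε`; `cos (1/8) ≤ 1 - δ²/2`).  So `c₁ = (1 - 2R) exp (i h)`.
STEP 4. For each vertex `b`: `block_int` with `f1 = ev_b ∘ up`, `f2 = ev_b ∘ ψ1`: integer `g_b`,
`tr_b (up a) - tr_b (ψ1 a) - tr_b h - π tr_b R = 2π g_b`.
STEP 5. For each vertex `w` of level `k`: `block_main` with `f1 = ev_w ∘ up_{nk}`, `f2 = ev_w ∘ up_{mk} ∘ ψ1`, `f3 = ev_w ∘ ψ2 ∘ up_{nm}`, `f4 = ev_w ∘ ψ2 ∘ ψ1`,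
`r = ev_w (up R)`, `r' = ev_w (ψ2 R)`, `h = ev_w (up h)`, `h' = ev_w (ψ2 h)`: nearness: `ψ2 ψ1 x ≈ Φ Φ x = x`, `ψ2 (up x) ≈ Φ x ≈ ψ1 x` (within `2ε`);
`ψ2 R ≈ Φ r = r ≈ R`.  Traces: `tr_eq_of_near` (compare homs `D n → D k`).  So `tr_w (up h) + tr_w (ψ2 h) = 0`.
(`ev_w : D k → MM (P k w) ℂ` is a star homomorphism; `‖ev_w x‖ ≤ ‖x‖`.)
STEP 6. Multiplicities `c` of `ψ2` (`exists_mult`), `T^(k-m)` for `up` (`tr_up`).  Sum: for every `w`:
`∑_b (T^(k-m) b w + c b w) 2π g_b = [tr_w up a - tr_w up ψ1 a - tr_w up h - π tr_w up R] + [tr_w ψ2 up a - tr_w ψ2 ψ1 a - tr_w ψ2 h - π tr_w ψ2 R] = -2π tr_w (up R)`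
(`tr_w ψ2 R = tr_w up R` by `tr_eq_of_near_proj`), so `∑_b (T^(k-m) b w + c b w) g_b = - rk_w (up R)` as integers (`tr_proj`).
STEP 7. `g := -∑_b g_b • Vto (u m b)`.  `Vto (u m b) = ∑_w T^(k-m) b w • Vto (u k w)` (`u_add`), `K0map Φ (Vto (u m b)) = ∑_w c b w • Vto (u k w)` (`Vmap_u_of_near`,
`K0map_Vto`), so `g + K0map Φ g = ∑_w rk_w (up R) • Vto (u k w) = Vto (cls1 (emb (up R))) = Vto (cls1 r)` (`cls_emb`, `proj_close`). -/

set_option linter.unusedSectionVars false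

open scoped Matrix

namespace Helper19.BL

section C4gen

variable {M N : Type*} [CStarAlgebra M] [CStarAlgebra N]

/-- the symmetry `1 - 2R` squares to one -/
theorem C4_symm_sq {R : M} (hR : IsStarProjection R) :
    (1 - (2 : ℂ) • R) * (1 - (2 : ℂ) • R) = 1 := by
  have : (1 - (2 : ℂ) • R) * (1 - (2 : ℂ) • R) = 1 - (2 : ℂ) • R - (2 : ℂ) • R +
      ((2 : ℂ) * 2) • (R * R) := by
    rw [sub_mul, mul_sub, mul_sub, one_mul, mul_one, one_mul, smul_mul_smul_comm]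
    abel
  rw [this, pjm hR]
  have h2 : ((2 : ℂ) * 2) • R = (2 : ℂ) • R + (2 : ℂ) • R := by rw [← add_smul]; norm_num
  rw [h2]; abel

theorem C4_symm_star {R : M} (hR : IsStarProjection R) :
    star (1 - (2 : ℂ) • R) = 1 - (2 : ℂ) • R := by
  rw [star_sub, star_one, star_smul, pjs hR]
  norm_num

theorem C4_symm_unitary {R : M} (hR : IsStarProjection R) :
    (1 - (2 : ℂ) • R) ∈ unitary M := by
  rw [Unitary.mem_iff, C4_symm_star hR]
  exact ⟨C4_symm_sq hR, C4_symm_sq hR⟩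

theorem C4_unitary_norm {u : M} (hu : u ∈ unitary M) : ‖u‖ ≤ 1 := by
  have h1 : ‖u‖ * ‖u‖ = ‖(1 : M)‖ := by
    rw [← CStarRing.norm_star_mul_self, (Unitary.mem_iff.1 hu).1]
  have h2 : ‖(1 : M)‖ ≤ 1 := pj_norm_le pj_one
  nlinarith [norm_nonneg u]

/-- STEP 3: the logarithm -/
theorem C4_log {R c : M} (hR : IsStarProjection R) (hc : c ∈ unitary M)
    (h : ‖c - (1 - (2 : ℂ) • R)‖ ≤ 1 / 80) :
    ∃ a : selfAdjoint M, ‖(a : M)‖ ≤ 1 / 8 ∧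
      c = (1 - (2 : ℂ) • R) * ((selfAdjoint.expUnitary a : unitary M) : M) := by
  have hu : (1 - (2 : ℂ) • R) * c ∈ unitary M := (unitary M).mul_mem (C4_symm_unitary hR) hc
  have hn : ‖(1 - (2 : ℂ) • R) * c - 1‖ ≤ 1 / 80 := by
    have e1 : (1 - (2 : ℂ) • R) * c - 1 = (1 - (2 : ℂ) • R) * (c - (1 - (2 : ℂ) • R)) := by
      rw [mul_sub, C4_symm_sq hR]
    rw [e1]
    calc ‖(1 - (2 : ℂ) • R) * (c - (1 - (2 : ℂ) • R))‖
        ≤ ‖(1 - (2 : ℂ) • R)‖ * ‖c - (1 - (2 : ℂ) • R)‖ := norm_mul_le _ _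
      _ ≤ 1 * (1 / 80) := mul_le_mul (C4_unitary_norm (C4_symm_unitary hR)) h (norm_nonneg _)
          zero_le_one
      _ = 1 / 80 := one_mul _
  obtain ⟨u, hudef⟩ : ∃ u : unitary M, (u : M) = (1 - (2 : ℂ) • R) * c := ⟨⟨_, hu⟩, rfl⟩
  rw [← hudef] at hn
  have hn2 : ‖(u - 1 : M)‖ < 2 := lt_of_le_of_lt hn (by norm_num)
  refine ⟨Unitary.argSelfAdjoint u, ?_, ?_⟩
  · have h3 := Unitary.two_mul_one_sub_cos_norm_argSelfAdjoint hn2
    have h4 : ‖(u - 1 : M)‖ ^ 2 ≤ (1 / 80) ^ 2 := pow_le_pow_left₀ (norm_nonneg _) hn 2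
    by_contra hlt
    push Not at hlt
    have h5 : ‖Unitary.argSelfAdjoint u‖ = ‖((Unitary.argSelfAdjoint u : selfAdjoint M) : M)‖ := rfl
    rw [← h5] at hlt
    have h6 := Unitary.norm_argSelfAdjoint_le_pi u
    have h7 : Real.cos ‖Unitary.argSelfAdjoint u‖ ≤ Real.cos (1 / 8) :=
      Real.cos_le_cos_of_nonneg_of_le_pi (by norm_num) h6 hlt.le
    have h8 := (abs_le.1 (Real.cos_bound (x := 1 / 8) (by rw [abs_of_pos (by norm_num)]; norm_num))).2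
    rw [abs_of_pos (by norm_num : (0 : ℝ) < 1 / 8)] at h8
    norm_num at h8 h4
    linarith
  · rw [expUnitary_argSelfAdjoint hn2, hudef, ← mul_assoc, C4_symm_sq hR, one_mul]

theorem C4_exp_neg (a : selfAdjoint M) :
    ((selfAdjoint.expUnitary (-a) : unitary M) : M) =
      star ((selfAdjoint.expUnitary a : unitary M) : M) := by
  have h : selfAdjoint.expUnitary (a + -a) = selfAdjoint.expUnitary a * selfAdjoint.expUnitary (-a) :=
    Commute.expUnitary_add (by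
      change Commute (a : M) (-(a : M))
      exact (Commute.refl _).neg_right)
  rw [add_neg_cancel, selfAdjoint.expUnitary_zero] at h
  have h2 : (1 : M) = (selfAdjoint.expUnitary a : unitary M) *
      ((selfAdjoint.expUnitary (-a) : unitary M) : M) := congrArg Subtype.val h
  have h3 : star ((selfAdjoint.expUnitary a : unitary M) : M) *
      ((selfAdjoint.expUnitary a : unitary M) : M) = 1 :=
    (Unitary.mem_iff.1 (selfAdjoint.expUnitary a).2).1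
  calc ((selfAdjoint.expUnitary (-a) : unitary M) : M)
      = 1 * ((selfAdjoint.expUnitary (-a) : unitary M) : M) := (one_mul _).symm
    _ = star ((selfAdjoint.expUnitary a : unitary M) : M) *
        ((selfAdjoint.expUnitary a : unitary M) * ((selfAdjoint.expUnitary (-a) : unitary M) : M)) := by
        rw [← mul_assoc, h3]
    _ = _ := by rw [← h2, mul_one]

theorem C4_hom_norm (f : M →⋆ₐ[ℂ] N) (x : M) : ‖f x‖ ≤ ‖x‖ :=
  NonUnitalStarAlgHom.norm_apply_le (f : M →⋆ₙₐ[ℂ] N) x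

theorem C4_prod_near {x y v w : M} {e1 e2 : ℝ} (hx : ‖x - v‖ ≤ e1) (hy : ‖y - w‖ ≤ e2)
    (hy1 : ‖y‖ ≤ 1) (hv1 : ‖v‖ ≤ 1) : ‖x * y - v * w‖ ≤ e1 + e2 := by
  have e : x * y - v * w = (x - v) * y + v * (y - w) := by noncomm_ring
  rw [e]
  calc ‖(x - v) * y + v * (y - w)‖ ≤ ‖(x - v) * y‖ + ‖v * (y - w)‖ := norm_add_le _ _
    _ ≤ ‖x - v‖ * ‖y‖ + ‖v‖ * ‖y - w‖ := add_le_add (norm_mul_le _ _) (norm_mul_le _ _)
    _ ≤ e1 * 1 + 1 * e2 := by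
        apply add_le_add
        · exact mul_le_mul hx hy1 (norm_nonneg _) ((norm_nonneg _).trans hx)
        · exact mul_le_mul hv1 hy (norm_nonneg _) zero_le_one
    _ = e1 + e2 := by ring

theorem C4_map_unitary (f : M →⋆ₐ[ℂ] N) {u : M} (hu : u ∈ unitary M) : f u ∈ unitary N := by
  rw [Unitary.mem_iff] at hu ⊢
  rw [← map_star, ← map_mul, ← map_mul, hu.1, hu.2, map_one]
  exact ⟨rfl, rfl⟩

/-- image of a self-adjoint element -/
def C4_sa (g : M →⋆ₐ[ℂ] N) (x : selfAdjoint M) : selfAdjoint N :=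
  ⟨g (x : M), by rw [selfAdjoint.mem_iff, ← map_star, x.2.star_eq]⟩

theorem C4_sa_coe (g : M →⋆ₐ[ℂ] N) (x : selfAdjoint M) : ((C4_sa g x : selfAdjoint N) : N) = g (x : M) :=
  rfl

theorem C4_push (g : M →⋆ₐ[ℂ] N) {c R : M} (hh : selfAdjoint M)
    (hc : c = (1 - (2 : ℂ) • R) * ((selfAdjoint.expUnitary hh : unitary M) : M)) :
    g c = (1 - (2 : ℂ) • g R) * ((selfAdjoint.expUnitary (C4_sa g hh) : unitary N) : N) := by
  rw [hc, map_mul, map_sub, map_one, map_smul, map_expUnitary]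
  rfl

end C4gen

section C4brat

variable {V0 : Type} [Fintype V0] [DecidableEq V0] {T : V0 → V0 → ℕ}
  {A : Type*} [CStarAlgebra A] (B : Brat V0 T A)

/-- evaluation at a vertex -/
noncomputable def C4_ev {k : ℕ} (w : V0) : B.D k →⋆ₐ[ℂ] MM (B.P k w) ℂ :=
  Pi.evalStarAlgHom ℂ (fun v => MM (B.P k v) ℂ) w

theorem C4_ev_tr {k : ℕ} (w : V0) (x : B.D k) : (C4_ev B w x).mat.trace = B.tr k w x := rfl

theorem C4_phi_r (Φ : A ≃⋆ₐ[ℂ] A) (hΦ : ∀ a, Φ (Φ a) = a) {r v : A} (hr : IsStarProjection r)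
    (h : v * star (Φ v) = 1 - (2 : ℂ) • r) : Φ r = r := by
  have h1 : Φ v * star v = 1 - (2 : ℂ) • Φ r := by
    have := congrArg Φ h
    rw [map_mul, map_star, hΦ, map_sub, map_one, map_smul] at this
    exact this
  have h2 : Φ v * star v = 1 - (2 : ℂ) • r := by
    have := congrArg star h
    rw [star_mul, star_star, C4_symm_star hr] at this
    exact this
  have h3 : (2 : ℂ) • Φ r = (2 : ℂ) • r := by
    have := h1.symm.trans h2
    exact sub_right_injective this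
  have h4 := congrArg (fun x => (1 / 2 : ℂ) • x) h3
  simp only [smul_smul] at h4
  norm_num at h4
  exact h4

/-- STEPS 1, 2 -/
theorem C4_step12 (Φ : A ≃⋆ₐ[ℂ] A) {r v : A} (hr : IsStarProjection r) (hv : v ∈ unitary A) :
    ∃ (n m d : ℕ) (_hnm : n ≤ m) (a : selfAdjoint (B.D n)) (r₀ : B.D n)
      (ψ1 : B.D n →⋆ₐ[ℂ] B.D m) (ψ2 : B.D m →⋆ₐ[ℂ] B.D (m + d)), IsStarProjection r₀ ∧
      ‖B.emb n ((selfAdjoint.expUnitary a : unitary (B.D n)) : B.D n) - v‖ ≤ 1 / 400 ∧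
      ‖B.emb n r₀ - r‖ ≤ 1 / 400 ∧ (∀ x, ‖B.emb m (ψ1 x) - Φ (B.emb n x)‖ ≤ 1 / 400 * ‖x‖) ∧
      (∀ x, ‖B.emb (m + d) (ψ2 x) - Φ (B.emb m x)‖ ≤ 1 / 400 * ‖x‖) := by
  obtain ⟨n1, -, a1, ha1⟩ := B.exp_approx hv (ε := 1 / 400) (by norm_num) 0
  obtain ⟨n, hn, r0, hr0, hr0n⟩ := B.proj_approx hr (ε := 1 / 400) (by norm_num) n1
  obtain ⟨m, hm, ψ1, hψ1⟩ := B.near_hom ((Φ : A →⋆ₐ[ℂ] A).comp (B.emb n)) (ε := 1 / 400)
    (by norm_num) n
  obtain ⟨k, hk, ψ2, hψ2⟩ := B.near_hom ((Φ : A →⋆ₐ[ℂ] A).comp (B.emb m)) (ε := 1 / 400)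
    (by norm_num) m
  obtain ⟨d, rfl⟩ := Nat.exists_eq_add_of_le hk
  refine ⟨n, m, d, hm, C4_sa (B.up hn) a1, r0, ψ1, ψ2, hr0, ?_, hr0n, hψ1, hψ2⟩
  have e1 : ((selfAdjoint.expUnitary (C4_sa (B.up hn) a1) : unitary (B.D n)) : B.D n) =
      B.up hn ((selfAdjoint.expUnitary a1 : unitary (B.D n1)) : B.D n1) :=
    (map_expUnitary (B.up hn) a1).symm
  rw [e1, B.emb_up]
  exact ha1

/-- the data of STEPS 1, 2 -/
structure C4_Data (Φ : A ≃⋆ₐ[ℂ] A) (r v : A) (n m d : ℕ) (a : selfAdjoint (B.D n)) (r₀ : B.D n)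
    (ψ1 : B.D n →⋆ₐ[ℂ] B.D m) (ψ2 : B.D m →⋆ₐ[ℂ] B.D (m + d)) : Prop where
  hΦ : ∀ a, Φ (Φ a) = a
  hr : IsStarProjection r
  hv : v ∈ unitary A
  h : v * star (Φ v) = 1 - (2 : ℂ) • r
  hr0 : IsStarProjection r₀
  ha : ‖B.emb n ((selfAdjoint.expUnitary a : unitary (B.D n)) : B.D n) - v‖ ≤ 1 / 400
  hrr : ‖B.emb n r₀ - r‖ ≤ 1 / 400
  h1 : ∀ x, ‖B.emb m (ψ1 x) - Φ (B.emb n x)‖ ≤ 1 / 400 * ‖x‖
  h2 : ∀ x, ‖B.emb (m + d) (ψ2 x) - Φ (B.emb m x)‖ ≤ 1 / 400 * ‖x‖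

section data

variable {B} {Φ : A ≃⋆ₐ[ℂ] A} {r v : A} {n m d : ℕ} {a : selfAdjoint (B.D n)} {r₀ : B.D n}
  {ψ1 : B.D n →⋆ₐ[ℂ] B.D m} {ψ2 : B.D m →⋆ₐ[ℂ] B.D (m + d)}
  (hD : C4_Data B Φ r v n m d a r₀ ψ1 ψ2) (hnm : n ≤ m)

include hD

theorem C4_phi_norm (x : A) : ‖Φ x‖ ≤ ‖x‖ := C4_hom_norm (Φ : A →⋆ₐ[ℂ] A) x

/-- STEP 3 -/
theorem C4_step3 : ∃ hh : selfAdjoint (B.D m), ‖(hh : B.D m)‖ ≤ 1 / 8 ∧
    B.up hnm ((selfAdjoint.expUnitary a : unitary (B.D n)) : B.D n) *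
      ψ1 (star ((selfAdjoint.expUnitary a : unitary (B.D n)) : B.D n)) =
      (1 - (2 : ℂ) • B.up hnm r₀) * ((selfAdjoint.expUnitary hh : unitary (B.D m)) : B.D m) := by
  obtain ⟨U, hU⟩ : ∃ U : B.D n, U = ((selfAdjoint.expUnitary a : unitary (B.D n)) : B.D n) :=
    ⟨_, rfl⟩
  have hUu : U ∈ unitary (B.D n) := by rw [hU]; exact (selfAdjoint.expUnitary a).2
  have hUs : star U ∈ unitary (B.D n) := Unitary.star_mem hUu
  have haU : ‖B.emb n U - v‖ ≤ 1 / 400 := by rw [hU]; exact hD.ha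
  rw [← hU]
  apply C4_log (pj_map _ hD.hr0)
  · exact (unitary (B.D m)).mul_mem (C4_map_unitary _ hUu) (C4_map_unitary _ hUs)
  · rw [← B.norm_emb m, map_sub, map_mul, B.emb_up, map_sub, map_one, map_smul, B.emb_up]
    have e1 : ‖B.emb m (ψ1 (star U)) - star (Φ v)‖ ≤ 2 / 400 := by
      have e2 : B.emb m (ψ1 (star U)) - star (Φ v) =
          (B.emb m (ψ1 (star U)) - Φ (B.emb n (star U))) + star (Φ (B.emb n U - v)) := by
        rw [map_sub, star_sub, map_star (B.emb n), map_star Φ]; abel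
      rw [e2]
      have e3 : ‖B.emb m (ψ1 (star U)) - Φ (B.emb n (star U))‖ ≤ 1 / 400 := by
        refine (hD.h1 _).trans ?_
        have := C4_unitary_norm hUs
        linarith
      have e4 : ‖star (Φ (B.emb n U - v))‖ ≤ 1 / 400 := by
        rw [norm_star]
        exact (C4_hom_norm (Φ : A →⋆ₐ[ℂ] A) _).trans haU
      calc _ ≤ _ := norm_add_le _ _
        _ ≤ 1 / 400 + 1 / 400 := add_le_add e3 e4
        _ = 2 / 400 := by norm_num
    have e5 : ‖B.emb m (ψ1 (star U))‖ ≤ 1 :=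
      ((C4_hom_norm _ _).trans (C4_hom_norm _ _)).trans (C4_unitary_norm hUs)
    have e6 := C4_prod_near haU e1 e5 (C4_unitary_norm hD.hv)
    rw [hD.h] at e6
    have e7 : B.emb n U * B.emb m (ψ1 (star U)) - (1 - (2 : ℂ) • B.emb n r₀) =
        (B.emb n U * B.emb m (ψ1 (star U)) - (1 - (2 : ℂ) • r)) + (2 : ℂ) • (B.emb n r₀ - r) := by
      rw [smul_sub]; abel
    rw [e7]
    calc _ ≤ _ := norm_add_le _ _
      _ ≤ (1 / 400 + 2 / 400) + 2 * (1 / 400) := by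
          apply add_le_add e6
          rw [norm_smul]
          have : ‖(2 : ℂ)‖ = 2 := by simp
          rw [this]
          exact mul_le_mul_of_nonneg_left hD.hrr (by norm_num)
      _ = 1 / 80 := by norm_num

/-- STEP 4 -/
theorem C4_step4 {hh : selfAdjoint (B.D m)}
    (hc : B.up hnm ((selfAdjoint.expUnitary a : unitary (B.D n)) : B.D n) *
      ψ1 (star ((selfAdjoint.expUnitary a : unitary (B.D n)) : B.D n)) =
      (1 - (2 : ℂ) • B.up hnm r₀) * ((selfAdjoint.expUnitary hh : unitary (B.D m)) : B.D m))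
    (b : V0) :
    ∃ g : ℤ, B.tr m b (B.up hnm (a : B.D n)) - B.tr m b (ψ1 (a : B.D n)) -
      B.tr m b (hh : B.D m) - Real.pi * B.tr m b (B.up hnm r₀) = 2 * Real.pi * g := by
  have h := block_int ((C4_ev B b).comp (B.up hnm)) ((C4_ev B b).comp ψ1) a
    (r := C4_ev B b (B.up hnm r₀)) (pj_map _ (pj_map _ hD.hr0)) (C4_sa (C4_ev B b) hh) (by
      rw [C4_exp_neg]
      exact C4_push (C4_ev B b) hh hc ▸ (map_mul (C4_ev B b) _ _).symm)
  exact h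

theorem C4_near1 (x : B.D n) :
    ‖B.up (Nat.le_add_right m d) (B.up hnm x) - ψ2 (ψ1 x)‖ ≤ 2 / 400 * ‖x‖ := by
  rw [← B.norm_emb (m + d), map_sub, B.emb_up, B.emb_up]
  have e : B.emb n x - B.emb (m + d) (ψ2 (ψ1 x)) =
      -(Φ (B.emb m (ψ1 x) - Φ (B.emb n x))) - (B.emb (m + d) (ψ2 (ψ1 x)) - Φ (B.emb m (ψ1 x))) := by
    rw [map_sub, hD.hΦ]; abel
  rw [e]
  have e1 : ‖Φ (B.emb m (ψ1 x) - Φ (B.emb n x))‖ ≤ 1 / 400 * ‖x‖ :=
    (C4_hom_norm (Φ : A →⋆ₐ[ℂ] A) _).trans (hD.h1 x)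
  have e2 : ‖B.emb (m + d) (ψ2 (ψ1 x)) - Φ (B.emb m (ψ1 x))‖ ≤ 1 / 400 * ‖x‖ :=
    (hD.h2 _).trans (mul_le_mul_of_nonneg_left (C4_hom_norm ψ1 x) (by norm_num))
  calc _ ≤ _ := norm_sub_le _ _
    _ ≤ 1 / 400 * ‖x‖ + 1 / 400 * ‖x‖ := by
        rw [norm_neg]; exact add_le_add e1 e2
    _ = 2 / 400 * ‖x‖ := by ring

theorem C4_near2 (x : B.D n) :
    ‖B.up (Nat.le_add_right m d) (ψ1 x) - ψ2 (B.up hnm x)‖ ≤ 2 / 400 * ‖x‖ := by
  rw [← B.norm_emb (m + d), map_sub, B.emb_up]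
  have e : B.emb m (ψ1 x) - B.emb (m + d) (ψ2 (B.up hnm x)) =
      (B.emb m (ψ1 x) - Φ (B.emb n x)) - (B.emb (m + d) (ψ2 (B.up hnm x)) - Φ (B.emb m (B.up hnm x))) := by
    rw [B.emb_up hnm x]; abel
  rw [e]
  have e2 : ‖B.emb (m + d) (ψ2 (B.up hnm x)) - Φ (B.emb m (B.up hnm x))‖ ≤ 1 / 400 * ‖x‖ := by
    have := hD.h2 (B.up hnm x)
    rwa [B.norm_up] at this
  calc _ ≤ _ := norm_sub_le _ _
    _ ≤ 1 / 400 * ‖x‖ + 1 / 400 * ‖x‖ := add_le_add (hD.h1 x) e2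
    _ = 2 / 400 * ‖x‖ := by ring

theorem C4_near3 :
    ‖B.up (Nat.le_add_right m d) (B.up hnm r₀) - ψ2 (B.up hnm r₀)‖ ≤ 3 / 400 := by
  rw [← B.norm_emb (m + d), map_sub, B.emb_up, B.emb_up]
  have hphi := C4_phi_r Φ hD.hΦ hD.hr hD.h
  have e : B.emb n r₀ - B.emb (m + d) (ψ2 (B.up hnm r₀)) =
      (B.emb n r₀ - r) - (Φ (B.emb n r₀ - r)) -
        (B.emb (m + d) (ψ2 (B.up hnm r₀)) - Φ (B.emb m (B.up hnm r₀))) := by
    rw [B.emb_up hnm r₀, map_sub, hphi]; abel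
  rw [e]
  have e1 : ‖Φ (B.emb n r₀ - r)‖ ≤ 1 / 400 :=
    (C4_hom_norm (Φ : A →⋆ₐ[ℂ] A) _).trans hD.hrr
  have e2 : ‖B.emb (m + d) (ψ2 (B.up hnm r₀)) - Φ (B.emb m (B.up hnm r₀))‖ ≤ 1 / 400 := by
    refine (hD.h2 _).trans ?_
    have := pj_norm_le (pj_map (B.up hnm) hD.hr0)
    linarith
  have e3 := hD.hrr
  calc _ ≤ _ := norm_sub_le _ _
    _ ≤ ‖(B.emb n r₀ - r) - (Φ (B.emb n r₀ - r))‖ + 1 / 400 := by gcongr
    _ ≤ (‖B.emb n r₀ - r‖ + ‖Φ (B.emb n r₀ - r)‖) + 1 / 400 := by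
        gcongr; exact norm_sub_le _ _
    _ ≤ 3 / 400 := by linarith

/-- STEP 5 -/
theorem C4_step5 {hh : selfAdjoint (B.D m)} (hhn : ‖(hh : B.D m)‖ ≤ 1 / 8)
    (hc : B.up hnm ((selfAdjoint.expUnitary a : unitary (B.D n)) : B.D n) *
      ψ1 (star ((selfAdjoint.expUnitary a : unitary (B.D n)) : B.D n)) =
      (1 - (2 : ℂ) • B.up hnm r₀) * ((selfAdjoint.expUnitary hh : unitary (B.D m)) : B.D m))
    (w : V0) :
    B.tr (m + d) w (B.up (Nat.le_add_right m d) (B.up hnm (a : B.D n))) =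
      B.tr (m + d) w (ψ2 (ψ1 (a : B.D n))) ∧
    B.tr (m + d) w (B.up (Nat.le_add_right m d) (ψ1 (a : B.D n))) =
      B.tr (m + d) w (ψ2 (B.up hnm (a : B.D n))) ∧
    B.tr (m + d) w (B.up (Nat.le_add_right m d) (hh : B.D m)) +
      B.tr (m + d) w (ψ2 (hh : B.D m)) = 0 := by
  have ht1 : B.tr (m + d) w (B.up (Nat.le_add_right m d) (B.up hnm (a : B.D n))) =
      B.tr (m + d) w (ψ2 (ψ1 (a : B.D n))) := by
    refine B.tr_eq_of_near ((B.up (Nat.le_add_right m d)).comp (B.up hnm)) (ψ2.comp ψ1)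
      (fun x => ?_) (a : B.D n) w
    refine (C4_near1 hD hnm x).trans ?_
    exact mul_le_mul_of_nonneg_right (by norm_num) (norm_nonneg _)
  have ht2 : B.tr (m + d) w (B.up (Nat.le_add_right m d) (ψ1 (a : B.D n))) =
      B.tr (m + d) w (ψ2 (B.up hnm (a : B.D n))) := by
    refine B.tr_eq_of_near ((B.up (Nat.le_add_right m d)).comp ψ1) (ψ2.comp (B.up hnm))
      (fun x => ?_) (a : B.D n) w
    refine (C4_near2 hD hnm x).trans ?_
    exact mul_le_mul_of_nonneg_right (by norm_num) (norm_nonneg _)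
  refine ⟨ht1, ht2, ?_⟩
  have h := block_main
    ((C4_ev B w).comp ((B.up (Nat.le_add_right m d)).comp (B.up hnm)))
    ((C4_ev B w).comp ((B.up (Nat.le_add_right m d)).comp ψ1))
    ((C4_ev B w).comp (ψ2.comp (B.up hnm)))
    ((C4_ev B w).comp (ψ2.comp ψ1)) a
    (r := C4_ev B w (B.up (Nat.le_add_right m d) (B.up hnm r₀)))
    (r' := C4_ev B w (ψ2 (B.up hnm r₀)))
    (pj_map _ (pj_map _ (pj_map _ hD.hr0))) (pj_map _ (pj_map _ (pj_map _ hD.hr0)))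
    (C4_sa ((C4_ev B w).comp (B.up (Nat.le_add_right m d))) hh)
    (C4_sa ((C4_ev B w).comp ψ2) hh)
    ((C4_hom_norm _ _).trans hhn) ((C4_hom_norm _ _).trans hhn)
    (by
      rw [← map_sub]
      refine (C4_hom_norm _ _).trans ((C4_near3 hD hnm).trans (by norm_num)))
    (by
      rw [C4_exp_neg]
      exact C4_push ((C4_ev B w).comp (B.up (Nat.le_add_right m d))) hh hc ▸
        (map_mul ((C4_ev B w).comp (B.up (Nat.le_add_right m d))) _ _).symm)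
    (by
      rw [C4_exp_neg]
      exact C4_push ((C4_ev B w).comp ψ2) hh hc ▸
        (map_mul ((C4_ev B w).comp ψ2) _ _).symm)
    (fun x => by
      have e : ((C4_ev B w).comp ((B.up (Nat.le_add_right m d)).comp (B.up hnm))) x -
          ((C4_ev B w).comp (ψ2.comp ψ1)) x =
          C4_ev B w (B.up (Nat.le_add_right m d) (B.up hnm x) - ψ2 (ψ1 x)) := by
        rw [map_sub]; rfl
      rw [e]
      refine (C4_hom_norm _ _).trans ((C4_near1 hD hnm x).trans ?_)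
      exact mul_le_mul_of_nonneg_right (by norm_num) (norm_nonneg _))
    (fun x => by
      have e : ((C4_ev B w).comp ((B.up (Nat.le_add_right m d)).comp ψ1)) x -
          ((C4_ev B w).comp (ψ2.comp (B.up hnm))) x =
          C4_ev B w (B.up (Nat.le_add_right m d) (ψ1 x) - ψ2 (B.up hnm x)) := by
        rw [map_sub]; rfl
      rw [e]
      refine (C4_hom_norm _ _).trans ((C4_near2 hD hnm x).trans ?_)
      exact mul_le_mul_of_nonneg_right (by norm_num) (norm_nonneg _))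
    ht1 ht2
  exact h

/-- STEP 6 -/
theorem C4_step6 : ∃ (c : V0 → V0 → ℕ) (g : V0 → ℤ),
    (∀ x w, B.tr (m + d) w (ψ2 x) = ∑ b, (c b w : ℂ) * B.tr m b x) ∧
    ∀ w, ∑ b, g b * ((((Matrix.of T) ^ d) b w : ℕ) + (c b w : ℤ)) =
      -(B.rk (m + d) w (B.up (Nat.le_add_right m d) (B.up hnm r₀)) : ℤ) := by
  obtain ⟨hh, hhn, hc⟩ := C4_step3 hD hnm
  choose g hg using fun b => C4_step4 hD hnm hc b
  obtain ⟨c, hcm⟩ := B.exists_mult ψ2
  refine ⟨c, g, hcm, fun w => ?_⟩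
  obtain ⟨s1, s2, s3⟩ := C4_step5 hD hnm hhn hc w
  have hup : ∀ x, B.tr (m + d) w (B.up (Nat.le_add_right m d) x) =
      ∑ b, (((Matrix.of T) ^ d) b w : ℂ) * B.tr m b x := by
    intro x
    rw [B.tr_up, Nat.add_sub_cancel_left]
  have hL : ∀ x, ∑ b, ((((Matrix.of T) ^ d) b w : ℂ) + (c b w : ℂ)) * B.tr m b x =
      B.tr (m + d) w (B.up (Nat.le_add_right m d) x) + B.tr (m + d) w (ψ2 x) := by
    intro x
    rw [hup, hcm, ← Finset.sum_add_distrib]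
    exact Finset.sum_congr rfl fun b _ => by ring
  have hR1 : B.tr (m + d) w (B.up (Nat.le_add_right m d) (B.up hnm r₀)) =
      (B.rk (m + d) w (B.up (Nat.le_add_right m d) (B.up hnm r₀)) : ℂ) :=
    B.tr_proj (pj_map _ (pj_map _ hD.hr0)) w
  have hR2 : B.tr (m + d) w (B.up (Nat.le_add_right m d) (B.up hnm r₀)) =
      B.tr (m + d) w (ψ2 (B.up hnm r₀)) :=
    B.tr_eq_of_near_proj (pj_map _ (pj_map _ hD.hr0)) (pj_map _ (pj_map _ hD.hr0))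
      ((C4_near3 hD hnm).trans (by norm_num)) w
  have key : ∑ b, ((((Matrix.of T) ^ d) b w : ℂ) + (c b w : ℂ)) * (2 * Real.pi * g b) =
      -2 * Real.pi * (B.rk (m + d) w (B.up (Nat.le_add_right m d) (B.up hnm r₀)) : ℂ) := by
    have e1 : ∀ b, ((((Matrix.of T) ^ d) b w : ℂ) + (c b w : ℂ)) * (2 * Real.pi * g b) =
        ((((Matrix.of T) ^ d) b w : ℂ) + (c b w : ℂ)) * B.tr m b (B.up hnm (a : B.D n)) -
        ((((Matrix.of T) ^ d) b w : ℂ) + (c b w : ℂ)) * B.tr m b (ψ1 (a : B.D n)) -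
        ((((Matrix.of T) ^ d) b w : ℂ) + (c b w : ℂ)) * B.tr m b (hh : B.D m) -
        Real.pi * (((((Matrix.of T) ^ d) b w : ℂ) + (c b w : ℂ)) * B.tr m b (B.up hnm r₀)) := by
      intro b
      rw [← hg b]; ring
    rw [Finset.sum_congr rfl fun b _ => e1 b, Finset.sum_sub_distrib, Finset.sum_sub_distrib,
      Finset.sum_sub_distrib, ← Finset.mul_sum, hL, hL, hL, hL, ← hR2, hR1, s1, s2]
    linear_combination -s3
  have hpi : (Real.pi : ℂ) ≠ 0 := by exact_mod_cast Real.pi_ne_zero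
  have key2 : ∑ b, (g b : ℂ) * ((((Matrix.of T) ^ d) b w : ℂ) + (c b w : ℂ)) =
      -(B.rk (m + d) w (B.up (Nat.le_add_right m d) (B.up hnm r₀)) : ℂ) := by
    have e2 : ∑ b, ((((Matrix.of T) ^ d) b w : ℂ) + (c b w : ℂ)) * (2 * Real.pi * g b) =
        (2 * Real.pi) * ∑ b, (g b : ℂ) * ((((Matrix.of T) ^ d) b w : ℂ) + (c b w : ℂ)) := by
      rw [Finset.mul_sum]
      exact Finset.sum_congr rfl fun b _ => by ring
    rw [e2] at key
    have h2pi : (2 * Real.pi : ℂ) ≠ 0 := mul_ne_zero two_ne_zero hpi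
    apply mul_left_cancel₀ h2pi
    rw [key]; ring
  exact_mod_cast key2

end data

end C4brat

section main

variable {V0 : Type} [Fintype V0] [DecidableEq V0] {T : V0 → V0 → ℕ}
  {A : Type*} [CStarAlgebra A] (B : Brat V0 T A)

include B in
theorem lemmaC (Φ : A ≃⋆ₐ[ℂ] A) (hΦ : ∀ a, Φ (Φ a) = a) {r v : A} (hr : IsStarProjection r)
    (hv : v ∈ unitary A) (h : v * star (Φ v) = 1 - (2 : ℂ) • r) :
    ∃ g : K0 A, Vto A (cls1 r hr) = g + K0map (Φ : A →⋆ₐ[ℂ] A) g := by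
  obtain ⟨n, m, d, hnm, a, r₀, ψ1, ψ2, q1, q2, q3, q4, q5⟩ := C4_step12 B Φ hr hv
  have hD : C4_Data B Φ r v n m d a r₀ ψ1 ψ2 := ⟨hΦ, hr, hv, h, q1, q2, q3, q4, q5⟩
  obtain ⟨c, g, hc, hg⟩ := C4_step6 hD hnm
  refine ⟨-∑ b, g b • Vto A (B.u m b), ?_⟩
  have hu : ∀ b, Vto A (B.u m b) = ∑ w, ((((Matrix.of T) ^ d) b w : ℕ) : ℤ) • Vto A (B.u (m + d) w) := by
    intro b
    rw [B.u_add m d b, map_sum]
    exact Finset.sum_congr rfl fun w _ => by rw [map_nsmul, natCast_zsmul]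
  have hK : ∀ b, K0map (Φ : A →⋆ₐ[ℂ] A) (Vto A (B.u m b)) =
      ∑ w, (c b w : ℤ) • Vto A (B.u (m + d) w) := by
    intro b
    rw [K0map_Vto, B.Vmap_u_of_near (Φ : A →⋆ₐ[ℂ] A) ψ2 (fun x => (q5 x).trans
      (mul_le_mul_of_nonneg_right (by norm_num) (norm_nonneg _))) c hc b, map_sum]
    exact Finset.sum_congr rfl fun w _ => by rw [map_nsmul, natCast_zsmul]
  -- the class of `r`
  have hcls : Vto A (cls1 r hr) =
      ∑ w, (B.rk (m + d) w (B.up (Nat.le_add_right m d) (B.up hnm r₀)) : ℤ) •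
        Vto A (B.u (m + d) w) := by
    have hp : IsStarProjection (B.emb n r₀) := pj_map _ q1
    have e1 : cls1 r hr = cls1 (B.emb n r₀) hp := by
      obtain ⟨x, x1, x2, -⟩ := proj_close hp hr (q3.trans (by norm_num))
      symm
      rw [cls1_eq_iff]
      exact ⟨x, x1, x2⟩
    have hp2 : IsStarProjection (B.emb (m + d) (B.up (Nat.le_add_right m d) (B.up hnm r₀))) :=
      pj_map _ (pj_map _ (pj_map _ q1))
    have e2 : cls1 (B.emb n r₀) hp =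
        cls1 (B.emb (m + d) (B.up (Nat.le_add_right m d) (B.up hnm r₀))) hp2 :=
      cls1_congr _ _ (by rw [B.emb_up, B.emb_up])
    rw [e1, e2, B.cls_emb (pj_map _ (pj_map _ q1)) hp2, map_sum]
    exact Finset.sum_congr rfl fun w _ => by rw [map_nsmul, natCast_zsmul]
  rw [hcls, map_neg, map_sum, ← neg_add, ← Finset.sum_add_distrib]
  have e3 : ∀ b, g b • Vto A (B.u m b) + K0map (Φ : A →⋆ₐ[ℂ] A) (g b • Vto A (B.u m b)) =
      ∑ w, (g b * ((((Matrix.of T) ^ d) b w : ℕ) + (c b w : ℤ))) • Vto A (B.u (m + d) w) := by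
    intro b
    rw [map_zsmul, hK, hu, Finset.smul_sum, Finset.smul_sum, ← Finset.sum_add_distrib]
    refine Finset.sum_congr rfl fun w _ => ?_
    rw [smul_smul, smul_smul, ← add_smul, ← mul_add]
  rw [Finset.sum_congr rfl fun b _ => e3 b, Finset.sum_comm, ← Finset.sum_neg_distrib]
  refine Finset.sum_congr rfl fun w _ => ?_
  rw [← Finset.sum_smul, hg w, neg_smul, neg_neg]

end main

end Helper19.BL
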