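import Mathlib

/-! # Square matrices over a C*-algebra, as a C*-algebra (type synonym `MM`) -/

set_option linter.unusedSectionVars false

open scoped Matrix

namespace Helper19.BL

/-- Square matrices with entries in a unital C*-algebra, with their C*-norm. -/
def MM (κ : Type*) (A : Type*) : Type _ := CStarMatrix κ κ A

namespace MM

variable {κ ι : Type*} {A B : Type*} [Fintype κ] [DecidableEq κ] [Fintype ι] [DecidableEq ι]
variable [CStarAlgebra A] [CStarAlgebra B]

noncomputable instance instC : CStarAlgebra (MM κ A) :=
  letI : PartialOrder A := CStarAlgebra.spectralOrder A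
  haveI : StarOrderedRing A := CStarAlgebra.spectralOrderedRing A
  inferInstanceAs (CStarAlgebra (CStarMatrix κ κ A))

/-- the underlying matrix -/
def mat (x : MM κ A) : Matrix κ κ A := x

/-- from matrices -/
def of (x : Matrix κ κ A) : MM κ A := x

@[simp] lemma mat_of (x : Matrix κ κ A) : (of x : MM κ A).mat = x := rfl
@[simp] lemma of_mat (x : MM κ A) : of x.mat = x := rfl
lemma mat_injective : Function.Injective (mat : MM κ A → Matrix κ κ A) := fun _ _ h => h
lemma ext' {x y : MM κ A} (h : ∀ i j, x.mat i j = y.mat i j) : x = y := by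
  apply mat_injective; ext i j; exact h i j

@[simp] lemma mat_add (x y : MM κ A) : (x + y).mat = x.mat + y.mat := rfl
@[simp] lemma mat_sub (x y : MM κ A) : (x - y).mat = x.mat - y.mat := rfl
@[simp] lemma mat_neg (x : MM κ A) : (-x).mat = -x.mat := rfl
@[simp] lemma mat_zero : (0 : MM κ A).mat = 0 := rfl
@[simp] lemma mat_one : (1 : MM κ A).mat = 1 := rfl
@[simp] lemma mat_mul (x y : MM κ A) : (x * y).mat = x.mat * y.mat := rfl
@[simp] lemma mat_star (x : MM κ A) : (star x).mat = x.matᴴ := rfl
@[simp] lemma mat_smul (c : ℂ) (x : MM κ A) : (c • x).mat = c • x.mat := rfl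

/-- `mat` as a star algebra isomorphism -/
def matEquiv : MM κ A ≃⋆ₐ[ℂ] Matrix κ κ A where
  toFun := mat
  invFun := of
  left_inv _ := rfl
  right_inv _ := rfl
  map_mul' _ _ := rfl
  map_add' _ _ := rfl
  map_smul' _ _ := rfl
  map_star' _ := rfl

lemma mat_sum {α : Type*} (s : Finset α) (f : α → MM κ A) : (∑ a ∈ s, f a).mat = ∑ a ∈ s, (f a).mat :=
  map_sum (matEquiv (κ := κ) (A := A)) f s

lemma norm_entry_le (x : MM κ A) (i j : κ) : ‖x.mat i j‖ ≤ ‖x‖ :=
  letI : PartialOrder A := CStarAlgebra.spectralOrder A
  haveI : StarOrderedRing A := CStarAlgebra.spectralOrderedRing A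
  CStarMatrix.norm_entry_le_norm (M := (x : CStarMatrix κ κ A))

lemma continuous_entry (i j : κ) : Continuous (fun x : MM κ A => x.mat i j) := by
  refine LipschitzWith.continuous (K := 1) (LipschitzWith.of_dist_le_mul fun x y => ?_)
  rw [dist_eq_norm, dist_eq_norm, NNReal.coe_one, one_mul]
  exact norm_entry_le (x - y) i j

/-- the matrix with a single nonzero entry -/
def single (i j : κ) (a : A) : MM κ A := of (Matrix.single i j a)

lemma single_mul_single (i j k : κ) (a b : A) : single i j a * single j k b = single i k (a * b) := by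
  apply mat_injective; simp [single]

lemma single_mul_single_ne (i j j' k : κ) (a b : A) (h : j ≠ j') :
    single i j a * single j' k b = (0 : MM κ A) := by
  apply mat_injective; simp [single, h]

lemma star_single (i j : κ) (a : A) : star (single i j a : MM κ A) = single j i (star a) := by
  apply mat_injective; simp [single]

lemma sum_single (x : MM κ A) : x = ∑ i, ∑ j, single i j (x.mat i j) := by
  apply mat_injective
  rw [mat_sum]
  conv_lhs => rw [Matrix.matrix_eq_sum_single x.mat]
  refine Finset.sum_congr rfl fun i _ => ?_
  rw [mat_sum]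
  rfl

lemma norm_single (i j : κ) (a : A) : ‖(single i j a : MM κ A)‖ = ‖a‖ := by
  have h1 : ‖(single i j a : MM κ A)‖ ^ 2 = ‖(single j j (star a * a) : MM κ A)‖ := by
    rw [← single_mul_single j i j, ← star_single, CStarRing.norm_star_mul_self, sq]
  apply le_antisymm
  · -- use the star-hom a ↦ single j j a
    have h2 : ‖(single j j (star a * a) : MM κ A)‖ ≤ ‖star a * a‖ := by
      let f : A →⋆ₙₐ[ℂ] MM κ A :=
        { toFun := fun a => single j j a
          map_smul' := fun c a => by apply mat_injective; ext i k; simp [single, Matrix.single_apply]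
          map_zero' := by apply mat_injective; simp [single]
          map_add' := fun a b => by apply mat_injective; ext i k; simp [single, Matrix.single_apply]; split_ifs <;> simp
          map_mul' := fun a b => (single_mul_single j j j a b).symm
          map_star' := fun a => (star_single j j a).symm }
      exact NonUnitalStarAlgHom.norm_apply_le f (star a * a)
    rw [CStarRing.norm_star_mul_self, ← h1, ← sq] at h2
    exact le_of_sq_le_sq h2 (norm_nonneg _)
  · have := norm_entry_le (single i j a : MM κ A) i j
    simpa [single] using this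

lemma norm_le_sum (x : MM κ A) : ‖x‖ ≤ ∑ i, ∑ j, ‖x.mat i j‖ := by
  conv_lhs => rw [sum_single x]
  refine (norm_sum_le _ _).trans (Finset.sum_le_sum fun i _ => ?_)
  refine (norm_sum_le _ _).trans (Finset.sum_le_sum fun j _ => ?_)
  rw [norm_single]

/-- entrywise application of a star homomorphism -/
def map (f : A →⋆ₐ[ℂ] B) : MM κ A →⋆ₐ[ℂ] MM κ B where
  toFun x := of (x.mat.map f)
  map_one' := by
    apply mat_injective
    ext i j
    by_cases h : i = j
    · subst h; simp
    · simp [Matrix.one_apply_ne h]
  map_mul' x y := by apply mat_injective; exact Matrix.map_mul (f := f)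
  map_zero' := by apply mat_injective; ext i j; simp
  map_add' x y := by apply mat_injective; ext i j; simp
  commutes' c := by
    apply mat_injective
    ext i j
    have h1 : (algebraMap ℂ (MM κ A) c) = c • (1 : MM κ A) := Algebra.algebraMap_eq_smul_one c
    have h2 : (algebraMap ℂ (MM κ B) c) = c • (1 : MM κ B) := Algebra.algebraMap_eq_smul_one c
    rw [h1, h2]
    by_cases h : i = j
    · subst h; simp
    · simp [Matrix.one_apply_ne h]
  map_star' x := by
    apply mat_injective
    ext i j
    simp [Matrix.conjTranspose_apply, map_star]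

@[simp] lemma map_apply (f : A →⋆ₐ[ℂ] B) (x : MM κ A) (i j : κ) :
    (map f x).mat i j = f (x.mat i j) := rfl

end MM

end Helper19.BL
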