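import Pool.Agent.Helper19.BL.KDefs
import Pool.Agent.Helper19.BL.MM

/-! # Definitions for MP_9b0829_an (lifting automorphisms of dimension groups) -/

set_option linter.unusedSectionVars false

open scoped Matrix

namespace Helper19.BL

/-! ## AF algebras, order and scale on `K0` -/

/-- A unital C*-algebra is AF if it is separable and has an increasing sequence of
finite-dimensional star subalgebras with dense union. -/
def IsAF (A : Type*) [CStarAlgebra A] : Prop :=
  TopologicalSpace.SeparableSpace A ∧
  ∃ F : ℕ → StarSubalgebra ℂ A, Monotone F ∧ (∀ n, FiniteDimensional ℂ (F n)) ∧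
    Dense (⋃ n, (F n : Set A))

section Classes

variable {A : Type*} [Ring A] [StarRing A]

lemma isPj_of1 {p : A} (hp : IsStarProjection p) :
    IsPj (Matrix.of fun (_ _ : Fin 1) => p) := by
  constructor
  · ext i j
    simp [Matrix.mul_apply, hp.isIdempotentElem.eq]
  · ext i j
    simp [Matrix.conjTranspose_apply, hp.isSelfAdjoint.star_eq]

/-- the class in `V A` of a projection of `A` -/
noncomputable def cls1 (p : A) (hp : IsStarProjection p) : V A :=
  cls (Matrix.of fun (_ _ : Fin 1) => p) (isPj_of1 hp)

/-- The positive cone of `K0 A`: classes of projections in matrix algebras over `A`. -/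
def K0pos (A : Type*) [Ring A] [StarRing A] : Set (K0 A) := Set.range (Vto A)

/-- The scale of `K0 A`: classes of projections of `A`. -/
def K0scale (A : Type*) [Ring A] [StarRing A] : Set (K0 A) :=
  {g | ∃ (p : A) (hp : IsStarProjection p), g = Vto A (cls1 p hp)}

end Classes

section ClsM

variable {κ : Type*} {A : Type*} [Fintype κ] [DecidableEq κ] [CStarAlgebra A]

lemma isPj_mat {x : MM κ A} (hx : IsStarProjection x) : IsPj x.mat := by
  constructor
  · have := congrArg MM.mat hx.isIdempotentElem.eq
    simpa using this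
  · have := congrArg MM.mat hx.isSelfAdjoint.star_eq
    simpa using this

/-- class in `V A` of a projection of `MM κ A` -/
noncomputable def clsM (x : MM κ A) (hx : IsStarProjection x) : V A := cls x.mat (isPj_mat hx)

end ClsM

/-! ## Bratteli systems (stationary) -/

/-- A C*-algebra `A` with compatible systems of matrix units `e n v μ ν`, `μ ν : P n v`
(level `n`, vertex `v`), where a matrix unit of vertex `v` at level `n` is the sum of `T v w` matrix
units of vertex `w` at level `n+1`.  In particular `A` is AF with stationary multiplicities `T`. -/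
structure Brat (V0 : Type) [Fintype V0] [DecidableEq V0] (T : V0 → V0 → ℕ)
    (A : Type*) [CStarAlgebra A] where
  /-- index sets of the matrix units -/
  P : ℕ → V0 → Type
  fin : ∀ n v, Fintype (P n v)
  dec : ∀ n v, DecidableEq (P n v)
  ne : ∀ n v, Nonempty (P n v)
  /-- the matrix units -/
  e : ∀ n v, P n v → P n v → A
  e_ne : ∀ n v μ, e n v μ μ ≠ 0
  e_mul : ∀ n v μ ν ν' l, e n v μ ν * e n v ν' l = if ν = ν' then e n v μ l else 0
  e_mul_ne : ∀ n v w μ ν μ' ν', v ≠ w → e n v μ ν * e n w μ' ν' = 0
  e_star : ∀ n v μ ν, star (e n v μ ν) = e n v ν μ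
  e_one : ∀ n, ∑ v, ∑ μ, e n v μ μ = 1
  /-- decomposition of the index sets of the next level -/
  ext : ∀ n w, (Σ v, P n v × Fin (T v w)) ≃ P (n + 1) w
  e_succ : ∀ n v μ ν, e n v μ ν =
    ∑ w, ∑ k : Fin (T v w), e (n + 1) w (ext n w ⟨v, μ, k⟩) (ext n w ⟨v, ν, k⟩)
  dense : Dense {x : A | ∃ n, x ∈ Submodule.span ℂ {y | ∃ v μ ν, y = e n v μ ν}}

attribute [instance] Brat.fin Brat.dec Brat.ne

namespace Brat

variable {V0 : Type} [Fintype V0] [DecidableEq V0] {T : V0 → V0 → ℕ}
  {A : Type*} [CStarAlgebra A] (B : Brat V0 T A)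

/-- The finite dimensional C*-algebra of level `n`. -/
abbrev D (n : ℕ) : Type := (v : V0) → MM (B.P n v) ℂ

lemma e_proj (n : ℕ) (v : V0) (μ : B.P n v) : IsStarProjection (B.e n v μ μ) :=
  ⟨by change _ * _ = _; rw [B.e_mul, if_pos rfl], B.e_star n v μ μ⟩

/-- class of the minimal projections of vertex `v` at level `n` -/
noncomputable def u (n : ℕ) (v : V0) : V A :=
  cls1 (B.e n v (Classical.arbitrary _) (Classical.arbitrary _)) (B.e_proj n v _)

/-- the embedding of the level `n` algebra, as a function -/
noncomputable def embFun (n : ℕ) (x : B.D n) : A :=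
  ∑ v, ∑ μ, ∑ ν, (x v).mat μ ν • B.e n v μ ν

lemma embFun_mul (n : ℕ) (x y : B.D n) : B.embFun n (x * y) = B.embFun n x * B.embFun n y := by
  unfold embFun
  rw [Finset.sum_mul_sum]
  refine Finset.sum_congr rfl fun v _ => ?_
  rw [Finset.sum_eq_single v]
  · rw [Finset.sum_mul_sum]
    refine Finset.sum_congr rfl fun μ _ => ?_
    have h1 : ∀ μ' : B.P n v, (∑ ν, (x v).mat μ ν • B.e n v μ ν) * (∑ ν, (y v).mat μ' ν • B.e n v μ' ν)
        = ∑ ν, ((x v).mat μ μ' * (y v).mat μ' ν) • B.e n v μ ν := by
      intro μ'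
      rw [Finset.sum_mul_sum, Finset.sum_comm]
      refine Finset.sum_congr rfl fun ν _ => ?_
      rw [Finset.sum_eq_single μ']
      · rw [smul_mul_smul_comm, B.e_mul, if_pos rfl]
      · intro b _ hb
        rw [smul_mul_smul_comm, B.e_mul, if_neg hb, smul_zero]
      · intro h; exact absurd (Finset.mem_univ _) h
    rw [Finset.sum_congr rfl fun μ' _ => h1 μ', Finset.sum_comm]
    refine Finset.sum_congr rfl fun ν _ => ?_
    rw [← Finset.sum_smul]
    rfl
  · intro w _ hw
    rw [Finset.sum_mul_sum]
    refine Finset.sum_eq_zero fun μ _ => Finset.sum_eq_zero fun μ' _ => ?_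
    rw [Finset.sum_mul_sum]
    refine Finset.sum_eq_zero fun ν _ => Finset.sum_eq_zero fun ν' _ => ?_
    rw [smul_mul_smul_comm, B.e_mul_ne n v w _ _ _ _ (Ne.symm hw), smul_zero]
  · intro h; exact absurd (Finset.mem_univ _) h

/-- the embedding of the level `n` algebra -/
noncomputable def emb (n : ℕ) : B.D n →⋆ₐ[ℂ] A where
  toFun := B.embFun n
  map_one' := by
    unfold embFun
    rw [← B.e_one n]
    refine Finset.sum_congr rfl fun v _ => Finset.sum_congr rfl fun μ _ => ?_
    rw [Finset.sum_eq_single μ]
    · simp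
    · intro ν _ hν
      simp [Matrix.one_apply_ne (Ne.symm hν)]
    · intro h; exact absurd (Finset.mem_univ _) h
  map_mul' := B.embFun_mul n
  map_zero' := by simp [embFun]
  map_add' x y := by
    simp [embFun, add_smul, Finset.sum_add_distrib]
  commutes' c := by
    rw [Algebra.algebraMap_eq_smul_one, Algebra.algebraMap_eq_smul_one, ← B.e_one n]
    unfold embFun
    rw [Finset.smul_sum]
    refine Finset.sum_congr rfl fun v _ => ?_
    rw [Finset.smul_sum]
    refine Finset.sum_congr rfl fun μ _ => ?_
    rw [Finset.sum_eq_single μ]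
    · simp
    · intro ν _ hν
      simp [Matrix.one_apply_ne (Ne.symm hν)]
    · intro h; exact absurd (Finset.mem_univ _) h
  map_star' x := by
    unfold embFun
    rw [star_sum]
    refine Finset.sum_congr rfl fun v _ => ?_
    rw [star_sum]
    simp_rw [star_sum]
    rw [Finset.sum_comm]
    refine Finset.sum_congr rfl fun μ _ => Finset.sum_congr rfl fun ν _ => ?_
    rw [star_smul, B.e_star]
    simp [Matrix.conjTranspose_apply]

lemma emb_apply (n : ℕ) (x : B.D n) : B.emb n x = ∑ v, ∑ μ, ∑ ν, (x v).mat μ ν • B.e n v μ ν := rfl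

/-- trace of the `v`-block -/
noncomputable def tr (n : ℕ) (v : V0) (x : B.D n) : ℂ := (x v).mat.trace

/-- push an integer (or natural) vector one level down: `(push T z) w = ∑ v, z v * T v w`. -/
def push {R : Type*} [CommSemiring R] (T : V0 → V0 → ℕ) (z : V0 → R) : V0 → R :=
  fun w => ∑ v, z v * (T v w : R)

end Brat

end Helper19.BL
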