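import Pool.Agent.Helper19.BL.G3

/-! # MODULE E1: the projections `f^± = (ι f ± z ι f)/2` of the crossed product

`φ f = f`.  Everything is a computation with the coordinates `ea, eb` (`EE.ext2` and the simp lemmas of EDefs.lean).
`MinFam.fpm`: for `X = ι a + ι b z` (`eta_iz`), `fpm f s * X * fpm f s`: with `f a f = c f`, `f b f = c' f`, the coordinates are multiples of those of
`fpm f s` (the constant is `c ± c'`, sign of `s`; use `φ(f a f)`, `φ f = f` to get the constants of `φ`-terms: note `ea (X Y) = ea X ea Y + eb X φ(eb Y)` and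
`f φ(x) f = φ (f x f)`, which is `c • f` again with the same `c` because `φ` is `ℂ`-linear).
For `(t,s) ≠ (t',s')`: if `t ≠ t'` all coordinates vanish; if `t = t'`, `s ≠ s'` they cancel.
`MinFam.single`: `single i0 i0 p * X * single i0 i0 q = single i0 i0 (p * X i0 i0 * q)`. -/

set_option linter.unusedSectionVars false

namespace Helper19.BL

section

variable {A : Type*} [CStarAlgebra A] (φ : A ≃⋆ₐ[ℂ] A) (hφ : ∀ a, φ (φ a) = a)

/-- the elements `(ι f ± z ι f)/2` -/
noncomputable def fpm (f : A) (s : Bool) : EE φ :=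
  mkE φ hφ ((1 / 2 : ℂ) • f) ((if s then (1 / 2 : ℂ) else -(1 / 2 : ℂ)) • f)

lemma E1_ea_fpm (f : A) (s : Bool) : ea (fpm φ hφ f s) = (1 / 2 : ℂ) • f := rfl

lemma E1_eb_fpm (f : A) (s : Bool) :
    eb (fpm φ hφ f s) = (if s then (1 / 2 : ℂ) else -(1 / 2 : ℂ)) • f := rfl

theorem fpm_proj {f : A} (hf : IsStarProjection f) (hφf : φ f = f) (s : Bool) :
    IsStarProjection (fpm φ hφ f s) := by
  refine pj_mk (EE.ext2 ?_ ?_) (EE.ext2 ?_ ?_)
  · rw [ea_mul, E1_ea_fpm, E1_eb_fpm, map_smul, hφf, smul_mul_smul_comm, smul_mul_smul_comm,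
      pjm hf, ← add_smul]
    congr 1
    cases s <;> norm_num
  · rw [eb_mul, E1_ea_fpm, E1_eb_fpm, map_smul, hφf, smul_mul_smul_comm, smul_mul_smul_comm,
      pjm hf, ← add_smul]
    congr 1
    cases s <;> norm_num
  · rw [ea_star, E1_ea_fpm, star_smul, pjs hf]
    congr 1
    simp
  · rw [eb_star, E1_eb_fpm, map_smul, hφf, star_smul, pjs hf]
    congr 1
    cases s <;> simp

theorem fpm_mul {f : A} (hf : IsStarProjection f) (hφf : φ f = f) :
    fpm φ hφ f true * fpm φ hφ f false = 0 := by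
  refine EE.ext2 ?_ ?_
  · rw [ea_mul, E1_ea_fpm, E1_eb_fpm, E1_ea_fpm, E1_eb_fpm, map_smul, hφf, smul_mul_smul_comm,
      smul_mul_smul_comm, pjm hf, ← add_smul, ea_zero]
    have : (1 / 2 : ℂ) * (1 / 2) + (if true = true then (1 / 2 : ℂ) else -(1 / 2)) *
        (if false = true then (1 / 2 : ℂ) else -(1 / 2)) = 0 := by norm_num
    rw [this, zero_smul]
  · rw [eb_mul, E1_ea_fpm, E1_eb_fpm, E1_ea_fpm, E1_eb_fpm, map_smul, hφf, smul_mul_smul_comm,
      smul_mul_smul_comm, pjm hf, ← add_smul, eb_zero]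
    have : (1 / 2 : ℂ) * (if false = true then (1 / 2 : ℂ) else -(1 / 2)) +
        (if true = true then (1 / 2 : ℂ) else -(1 / 2)) * (1 / 2) = 0 := by norm_num
    rw [this, zero_smul]

theorem fpm_add (f : A) : fpm φ hφ f true + fpm φ hφ f false = iota φ hφ f := by
  refine EE.ext2 ?_ ?_
  · rw [ea_add, E1_ea_fpm, E1_ea_fpm, ea_iota, ← add_smul]
    have : (1 / 2 : ℂ) + 1 / 2 = 1 := by norm_num
    rw [this, one_smul]
  · rw [eb_add, E1_eb_fpm, E1_eb_fpm, eb_iota, ← add_smul]
    have : (if true = true then (1 / 2 : ℂ) else -(1 / 2)) +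
        (if false = true then (1 / 2 : ℂ) else -(1 / 2)) = 0 := by norm_num
    rw [this, zero_smul]

theorem cls1_iota {f : A} (hf : IsStarProjection f) (hφf : φ f = f) :
    Vmap (iota φ hφ) (cls1 f hf) = cls1 (fpm φ hφ f true) (fpm_proj φ hφ hf hφf true) +
      cls1 (fpm φ hφ f false) (fpm_proj φ hφ hf hφf false) := by
  have h1 := pj_map (iota φ hφ) hf
  rw [Vmap_cls1 (iota φ hφ) hf h1]
  have h2 : IsStarProjection (fpm φ hφ f true + fpm φ hφ f false) := by
    rw [fpm_add]; exact h1
  rw [← cls1_add (fpm_proj φ hφ hf hφf true) (fpm_proj φ hφ hf hφf false) h2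
    (fpm_mul φ hφ hf hφf)]
  exact cls1_congr _ _ (fpm_add φ hφ f).symm

/-- the coordinates of `fpm f s * X * fpm g s'` -/
lemma E1_triple (f g : A) (hφg : φ g = g) (s s' : Bool) (X : EE φ) :
    ea (fpm φ hφ f s * X * fpm φ hφ g s') =
      ((1 / 2 : ℂ) * (1 / 2)) • (f * ea X * g) +
      ((if s then (1 / 2 : ℂ) else -(1 / 2 : ℂ)) * (1 / 2)) • (f * φ (eb X) * g) +
      ((1 / 2) * (if s' then (1 / 2 : ℂ) else -(1 / 2 : ℂ))) • (f * eb X * g) +
      ((if s then (1 / 2 : ℂ) else -(1 / 2 : ℂ)) * (if s' then (1 / 2 : ℂ) else -(1 / 2 : ℂ))) •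
        (f * φ (ea X) * g) ∧
    eb (fpm φ hφ f s * X * fpm φ hφ g s') =
      ((1 / 2 : ℂ) * (if s' then (1 / 2 : ℂ) else -(1 / 2 : ℂ))) • (f * ea X * g) +
      ((if s then (1 / 2 : ℂ) else -(1 / 2 : ℂ)) * (if s' then (1 / 2 : ℂ) else -(1 / 2 : ℂ))) •
        (f * φ (eb X) * g) +
      ((1 / 2 : ℂ) * (1 / 2)) • (f * eb X * g) +
      ((if s then (1 / 2 : ℂ) else -(1 / 2 : ℂ)) * (1 / 2)) • (f * φ (ea X) * g) := by
  constructor
  · rw [ea_mul, ea_mul, eb_mul]
    simp only [E1_ea_fpm, E1_eb_fpm, map_smul, hφg, add_mul, smul_mul_assoc, mul_smul_comm,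
      smul_add, smul_smul]
    simp only [mul_comm]
    abel
  · rw [eb_mul, ea_mul, eb_mul]
    simp only [E1_ea_fpm, E1_eb_fpm, map_smul, hφg, add_mul, smul_mul_assoc, mul_smul_comm,
      smul_add, smul_smul]
    simp only [mul_comm]
    abel

theorem MinFam.fpm {τ : Type*} {f : τ → A} (hf : MinFam f) (hinv : ∀ t, φ (f t) = f t) :
    MinFam (fun ts : τ × Bool => fpm φ hφ (f ts.1) ts.2) := by
  refine ⟨fun ts => fpm_proj φ hφ (hf.proj _) (hinv _) _, ?_, ?_⟩
  · rintro ⟨t, s⟩ X
    obtain ⟨c, hc⟩ := hf.min t (ea X)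
    obtain ⟨c', hc'⟩ := hf.min t (eb X)
    have hc2 : f t * φ (ea X) * f t = c • f t := by
      have := congrArg φ hc
      rwa [map_mul, map_mul, map_smul, hinv] at this
    have hc2' : f t * φ (eb X) * f t = c' • f t := by
      have := congrArg φ hc'
      rwa [map_mul, map_mul, map_smul, hinv] at this
    obtain ⟨h1, h2⟩ := E1_triple φ hφ (f t) (f t) (hinv t) s s X
    rw [hc, hc2, hc', hc2'] at h1 h2
    refine ⟨c + (if s then c' else -c'), EE.ext2 ?_ ?_⟩
    · simp only
      rw [h1, ea_smul, E1_ea_fpm]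
      simp only [smul_smul, ← add_smul]
      congr 1
      cases s
      · norm_num
        ring
      · norm_num
        ring
    · simp only
      rw [h2, eb_smul, E1_eb_fpm]
      simp only [smul_smul, ← add_smul]
      congr 1
      cases s
      · norm_num
        ring
      · norm_num
        ring
  · rintro ⟨t, s⟩ ⟨t', s'⟩ hne X
    obtain ⟨h1, h2⟩ := E1_triple φ hφ (f t) (f t') (hinv t') s s' X
    by_cases ht : t = t'
    · subst ht
      have hs : s' = !s := by
        cases s <;> cases s' <;> simp_all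
      subst hs
      obtain ⟨c, hc⟩ := hf.min t (ea X)
      obtain ⟨c', hc'⟩ := hf.min t (eb X)
      have hc2 : f t * φ (ea X) * f t = c • f t := by
        have := congrArg φ hc
        rwa [map_mul, map_mul, map_smul, hinv] at this
      have hc2' : f t * φ (eb X) * f t = c' • f t := by
        have := congrArg φ hc'
        rwa [map_mul, map_mul, map_smul, hinv] at this
      rw [hc, hc2, hc', hc2'] at h1 h2
      refine EE.ext2 ?_ ?_
      · simp only
        rw [h1, ea_zero]
        simp only [smul_smul, ← add_smul]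
        have : ∀ z : ℂ, z = 0 → z • f t = 0 := by rintro z rfl; exact zero_smul _ _
        apply this
        cases s
        · norm_num
        · norm_num
      · simp only
        rw [h2, eb_zero]
        simp only [smul_smul, ← add_smul]
        have : ∀ z : ℂ, z = 0 → z • f t = 0 := by rintro z rfl; exact zero_smul _ _
        apply this
        cases s
        · norm_num
        · norm_num
    · have ho := hf.orth t t' ht
      rw [ho, ho, ho, ho] at h1 h2
      refine EE.ext2 ?_ ?_
      · simp only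
        rw [h1, ea_zero]
        simp
      · simp only
        rw [h2, eb_zero]
        simp

end

theorem MinFam.single {R : Type*} [CStarAlgebra R] (κ : Type*) [Fintype κ] [DecidableEq κ]
    (i0 : κ) {τ : Type*} {f : τ → R} (hf : MinFam f) :
    MinFam (fun t => (MM.single i0 i0 (f t) : MM κ R)) := by
  have key : ∀ (p q : R) (X : MM κ R), MM.single i0 i0 p * X * MM.single i0 i0 q =
      MM.single i0 i0 (p * X.mat i0 i0 * q) := by
    intro p q X
    apply MM.ext'
    intro i j
    simp only [MM.mat_mul, MM.single, MM.mat_of, Matrix.mul_apply, Matrix.single_apply]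
    rw [Finset.sum_eq_single i0]
    · rw [Finset.sum_eq_single i0]
      · by_cases hi : i0 = i <;> by_cases hj : i0 = j <;> simp [hi, hj]
      · intro l _ hl
        simp [Ne.symm hl]
      · intro h; exact absurd (Finset.mem_univ _) h
    · intro l _ hl
      simp [Ne.symm hl]
    · intro h; exact absurd (Finset.mem_univ _) h
  refine ⟨fun t => pj_single i0 (hf.proj t), ?_, ?_⟩
  · intro t X
    obtain ⟨c, hc⟩ := hf.min t (X.mat i0 i0)
    refine ⟨c, ?_⟩
    rw [key, hc]
    apply MM.ext'
    intro i j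
    simp [MM.single, Matrix.single_apply]
  · intro t t' hne X
    rw [key, hf.orth t t' hne]
    apply MM.ext'
    intro i j
    simp [MM.single]

theorem MinFam.restrict {R : Type*} [CStarAlgebra R] {τ σ : Type*} {f : τ → R} (hf : MinFam f)
    (g : σ → τ) (hg : Function.Injective g) : MinFam (fun t => f (g t)) :=
  ⟨fun _ => hf.proj _, fun _ a => hf.min _ a, fun _ _ h a => hf.orth _ _ (hg.ne h) a⟩

end Helper19.BL
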