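import Pool.Agent.Helper19.BL.E1
import Pool.Agent.Helper59.BL.Ideal2

/-! # MODULE E2: ideals are generated by minimal projections

`MJ_EJ_le_Kid`: `X = ∑ single i j (X i j)` (`MM.sum_single`), `X i j = ι a + ι b z` with `a, b ∈ Kid f` (`eta_iz`).  The map
`a ↦ single i j (ι a * y)` (`y = 1` or `z`) is linear and continuous (`MM.norm_single`, star homs are contractive
`NonUnitalStarAlgHom.norm_apply_le`), so it is enough to treat `a = c * f t * d`:
`single i j (ι c * ι (f t) * ι d * y) = single i i0 (ι c) * (single i0 i0 (fpm f_t true) + single i0 i0 (fpm f_t false)) * single i0 j (ι d * y)`.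
(use `Submodule.topologicalClosure`, `map_mem_closure`, or: the preimage of `Kid _` is a closed submodule containing the generators.)

`J_le_Kid`: `B.J W` is the closure of the sup of the spans of the `e n v μ ν`, `v ∈ W`.  `e 0 v μ₀ μ₀ = e n v μ' μ'` for some `μ'` (`Brat.exists_eq_mod` with
`W = ∅` and `J_empty`), and `e n v μ ν = e n v μ μ' * e n v μ' μ' * e n v μ' ν`, `e n v μ' μ' = star u * u = star u * f t * u` (`pi_mul`). -/

set_option linter.unusedSectionVars false

namespace Helper19.BL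

section aux

variable {R : Type*} [CStarAlgebra R]

lemma E2_Kid_closed {τ : Type*} (f : τ → R) : IsClosed ((Kid f : Submodule ℂ R) : Set R) :=
  Submodule.isClosed_topologicalClosure _

lemma E2_gen_mem {τ : Type*} (f : τ → R) (a b : R) (t : τ) : a * f t * b ∈ Kid f :=
  Submodule.le_topologicalClosure _ (Submodule.subset_span ⟨t, a, b, rfl⟩)

lemma E2_Kid_le {τ : Type*} {f : τ → R} {K : Submodule ℂ R} (hK : IsClosed (K : Set R))
    (h : ∀ t a b, a * f t * b ∈ K) : Kid f ≤ K := by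
  unfold Kid
  refine Submodule.topologicalClosure_minimal _ ?_ hK
  rw [Submodule.span_le]
  rintro x ⟨t, a, b, rfl⟩
  exact h t a b

lemma E2_single_add {κ : Type*} [Fintype κ] [DecidableEq κ] (i j : κ) (a b : R) :
    (MM.single i j (a + b) : MM κ R) = MM.single i j a + MM.single i j b := by
  apply MM.ext'
  intro k l
  simp only [MM.single, MM.mat_of, MM.mat_add, Matrix.add_apply, Matrix.single_apply]
  split_ifs <;> simp

lemma E2_single_smul {κ : Type*} [Fintype κ] [DecidableEq κ] (i j : κ) (c : ℂ) (a : R) :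
    (MM.single i j (c • a) : MM κ R) = c • MM.single i j a := by
  apply MM.ext'
  intro k l
  simp only [MM.single, MM.mat_of, MM.mat_smul, Matrix.smul_apply, Matrix.single_apply]
  split_ifs <;> simp

end aux

theorem MJ_EJ_le_Kid {A : Type*} [CStarAlgebra A] (φ : A ≃⋆ₐ[ℂ] A) (hφ : ∀ a, φ (φ a) = a)
    {τ : Type*} {f : τ → A} (κ : Type*) [Fintype κ] [DecidableEq κ] (i0 : κ) :
    MJ κ (EJ φ (Kid f)) ≤
      Kid (fun ts : τ × Bool => (MM.single i0 i0 (fpm φ hφ (f ts.1) ts.2) : MM κ (EE φ))) := by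
  set K := Kid (fun ts : τ × Bool =>
    (MM.single i0 i0 (fpm φ hφ (f ts.1) ts.2) : MM κ (EE φ))) with hK
  have key : ∀ (i j : κ) (y : EE φ) (a : A), a ∈ Kid f →
      (MM.single i j (iota φ hφ a * y) : MM κ (EE φ)) ∈ K := by
    intro i j y
    let L : A →ₗ[ℂ] MM κ (EE φ) :=
      { toFun := fun a => MM.single i j (iota φ hφ a * y)
        map_add' := fun a b => by rw [map_add, add_mul, E2_single_add]
        map_smul' := fun c a => by
          rw [map_smul, smul_mul_assoc, E2_single_smul]; rfl }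
    have hL : Continuous L := by
      refine AddMonoidHomClass.continuous_of_bound L ‖y‖ fun a => ?_
      change ‖(MM.single i j (iota φ hφ a * y) : MM κ (EE φ))‖ ≤ ‖y‖ * ‖a‖
      rw [MM.norm_single]
      refine (norm_mul_le _ _).trans ?_
      rw [mul_comm]
      have h1 : ‖iota φ hφ a‖ ≤ ‖a‖ :=
        NonUnitalStarAlgHom.norm_apply_le (iota φ hφ : A →⋆ₙₐ[ℂ] EE φ) a
      gcongr
    have hle : Kid f ≤ K.comap L := by
      refine E2_Kid_le ?_ ?_
      · exact (E2_Kid_closed _).preimage hL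
      · intro t c d
        rw [Submodule.mem_comap]
        change (MM.single i j (iota φ hφ (c * f t * d) * y) : MM κ (EE φ)) ∈ K
        have e : (MM.single i j (iota φ hφ (c * f t * d) * y) : MM κ (EE φ)) =
            MM.single i i0 (iota φ hφ c) * MM.single i0 i0 (fpm φ hφ (f t) true) *
              MM.single i0 j (iota φ hφ d * y) +
            MM.single i i0 (iota φ hφ c) * MM.single i0 i0 (fpm φ hφ (f t) false) *
              MM.single i0 j (iota φ hφ d * y) := by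
          rw [← add_mul, ← mul_add, ← E2_single_add, fpm_add, MM.single_mul_single,
            MM.single_mul_single, map_mul, map_mul]
          congr 1
          noncomm_ring
        rw [e]
        exact Submodule.add_mem _ (E2_gen_mem _ _ _ (t, true)) (E2_gen_mem _ _ _ (t, false))
    intro a ha
    exact hle ha
  intro X hX
  rw [MM.sum_single X]
  refine Submodule.sum_mem _ fun i _ => Submodule.sum_mem _ fun j _ => ?_
  have h := hX i j
  rw [eta_iz φ hφ (X.mat i j), E2_single_add]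
  refine Submodule.add_mem _ ?_ (key i j _ _ h.2)
  have := key i j 1 _ h.1
  rwa [mul_one] at this

theorem MJ_mono {R : Type*} [CStarAlgebra R] (κ : Type*) [Fintype κ] [DecidableEq κ]
    {I J : Submodule ℂ R} (h : I ≤ J) : MJ κ I ≤ MJ κ J :=
  fun _ hX i j => h (hX i j)

theorem EJ_mono {A : Type*} [CStarAlgebra A] (φ : A ≃⋆ₐ[ℂ] A) {I J : Submodule ℂ A} (h : I ≤ J) :
    EJ φ I ≤ EJ φ J :=
  fun _ hX => ⟨h hX.1, h hX.2⟩

theorem MJ_EJ_inf {A : Type*} [CStarAlgebra A] (φ : A ≃⋆ₐ[ℂ] A) (κ : Type*) [Fintype κ]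
    [DecidableEq κ] (I J : Submodule ℂ A) :
    MJ κ (EJ φ I) ⊓ MJ κ (EJ φ J) = MJ κ (EJ φ (I ⊓ J)) := by
  ext X
  constructor
  · rintro ⟨h1, h2⟩ i j
    exact ⟨⟨(h1 i j).1, (h2 i j).1⟩, ⟨(h1 i j).2, (h2 i j).2⟩⟩
  · intro h
    exact ⟨fun i j => ⟨(h i j).1.1, (h i j).2.1⟩, fun i j => ⟨(h i j).1.2, (h i j).2.2⟩⟩

theorem MJ_EJ_mul {A : Type*} [CStarAlgebra A] (φ : A ≃⋆ₐ[ℂ] A) (κ : Type*) [Fintype κ]
    [DecidableEq κ] {I J L : Submodule ℂ A} (h : ∀ x ∈ I, ∀ y ∈ J, x * y ∈ L)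
    (hJ : ∀ y ∈ J, φ y ∈ J) {X Y : MM κ (EE φ)} (hX : X ∈ MJ κ (EJ φ I)) (hY : Y ∈ MJ κ (EJ φ J)) :
    X * Y ∈ MJ κ (EJ φ L) := by
  intro i j
  rw [MM.mat_mul, Matrix.mul_apply]
  refine Submodule.sum_mem _ fun k _ => ⟨?_, ?_⟩
  · rw [ea_mul]
    exact L.add_mem (h _ (hX i k).1 _ (hY k j).1) (h _ (hX i k).2 _ (hJ _ (hY k j).2))
  · rw [eb_mul]
    exact L.add_mem (h _ (hX i k).1 _ (hY k j).2) (h _ (hX i k).2 _ (hJ _ (hY k j).1))

/-- decomposition of a matrix over the crossed product -/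
theorem MJ_EJ_sum {A : Type*} [CStarAlgebra A] (φ : A ≃⋆ₐ[ℂ] A) (hφ : ∀ a, φ (φ a) = a)
    (κ : Type*) [Fintype κ] [DecidableEq κ] {ι : Type*} [Fintype ι] {I : Submodule ℂ A}
    {J : ι → Submodule ℂ A} (h : ∀ x ∈ I, ∃ f : ι → A, (∀ i, f i ∈ J i) ∧ x = ∑ i, f i)
    {X : MM κ (EE φ)} (hX : X ∈ MJ κ (EJ φ I)) :
    ∃ F : ι → MM κ (EE φ), (∀ i, F i ∈ MJ κ (EJ φ (J i))) ∧ X = ∑ i, F i := by
  choose g hg1 hg2 using h
  refine ⟨fun i => MM.of fun a b => mkE φ hφ (g (ea (X.mat a b)) (hX a b).1 i)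
    (g (eb (X.mat a b)) (hX a b).2 i), ?_, ?_⟩
  · intro i a b
    exact ⟨hg1 _ _ i, hg1 _ _ i⟩
  · apply MM.ext'
    intro a b
    rw [MM.mat_sum, Matrix.sum_apply]
    have e1 : ∀ (s : Finset ι) (F : ι → EE φ), ea (∑ i ∈ s, F i) = ∑ i ∈ s, ea (F i) := by
      intro s F
      classical
      induction s using Finset.induction_on with
      | empty => simp
      | insert a s ha ih => rw [Finset.sum_insert ha, Finset.sum_insert ha, ea_add, ih]
    have e2 : ∀ (s : Finset ι) (F : ι → EE φ), eb (∑ i ∈ s, F i) = ∑ i ∈ s, eb (F i) := by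
      intro s F
      classical
      induction s using Finset.induction_on with
      | empty => simp
      | insert a s ha ih => rw [Finset.sum_insert ha, Finset.sum_insert ha, eb_add, ih]
    refine EE.ext2 ?_ ?_
    · rw [e1]
      exact hg2 _ _
    · rw [e2]
      exact hg2 _ _

variable {V0 : Type} [Fintype V0] [DecidableEq V0] {T : V0 → V0 → ℕ}
  {A : Type*} [CStarAlgebra A] (B : Brat V0 T A)

theorem Brat.J_le_Kid {W : Set V0} (hW : ∀ v ∈ W, T v v = 1 ∧ ∀ w, w ≠ v → T v w = 0)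
    {τ : Type*} (f : τ → A) (hf : ∀ v ∈ W, ∃ (t : τ) (μ : B.P 0 v) (u : A),
      star u * u = B.e 0 v μ μ ∧ u * star u = f t) : B.J W ≤ Kid f := by
  unfold Brat.J
  refine Submodule.topologicalClosure_minimal _ ?_ (E2_Kid_closed f)
  refine iSup_le fun n => ?_
  unfold Brat.Lv
  rw [Submodule.span_le]
  rintro y ⟨v, hv, μ, ν, rfl⟩
  obtain ⟨t, μ₀, u, hu1, hu2⟩ := hf v hv
  obtain ⟨μ', hμ'⟩ := B.exists_eq_mod (W := ∅) v (hW v hv).1 (fun w hw h0 => by
    rw [(hW v hv).2 w hw] at h0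
    exact absurd h0 (lt_irrefl 0)) 0 n (Nat.zero_le n) μ₀
  rw [B.J_empty, Submodule.mem_bot, sub_eq_zero] at hμ'
  have h1 : star u * u = B.e n v μ' μ' := by rw [hu1, hμ']
  have hp : IsStarProjection (star u * u) := by rw [h1]; exact B.e_proj n v μ'
  have h2 : f t * u = u := by
    rw [← hu2]; exact pi_range_mul hp
  have h3 : B.e n v μ ν = (B.e n v μ μ' * star u) * f t * (u * B.e n v μ' ν) := by
    have e1 : (B.e n v μ μ' * star u) * f t * (u * B.e n v μ' ν) =
        B.e n v μ μ' * (star u * (f t * u)) * B.e n v μ' ν := by noncomm_ring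
    rw [e1, h2, h1, B.e_mul, if_pos rfl, B.e_mul, if_pos rfl]
  rw [h3]
  exact E2_gen_mem f _ _ t

end Helper19.BL
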