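import Pool.Agent.Helper19.BL.E1
import Pool.Agent.Helper19.BL.F1

/-! # MODULE E3: `K0` of the crossed product: `ι ∘ φ`, restriction to `A`

`K0lift`: functoriality of `K0` for additive maps of `V`.
`Vmap_iota_phi`: for `x = cls p`: `ι(φ p_ij) = z ι(p_ij) z*` (`zed_iota`, `zed_mul_zed`), so it is `Vmap_conj` for `U = z` applied to `Vmap ι x`
(with the star homomorphism `X ↦ z X z`), or directly `MvN` by `v = diag(z) (ι p)`.
`res_iota`: for `x = cls p`, `p` of size `n`: `flatM ((p.map ι).map incl)` is, after the reindexing `Fin n × Fin 2 ≃ Fin n ⊕ Fin n`, the block matrix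
`fromBlocks p 0 0 (p.map φ)` (`MvN.submatrix`, `cls_add_cls`, `flat_cls`).
`res_fpm`: `incl (fpm f s) = (1/2) (f, ±f; ±f, f) ∈ M_2(A)`; equivalent to the `1 × 1` matrix `f` by the column `(1/√2) (f, ± f)`.
`flat_Phi2`: `Phi2 φ = (reidx swap) ∘ mapEquiv φ`; `flat_Vmap` and: `reidx s` is conjugation by a permutation matrix (a unitary of `M_2(A)`), `Vmap_conj`;
or directly: `flatM` of `p.map (reidx s)` is a `submatrix` of `flatM p` (`MvN.submatrix`). -/

set_option linter.unusedSectionVars false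

open scoped Matrix

namespace Helper19.BL

section
variable {A B : Type*} [Ring A] [StarRing A] [Ring B] [StarRing B]

/-- functoriality of `K0` for additive maps of `V` -/
noncomputable def K0lift (f : V A →+ V B) : K0 A →+ K0 B :=
  Algebra.GrothendieckAddGroup.lift ((Algebra.GrothendieckAddGroup.of : V B →+ K0 B).comp f)

theorem K0lift_Vto (f : V A →+ V B) (x : V A) : K0lift f (Vto A x) = Vto B (f x) := by
  have := Algebra.GrothendieckAddGroup.lift.symm_apply_apply
    ((Algebra.GrothendieckAddGroup.of : V B →+ K0 B).comp f)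
  exact congrArg (fun h : V A →+ K0 B => h x) this

/-- two homomorphisms from `K0 A` agreeing on `V A` are equal -/
theorem K0_hom_ext {G : Type*} [AddCommGroup G] {f g : K0 A →+ G}
    (h : ∀ x, f (Vto A x) = g (Vto A x)) : f = g := by
  apply DFunLike.ext
  intro y
  obtain ⟨a, b, rfl⟩ := K0.exists_sub y
  rw [map_sub, map_sub, h, h]
end

variable {A : Type*} [CStarAlgebra A] (φ : A ≃⋆ₐ[ℂ] A) (hφ : ∀ a, φ (φ a) = a)

theorem Vmap_iota_phi (x : V A) :
    Vmap (iota φ hφ) (Vmap (φ : A →⋆ₐ[ℂ] A) x) = Vmap (iota φ hφ) x := by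
  have hz : zed φ hφ ∈ unitary (EE φ) := by
    rw [Unitary.mem_iff, star_zed]
    exact ⟨zed_mul_zed φ hφ, zed_mul_zed φ hφ⟩
  let f : EE φ →⋆ₐ[ℂ] EE φ :=
    ((Unitary.conjStarAlgAut ℂ (EE φ) ⟨zed φ hφ, hz⟩ : EE φ ≃⋆ₐ[ℂ] EE φ) : EE φ →⋆ₐ[ℂ] EE φ)
  have hf : ∀ a, f a = zed φ hφ * a * star (zed φ hφ) := fun a =>
    Unitary.conjStarAlgAut_apply (S := ℂ) ⟨zed φ hφ, hz⟩ a
  have hcomp : (iota φ hφ).comp (φ : A →⋆ₐ[ℂ] A) = f.comp (iota φ hφ) := by
    apply StarAlgHom.ext
    intro a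
    change iota φ hφ (φ a) = f (iota φ hφ a)
    rw [hf, star_zed, zed_iota, mul_assoc, zed_mul_zed, mul_one]
  rw [← Vmap_comp, hcomp, Vmap_comp, Vmap_conj hz f hf]

/-- restriction to `A` -/
noncomputable def res : V (EE φ) →+ V A := (flat (Fin 2) A).comp (Vmap (incl φ))

/-- reindexing -/
def E3_e (n : ℕ) : Fin n ⊕ Fin n ≃ Fin n × Fin 2 where
  toFun := Sum.elim (fun i => (i, 0)) (fun i => (i, 1))
  invFun x := if x.2 = 0 then Sum.inl x.1 else Sum.inr x.1
  left_inv := by rintro (i | i) <;> simp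
  right_inv := by
    rintro ⟨i, a⟩
    fin_cases a <;> simp

theorem res_iota (x : V A) :
    res φ (Vmap (iota φ hφ) x) = x + Vmap (φ : A →⋆ₐ[ℂ] A) x := by
  induction x using V.ind with
  | h n p hp =>
  change flat (Fin 2) A (Vmap (incl φ) (Vmap (iota φ hφ) (cls p hp))) = _
  rw [Vmap_cls, Vmap_cls, Vmap_cls, flat_cls, cls_add_cls, cls_eq_iff]
  have h0 := MvN.submatrix (flatM_isPj ((hp.map (iota φ hφ)).map (incl φ))) (E3_e n)
  have e : (flatM ((p.map (iota φ hφ)).map (incl φ))).submatrix (E3_e n) (E3_e n) =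
      Matrix.fromBlocks p 0 0 (p.map (φ : A →⋆ₐ[ℂ] A)) := by
    ext i j
    rcases i with i | i <;> rcases j with j | j
    · rfl
    · rfl
    · exact map_zero φ
    · rfl
  rwa [e] at h0

theorem res_fpm {f : A} (hf : IsStarProjection f) (hφf : φ f = f) (s : Bool) :
    res φ (cls1 (fpm φ hφ f s) (fpm_proj φ hφ hf hφf s)) = cls1 f hf := by
  have hpr := fpm_proj φ hφ hf hφf s
  change flat (Fin 2) A (Vmap (incl φ) (cls1 (fpm φ hφ f s) hpr)) = _
  rw [Vmap_cls1 (incl φ) hpr (pj_map _ hpr), flat_cls1]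
  unfold clsM cls1
  rw [cls_eq_iff]
  set t : ℂ := ((Real.sqrt (1 / 2) : ℝ) : ℂ) with ht
  have htt : t * t = 1 / 2 := by
    rw [ht, ← Complex.ofReal_mul, Real.mul_self_sqrt (by norm_num)]
    norm_num
  have hts : star t = t := by
    rw [ht, Complex.star_def, Complex.conj_ofReal]
  set σ : ℂ := if s then 1 else -1 with hσ
  have hσσ : σ * σ = 1 := by rw [hσ]; split_ifs <;> norm_num
  have hσs : star σ = σ := by rw [hσ]; split_ifs <;> simp
  have hif : (if s then (1 / 2 : ℂ) else -(1 / 2 : ℂ)) = (1 / 2) * σ := by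
    rw [hσ]; split_ifs <;> norm_num
  have hff := pjm hf
  have hfs := pjs hf
  refine ⟨Matrix.of fun _ j => if j = 0 then t • f else (t * σ) • f, ?_, ?_⟩
  · ext i j
    simp only [Matrix.mul_apply, Matrix.conjTranspose_apply, Matrix.of_apply, Finset.univ_unique,
      Finset.sum_singleton, fpm, incl_mkE, MM.mat_of]
    rw [hif]
    fin_cases i <;> fin_cases j
    · change star (t • f) * (t • f) = (1 / 2 : ℂ) • f
      rw [star_smul, smul_mul_smul_comm, hfs, hff, hts, htt]
    · change star (t • f) * ((t * σ) • f) = (1 / 2 * σ : ℂ) • f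
      rw [star_smul, smul_mul_smul_comm, hfs, hff, hts, ← mul_assoc, htt]
    · change star ((t * σ) • f) * (t • f) = φ ((1 / 2 * σ : ℂ) • f)
      rw [star_smul, smul_mul_smul_comm, hfs, hff, star_mul, hσs, hts, map_smul, hφf,
        mul_assoc, htt, mul_comm]
    · change star ((t * σ) • f) * ((t * σ) • f) = φ ((1 / 2 : ℂ) • f)
      rw [star_smul, smul_mul_smul_comm, hfs, hff, star_mul, hσs, hts, map_smul, hφf]
      congr 1
      linear_combination htt + (t * t) * hσσ
  · ext i j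
    simp only [Matrix.mul_apply, Matrix.conjTranspose_apply, Matrix.of_apply, Fin.sum_univ_two]
    change (t • f) * star (t • f) + ((t * σ) • f) * star ((t * σ) • f) = f
    rw [star_smul, star_smul, smul_mul_smul_comm, smul_mul_smul_comm, hfs, hff, ← add_smul,
      star_mul, hσs, hts]
    have h1 : t * t + t * σ * (σ * t) = 1 := by
      linear_combination 2 * htt + (t * t) * hσσ
    rw [h1, one_smul]

theorem flat_Phi2 (x : V (MM (Fin 2) A)) :
    flat (Fin 2) A (Vmap (Phi2 φ : MM (Fin 2) A →⋆ₐ[ℂ] MM (Fin 2) A) x) =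
      Vmap (φ : A →⋆ₐ[ℂ] A) (flat (Fin 2) A x) := by
  induction x using V.ind with
  | h n p hp =>
  rw [Vmap_cls, flat_cls, flat_cls, Vmap_cls, cls_eq_iff]
  have h0 := MvN.submatrix ((flatM_isPj hp).map (φ : A →⋆ₐ[ℂ] A))
    (Equiv.prodCongr (Equiv.refl (Fin n)) (Equiv.swap (0 : Fin 2) 1))
  exact h0.symm

end Helper19.BL
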