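import Pool.Agent.Helper19.BL.GBasic

/-! # MODULE E4: an invariant minimal projection

`φ² = 1`, `f` a projection with `f A f = ℂ f`, `w* w = f`, `w w* = φ f`.  Then `φ(w) w ∈ f A f`: `φ(w)* φ(w) = φ(f)`, `φ(w) φ(w)* = φ(φ f) = f`, `w f = w`, `φ(f) w = w`,
`φ(w) = f φ(w) φ(f)`.  So `φ(w) w = c f`, and `|c| = 1` if `f ≠ 0` (`(φ(w) w)* (φ(w) w) = w* φ(f) w = w* w = f`).  (`f = 0`: take `g = u = 0`.)
Replace `w` by `λ w` with `λ² = conj c`, `|λ| = 1` (`φ` is `ℂ`-linear): then `φ(w) w = f`, hence `φ(w) = φ(w) φ(f) = φ(w) w w* = f w* = w*`.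
`x := f + w`.  `φ(x x*) = x x*`: `x x* = f + w* + w + w w*` (`f w* = w*`, `w f = w`), `w w* = φ f`, and `φ` exchanges `f ↔ φ f`, `w ↔ w*`.
`x* x = 2 f + f w f + (f w f)* = (2 + 2 Re μ) f` with `f w f = μ f`.
If `2 + 2 Re μ ≠ 0`, it is `> 0` (norm: `x* x = r f`, `r = ‖x‖²` or positivity), `u := x / √r`, `u* u = f`, `g := u u*`, `φ g = g`.
If `x* x = 0` then `x = 0`, `w = -f`, `φ f = w w* = f`: take `g = u = f`. -/

set_option linter.unusedSectionVars false

namespace Helper19.BL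

variable {A : Type*} [CStarAlgebra A]

theorem E4_smul_eq {f : A} (hf0 : f ≠ 0) {c d : ℂ} (h : c • f = d • f) : c = d := by
  have h1 : (c - d) • f = 0 := by rw [sub_smul, h, sub_self]
  exact sub_eq_zero.mp ((smul_eq_zero.mp h1).resolve_right hf0)

/-- the normalised case `φ w = w*` -/
theorem E4_core (φ : A ≃⋆ₐ[ℂ] A) {f w : A} (hf : IsStarProjection f) (hf0 : f ≠ 0)
    (hmin : ∀ a, ∃ c : ℂ, f * a * f = c • f) (h1 : star w * w = f) (h2 : w * star w = φ f)
    (hw : φ w = star w) (hφw : φ (star w) = w) (hφf : φ (φ f) = f) :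
    ∃ g u : A, IsStarProjection g ∧ φ g = g ∧ star u * u = f ∧ u * star u = g := by
  have hwf : w * f = w := pi_mul' hf h1
  have hfw : f * star w = star w := by
    have h := congrArg star hwf
    rwa [star_mul, pjs hf] at h
  obtain ⟨μ, hμ⟩ := hmin w
  have hfwf : f * w = μ • f := by rw [← hμ, mul_assoc, hwf]
  have hwsf : star w * f = star μ • f := by
    have h := congrArg star hfwf
    rwa [star_mul, star_smul, pjs hf] at h
  have hxx : star (f + w) * (f + w) = (2 + μ + star μ) • f := by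
    rw [star_add, pjs hf, add_mul, mul_add, mul_add, pjm hf, hfwf, hwsf, h1]
    module
  have hxx' : (f + w) * star (f + w) = f + star w + w + φ f := by
    rw [star_add, pjs hf, add_mul, mul_add, mul_add, pjm hf, hfw, hwf, h2]
    abel
  have hφx : φ ((f + w) * star (f + w)) = (f + w) * star (f + w) := by
    rw [hxx', map_add, map_add, map_add, hw, hφw, hφf]
    abel
  -- the size of μ
  have hfn : 0 < ‖f‖ := norm_pos_iff.mpr hf0
  have hfn1 : ‖f‖ ≤ 1 := pj_norm_le hf
  have hwn : ‖w‖ ≤ 1 := by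
    have h : ‖w‖ * ‖w‖ ≤ 1 := by
      rw [← CStarRing.norm_star_mul_self, h1]
      exact hfn1
    nlinarith [norm_nonneg w]
  have hμn : ‖μ‖ ≤ 1 := by
    have h3 : ‖μ‖ * ‖f‖ ≤ 1 * ‖f‖ := by
      rw [← norm_smul, ← hfwf, one_mul]
      calc ‖f * w‖ ≤ ‖f‖ * ‖w‖ := norm_mul_le _ _
        _ ≤ ‖f‖ * 1 := mul_le_mul_of_nonneg_left hwn hfn.le
        _ = ‖f‖ := mul_one _
    exact le_of_mul_le_mul_right h3 hfn
  have hμre : -1 ≤ μ.re := by
    have h3 := Complex.abs_re_le_norm μ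
    have h4 := neg_abs_le μ.re
    linarith
  have hr : (2 + μ + star μ : ℂ) = ((2 + 2 * μ.re : ℝ) : ℂ) := by
    apply Complex.ext
    · simp
      ring
    · simp
  rw [hr] at hxx
  rcases eq_or_lt_of_le (show 0 ≤ 2 + 2 * μ.re by linarith) with h0 | hpos
  · -- x = 0
    rw [← h0, Complex.ofReal_zero, zero_smul] at hxx
    have hx0 : f + w = 0 := (CStarRing.star_mul_self_eq_zero_iff _).1 hxx
    have hw' : w = -f := by rw [eq_neg_iff_add_eq_zero, add_comm]; exact hx0
    have hφff : φ f = f := by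
      rw [← h2, hw', star_neg, pjs hf, neg_mul_neg, pjm hf]
    exact ⟨f, f, hf, hφff, by rw [pjs hf, pjm hf], by rw [pjs hf, pjm hf]⟩
  · set r : ℝ := 2 + 2 * μ.re with hrdef
    have hsq : ((Real.sqrt r : ℝ) : ℂ)⁻¹ * ((Real.sqrt r : ℝ) : ℂ)⁻¹ = ((r : ℝ) : ℂ)⁻¹ := by
      rw [← mul_inv, ← Complex.ofReal_mul, Real.mul_self_sqrt hpos.le]
    have hrne : ((r : ℝ) : ℂ) ≠ 0 := by exact_mod_cast hpos.ne'
    have hstar : star (((Real.sqrt r : ℝ) : ℂ)⁻¹) = ((Real.sqrt r : ℝ) : ℂ)⁻¹ := by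
      rw [star_inv₀]
      congr 1
      simp
    have hu1 : star ((((Real.sqrt r : ℝ) : ℂ)⁻¹) • (f + w)) * ((((Real.sqrt r : ℝ) : ℂ)⁻¹) • (f + w))
        = f := by
      rw [star_smul, hstar, smul_mul_smul_comm, hsq, hxx, smul_smul, inv_mul_cancel₀ hrne,
        one_smul]
    have hu2 : ((((Real.sqrt r : ℝ) : ℂ)⁻¹) • (f + w)) * star ((((Real.sqrt r : ℝ) : ℂ)⁻¹) • (f + w))
        = ((r : ℝ) : ℂ)⁻¹ • ((f + w) * star (f + w)) := by
      rw [star_smul, hstar, smul_mul_smul_comm, hsq]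
    refine ⟨_, (((Real.sqrt r : ℝ) : ℂ)⁻¹) • (f + w), ?_, ?_, hu1, rfl⟩
    · exact pi_range (by rw [hu1]; exact hf)
    · rw [hu2, map_smul, hφx]

theorem exists_inv_proj (φ : A ≃⋆ₐ[ℂ] A) (hφ : ∀ a, φ (φ a) = a) {f : A}
    (hf : IsStarProjection f) (hmin : ∀ a, ∃ c : ℂ, f * a * f = c • f)
    (heq : ∃ w, star w * w = f ∧ w * star w = φ f) :
    ∃ g u : A, IsStarProjection g ∧ φ g = g ∧ star u * u = f ∧ u * star u = g := by
  by_cases hf0 : f = 0
  · exact ⟨0, 0, pj_zero, map_zero φ, by simp [hf0], by simp⟩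
  obtain ⟨w, h1, h2⟩ := heq
  have hφf : IsStarProjection (φ f) := pj_map (φ : A →⋆ₐ[ℂ] A) hf
  have hwf : w * f = w := pi_mul' hf h1
  have hφfw : φ f * w = w := pi_swap hφf h2
  have h1' : star (φ w) * φ w = φ f := by rw [← map_star, ← map_mul, h1]
  have h2' : φ w * star (φ w) = f := by rw [← map_star, ← map_mul, h2, hφ]
  have hfw' : f * φ w = φ w := pi_swap hf h2'
  obtain ⟨c, hc⟩ := hmin (φ w * w)
  have hc' : φ w * w = c • f := by
    rw [← hc]
    calc φ w * w = (f * φ w) * (w * f) := by rw [hfw', hwf]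
      _ = f * (φ w * w) * f := by noncomm_ring
  have hcc : star c * c = 1 := by
    have h3 : star (φ w * w) * (φ w * w) = f := by
      rw [star_mul]
      calc star w * star (φ w) * (φ w * w) = star w * (star (φ w) * φ w) * w := by noncomm_ring
        _ = star w * (φ f * w) := by rw [h1', mul_assoc]
        _ = f := by rw [hφfw, h1]
    rw [hc', star_smul, pjs hf, smul_mul_smul_comm, pjm hf] at h3
    apply E4_smul_eq hf0
    rw [h3, one_smul]
  obtain ⟨l, hl⟩ := IsAlgClosed.exists_pow_nat_eq (star c) (n := 2) (by norm_num)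
  have hll : star l * l = 1 := by
    have h3 : (‖l‖ ^ 2) ^ 2 = 1 := by
      rw [← norm_pow, hl, norm_star]
      have h4 := congrArg norm hcc
      rw [norm_mul, norm_star, norm_one] at h4
      rw [sq, h4]
    have h4 : ‖l‖ ^ 2 = 1 := by
      have h5 : 0 ≤ ‖l‖ ^ 2 := by positivity
      nlinarith
    have h5 : star l * l = ((‖l‖ ^ 2 : ℝ) : ℂ) := by
      have h6 := Complex.conj_mul' l
      rw [Complex.star_def, h6]
      push_cast
      rfl
    rw [h5, h4, Complex.ofReal_one]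
  have hlls : l * star l = 1 := by rw [mul_comm]; exact hll
  have e1 : star (l • w) * (l • w) = f := by
    rw [star_smul, smul_mul_smul_comm, hll, h1, one_smul]
  have e2 : (l • w) * star (l • w) = φ f := by
    rw [star_smul, smul_mul_smul_comm, hlls, h2, one_smul]
  have e3 : φ (l • w) = star (l • w) := by
    have e4 : φ (l • w) * (l • w) = f := by
      rw [map_smul, smul_mul_smul_comm, hc', smul_smul, ← sq, hl, hcc, one_smul]
    have e5 : φ (l • w) * φ f = φ (l • w) := by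
      have h3 : l • w * f = l • w := by rw [smul_mul_assoc, hwf]
      rw [← map_mul, h3]
    have e6 : f * star (l • w) = star (l • w) := by
      have h3 : l • w * f = l • w := by rw [smul_mul_assoc, hwf]
      have h4 := congrArg star h3
      rwa [star_mul, pjs hf] at h4
    calc φ (l • w) = φ (l • w) * φ f := e5.symm
      _ = φ (l • w) * ((l • w) * star (l • w)) := by rw [e2]
      _ = (φ (l • w) * (l • w)) * star (l • w) := by rw [mul_assoc]
      _ = star (l • w) := by rw [e4, e6]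
  have e7 : φ (star (l • w)) = l • w := by rw [← e3, hφ]
  exact E4_core φ hf hf0 hmin e1 e2 e3 e7 (hφ f)

end Helper19.BL
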