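import Pool.Agent.Helper19.BL.C4
import Pool.Agent.Helper19.BL.E3

/-! # MODULE E5: the application of Lemma C to the crossed product (core)

`T0 ∈ M_K(E)`, `K = κ₀ ⊕ κ₁`, a partial isometry from `p ⊕ G` to `p ⊕ G'`, `G = diag (f_{d i}^{s i})`, `G' = diag (f_{d i}^{¬ s i})` over `κ₁`.
Let `N := M_K(M_2(A))`, `Φ := MM.mapEquiv K (Phi2 φ)`, `Φ² = 1`; all elements of `M_K(E)`, mapped by `MM.map (incl φ)`, are fixed by `Φ`.
`Dh := 1 ⊕ diag(D)`, `D = diag(1,-1) ∈ M_2(A)` (over `κ₁`), `Dh² = 1`, `Dh* = Dh`, `Φ(Dh) = 1 ⊕ diag(-D)`; `D f^s D = f^{¬s}` in `M_2(A)`.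
With `P = p ⊕ 0`, `G = 0 ⊕ G`, `R = P + G`, `T T* = P + G'`:  `Dh (P + G') = R Dh`, `Dh (P + G') Φ(Dh) = P - G`.
`v := Dh T0 + (1 - R)`: `v* v = 1 = v v*` (cross terms vanish: `T0* Dh (1-R) = T0* (P+G') Dh (1-R) = T0* Dh R (1-R) = 0`, `T0 (1-R) = T0 R (1-R) = 0`),
`v Φ(v)* = Dh T0 T0* Φ(Dh) + (1-R) = P - G + 1 - P - G = 1 - 2G`.
`lemmaC` for the Bratteli system `(B.amp (Fin 2)).amp K` of `N`, projection `G`, gives `g' ∈ K0 N` with `[G] = g' + Φ_* g'`.
Transfer: `F := K0lift (flat (Fin 2) A) ∘ K0lift (flat K (M_2 A)) : K0 N → K0 A`; `F (K0map Φ g') = K0map φ (F g')` (`K0_hom_ext`, `flat_Vmap`, `flat_Phi2`),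
`F (Vto (cls1 G)) = Vto (flat (clsM G)) = ∑_{κ₁} Vto (flat (cls1 (incl f^s))) = ∑ Vto (cls1 (f (d i)))` (`flat_cls1`, `clsM_diag`, `res_fpm`). -/

set_option linter.unusedSectionVars false

open scoped Matrix

namespace Helper19.BL

variable {V0 : Type} [Fintype V0] [DecidableEq V0] {T : V0 → V0 → ℕ}
  {A : Type*} [CStarAlgebra A] (B : Brat V0 T A) (φ : A ≃⋆ₐ[ℂ] A) (hφ : ∀ a, φ (φ a) = a)

/-- the abstract algebra -/
theorem E5_alg {N : Type*} [CStarAlgebra N] (Φ : N ≃⋆ₐ[ℂ] N) {T0 Dh ΦD P G G' : N}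
    (hT1 : star T0 * T0 = P + G) (hT2 : T0 * star T0 = P + G') (hT3 : T0 * (P + G) = T0)
    (hT4 : (P + G') * T0 = T0) (hΦT : Φ T0 = T0) (hΦR : Φ (P + G) = P + G) (hΦD : Φ Dh = ΦD)
    (hDD : Dh * Dh = 1) (hDs : star Dh = Dh) (hD1 : Dh * (P + G') = (P + G) * Dh)
    (hD2 : Dh * (P + G') * ΦD = P - G) (hRs : star (P + G) = P + G)
    (hR's : star (P + G') = P + G') (hRR : (P + G) * (P + G) = P + G) :
    Dh * T0 + (1 - (P + G)) ∈ unitary N ∧
      (Dh * T0 + (1 - (P + G))) * star (Φ (Dh * T0 + (1 - (P + G)))) = 1 - (2 : ℂ) • G := by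
  set R := P + G with hR
  set R' := P + G' with hR'
  have hD1' : R' * Dh = Dh * R := by
    have := congrArg star hD1
    rw [star_mul, star_mul, hDs, hRs, hR's] at this
    exact this
  have hT3s : R * star T0 = star T0 := by
    have := congrArg star hT3
    rwa [star_mul, hRs] at this
  have hT4s : star T0 * R' = star T0 := by
    have := congrArg star hT4
    rwa [star_mul, hR's] at this
  have hR0 : R * (1 - R) = 0 := by rw [mul_sub, mul_one, hRR, sub_self]
  have hR1 : (1 - R) * R = 0 := by rw [sub_mul, one_mul, hRR, sub_self]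
  have hR2 : (1 - R) * (1 - R) = 1 - R := by rw [mul_sub, mul_one, hR1, sub_zero]
  have hT5 : T0 * (1 - R) = 0 := by rw [mul_sub, mul_one, hT3, sub_self]
  have hT5s : (1 - R) * star T0 = 0 := by rw [sub_mul, one_mul, hT3s, sub_self]
  have hX : star T0 * Dh * (1 - R) = 0 := by
    rw [← hT4s]
    calc star T0 * R' * Dh * (1 - R) = star T0 * (R' * Dh) * (1 - R) := by
          simp only [mul_assoc]
      _ = star T0 * Dh * (R * (1 - R)) := by rw [hD1']; simp only [mul_assoc]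
      _ = 0 := by rw [hR0, mul_zero]
  have hXs : (1 - R) * (Dh * T0) = 0 := by
    have := congrArg star hX
    rw [star_mul, star_mul, star_star, hDs, star_zero, star_sub, star_one, hRs] at this
    exact this
  have hst : star (Dh * T0 + (1 - R)) = star T0 * Dh + (1 - R) := by
    rw [star_add, star_mul, hDs, star_sub, star_one, hRs]
  have hΦDs : star ΦD = ΦD := by rw [← hΦD, ← map_star, hDs]
  have hΦv : star (Φ (Dh * T0 + (1 - R))) = star T0 * ΦD + (1 - R) := by
    rw [map_add, map_mul, map_sub, map_one, hΦT, hΦD, hΦR, star_add, star_mul, star_sub, star_one,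
      hRs, hΦDs]
  refine ⟨?_, ?_⟩
  · rw [Unitary.mem_iff, hst]
    constructor
    · rw [add_mul, mul_add, mul_add, hX, hXs, hR2]
      have : star T0 * Dh * (Dh * T0) = R := by
        calc star T0 * Dh * (Dh * T0) = star T0 * (Dh * Dh) * T0 := by simp only [mul_assoc]
          _ = R := by rw [hDD, mul_one, hT1]
      rw [this]; abel
    · rw [add_mul, mul_add, mul_add, hR2]
      have h1 : Dh * T0 * (star T0 * Dh) = R := by
        calc Dh * T0 * (star T0 * Dh) = Dh * (T0 * star T0) * Dh := by simp only [mul_assoc]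
          _ = R * (Dh * Dh) := by rw [hT2, hD1]; simp only [mul_assoc]
          _ = R := by rw [hDD, mul_one]
      have h2 : Dh * T0 * (1 - R) = 0 := by rw [mul_assoc, hT5, mul_zero]
      have h3 : (1 - R) * (star T0 * Dh) = 0 := by rw [← mul_assoc, hT5s, zero_mul]
      rw [h1, h2, h3]; abel
  · rw [hΦv, add_mul, mul_add, mul_add, hR2]
    have h1 : Dh * T0 * (star T0 * ΦD) = P - G := by
      calc Dh * T0 * (star T0 * ΦD) = Dh * (T0 * star T0) * ΦD := by simp only [mul_assoc]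
        _ = P - G := by rw [hT2, hD2]
    have h2 : Dh * T0 * (1 - R) = 0 := by rw [mul_assoc, hT5, mul_zero]
    have h3 : (1 - R) * (star T0 * ΦD) = 0 := by rw [← mul_assoc, hT5s, zero_mul]
    rw [h1, h2, h3, hR, two_smul]; abel

/-- the matrix `diag(1,-1)` -/
noncomputable def E5_D (A : Type*) [CStarAlgebra A] : MM (Fin 2) A := MM.diag ![1, -1]

theorem E5_DD : E5_D A * E5_D A = 1 := by
  unfold E5_D
  rw [MM.diag_mul]
  apply MM.ext'
  intro i j
  fin_cases i <;> fin_cases j <;> simp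

theorem E5_D_star : star (E5_D A) = E5_D A := by
  unfold E5_D
  rw [MM.star_diag]
  apply MM.ext'
  intro i j
  fin_cases i <;> fin_cases j <;> simp

theorem E5_Phi_D : Phi2 φ (E5_D A) = -E5_D A := by
  unfold E5_D
  apply MM.ext'
  intro i j
  fin_cases i <;> fin_cases j <;> simp

theorem E5_D_fpm (f : A) (s : Bool) :
    E5_D A * incl φ (fpm φ hφ f (!s)) = incl φ (fpm φ hφ f s) * E5_D A := by
  unfold E5_D fpm
  apply MM.ext'
  intro i j
  rw [MM.mat_mul, MM.mat_mul, MM.diag_mat, Matrix.diagonal_mul, Matrix.mul_diagonal]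
  cases s <;> fin_cases i <;> fin_cases j <;> simp

include hφ in
theorem E5_Phi_Phi (x : MM (Fin 2) A) : Phi2 φ (Phi2 φ x) = x := by
  apply MM.ext'
  intro i j
  rw [Phi2_mat, Phi2_mat, hφ]
  simp

theorem E5_hom {K : Type*} [Fintype K] [DecidableEq K] (g : K0 (MM K (MM (Fin 2) A))) :
    K0lift (flat (Fin 2) A) (K0lift (flat K (MM (Fin 2) A))
      (K0map (MM.mapEquiv K (Phi2 φ) : MM K (MM (Fin 2) A) →⋆ₐ[ℂ] MM K (MM (Fin 2) A)) g)) =
    K0map (φ : A →⋆ₐ[ℂ] A) (K0lift (flat (Fin 2) A) (K0lift (flat K (MM (Fin 2) A)) g)) := by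
  have h : ((K0lift (flat (Fin 2) A)).comp (K0lift (flat K (MM (Fin 2) A)))).comp
      (K0map (MM.mapEquiv K (Phi2 φ) : MM K (MM (Fin 2) A) →⋆ₐ[ℂ] MM K (MM (Fin 2) A))) =
      (K0map (φ : A →⋆ₐ[ℂ] A)).comp
        ((K0lift (flat (Fin 2) A)).comp (K0lift (flat K (MM (Fin 2) A)))) := by
    apply K0_hom_ext
    intro x
    simp only [AddMonoidHom.comp_apply]
    rw [K0map_Vto, K0lift_Vto, K0lift_Vto, K0lift_Vto, K0lift_Vto, K0map_Vto, ← flat_Phi2,
      ← flat_Vmap]
    rfl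
  exact DFunLike.congr_fun h g

include B in
theorem cprime_core {ι : Type*} {f : ι → A} (hf : ∀ i, IsStarProjection (f i))
    (hinv : ∀ i, φ (f i) = f i) (κ₀ κ₁ : Type) [Fintype κ₀] [DecidableEq κ₀] [Fintype κ₁]
    [DecidableEq κ₁] [Nonempty κ₁] (p : Matrix κ₀ κ₀ (EE φ)) (hp : IsPj p) (d : κ₁ → ι)
    (s : κ₁ → Bool)
    (h : MvN (Matrix.fromBlocks p 0 0 (Matrix.diagonal fun i => fpm φ hφ (f (d i)) (s i)))
      (Matrix.fromBlocks p 0 0 (Matrix.diagonal fun i => fpm φ hφ (f (d i)) (!(s i))))) :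
    ∃ g : K0 A, ∑ i, Vto A (cls1 (f (d i)) (hf (d i))) = g + K0map (φ : A →⋆ₐ[ℂ] A) g := by
  have hq : ∀ t : κ₁ → Bool, IsPj (Matrix.diagonal fun i => fpm φ hφ (f (d i)) (t i)) := by
    intro t
    exact isPj_mat (pj_diag (κ := κ₁) (fun i => fpm_proj φ hφ (hf (d i)) (hinv (d i)) (t i)))
  obtain ⟨w, hw1, hw2, hw3, hw4⟩ := MvN.nice (hp.blocks (hq s)) (hp.blocks (hq fun i => !(s i))) h
  let K := κ₀ ⊕ κ₁
  let N := MM K (MM (Fin 2) A)
  let Φ : N ≃⋆ₐ[ℂ] N := MM.mapEquiv K (Phi2 φ)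
  let J : MM K (EE φ) →⋆ₐ[ℂ] N := MM.map (incl φ)
  have hΦJ : ∀ X, Φ (J X) = J X := fun X => MM.ext' fun i j => EE.fix (X.mat i j)
  let P : N := J (MM.of (Matrix.fromBlocks p 0 0 0))
  let Gt : (κ₁ → Bool) → N := fun t => MM.diag (Sum.elim (fun _ => 0)
    (fun i => incl φ (fpm φ hφ (f (d i)) (t i))))
  have hGt : ∀ t : κ₁ → Bool, P + Gt t =
      J (MM.of (Matrix.fromBlocks p 0 0 (Matrix.diagonal fun i => fpm φ hφ (f (d i)) (t i)))) := by
    intro t
    apply MM.ext'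
    intro i j
    change incl φ ((Matrix.fromBlocks p 0 0 0) i j) + (Matrix.diagonal (Sum.elim (fun _ => 0)
      (fun i => incl φ (fpm φ hφ (f (d i)) (t i))))) i j =
      incl φ (Matrix.fromBlocks p 0 0 (Matrix.diagonal fun i => fpm φ hφ (f (d i)) (t i)) i j)
    rcases i with i | i <;> rcases j with j | j
    · by_cases hij : i = j
      · subst hij; simp
      · have : (Sum.inl i : κ₀ ⊕ κ₁) ≠ Sum.inl j := fun h => hij (Sum.inl.inj h)
        simp [Matrix.diagonal_apply_ne _ this]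
    · simp
    · simp
    · by_cases hij : i = j
      · subst hij; simp
      · have : (Sum.inr i : κ₀ ⊕ κ₁) ≠ Sum.inr j := fun h => hij (Sum.inr.inj h)
        simp [Matrix.diagonal_apply_ne _ this, Matrix.diagonal_apply_ne _ hij]
  let Dh : N := MM.diag (Sum.elim (fun _ => 1) (fun _ => E5_D A))
  let ΦD : N := MM.diag (Sum.elim (fun _ => 1) (fun _ => -E5_D A))
  have hΦD : Φ Dh = ΦD := by
    apply MM.ext'
    intro i j
    change Phi2 φ (Matrix.diagonal (Sum.elim (fun _ => 1) (fun _ => E5_D A)) i j) =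
      Matrix.diagonal (Sum.elim (fun _ => 1) (fun _ => -E5_D A)) i j
    by_cases hij : i = j
    · subst hij
      rcases i with i | i
      · simp
      · simp [E5_Phi_D]
    · rw [Matrix.diagonal_apply_ne _ hij, Matrix.diagonal_apply_ne _ hij, map_zero]
  have hDD : Dh * Dh = 1 := by
    change MM.diag _ * MM.diag _ = (1 : N)
    rw [MM.diag_mul]
    apply MM.mat_injective
    rw [MM.diag_mat, MM.mat_one, ← Matrix.diagonal_one]
    congr 1
    funext i
    rcases i with i | i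
    · simp
    · simp [E5_DD]
  have hDs : star Dh = Dh := by
    change star (MM.diag _) = MM.diag _
    rw [MM.star_diag]
    congr 1
    funext i
    rcases i with i | i
    · simp
    · simp [E5_D_star]
  have hDP : Dh * P = P := by
    apply MM.mat_injective
    ext1 i j
    rw [MM.mat_mul, MM.diag_mat, Matrix.diagonal_mul]
    change _ * incl φ ((Matrix.fromBlocks p 0 0 0) i j) = incl φ ((Matrix.fromBlocks p 0 0 0) i j)
    rcases i with i | i <;> rcases j with j | j <;> simp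
  have hPD : P * Dh = P := by
    apply MM.mat_injective
    ext1 i j
    rw [MM.mat_mul, MM.diag_mat, Matrix.mul_diagonal]
    change incl φ ((Matrix.fromBlocks p 0 0 0) i j) * _ = incl φ ((Matrix.fromBlocks p 0 0 0) i j)
    rcases i with i | i <;> rcases j with j | j <;> simp
  have hPΦD : P * ΦD = P := by
    apply MM.mat_injective
    ext1 i j
    rw [MM.mat_mul, MM.diag_mat, Matrix.mul_diagonal]
    change incl φ ((Matrix.fromBlocks p 0 0 0) i j) * _ = incl φ ((Matrix.fromBlocks p 0 0 0) i j)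
    rcases i with i | i <;> rcases j with j | j <;> simp
  have hDG : Dh * Gt (fun i => !(s i)) = Gt s * Dh := by
    change MM.diag _ * MM.diag _ = MM.diag _ * MM.diag _
    rw [MM.diag_mul, MM.diag_mul]
    congr 1
    funext i
    rcases i with i | i
    · simp
    · simp only [Sum.elim_inr]
      exact E5_D_fpm φ hφ (f (d i)) (s i)
  have hDGD : Dh * Gt (fun i => !(s i)) * ΦD = -Gt s := by
    rw [hDG]
    change MM.diag _ * MM.diag _ * MM.diag _ = -MM.diag _
    rw [MM.diag_mul, MM.diag_mul]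
    apply MM.mat_injective
    rw [MM.diag_mat, MM.mat_neg, MM.diag_mat, Matrix.diagonal_neg]
    congr 1
    funext i
    rcases i with i | i
    · simp
    · simp only [Sum.elim_inr]
      rw [mul_neg, mul_assoc, E5_DD, mul_one]
  have hGproj : ∀ i : κ₀ ⊕ κ₁, IsStarProjection ((Sum.elim (fun _ => 0)
    (fun i => incl φ (fpm φ hφ (f (d i)) (s i))) : κ₀ ⊕ κ₁ → MM (Fin 2) A) i) := by
    intro i
    rcases i with i | i
    · exact pj_zero
    · exact pj_map _ (fpm_proj φ hφ (hf (d i)) (hinv (d i)) (s i))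
  have hG : IsStarProjection (Gt s) := pj_diag hGproj
  have hRp : ∀ t : κ₁ → Bool, IsStarProjection (P + Gt t) := by
    intro t
    rw [hGt]
    apply pj_map
    have := hp.blocks (hq t)
    exact pj_mk (MM.mat_injective this.1) (MM.mat_injective this.2)
  have key := E5_alg Φ (T0 := J (MM.of w)) (Dh := Dh) (ΦD := ΦD) (P := P) (G := Gt s)
    (G' := Gt fun i => !(s i))
    (by rw [hGt, ← map_star, ← map_mul]; exact congrArg J (MM.mat_injective hw1))
    (by rw [hGt, ← map_star, ← map_mul]; exact congrArg J (MM.mat_injective hw2))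
    (by rw [hGt, ← map_mul]; exact congrArg J (MM.mat_injective hw3))
    (by rw [hGt, ← map_mul]; exact congrArg J (MM.mat_injective hw4))
    (hΦJ _) (by rw [hGt, hΦJ]) hΦD hDD hDs
    (by rw [mul_add, add_mul, hDP, hPD, hDG])
    (by rw [mul_add, add_mul, hDP, hPΦD, hDGD, sub_eq_add_neg])
    (pjs (hRp s)) (pjs (hRp _)) (pjm (hRp s))
  obtain ⟨g, hg⟩ := lemmaC ((B.amp (Fin 2)).amp K) Φ
    (fun a => MM.ext' fun i j => E5_Phi_Phi φ hφ (a.mat i j)) hG key.1 key.2
  refine ⟨K0lift (flat (Fin 2) A) (K0lift (flat K (MM (Fin 2) A)) g), ?_⟩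
  rw [← E5_hom, ← map_add, ← map_add, ← hg, K0lift_Vto, K0lift_Vto, flat_cls1]
  have e1 : clsM (Gt s) hG = ∑ i : κ₁, cls1 (incl φ (fpm φ hφ (f (d i)) (s i)))
      (pj_map _ (fpm_proj φ hφ (hf (d i)) (hinv (d i)) (s i))) := by
    have := clsM_diag hGproj
    rw [Fintype.sum_sum_type] at this
    refine this.trans ?_
    have h0 : ∑ i : κ₀, cls1 ((Sum.elim (fun _ => 0)
      (fun i => incl φ (fpm φ hφ (f (d i)) (s i))) : κ₀ ⊕ κ₁ → MM (Fin 2) A) (Sum.inl i))
        (hGproj (Sum.inl i)) = 0 := Finset.sum_eq_zero fun i _ => cls1_zero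
    rw [h0, zero_add]
    rfl
  rw [e1, map_sum, map_sum]
  refine Finset.sum_congr rfl fun i _ => ?_
  rw [← res_fpm φ hφ (hf (d i)) (hinv (d i)) (s i), res, AddMonoidHom.comp_apply,
    Vmap_cls1 _ _ (pj_map _ (fpm_proj φ hφ (hf (d i)) (hinv (d i)) (s i)))]

end Helper19.BL
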