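import Pool.Agent.Helper19.BL.E5

/-! # MODULE E6: from an equation in `K0 (EE φ)` to an equation in `K0 A` (bookkeeping)

`h : ∑ k_i ([f_i^+] - [f_i^-]) = 0`.  Let `κ₁ := Σ i : ι, Fin (k i).natAbs`, `d = Sigma.fst`, `s x = decide (0 < k x.1)`.  The equation says
`Vto (∑_{κ₁} cls1 (fpm (f (d x)) (s x))) = Vto (∑_{κ₁} cls1 (fpm (f (d x)) (!s x)))`, so (`Vto_eq_iff`) there is `c : V (EE φ)` with `c + .. = c + ..`;
`c = cls p` (`V.exists_rep`), `∑_{κ₁} cls1 .. = clsM (diag ..) = cls (diagonal ..)` (`clsM_diag`), `cls_add_cls`, `cls_eq_iff`: the hypothesis of `cprime_core`.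
If `κ₁` is empty all `k_i = 0` and `g = 0` works.  `∑_{κ₁} Vto (cls1 (f (d x))) = ∑_i |k_i| • Vto (cls1 (f i))` (`Fintype.sum_sigma`). -/

set_option linter.unusedSectionVars false

open scoped Matrix

namespace Helper19.BL

variable {V0 : Type} [Fintype V0] [DecidableEq V0] {T : V0 → V0 → ℕ}
  {A : Type*} [CStarAlgebra A] (B : Brat V0 T A) (φ : A ≃⋆ₐ[ℂ] A) (hφ : ∀ a, φ (φ a) = a)

theorem E6_sum_sigma {G : Type*} [AddCommGroup G] {ι : Type} [Fintype ι] (k : ι → ℤ)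
    (F : ι → G) : ∑ x : (Σ i : ι, Fin (k i).natAbs), F x.1 = ∑ i, |k i| • F i := by
  rw [Fintype.sum_sigma]
  refine Finset.sum_congr rfl fun i _ => ?_
  change ∑ _y : Fin (k i).natAbs, F i = _
  rw [Finset.sum_const, Finset.card_univ, Fintype.card_fin, Int.abs_eq_natAbs, natCast_zsmul]

theorem E6_signs {G : Type*} [AddCommGroup G] (k : ℤ) (F : Bool → G) :
    |k| • (F (decide (0 < k)) - F (!(decide (0 < k)))) = k • (F true - F false) := by
  by_cases hk : 0 < k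
  · rw [decide_eq_true hk, abs_of_pos hk]
    rfl
  · rw [decide_eq_false hk, abs_of_nonpos (not_lt.mp hk)]
    change -k • (F false - F true) = _
    rw [neg_smul, ← smul_neg, neg_sub]

include B in
theorem cprime {ι : Type} [Fintype ι] [DecidableEq ι] {f : ι → A}
    (hf : ∀ i, IsStarProjection (f i)) (hinv : ∀ i, φ (f i) = f i) (k : ι → ℤ)
    (h : ∑ i, k i • (Vto (EE φ) (cls1 (fpm φ hφ (f i) true) (fpm_proj φ hφ (hf i) (hinv i) true)) -
      Vto (EE φ) (cls1 (fpm φ hφ (f i) false) (fpm_proj φ hφ (hf i) (hinv i) false))) = 0) :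
    ∃ g : K0 A, ∑ i, |k i| • Vto A (cls1 (f i) (hf i)) = g + K0map (φ : A →⋆ₐ[ℂ] A) g := by
  rcases isEmpty_or_nonempty (Σ i : ι, Fin (k i).natAbs) with hemp | hne
  · refine ⟨0, ?_⟩
    rw [map_zero, add_zero]
    refine Finset.sum_eq_zero fun i _ => ?_
    have hk : k i = 0 := by
      by_contra hki
      exact hemp.false ⟨i, ⟨0, Int.natAbs_pos.mpr hki⟩⟩
    rw [hk, abs_zero, zero_smul]
  let d : (Σ i : ι, Fin (k i).natAbs) → ι := Sigma.fst
  let s : (Σ i : ι, Fin (k i).natAbs) → Bool := fun x => decide (0 < k x.1)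
  have hpr : ∀ (i : ι) (b : Bool), IsStarProjection (fpm φ hφ (f i) b) := fun i b =>
    fpm_proj φ hφ (hf i) (hinv i) b
  have e1 : Vto (EE φ) (∑ x, cls1 (fpm φ hφ (f (d x)) (s x)) (hpr _ _)) =
      Vto (EE φ) (∑ x, cls1 (fpm φ hφ (f (d x)) (!(s x))) (hpr _ _)) := by
    rw [map_sum, map_sum, ← sub_eq_zero, ← Finset.sum_sub_distrib]
    have h1 := E6_sum_sigma k (fun i => Vto (EE φ) (cls1 (fpm φ hφ (f i) (decide (0 < k i)))
      (hpr _ _)) - Vto (EE φ) (cls1 (fpm φ hφ (f i) (!(decide (0 < k i)))) (hpr _ _)))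
    refine h1.trans ?_
    rw [← h]
    refine Finset.sum_congr rfl fun i _ => ?_
    exact E6_signs (k i) (fun b => Vto (EE φ) (cls1 (fpm φ hφ (f i) b) (hpr _ _)))
  obtain ⟨c, hc⟩ := Vto_eq_iff.mp e1
  obtain ⟨n, p, hp, rfl⟩ := V.exists_rep c
  rw [← clsM_diag (fun x => hpr (d x) (s x)), ← clsM_diag (fun x => hpr (d x) (!(s x))),
    clsM, clsM, cls_add_cls, cls_add_cls, cls_eq_iff] at hc
  obtain ⟨g, hg⟩ := cprime_core B φ hφ hf hinv (Fin n) (Σ i : ι, Fin (k i).natAbs) p hp d s hc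
  refine ⟨g, ?_⟩
  rw [← hg]
  exact (E6_sum_sigma k (fun i => Vto A (cls1 (f i) (hf i)))).symm

end Helper19.BL
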