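import Pool.Agent.Helper19.BL.GDefs

/-! # The crossed product `A ⋊ Z/2` as a fixed point algebra in `M_2(A)` -/

set_option linter.unusedSectionVars false

open scoped Matrix

namespace Helper19.BL

variable {A : Type*} [CStarAlgebra A]

/-- entrywise application of a star automorphism -/
noncomputable def MM.mapEquiv (κ : Type*) [Fintype κ] [DecidableEq κ] {A B : Type*}
    [CStarAlgebra A] [CStarAlgebra B] (f : A ≃⋆ₐ[ℂ] B) : MM κ A ≃⋆ₐ[ℂ] MM κ B :=
  { MM.map (κ := κ) (f : A →⋆ₐ[ℂ] B) with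
    toFun := MM.map (κ := κ) (f : A →⋆ₐ[ℂ] B)
    invFun := MM.map (κ := κ) (f.symm : B →⋆ₐ[ℂ] A)
    left_inv := fun x => MM.ext' fun i j => by simp
    right_inv := fun x => MM.ext' fun i j => by simp
    map_smul' := fun c x => map_smul (MM.map (κ := κ) (f : A →⋆ₐ[ℂ] B)) c x
    map_star' := fun x => map_star (MM.map (κ := κ) (f : A →⋆ₐ[ℂ] B)) x }

@[simp] lemma MM.mapEquiv_mat (κ : Type*) [Fintype κ] [DecidableEq κ] {A B : Type*}
    [CStarAlgebra A] [CStarAlgebra B] (f : A ≃⋆ₐ[ℂ] B) (x : MM κ A) (i j : κ) :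
    (MM.mapEquiv κ f x).mat i j = f (x.mat i j) := rfl

/-- conjugation by a permutation matrix, as an automorphism of the matrix algebra -/
noncomputable def MM.reidx {κ : Type*} [Fintype κ] [DecidableEq κ] {A : Type*} [CStarAlgebra A]
    (s : Equiv.Perm κ) : MM κ A ≃⋆ₐ[ℂ] MM κ A where
  toFun x := MM.of (x.mat.submatrix s s)
  invFun x := MM.of (x.mat.submatrix s.symm s.symm)
  left_inv x := MM.ext' fun i j => by simp
  right_inv x := MM.ext' fun i j => by simp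
  map_mul' x y := MM.mat_injective (by
    simp only [MM.mat_mul, MM.mat_of]
    exact (Matrix.submatrix_mul_equiv x.mat y.mat s s s).symm)
  map_add' x y := MM.ext' fun i j => by simp
  map_smul' c x := MM.ext' fun i j => by simp
  map_star' x := MM.ext' fun i j => by simp [Matrix.conjTranspose_apply]

@[simp] lemma MM.reidx_mat {κ : Type*} [Fintype κ] [DecidableEq κ] {A : Type*} [CStarAlgebra A]
    (s : Equiv.Perm κ) (x : MM κ A) (i j : κ) : (MM.reidx s x).mat i j = x.mat (s i) (s j) := rfl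

/-- The automorphism `X ↦ W φ(X) W` of `M_2(A)`, `W` = flip. -/
noncomputable def Phi2 (φ : A ≃⋆ₐ[ℂ] A) : MM (Fin 2) A ≃⋆ₐ[ℂ] MM (Fin 2) A :=
  (MM.mapEquiv (Fin 2) φ).trans (MM.reidx (Equiv.swap 0 1))

@[simp] lemma Phi2_mat (φ : A ≃⋆ₐ[ℂ] A) (x : MM (Fin 2) A) (i j : Fin 2) :
    (Phi2 φ x).mat i j = φ (x.mat (Equiv.swap 0 1 i) (Equiv.swap 0 1 j)) := rfl

/-- The crossed product of `A` by the order 2 automorphism `φ`, realised as the fixed point
algebra of `Phi2 φ` in `M_2(A)`. -/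
abbrev EE (φ : A ≃⋆ₐ[ℂ] A) : Type _ := FixA (Phi2 φ)

/-- inclusion `EE φ → M_2(A)` -/
noncomputable def incl (φ : A ≃⋆ₐ[ℂ] A) : EE φ →⋆ₐ[ℂ] MM (Fin 2) A := (FixA (Phi2 φ)).subtype

lemma incl_injective (φ : A ≃⋆ₐ[ℂ] A) : Function.Injective (incl φ) := Subtype.val_injective

variable (φ : A ≃⋆ₐ[ℂ] A) (hφ : ∀ a, φ (φ a) = a)

/-- The element `a + b z` of the crossed product: the matrix `(a, b; φ b, φ a)`. -/
noncomputable def mkE (a b : A) : EE φ :=
  ⟨MM.of !![a, b; φ b, φ a], by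
    change Phi2 φ _ = _
    apply MM.ext'
    intro i j
    fin_cases i <;> fin_cases j <;> simp [hφ]⟩

lemma incl_mkE (a b : A) : incl φ (mkE φ hφ a b) = MM.of !![a, b; φ b, φ a] := rfl

@[simp] lemma mkE_mat00 (a b : A) : (incl φ (mkE φ hφ a b)).mat 0 0 = a := rfl
@[simp] lemma mkE_mat01 (a b : A) : (incl φ (mkE φ hφ a b)).mat 0 1 = b := rfl
@[simp] lemma mkE_mat10 (a b : A) : (incl φ (mkE φ hφ a b)).mat 1 0 = φ b := rfl
@[simp] lemma mkE_mat11 (a b : A) : (incl φ (mkE φ hφ a b)).mat 1 1 = φ a := rfl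

lemma EE.fix {φ : A ≃⋆ₐ[ℂ] A} (X : EE φ) : Phi2 φ (incl φ X) = incl φ X := X.2

lemma EE.mat10 {φ : A ≃⋆ₐ[ℂ] A} (X : EE φ) : (incl φ X).mat 1 0 = φ ((incl φ X).mat 0 1) := by
  conv_lhs => rw [← EE.fix X]
  simp

lemma EE.mat11 {φ : A ≃⋆ₐ[ℂ] A} (X : EE φ) : (incl φ X).mat 1 1 = φ ((incl φ X).mat 0 0) := by
  conv_lhs => rw [← EE.fix X]
  simp

/-- first coordinate `a` of `a + b z` -/
noncomputable def ea {φ : A ≃⋆ₐ[ℂ] A} (X : EE φ) : A := (incl φ X).mat 0 0
/-- second coordinate `b` of `a + b z` -/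
noncomputable def eb {φ : A ≃⋆ₐ[ℂ] A} (X : EE φ) : A := (incl φ X).mat 0 1

lemma EE.ext2 {φ : A ≃⋆ₐ[ℂ] A} {X Y : EE φ} (h1 : ea X = ea Y) (h2 : eb X = eb Y) : X = Y := by
  apply incl_injective
  apply MM.ext'
  intro i j
  fin_cases i <;> fin_cases j
  · exact h1
  · exact h2
  · change (incl φ X).mat 1 0 = (incl φ Y).mat 1 0
    rw [EE.mat10, EE.mat10]
    exact congrArg φ h2
  · change (incl φ X).mat 1 1 = (incl φ Y).mat 1 1
    rw [EE.mat11, EE.mat11]
    exact congrArg φ h1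

@[simp] lemma ea_mkE (a b : A) : ea (mkE φ hφ a b) = a := rfl
@[simp] lemma eb_mkE (a b : A) : eb (mkE φ hφ a b) = b := rfl
lemma mkE_eta (X : EE φ) : mkE φ hφ (ea X) (eb X) = X := EE.ext2 rfl rfl

section coords
variable {φ}
@[simp] lemma ea_add (X Y : EE φ) : ea (X + Y) = ea X + ea Y := rfl
@[simp] lemma eb_add (X Y : EE φ) : eb (X + Y) = eb X + eb Y := rfl
@[simp] lemma ea_sub (X Y : EE φ) : ea (X - Y) = ea X - ea Y := rfl
@[simp] lemma eb_sub (X Y : EE φ) : eb (X - Y) = eb X - eb Y := rfl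
@[simp] lemma ea_neg (X : EE φ) : ea (-X) = -ea X := rfl
@[simp] lemma eb_neg (X : EE φ) : eb (-X) = -eb X := rfl
@[simp] lemma ea_zero : ea (0 : EE φ) = 0 := rfl
@[simp] lemma eb_zero : eb (0 : EE φ) = 0 := rfl
@[simp] lemma ea_one : ea (1 : EE φ) = 1 := rfl
@[simp] lemma eb_one : eb (1 : EE φ) = 0 := by
  change ((1 : MM (Fin 2) A)).mat 0 1 = 0
  simp
@[simp] lemma ea_smul (c : ℂ) (X : EE φ) : ea (c • X) = c • ea X := rfl
@[simp] lemma eb_smul (c : ℂ) (X : EE φ) : eb (c • X) = c • eb X := rfl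
@[simp] lemma ea_mul (X Y : EE φ) : ea (X * Y) = ea X * ea Y + eb X * φ (eb Y) := by
  change ((incl φ X) * (incl φ Y)).mat 0 0 = _
  rw [MM.mat_mul, Matrix.mul_apply, Fin.sum_univ_two, EE.mat10]; rfl
@[simp] lemma eb_mul (X Y : EE φ) : eb (X * Y) = ea X * eb Y + eb X * φ (ea Y) := by
  change ((incl φ X) * (incl φ Y)).mat 0 1 = _
  rw [MM.mat_mul, Matrix.mul_apply, Fin.sum_univ_two, EE.mat11]; rfl
@[simp] lemma ea_star (X : EE φ) : ea (star X) = star (ea X) := rfl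
@[simp] lemma eb_star (X : EE φ) : eb (star X) = star (φ (eb X)) := by
  change (star (incl φ X)).mat 0 1 = _
  rw [MM.mat_star, Matrix.conjTranspose_apply, EE.mat10]
  rfl
end coords

/-- the embedding `a ↦ diag(a, φ a)` -/
noncomputable def iota : A →⋆ₐ[ℂ] EE φ where
  toFun a := mkE φ hφ a 0
  map_one' := EE.ext2 (by simp) (by simp)
  map_mul' a b := EE.ext2 (by simp) (by simp)
  map_zero' := EE.ext2 (by simp) (by simp)
  map_add' a b := EE.ext2 (by simp) (by simp)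
  commutes' c := EE.ext2 (by simp only [ea_mkE]; rw [Algebra.algebraMap_eq_smul_one, Algebra.algebraMap_eq_smul_one]; simp)
    (by simp only [eb_mkE]; rw [Algebra.algebraMap_eq_smul_one]; simp)
  map_star' a := EE.ext2 (by simp) (by simp)

@[simp] lemma ea_iota (a : A) : ea (iota φ hφ a) = a := rfl
@[simp] lemma eb_iota (a : A) : eb (iota φ hφ a) = 0 := rfl

/-- the unitary `z` implementing `φ` -/
noncomputable def zed : EE φ := mkE φ hφ 0 1

@[simp] lemma ea_zed : ea (zed φ hφ) = 0 := rfl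
@[simp] lemma eb_zed : eb (zed φ hφ) = 1 := rfl

lemma zed_mul_zed : zed φ hφ * zed φ hφ = 1 := EE.ext2 (by simp) (by simp)
lemma star_zed : star (zed φ hφ) = zed φ hφ := EE.ext2 (by simp) (by simp)
lemma zed_iota (a : A) : zed φ hφ * iota φ hφ a = iota φ hφ (φ a) * zed φ hφ :=
  EE.ext2 (by simp) (by simp)
lemma eta_iz (X : EE φ) : X = iota φ hφ (ea X) + iota φ hφ (eb X) * zed φ hφ :=
  EE.ext2 (by simp) (by simp)

/-- elements of the crossed product with coordinates in `I` -/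
noncomputable def EJ (I : Submodule ℂ A) : Submodule ℂ (EE φ) where
  carrier := {X | ea X ∈ I ∧ eb X ∈ I}
  zero_mem' := ⟨by simp, by simp⟩
  add_mem' := fun hX hY => ⟨by simpa using I.add_mem hX.1 hY.1, by simpa using I.add_mem hX.2 hY.2⟩
  smul_mem' := fun c X hX => ⟨by simpa using I.smul_mem c hX.1, by simpa using I.smul_mem c hX.2⟩

lemma mem_EJ {I : Submodule ℂ A} {X : EE φ} : X ∈ EJ φ I ↔ ea X ∈ I ∧ eb X ∈ I := Iff.rfl

lemma continuous_ea : Continuous (ea : EE φ → A) :=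
  (MM.continuous_entry 0 0).comp continuous_subtype_val
lemma continuous_eb : Continuous (eb : EE φ → A) :=
  (MM.continuous_entry 0 1).comp continuous_subtype_val

lemma IsCI.EJ {I : Submodule ℂ A} (hI : IsCI I) (hinv : ∀ a ∈ I, φ a ∈ I) : IsCI (EJ φ I) where
  closed := (hI.closed.preimage (continuous_ea φ)).inter (hI.closed.preimage (continuous_eb φ))
  mul_left a x hx := ⟨by
      rw [ea_mul]; exact I.add_mem (hI.mul_left _ hx.1) (hI.mul_left _ (hinv _ hx.2)), by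
      rw [eb_mul]; exact I.add_mem (hI.mul_left _ hx.2) (hI.mul_left _ (hinv _ hx.1))⟩
  mul_right a x hx := ⟨by
      rw [ea_mul]; exact I.add_mem (hI.mul_right _ hx.1) (hI.mul_right _ hx.2), by
      rw [eb_mul]; exact I.add_mem (hI.mul_right _ hx.1) (hI.mul_right _ hx.2)⟩
  star_mem hx := ⟨by rw [ea_star]; exact hI.star_mem hx.1, by
      rw [eb_star]; exact hI.star_mem (hinv _ hx.2)⟩

end Helper19.BL
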