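import Mathlib

/-! # The Bratteli data of the counterexample: Fano plane -/

namespace Helper19.BL

/-- incidence of point `i` and line `j` of the Fano plane; points
`100,010,001,110,101,011,111`, lines `{0,1,3},{0,2,4},{0,5,6},{1,2,5},{1,4,6},{2,3,6},{3,4,5}`. -/
def inc (j i : Fin 7) : Bool :=
  match j with
  | 0 => i = 0 || i = 1 || i = 3
  | 1 => i = 0 || i = 2 || i = 4
  | 2 => i = 0 || i = 5 || i = 6
  | 3 => i = 1 || i = 2 || i = 5
  | 4 => i = 1 || i = 4 || i = 6
  | 5 => i = 2 || i = 3 || i = 6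
  | 6 => i = 3 || i = 4 || i = 5

/-- incidence number `M_{ji}` -/
def Mn (j i : Fin 7) : ℕ := if inc j i then 1 else 0

/-- `N_{lj} = 1` iff the point `l` (`l = 0,1,2`, unit vectors) is not on the line `j` -/
def Nn (l : Fin 3) (j : Fin 7) : ℕ := if inc j (Fin.castLE (by norm_num) l) then 0 else 1

/-- `R_{li} = 1` iff `i ≠ l` -/
def Rn (l : Fin 3) (i : Fin 7) : ℕ := if i = Fin.castLE (by norm_num) l then 0 else 1

/-- The 31 vertices: `x l`, `m j s` (`s = 0,1,2`: `a_j, b_j, c_j`), `e i`. -/
inductive VV : Type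
  | x (l : Fin 3)
  | m (j : Fin 7) (s : Fin 3)
  | e (i : Fin 7)
  deriving DecidableEq, Fintype

open VV

/-- the Bratteli multiplicities -/
def TT : VV → VV → ℕ
  | x l, x l' => if l = l' then 1 else 0
  | x l, m j s => if s = 1 then 0 else Nn l j
  | x l, e i => Rn l i
  | m _ _, x _ => 0
  | m j s, m j' s' => if j = j' then
      (match s with
        | 0 => (match s' with | 0 => 2 | 1 => 0 | 2 => 1)
        | 1 => 1
        | 2 => (match s' with | 0 => 0 | 1 => 2 | 2 => 1)) else 0
  | m j s, e i => if s = 2 then 0 else Mn j i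
  | e _, x _ => 0
  | e _, m _ _ => 0
  | e i, e i' => if i = i' then 1 else 0

/-- the multiplicities of the automorphism (one level down) -/
def SS : VV → VV → ℕ
  | x l, x l' => if l = l' then 1 else 0
  | x l, m j s => if s = 0 then 0 else Nn l j
  | x _, e _ => 0
  | m j s, w => TT (m j s.rev) w
  | e i, w => TT (e i) w

/-- matrices -/
def TM : Matrix VV VV ℕ := Matrix.of TT
def SM : Matrix VV VV ℕ := Matrix.of SS

/-- sizes of level 0 -/
def dd0 : VV → ℕ
  | x _ => 2
  | m _ s => if s = 0 then 0 else 1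
  | e _ => 0

end Helper19.BL
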