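import Pool.Agent.Helper19.BL.GBasic

/-! # MODULE G2: closed ideals are semiprime; the closed ideal generated by a family

`star_mul_self`: `x = lim x f_ε(star x * x)`, `f_ε(a) = a (a+ε)⁻¹`; `x f_ε(a) ∈ I` because `a ∈ I`;
`‖x - x f_ε(a)‖² = ‖(1-f) a (1-f)‖ = ‖ε² a (a+ε)⁻²‖ ≤ ε`.  Use `cfc` on the self-adjoint `a = star x * x`
(spectrum in `[0,∞)`: `spectrum_star_mul_self_nonneg`).

`Kid_isCI`: the span of `{a f_t b}` is a two-sided ideal, star-closed as `star (a f b) = star b f star a`;
take closures (`map_mem_closure`, `Submodule.topologicalClosure`). -/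

set_option linter.unusedSectionVars false

namespace Helper19.BL

variable {R : Type*} [CStarAlgebra R]

/-- approximation of `x` by `x * (a * y)`, `a = star x * x` -/
theorem G2_approx (x : R) {e : ℝ} (he : 0 < e) :
    ∃ y : R, ‖x - x * ((star x * x) * y)‖ ^ 2 ≤ e := by
  have hsa : IsSelfAdjoint (star x * x) := IsSelfAdjoint.star_mul_self x
  set a := star x * x with ha
  have hsp : ∀ t ∈ spectrum ℝ a, 0 ≤ t := spectrum_star_mul_self_nonneg
  have hne : ∀ t : ℝ, |t| + e ≠ 0 := fun t => by positivity
  have hgc : Continuous fun t : ℝ => (|t| + e)⁻¹ := by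
    exact (continuous_abs.add continuous_const).inv₀ hne
  set g : ℝ → ℝ := fun t => (|t| + e)⁻¹ with hg
  have hgc' : Continuous g := hgc
  refine ⟨cfc g a, ?_⟩
  have h1 : a * cfc g a = cfc (fun t => t * g t) a := by
    have h := cfc_mul (fun t : ℝ => t) g a continuous_id.continuousOn hgc'.continuousOn
    rw [h, cfc_id' ℝ a]
  have h2 : 1 - a * cfc g a = cfc (fun t => 1 - t * g t) a := by
    rw [h1, cfc_sub (fun _ : ℝ => (1 : ℝ)) (fun t => t * g t) a continuous_const.continuousOn
      (continuous_id.mul hgc').continuousOn, cfc_const_one ℝ a]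
  have h3 : star (1 - a * cfc g a) = 1 - a * cfc g a := by
    rw [h2]; exact (cfc_predicate (R := ℝ) (p := IsSelfAdjoint) (fun t => 1 - t * g t) a).star_eq
  have h4 : x - x * (a * cfc g a) = x * (1 - a * cfc g a) := by rw [mul_sub, mul_one]
  have h5 : star (x - x * (a * cfc g a)) * (x - x * (a * cfc g a)) =
      cfc (fun t => (1 - t * g t) * (t * (1 - t * g t))) a := by
    rw [h4, star_mul, h3]
    have hc1 : Continuous fun t : ℝ => 1 - t * g t := continuous_const.sub (continuous_id.mul hgc')
    rw [cfc_mul (fun t : ℝ => 1 - t * g t) (fun t => t * (1 - t * g t)) a hc1.continuousOn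
      (continuous_id.mul hc1).continuousOn,
      cfc_mul (fun t : ℝ => t) (fun t => 1 - t * g t) a continuous_id.continuousOn hc1.continuousOn,
      cfc_id' ℝ a, ← h2, ha]
    simp only [mul_assoc]
  have h6 : ‖x - x * (a * cfc g a)‖ ^ 2 =
      ‖cfc (fun t => (1 - t * g t) * (t * (1 - t * g t))) a‖ := by
    rw [← h5, CStarRing.norm_star_mul_self, sq]
  rw [h6]
  refine norm_cfc_le he.le fun t ht => ?_
  have ht0 := hsp t ht
  have hgt : g t = (t + e)⁻¹ := by simp only [hg, abs_of_nonneg ht0]
  have hte : 0 < t + e := by linarith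
  have h7 : 1 - t * g t = e / (t + e) := by
    rw [hgt]; field_simp; ring
  simp only [h7]
  rw [Real.norm_of_nonneg (by positivity)]
  have h8 : e / (t + e) ≤ 1 := by rw [div_le_one hte]; linarith
  have h9 : t * (e / (t + e)) ≤ e := by
    rw [mul_div_assoc', div_le_iff₀ hte]; nlinarith
  calc e / (t + e) * (t * (e / (t + e))) ≤ 1 * e :=
        mul_le_mul h8 h9 (by positivity) zero_le_one
    _ = e := one_mul e

theorem IsCI.of_star_mul_self {I : Submodule ℂ R} (hI : IsCI I) {x : R} (h : star x * x ∈ I) :
    x ∈ I := by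
  have hx : x ∈ closure (I : Set R) := by
    rw [Metric.mem_closure_iff]
    intro e he
    obtain ⟨y, hy⟩ := G2_approx x (e := e ^ 2 / 2) (by positivity)
    refine ⟨x * ((star x * x) * y), hI.mul_left _ (hI.mul_right _ h), ?_⟩
    rw [dist_eq_norm]
    have : ‖x - x * ((star x * x) * y)‖ ^ 2 < e ^ 2 := lt_of_le_of_lt hy (by nlinarith [sq_pos_of_pos he])
    exact lt_of_pow_lt_pow_left₀ 2 he.le this
  rwa [hI.closed.closure_eq] at hx

theorem IsCI.of_mul_star_self {I : Submodule ℂ R} (hI : IsCI I) {x : R} (h : x * star x ∈ I) :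
    x ∈ I := by
  have h1 : star x ∈ I := hI.of_star_mul_self (by rwa [star_star])
  have h2 := hI.star_mem h1
  rwa [star_star] at h2

theorem mem_Kid {τ : Type*} {f : τ → R} (t : τ) (a b : R) : a * f t * b ∈ Kid f :=
  Submodule.le_topologicalClosure _ (Submodule.subset_span ⟨t, a, b, rfl⟩)

theorem Kid_isCI {τ : Type*} {f : τ → R} (hf : ∀ t, IsStarProjection (f t)) : IsCI (Kid f) := by
  set S : Submodule ℂ R := Submodule.span ℂ {x : R | ∃ t a b, x = a * f t * b} with hS
  have hl : ∀ (c : R) {x : R}, x ∈ S → c * x ∈ S := by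
    intro c x hx
    induction hx using Submodule.span_induction with
    | mem x hx =>
      obtain ⟨t, a, b, rfl⟩ := hx
      exact Submodule.subset_span ⟨t, c * a, b, by simp only [mul_assoc]⟩
    | zero => rw [mul_zero]; exact S.zero_mem
    | add x y _ _ hx hy => rw [mul_add]; exact S.add_mem hx hy
    | smul r x _ hx => rw [mul_smul_comm]; exact S.smul_mem r hx
  have hr : ∀ (c : R) {x : R}, x ∈ S → x * c ∈ S := by
    intro c x hx
    induction hx using Submodule.span_induction with
    | mem x hx =>
      obtain ⟨t, a, b, rfl⟩ := hx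
      exact Submodule.subset_span ⟨t, a, b * c, by simp only [mul_assoc]⟩
    | zero => rw [zero_mul]; exact S.zero_mem
    | add x y _ _ hx hy => rw [add_mul]; exact S.add_mem hx hy
    | smul r x _ hx => rw [smul_mul_assoc]; exact S.smul_mem r hx
  have hs : ∀ {x : R}, x ∈ S → star x ∈ S := by
    intro x hx
    induction hx using Submodule.span_induction with
    | mem x hx =>
      obtain ⟨t, a, b, rfl⟩ := hx
      refine Submodule.subset_span ⟨t, star b, star a, ?_⟩
      rw [star_mul, star_mul, pjs (hf t)]
      simp only [mul_assoc]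
    | zero => rw [star_zero]; exact S.zero_mem
    | add x y _ _ hx hy => rw [star_add]; exact S.add_mem hx hy
    | smul r x _ hx => rw [star_smul]; exact S.smul_mem _ hx
  have hK : ((Kid f : Submodule ℂ R) : Set R) = closure (S : Set R) := rfl
  constructor
  · rw [hK]; exact isClosed_closure
  · intro a x hx
    have hx' : x ∈ closure (S : Set R) := hx
    exact map_mem_closure (f := fun y => a * y) (by fun_prop) hx' fun y hy => hl a hy
  · intro a x hx
    have hx' : x ∈ closure (S : Set R) := hx
    exact map_mem_closure (f := fun y => y * a) (by fun_prop) hx' fun y hy => hr a hy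
  · intro x hx
    have hx' : x ∈ closure (S : Set R) := hx
    exact map_mem_closure (f := fun y => star y) (by fun_prop) hx' fun y hy => hs hy

end Helper19.BL
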