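import Pool.Agent.Helper19.BL.G2

/-! # MODULE G3: Gram-Schmidt in ideals generated by minimal projections

`f : τ → R` family of projections, `f_t R f_t ⊂ ℂ f_t`, `f_t R f_s = 0` for `t ≠ s` (`MinFam`).

STEP (`gs`, induction on a list/finset of terms): for every finite family `x_1..x_m` with `x_r = P x_r f_{t_r}` there is a projection
`e ∈ Kid f`, `P e = e`, `e x_r = x_r` for all `r`, and `cls1 e = ∑ m_t cls1 (f t)`.
Induction: given `e` for the first `m-1`, put `x' = (1-e) x_m`; `star x' * x' = λ f_t` with `λ ≥ 0`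
(`star x' * x' = f_t (..) f_t`; take norms / positivity: if `f_t ≠ 0`, `λ = conj λ`, and `λ` is in the
spectrum of a nonneg element, or: `λ f_t = star x' x'` gives `|λ| = ‖x'‖²` and positivity from
`IsSelfAdjoint`/`star_mul_self` spectrum).  If `x' = 0` nothing to do.  Otherwise `u = λ^{-1/2} x'`,
`star u * u = f_t`, `e u = 0`, `e' = e + u star u`; `e' x_m = e x_m + u star u x' = e x_m + x' = x_m`
(`star u * e = 0`).  `cls1 (u star u) = cls1 (f t)` by `cls1_eq_iff`, `cls1_add`.

`Kid_MI`: approximate `k` by `k' = ∑ a_r f_{t_r} b_r` within `ε`; take `e` for `x_r = P a_r f_{t_r}`;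
`(P-e) k' (P-e) = ∑ (P - e) (P a_r f_{t_r}) b_r (P-e) = 0` (note `(P-e)P = P-e`, `(P-e) x_r = x_r - x_r`), so
`‖(P-e) k (P-e)‖ ≤ ‖k-k'‖ ≤ ε` (`P - e` is a projection).

`Kid_proj`: apply `Kid_MI` with `P = k = q`, `ε = 1/2`: `(q-e) q (q-e) = q - e` is a projection of norm `≤ 1/2`,
so `q = e`. -/

set_option linter.unusedSectionVars false

namespace Helper19.BL

variable {R : Type*} [CStarAlgebra R]

/-- a family of (inequivalent, orthogonal) minimal projections -/
structure MinFam {τ : Type*} (f : τ → R) : Prop where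
  proj : ∀ t, IsStarProjection (f t)
  min : ∀ t (a : R), ∃ c : ℂ, f t * a * f t = c • f t
  orth : ∀ t s, t ≠ s → ∀ a : R, f t * a * f s = 0

/-- the normalised vector in the Gram-Schmidt step -/
lemma G3_normalise {τ : Type*} {f : τ → R} (hf : MinFam f) {x : R} {t : τ} (hx : x * f t = x)
    (hx0 : x ≠ 0) : ∃ c : ℝ, 0 < c ∧ star x * x = (c : ℂ) • f t := by
  obtain ⟨c, hc⟩ := hf.min t (star x * x)
  have hfx : f t * star x = star x := by
    have := congrArg star hx
    rwa [star_mul, pjs (hf.proj t)] at this
  have h1 : star x * x = c • f t := by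
    rw [← hc]
    calc star x * x = (f t * star x) * (x * f t) := by rw [hfx, hx]
      _ = f t * (star x * x) * f t := by noncomm_ring
  have hne : star x * x ≠ 0 := fun h => hx0 ((CStarRing.star_mul_self_eq_zero_iff _).1 h)
  have hft : f t ≠ 0 := by
    intro h; rw [h1, h, smul_zero] at hne; exact hne rfl
  have hc0 : c ≠ 0 := by
    intro h; rw [h1, h, zero_smul] at hne; exact hne rfl
  have hreal : star c = c := by
    have h2 : star (star x * x) = star x * x := by rw [star_mul, star_star]
    rw [h1, star_smul, pjs (hf.proj t)] at h2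
    have h3 : (star c - c) • f t = 0 := by rw [sub_smul, h2, sub_self]
    rcases smul_eq_zero.1 h3 with h4 | h4
    · exact sub_eq_zero.1 h4
    · exact absurd h4 hft
  have hre : ((c.re : ℝ) : ℂ) = c := Complex.conj_eq_iff_re.1 hreal
  refine ⟨c.re, ?_, by rw [hre]; exact h1⟩
  have hmem : c.re ∈ spectrum ℝ (star x * x) := by
    rw [spectrum.mem_iff]
    intro hu
    have h5 : (algebraMap ℝ R c.re - star x * x) * f t = 0 := by
      rw [sub_mul, h1, smul_mul_assoc, pjm (hf.proj t), Algebra.algebraMap_eq_smul_one,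
        smul_mul_assoc, one_mul]
      have : (c.re : ℝ) • f t = ((c.re : ℝ) : ℂ) • f t := (Complex.coe_smul _ _).symm
      rw [this, hre, sub_self]
    exact hft ((hu.mul_right_eq_zero).1 h5)
  have hnn := spectrum_star_mul_self_nonneg _ hmem
  refine lt_of_le_of_ne hnn fun h => hc0 ?_
  rw [← hre, ← h, Complex.ofReal_zero]

lemma G3_gs {τ : Type*} [Fintype τ] [DecidableEq τ] {f : τ → R} (hf : MinFam f) {P : R}
    (L : List (R × τ)) (hL : ∀ z ∈ L, P * z.1 = z.1 ∧ z.1 * f z.2 = z.1) :
    ∃ (e : R) (he : IsStarProjection e), e ∈ Kid f ∧ P * e = e ∧ (∀ z ∈ L, e * z.1 = z.1) ∧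
      ∃ m : τ → ℕ, cls1 e he = ∑ t, m t • cls1 (f t) (hf.proj t) := by
  induction L with
  | nil =>
    refine ⟨0, pj_zero, Submodule.zero_mem _, mul_zero _, fun z hz => absurd hz (by simp),
      fun _ => 0, ?_⟩
    rw [cls1_zero]
    simp
  | cons z L ih =>
    obtain ⟨e, he, hek, hPe, heL, m, hm⟩ := ih (fun w hw => hL w (List.mem_cons_of_mem _ hw))
    obtain ⟨x, t⟩ := z
    obtain ⟨hPx, hxt⟩ := hL (x, t) List.mem_cons_self
    simp only at hPx hxt
    set x' : R := x - e * x with hx'
    by_cases hx0 : x' = 0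
    · refine ⟨e, he, hek, hPe, ?_, m, hm⟩
      intro w hw
      rcases List.mem_cons.1 hw with rfl | hw
      · exact (sub_eq_zero.1 hx0).symm
      · exact heL w hw
    · have hx't : x' * f t = x' := by rw [hx', sub_mul, mul_assoc, hxt]
      obtain ⟨c, hc0, hc⟩ := G3_normalise hf hx't hx0
      set d : ℝ := 1 / √c with hd
      have hsq : 0 < √c := Real.sqrt_pos.2 hc0
      have hdc : d * d * c = 1 := by
        rw [hd]
        have : √c * √c = c := Real.mul_self_sqrt hc0.le
        field_simp
        nlinarith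
      set u : R := (d : ℂ) • x' with hu
      have hstar_u : star u = (d : ℂ) • star x' := by
        rw [hu, star_smul]
        congr 1
        exact Complex.conj_ofReal d
      have huu : star u * u = f t := by
        rw [hstar_u, hu, smul_mul_smul_comm, hc, smul_smul]
        have : (d : ℂ) * (d : ℂ) * (c : ℂ) = 1 := by exact_mod_cast hdc
        rw [this, one_smul]
      have hex' : e * x' = 0 := by rw [hx', mul_sub, ← mul_assoc, pjm he, sub_self]
      have heu : e * u = 0 := by rw [hu, mul_smul_comm, hex', smul_zero]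
      have hue : star u * e = 0 := by
        have := congrArg star heu
        rwa [star_mul, pjs he, star_zero] at this
      have huf : u * f t = u := by rw [hu, smul_mul_assoc, hx't]
      have hPu : P * u = u := by
        rw [hu, mul_smul_comm, hx', mul_sub, hPx, ← mul_assoc, hPe]
      have hpu : IsStarProjection (u * star u) := pi_range (by rw [huu]; exact hf.proj t)
      have hperp : e * (u * star u) = 0 := by rw [← mul_assoc, heu, zero_mul]
      have he' : IsStarProjection (e + u * star u) := pj_add he hpu hperp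
      have huux' : u * (star u * x') = x' := by
        rw [hstar_u, hu, smul_mul_assoc, smul_mul_assoc, mul_smul_comm, smul_smul, hc,
          mul_smul_comm, hx't, smul_smul]
        have : (d : ℂ) * (d : ℂ) * (c : ℂ) = 1 := by exact_mod_cast hdc
        rw [this, one_smul]
      refine ⟨e + u * star u, he', ?_, ?_, ?_, fun s => m s + if s = t then 1 else 0, ?_⟩
      · refine Submodule.add_mem _ hek ?_
        have : u * star u = u * f t * star u := by rw [huf]
        rw [this]
        exact mem_Kid t u (star u)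
      · rw [mul_add, hPe, ← mul_assoc, hPu]
      · intro w hw
        rcases List.mem_cons.1 hw with rfl | hw
        · change (e + u * star u) * x = x
          have e1 : star u * x = star u * x' := by
            rw [hx', mul_sub, ← mul_assoc, hue, zero_mul, sub_zero]
          rw [add_mul, mul_assoc, e1, huux', hx']
          abel
        · have e1 : star u * w.1 = 0 := by
            rw [← heL w hw, ← mul_assoc, hue, zero_mul]
          rw [add_mul, mul_assoc, e1, mul_zero, add_zero, heL w hw]
      · have h1 : cls1 (u * star u) hpu = cls1 (f t) (hf.proj t) := by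
          rw [eq_comm, cls1_eq_iff]
          exact ⟨u, huu, rfl⟩
        rw [cls1_add he hpu he' hperp, hm, h1]
        simp only [add_smul, Finset.sum_add_distrib]
        congr 1
        rw [Finset.sum_eq_single t]
        · rw [if_pos rfl, one_smul]
        · intro s _ hs
          rw [if_neg hs, zero_smul]
        · intro h; exact absurd (Finset.mem_univ _) h

theorem Kid_MI {τ : Type*} [Fintype τ] [DecidableEq τ] {f : τ → R} (hf : MinFam f) {P k : R}
    (hP : IsStarProjection P) (hk : k ∈ Kid f) {ε : ℝ} (hε : 0 < ε) :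
    ∃ (e : R) (he : IsStarProjection e), e ∈ Kid f ∧ P * e = e ∧ ‖(P - e) * k * (P - e)‖ ≤ ε ∧
      ∃ m : τ → ℕ, cls1 e he = ∑ t, m t • cls1 (f t) (hf.proj t) := by
  have hk' : k ∈ closure ((Submodule.span ℂ {x : R | ∃ t a b, x = a * f t * b} : Submodule ℂ R) :
      Set R) := hk
  obtain ⟨k', hk'mem, hkk'⟩ := Metric.mem_closure_iff.1 hk' ε hε
  have key : ∃ L : List (R × τ), (∀ z ∈ L, P * z.1 = z.1 ∧ z.1 * f z.2 = z.1) ∧
      ∀ e : R, e * P = e → (∀ z ∈ L, e * z.1 = z.1) → (P - e) * k' = 0 := by
    have hk'mem' : k' ∈ Submodule.span ℂ {x : R | ∃ t a b, x = a * f t * b} := hk'mem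
    clear hkk' hk'mem
    induction hk'mem' using Submodule.span_induction with
    | mem x h =>
      obtain ⟨t, a, b, rfl⟩ := h
      refine ⟨[(P * a * f t, t)], ?_, ?_⟩
      · intro z hz
        rw [List.mem_singleton] at hz
        subst hz
        refine ⟨?_, ?_⟩
        · change P * (P * a * f t) = P * a * f t
          simp only [← mul_assoc, pjm hP]
        · change P * a * f t * f t = P * a * f t
          rw [mul_assoc, pjm (hf.proj t)]
      · intro e heP heL
        have h1 : e * (P * a * f t) = P * a * f t := heL _ (List.mem_singleton_self _)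
        have h2 : (P - e) * P = P - e := by rw [sub_mul, pjm hP, heP]
        calc (P - e) * (a * f t * b) = ((P - e) * P) * (a * f t * b) := by rw [h2]
          _ = (P * P - e * P) * (a * f t * b) := by rw [sub_mul]
          _ = (P * (P * a * f t) - e * (P * a * f t)) * b := by noncomm_ring
          _ = 0 := by
            rw [h1]
            simp only [← mul_assoc, pjm hP, sub_self, zero_mul]
    | zero => exact ⟨[], by simp, fun e _ _ => mul_zero _⟩
    | add a b _ _ ha hb =>
      obtain ⟨L1, h1, h2⟩ := ha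
      obtain ⟨L2, h3, h4⟩ := hb
      refine ⟨L1 ++ L2, ?_, ?_⟩
      · intro z hz
        rcases List.mem_append.1 hz with h | h
        · exact h1 z h
        · exact h3 z h
      · intro e heP heL
        rw [mul_add, h2 e heP (fun z hz => heL z (List.mem_append.2 (Or.inl hz))),
          h4 e heP (fun z hz => heL z (List.mem_append.2 (Or.inr hz))), add_zero]
    | smul c a _ ha =>
      obtain ⟨L1, h1, h2⟩ := ha
      exact ⟨L1, h1, fun e heP heL => by rw [mul_smul_comm, h2 e heP heL, smul_zero]⟩
  obtain ⟨L, hL1, hL2⟩ := key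
  obtain ⟨e, he, hek, hPe, heL, m, hm⟩ := G3_gs hf L hL1
  have heP : e * P = e := by
    have := congrArg star hPe
    rwa [star_mul, pjs he, pjs hP] at this
  refine ⟨e, he, hek, hPe, ?_, m, hm⟩
  have h0 := hL2 e heP heL
  have hpr : IsStarProjection (P - e) := pj_sub hP he hPe
  have e1 : (P - e) * k * (P - e) = (P - e) * (k - k') * (P - e) := by
    rw [mul_sub (P - e) k k', h0, sub_zero]
  rw [e1]
  calc ‖(P - e) * (k - k') * (P - e)‖ ≤ ‖(P - e) * (k - k')‖ * ‖P - e‖ := norm_mul_le _ _
    _ ≤ ‖(P - e) * (k - k')‖ * 1 := by gcongr; exact pj_norm_le hpr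
    _ ≤ ‖P - e‖ * ‖k - k'‖ := by rw [mul_one]; exact norm_mul_le _ _
    _ ≤ 1 * ‖k - k'‖ := by gcongr; exact pj_norm_le hpr
    _ ≤ ε := by rw [one_mul, ← dist_eq_norm]; exact hkk'.le

theorem Kid_proj {τ : Type*} [Fintype τ] [DecidableEq τ] {f : τ → R} (hf : MinFam f) {q : R}
    (hq : IsStarProjection q) (h : q ∈ Kid f) :
    ∃ m : τ → ℕ, cls1 q hq = ∑ t, m t • cls1 (f t) (hf.proj t) := by
  obtain ⟨e, he, -, hqe, hn, m, hm⟩ := Kid_MI hf hq h (ε := 1 / 2) (by norm_num)
  have hpr : IsStarProjection (q - e) := pj_sub hq he hqe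
  have heq : e * q = e := by
    have := congrArg star hqe
    rwa [star_mul, pjs he, pjs hq] at this
  have e1 : (q - e) * q * (q - e) = q - e := by
    have : (q - e) * q = q - e := by rw [sub_mul, pjm hq, heq]
    rw [this, pjm hpr]
  rw [e1] at hn
  have h0 := pj_eq_zero hpr (by linarith)
  have : q = e := sub_eq_zero.1 h0
  exact ⟨m, by rw [← hm]; exact cls1_congr hq he this⟩

end Helper19.BL
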