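import Pool.Agent.Helper19.BL.G1
import Pool.Agent.Helper19.BL.G3

/-! # MODULE G4: Fredholm lemma

`P, Q` projections, `τ = Q τ P`, `P - τ*τ ∈ Kid f`, `Q - ττ* ∈ Kid f`.  Then `[P] - [Q]` is an integer
combination of the `[f_t]` in `K0 R`.
Proof: `Kid_MI` with `k = P - τ*τ`, `ε = 1/2` gives `e₀ ≤ P`.  `P' = P - e₀`, `x = τ P'`; `x P' = x`,
`star x * x - P' = -P' (P - τ*τ) P'` has norm `≤ 1/2`.  `polar_corner` (with `p = P'`) gives `y`, `v = x y`, `v*v = P'`,
`v - x ∈ Kid f` (as `star x * x - P' ∈ Kid f`).  `Q v = v` (because `Q τ = τ`).  `e₁ = Q - v v*` is a projection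
(`pj_sub`), and `e₁ ∈ Kid f`: modulo `Kid f`, `v ≡ x = τ (P - e₀) ≡ τ P = τ`, `v v* ≡ τ τ* ≡ Q`.
`[P] = [P'] + [e₀]`, `[Q] = [v v*] + [e₁]`, `[P'] = [v v*]` (`cls1_eq_iff`), `Kid_proj` for `e₁`. -/

set_option linter.unusedSectionVars false

namespace Helper19.BL

variable {R : Type*} [CStarAlgebra R]

theorem fredholm {τ : Type*} [Fintype τ] [DecidableEq τ] {f : τ → R} (hf : MinFam f) {P Q x : R}
    (hP : IsStarProjection P) (hQ : IsStarProjection Q) (hx : Q * x * P = x)
    (h1 : P - star x * x ∈ Kid f) (h2 : Q - x * star x ∈ Kid f) :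
    ∃ m : τ → ℤ, Vto R (cls1 P hP) - Vto R (cls1 Q hQ) =
      ∑ t, m t • Vto R (cls1 (f t) (hf.proj t)) := by
  have hI : IsCI (Kid f) := Kid_isCI hf.proj
  obtain ⟨e0, he0, he0K, hPe, hn, m0, hm0⟩ := Kid_MI hf hP h1 (ε := 1 / 2) (by norm_num)
  have hxP : x * P = x := by
    have : Q * x * P * P = Q * x * P := by rw [mul_assoc (Q * x), pjm hP]
    rwa [hx] at this
  have hQx : Q * x = x := by
    have : Q * (Q * x * P) = Q * x * P := by
      rw [← mul_assoc, ← mul_assoc, pjm hQ]
    rwa [hx] at this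
  have hP' : IsStarProjection (P - e0) := pj_sub hP he0 hPe
  have heP : e0 * P = e0 := by
    have := congrArg star hPe
    rwa [star_mul, pjs hP, pjs he0] at this
  have hPP' : P * (P - e0) = P - e0 := by rw [mul_sub, pjm hP, hPe]
  -- the compressed element
  have hx'P : x * (P - e0) * (P - e0) = x * (P - e0) := by rw [mul_assoc, pjm hP']
  have hgram : star (x * (P - e0)) * (x * (P - e0)) - (P - e0) =
      -((P - e0) * (P - star x * x) * (P - e0)) := by
    rw [star_mul, pjs hP']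
    have e1 : (P - e0) * (P - star x * x) * (P - e0) =
        (P - e0) * (P * (P - e0)) - (P - e0) * star x * (x * (P - e0)) := by noncomm_ring
    rw [e1, hPP', pjm hP']
    abel
  have hδ : ‖star (x * (P - e0)) * (x * (P - e0)) - (P - e0)‖ ≤ 1 / 2 := by
    rw [hgram, norm_neg]; exact hn
  obtain ⟨y, -, -, hv, -, hvI⟩ := polar_corner hP' hx'P hδ (le_refl _)
  have hmem : star (x * (P - e0)) * (x * (P - e0)) - (P - e0) ∈ Kid f := by
    rw [hgram]
    exact (Kid f).neg_mem (hI.mul_right _ (hI.mul_left _ h1))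
  have hvK := hvI (Kid f) hI hmem
  obtain ⟨v, hvdef⟩ : ∃ v, v = x * (P - e0) * y := ⟨_, rfl⟩
  rw [← hvdef] at hv hvK
  have hvp : IsStarProjection (star v * v) := by rw [hv]; exact hP'
  have hQv : Q * v = v := by
    rw [hvdef, ← mul_assoc, ← mul_assoc, hQx]
  have hvv : IsStarProjection (v * star v) := pi_range hvp
  have hQvv : Q * (v * star v) = v * star v := by rw [← mul_assoc, hQv]
  have he1 : IsStarProjection (Q - v * star v) := pj_sub hQ hvv hQvv
  have hxv : x - v ∈ Kid f := by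
    have e1 : x - v = x * e0 - (v - x * (P - e0)) := by
      rw [mul_sub, hxP]; abel
    rw [e1]
    exact (Kid f).sub_mem (hI.mul_left _ he0K) hvK
  have he1K : Q - v * star v ∈ Kid f := by
    have e1 : Q - v * star v = (Q - x * star x) + (x * star (x - v) + (x - v) * star v) := by
      rw [star_sub]; noncomm_ring
    rw [e1]
    exact (Kid f).add_mem h2 ((Kid f).add_mem (hI.mul_left _ (hI.star_mem hxv))
      (hI.mul_right _ hxv))
  obtain ⟨m1, hm1⟩ := Kid_proj hf he1 he1K
  have c1 : cls1 P hP = cls1 (P - e0) hP' + cls1 e0 he0 := by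
    rw [← cls1_add hP' he0 (by rw [sub_add_cancel]; exact hP) (by rw [sub_mul, hPe, pjm he0, sub_self])]
    exact cls1_congr _ _ (by rw [sub_add_cancel])
  have c2 : cls1 Q hQ = cls1 (v * star v) hvv + cls1 (Q - v * star v) he1 := by
    rw [← cls1_add hvv he1 (by rw [add_sub_cancel]; exact hQ) (by
      rw [mul_sub, pjm hvv]
      have : v * star v * Q = v * star v := by
        have := congrArg star hQvv
        rwa [star_mul, pjs hvv, pjs hQ] at this
      rw [this, sub_self])]
    exact cls1_congr _ _ (by rw [add_sub_cancel])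
  have c3 : cls1 (P - e0) hP' = cls1 (v * star v) hvv := by
    rw [cls1_eq_iff]
    exact ⟨v, hv, rfl⟩
  refine ⟨fun t => (m0 t : ℤ) - m1 t, ?_⟩
  rw [c1, c2, c3, hm0, hm1, map_add, map_add, add_sub_add_left_eq_sub, map_sum, map_sum,
    ← Finset.sum_sub_distrib]
  refine Finset.sum_congr rfl fun t _ => ?_
  rw [map_nsmul, map_nsmul, sub_smul, natCast_zsmul, natCast_zsmul]

end Helper19.BL
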