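import Pool.Agent.Helper19.BL.G2

/-! # MODULE G5: splitting a partial isometry along ideals

`PJ j` closed ideals with `PJ j * PJ k ⊂ I` for `j ≠ k`; `T` a partial isometry from `P0 + ∑ P_j` to
`P0 + ∑ Q_j + Qe`, `T = P0 + ∑ y_j + ye`, `y_j ∈ PJ j`, `ye ∈ I`.
Put `x_j = P0 + y_j`, `τ = (P0 + Q_j) x_j (P0 + P_j)`.

(1) `d_k := P0 y_k + y_k* P0 + y_k* y_k - P_k ∈ PJ k`.  Expanding `T*T = P0 + ∑ P_j` and using
`y_k* y_l ∈ I` (`k ≠ l`), `ye ∈ I`: `∑_k d_k ∈ I`.  Multiply by `d_j*`: `d_j* d_k ∈ I` for `k ≠ j`, so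
`d_j* d_j ∈ I` and `d_j ∈ I` (`IsCI.of_star_mul_self`).  So `x_j* x_j - (P0 + P_j) = d_j ∈ I`.
(2) the same with `T T*`: `d'_k := y_k P0 + P0 y_k* + y_k y_k* - Q_k`, `d'_j ∈ I` (`Qe ∈ I`), `x_j x_j* - (P0+Q_j) = d'_j ∈ I`.
(3) `w := x_j (1 - P0 - P_j)`: `w* w = (1-P0-P_j) x_j* x_j (1-P0-P_j) = (1-P0-P_j) d_j (1-P0-P_j) ∈ I`, so `w ∈ I`;
`w' := (1 - P0 - Q_j) x_j`, `w' w'* ∈ I`, so `w' ∈ I` (`of_mul_star_self`).  Hence `τ - x_j ∈ I` and
`P0 + P_j - τ* τ ∈ I`, `P0 + Q_j - τ τ* ∈ I`.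
(4) modulo `PJ j`: `P_j, Q_j, y_j ≡ 0`, `τ ≡ P0`, so both differences are in `PJ j`. -/

set_option linter.unusedSectionVars false

namespace Helper19.BL

variable {R : Type*} [CStarAlgebra R]

/-- independence modulo `I` of elements of the ideals `PJ k` -/
theorem G5_indep {J : Type*} [Fintype J] [DecidableEq J] (PJ : J → Submodule ℂ R)
    (I : Submodule ℂ R) (hPJ : ∀ j, IsCI (PJ j)) (hI : IsCI I)
    (hprod : ∀ j k, j ≠ k → ∀ x ∈ PJ j, ∀ y ∈ PJ k, x * y ∈ I)
    {d : J → R} (hd : ∀ j, d j ∈ PJ j) (hs : ∑ k, d k ∈ I) (j : J) : d j ∈ I := by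
  refine hI.of_star_mul_self ?_
  have h1 : star (d j) * ∑ k, d k ∈ I := hI.mul_left _ hs
  rw [Finset.mul_sum, ← Finset.add_sum_erase _ _ (Finset.mem_univ j)] at h1
  have h2 : ∑ k ∈ Finset.univ.erase j, star (d j) * d k ∈ I := by
    refine Submodule.sum_mem _ fun k hk => ?_
    exact hprod j k (Finset.ne_of_mem_erase hk).symm _ ((hPJ j).star_mem (hd j)) _ (hd k)
  have h3 := I.sub_mem h1 h2
  rwa [add_sub_cancel_right] at h3

theorem G5_d {J : Type*} [Fintype J] [DecidableEq J] (PJ : J → Submodule ℂ R)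
    (I : Submodule ℂ R) (hPJ : ∀ j, IsCI (PJ j)) (hI : IsCI I)
    (hprod : ∀ j k, j ≠ k → ∀ x ∈ PJ j, ∀ y ∈ PJ k, x * y ∈ I)
    {P0 Pe : R} {P : J → R} (hP : ∀ j, P j ∈ PJ j) (hPe : Pe ∈ I)
    (hP0 : IsStarProjection P0)
    {T : R} (hT1 : star T * T = P0 + ∑ j, P j + Pe)
    {y : J → R} {ye : R} (hy : ∀ j, y j ∈ PJ j) (hye : ye ∈ I) (hT : T - P0 = ∑ j, y j + ye)
    (j : J) : P0 * y j + star (y j) * P0 + star (y j) * y j - P j ∈ I := by
  refine G5_indep PJ I hPJ hI hprod
    (d := fun k => P0 * y k + star (y k) * P0 + star (y k) * y k - P k) (fun k => ?_) ?_ j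
  · refine (PJ k).sub_mem ((PJ k).add_mem ((PJ k).add_mem ?_ ?_) ?_) (hP k)
    · exact (hPJ k).mul_left _ (hy k)
    · exact (hPJ k).mul_right _ ((hPJ k).star_mem (hy k))
    · exact (hPJ k).mul_left _ (hy k)
  · have hTe : T = P0 + ∑ j, y j + ye := by
      rw [add_assoc, ← hT]; abel
    set Y := ∑ j, y j with hY
    have hsY : star Y = ∑ j, star (y j) := by rw [hY, star_sum]
    -- off diagonal part
    have hoff : star Y * Y - ∑ k, star (y k) * y k ∈ I := by
      have : star Y * Y - ∑ k, star (y k) * y k =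
          ∑ k, ∑ l ∈ Finset.univ.erase k, star (y k) * y l := by
        rw [hsY, hY, Finset.sum_mul, ← Finset.sum_sub_distrib]
        refine Finset.sum_congr rfl fun k _ => ?_
        rw [Finset.mul_sum, ← Finset.add_sum_erase _ _ (Finset.mem_univ k)]
        rw [add_sub_cancel_left]
      rw [this]
      refine Submodule.sum_mem _ fun k _ => Submodule.sum_mem _ fun l hl => ?_
      exact hprod k l (Finset.ne_of_mem_erase hl).symm _ ((hPJ k).star_mem (hy k)) _ (hy l)
    have hsum : ∑ k, (P0 * y k + star (y k) * P0 + star (y k) * y k - P k) =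
        P0 * Y + star Y * P0 + ∑ k, star (y k) * y k - ∑ k, P k := by
      rw [Finset.sum_sub_distrib, Finset.sum_add_distrib, Finset.sum_add_distrib, hsY, hY,
        Finset.mul_sum, Finset.sum_mul]
    rw [hsum]
    have h1 : P0 * Y + star Y * P0 + ∑ k, star (y k) * y k - ∑ k, P k =
        Pe - (star Y * Y - ∑ k, star (y k) * y k) - (star (P0 + Y) * ye + star ye * (P0 + Y + ye)) := by
      have h2 : star T * T = P0 + P0 * Y + star Y * P0 + star Y * Y +
          (star (P0 + Y) * ye + star ye * (P0 + Y + ye)) := by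
        have h0 : P0 * P0 = P0 := pjm hP0
        have h0' : star P0 = P0 := pjs hP0
        rw [hTe]
        simp only [star_add, h0', add_mul, mul_add, h0]
        abel
      have h3 : ∑ k, P k = star T * T - P0 - Pe := by rw [hT1]; abel
      rw [h3, h2]
      abel
    rw [h1]
    refine I.sub_mem (I.sub_mem hPe hoff) (I.add_mem (hI.mul_left _ hye) ?_)
    exact hI.mul_right _ (hI.star_mem hye)

/-- one side of the final computation -/
theorem G5_side {K : Submodule ℂ R} (hK : IsCI K) {t x e d : R} (htx : t - x ∈ K)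
    (hx : star x * x = e + d) (hd : d ∈ K) : e - star t * t ∈ K := by
  have h1 : e - star t * t = -(star t * (t - x) + star (t - x) * x) - d := by
    have : e = star x * x - d := by rw [hx]; abel
    rw [this, star_sub]
    simp only [mul_sub, sub_mul]
    abel
  rw [h1]
  refine K.sub_mem (K.neg_mem (K.add_mem (hK.mul_left _ htx) ?_)) hd
  exact hK.mul_right _ (hK.star_mem htx)

/-- `x (1 - e) ∈ K` if `star x * x = e + d`, `e` a projection, `d ∈ K` -/
theorem G5_cut {K : Submodule ℂ R} (hK : IsCI K) {x e d : R} (he : IsStarProjection e)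
    (hx : star x * x = e + d) (hd : d ∈ K) : x * (1 - e) ∈ K := by
  refine hK.of_star_mul_self ?_
  have h1 : star (x * (1 - e)) * (x * (1 - e)) = (1 - e) * d * (1 - e) := by
    have h2 : star (x * (1 - e)) = (1 - e) * star x := by
      rw [star_mul, star_sub, star_one, pjs he]
    have h3 : (1 - e) * e = 0 := by rw [sub_mul, one_mul, pjm he, sub_self]
    calc star (x * (1 - e)) * (x * (1 - e)) = (1 - e) * (star x * x) * (1 - e) := by
          rw [h2]; simp only [mul_assoc]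
      _ = ((1 - e) * e + (1 - e) * d) * (1 - e) := by rw [hx, mul_add]
      _ = (1 - e) * d * (1 - e) := by rw [h3, zero_add]
  rw [h1]
  exact hK.mul_right _ (hK.mul_left _ hd)

theorem split_pi {J : Type*} [Fintype J] [DecidableEq J] (PJ : J → Submodule ℂ R)
    (I : Submodule ℂ R) (hPJ : ∀ j, IsCI (PJ j)) (hI : IsCI I)
    (hprod : ∀ j k, j ≠ k → ∀ x ∈ PJ j, ∀ y ∈ PJ k, x * y ∈ I)
    {P0 Qe : R} {P Q : J → R} (hP : ∀ j, P j ∈ PJ j) (hQ : ∀ j, Q j ∈ PJ j) (hQe : Qe ∈ I)
    (hP0 : IsStarProjection P0) (hPj : ∀ j, IsStarProjection (P j))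
    (hQj : ∀ j, IsStarProjection (Q j)) (h0P : ∀ j, P0 * P j = 0) (h0Q : ∀ j, P0 * Q j = 0)
    {T : R} (hT1 : star T * T = P0 + ∑ j, P j) (hT2 : T * star T = P0 + ∑ j, Q j + Qe)
    {y : J → R} {ye : R} (hy : ∀ j, y j ∈ PJ j) (hye : ye ∈ I) (hT : T - P0 = ∑ j, y j + ye)
    (j : J) :
    ∃ x : R, (P0 + Q j) * x * (P0 + P j) = x ∧ P0 + P j - star x * x ∈ PJ j ⊓ I ∧
      P0 + Q j - x * star x ∈ PJ j ⊓ I := by
  have hd := G5_d PJ I hPJ hI hprod hP (Pe := 0) I.zero_mem hP0 (by rw [hT1, add_zero]) hy hye hT j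
  have hd' := G5_d PJ I hPJ hI hprod (T := star T) (y := fun k => star (y k)) (ye := star ye)
    hQ hQe hP0 (by rw [star_star, hT2]) (fun k => (hPJ k).star_mem (hy k)) (hI.star_mem hye)
    (by rw [← star_sum, ← star_add, ← hT, star_sub, pjs hP0]) j
  simp only [star_star] at hd'
  have hsP0 : star P0 = P0 := pjs hP0
  have hmP0 : P0 * P0 = P0 := pjm hP0
  set x := P0 + y j with hx
  set e := P0 + P j with he
  set f := P0 + Q j with hf
  have hep : IsStarProjection e := pj_add hP0 (hPj j) (h0P j)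
  have hfp : IsStarProjection f := pj_add hP0 (hQj j) (h0Q j)
  set d := P0 * y j + star (y j) * P0 + star (y j) * y j - P j with hdd
  set d' := P0 * star (y j) + y j * P0 + y j * star (y j) - Q j with hdd'
  have hxx : star x * x = e + d := by
    rw [hx, he, hdd, star_add, hsP0, add_mul, mul_add, mul_add, hmP0]
    abel
  have hxx' : star (star x) * star x = f + d' := by
    rw [star_star, hx, hf, hdd', star_add, hsP0, add_mul, mul_add, mul_add, hmP0]
    abel
  have hw : x * (1 - e) ∈ I := G5_cut hI hep hxx hd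
  have hw' : (1 - f) * x ∈ I := by
    have h := hI.star_mem (G5_cut hI hfp hxx' hd')
    rwa [star_mul, star_star, star_sub, star_one, pjs hfp] at h
  set t := f * x * e with ht
  have htx : t - x ∈ I := by
    have : t - x = -(x * (1 - e) + (1 - f) * x * e) := by
      rw [ht]; noncomm_ring
    rw [this]
    exact I.neg_mem (I.add_mem hw (hI.mul_right _ hw'))
  have htx' : star t - star x ∈ I := by
    rw [← star_sub]; exact hI.star_mem htx
  -- modulo PJ j
  have hPj' := hPJ j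
  have hft : f - P0 ∈ PJ j := by rw [hf, add_sub_cancel_left]; exact hQ j
  have het : e - P0 ∈ PJ j := by rw [he, add_sub_cancel_left]; exact hP j
  have hxt : x - P0 ∈ PJ j := by rw [hx, add_sub_cancel_left]; exact hy j
  have htp : t - P0 ∈ PJ j := by
    have : t - P0 = f * x * (e - P0) + f * (x - P0) * P0 + (f - P0) * P0 := by
      have h1 : f * x * (e - P0) + f * (x - P0) * P0 + (f - P0) * P0 =
          f * x * e - f * (P0 * P0) + f * P0 - P0 * P0 := by noncomm_ring
      rw [h1, hmP0, ht]; abel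
    rw [this]
    exact (PJ j).add_mem ((PJ j).add_mem (hPj'.mul_left _ het)
      (hPj'.mul_right _ (hPj'.mul_left _ hxt))) (hPj'.mul_right _ hft)
  have htp' : star t - P0 ∈ PJ j := by
    have := hPj'.star_mem htp
    rwa [star_sub, hsP0] at this
  refine ⟨t, ?_, ?_, ?_⟩
  · rw [ht]
    calc f * (f * x * e) * e = (f * f) * x * (e * e) := by simp only [mul_assoc]
      _ = f * x * e := by rw [pjm hfp, pjm hep]
  · refine ⟨G5_side hPj' htp (e := e) (d := P0 - e) ?_ ?_, G5_side hI htx hxx hd⟩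
    · rw [hsP0, hmP0]; abel
    · have := (PJ j).neg_mem het
      rwa [neg_sub] at this
  · have h1 : f - star (star t) * star t ∈ PJ j := by
      refine G5_side hPj' htp' (e := f) (d := P0 - f) ?_ ?_
      · rw [hsP0, hmP0]; abel
      · have := (PJ j).neg_mem hft
        rwa [neg_sub] at this
    have h2 : f - star (star t) * star t ∈ I := G5_side hI htx' hxx' hd'
    rw [star_star] at h1 h2
    exact ⟨h1, h2⟩

end Helper19.BL
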