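import Pool.Agent.Helper19.BL.G2

/-! # MODULE G6: correcting a partial isometry to be a projection modulo an ideal

Data: `Y` closed ideal, `P0, P, Q` projections, `P P0 = P0`, `T*T = P`, `TT* = Q`, `P - P0 ∈ Y`, `Q - P0 ∈ Y`,
`t0 = P0 t0 P0`, `T - t0 ∈ Y`, `t0 t0 - c P0 ∈ Y`, `P0 ∉ Y`.
Conclusion: there is `T'` with `T'*T' = P`, `T'T'* = Q`, `T' - P0 ∈ Y`.

Proof.  Modulo `Y` (write `≡`): `t0* t0 ≡ T*T = P ≡ P0`, `t0 t0* ≡ Q ≡ P0`.  `|c| = 1`: `|c|² P0 ≡ (t0 t0)* (t0 t0) = t0* (t0* t0) t0 ≡ t0* P0 t0 = t0* t0 ≡ P0`,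
and `P0 ∉ Y`.  Take `λ` with `λ² = c`, `|λ| = 1`, `κ = conj λ • t0`: `κ κ ≡ P0`, `κ* κ ≡ P0 ≡ κ κ*`, hence
`κ* ≡ κ* (κ κ) = (κ* κ) κ ≡ P0 κ = κ`.  `x = (κ + κ*)/2` is self-adjoint, in the corner of `P0`, `x ≡ κ`, `x x ≡ P0`.
`‖t0‖ ≤ 1` is NOT known; make `x` a contraction first: replace `x` by `g(x)` with `g(t) = max (-1) (min 1 t)` (odd continuous,
`g(x) - x ∈ Y`: see below), or choose from the start `t0 := P0 T P0`, which is a contraction and satisfies
`P0 T P0 - t0 = P0 (T - t0) P0 ∈ Y`, so WLOG `t0 = P0 T P0` and `‖t0‖ ≤ 1`.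
Then `‖x‖ ≤ 1` and `u := x + i √(P0 - x²)` where `s := √(1 - x²)` (`cfc`), `u := x + i s P0` (`s` commutes with `P0`):
`u* u = u u* = P0`; `(s P0)*(s P0) = P0 - x² ∈ Y`, so `s P0 ∈ Y` (`of_star_mul_self`), so `u ≡ x ≡ κ`.
`U := u + (1 - P0)` is unitary and commutes with `P` (`P = P0 + P'`, `P' P0 = 0`, `P' = P - P0`).  `T' := conj λ • T U*`:
`T'* T' = U P U* = P`, `T' T'* = T U* U T* = Q`, `T' ≡ conj λ • t0 U* = κ U* = κ u* ≡ κ κ* ≡ P0` (`κ (1-P0) = 0`). -/

set_option linter.unusedSectionVars false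

namespace Helper19.BL

variable {R : Type*} [CStarAlgebra R]

theorem G6_mul {Y : Submodule ℂ R} (hY : IsCI Y) {a a' b b' : R} (h : a - a' ∈ Y)
    (h' : b - b' ∈ Y) : a * b - a' * b' ∈ Y := by
  have : a * b - a' * b' = (a - a') * b + a' * (b - b') := by noncomm_ring
  rw [this]
  exact Y.add_mem (hY.mul_right _ h) (hY.mul_left _ h')

theorem G6_trans {Y : Submodule ℂ R} {a b c : R} (h : a - b ∈ Y) (h' : b - c ∈ Y) :
    a - c ∈ Y := by
  have := Y.add_mem h h'
  rwa [sub_add_sub_cancel] at this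

theorem G6_symm {Y : Submodule ℂ R} {a b : R} (h : a - b ∈ Y) : b - a ∈ Y := by
  have := Y.neg_mem h
  rwa [neg_sub] at this

theorem G6_star {Y : Submodule ℂ R} (hY : IsCI Y) {a b : R} (h : a - b ∈ Y) :
    star a - star b ∈ Y := by
  rw [← star_sub]; exact hY.star_mem h

/-- square root of `1 - x * x` for a self-adjoint contraction -/
theorem G6_sqrt {x P0 : R} (hx : IsSelfAdjoint x) (hn : ‖x‖ ≤ 1) (hc : Commute P0 x) :
    ∃ s : R, IsSelfAdjoint s ∧ s * s = 1 - x * x ∧ s * x = x * s ∧ P0 * s = s * P0 := by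
  have hcont : Continuous fun t : ℝ => Real.sqrt (1 - t * t) := by fun_prop
  refine ⟨cfc (fun t : ℝ => Real.sqrt (1 - t * t)) x, cfc_predicate _ x, ?_, ?_, ?_⟩
  · rw [← cfc_mul _ _ x hcont.continuousOn hcont.continuousOn]
    have h1 : cfc (fun t : ℝ => Real.sqrt (1 - t * t) * Real.sqrt (1 - t * t)) x =
        cfc (fun t : ℝ => 1 - t * t) x := by
      refine cfc_congr fun t ht => ?_
      have h2 : ‖t‖ ≤ ‖x‖ := (subsingleton_or_nontrivial R).elim
        (fun h => by
          have hh : spectrum ℝ x = ∅ := spectrum.of_subsingleton x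
          rw [hh] at ht
          exact absurd ht (Set.notMem_empty _))
        (fun h => spectrum.norm_le_norm_of_mem ht)
      have h3 : |t| ≤ 1 := by rw [← Real.norm_eq_abs]; exact h2.trans hn
      have h4 : 0 ≤ 1 - t * t := by
        have := abs_le.1 h3
        nlinarith [this.1, this.2]
      exact Real.mul_self_sqrt h4
    rw [h1, cfc_sub (fun _ : ℝ => (1 : ℝ)) (fun t => t * t) x continuous_const.continuousOn
      (by fun_prop), cfc_const_one ℝ x, cfc_mul (fun t : ℝ => t) (fun t => t) x (by fun_prop)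
      (by fun_prop), cfc_id' ℝ x]
  · have := (cfc_commute_cfc (fun t : ℝ => Real.sqrt (1 - t * t)) (fun t => t) x)
    rw [cfc_id' ℝ x] at this
    exact this
  · have hcs : Commute P0 (star x) := by rw [hx.star_eq]; exact hc
    exact (Commute.cfc hc.symm hcs.symm _).symm

theorem correct_pi (Y : Submodule ℂ R) (hY : IsCI Y) {P0 P Q T t0 : R}
    (hP0 : IsStarProjection P0) (hP : IsStarProjection P) (hQ : IsStarProjection Q)
    (hPP : P * P0 = P0) (h1 : star T * T = P) (h2 : T * star T = Q) (h3 : P - P0 ∈ Y)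
    (h4 : Q - P0 ∈ Y) (ht0 : P0 * t0 * P0 = t0) (h5 : T - t0 ∈ Y) {c : ℂ}
    (hc : t0 * t0 - c • P0 ∈ Y) (hn : P0 ∉ Y) :
    ∃ T' : R, star T' * T' = P ∧ T' * star T' = Q ∧ T' - P0 ∈ Y := by
  have hsP0 : star P0 = P0 := pjs hP0
  have hmP0 : P0 * P0 = P0 := pjm hP0
  have hP0P : P0 * P = P0 := by
    have := congrArg star hPP
    rwa [star_mul, pjs hP, hsP0] at this
  have hTn : ‖T‖ ≤ 1 := by
    have h : ‖T‖ * ‖T‖ = ‖P‖ := by rw [← CStarRing.norm_star_mul_self, h1]
    have := pj_norm_le hP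
    nlinarith [norm_nonneg T]
  have hP0n : ‖P0‖ ≤ 1 := pj_norm_le hP0
  -- the contraction `t`
  obtain ⟨t, ht⟩ : ∃ t, t = P0 * T * P0 := ⟨_, rfl⟩
  have htn : ‖t‖ ≤ 1 := by
    rw [ht]
    calc ‖P0 * T * P0‖ ≤ ‖P0‖ * ‖T‖ * ‖P0‖ := by
          exact (norm_mul_le _ _).trans (mul_le_mul_of_nonneg_right (norm_mul_le _ _) (norm_nonneg _))
      _ ≤ 1 * 1 * 1 := by gcongr
      _ = 1 := by norm_num
  have htt0 : t - t0 ∈ Y := by
    have : t - t0 = P0 * (T - t0) * P0 := by
      rw [ht, mul_sub, sub_mul, ht0]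
    rw [this]
    exact hY.mul_right _ (hY.mul_left _ h5)
  have hTt : T - t ∈ Y := G6_trans h5 (G6_symm htt0)
  have hct : t * t - c • P0 ∈ Y := G6_trans (G6_mul hY htt0 htt0) hc
  have hPt : P0 * t = t := by rw [ht, ← mul_assoc, ← mul_assoc, hmP0]
  have htP : t * P0 = t := by rw [ht, mul_assoc, hmP0]
  have hst : star t * t - P0 ∈ Y := by
    have a1 : star t * t - star T * T ∈ Y := G6_mul hY (G6_star hY (G6_symm hTt)) (G6_symm hTt)
    rw [h1] at a1
    exact G6_trans a1 h3
  have hts : t * star t - P0 ∈ Y := by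
    have a1 : t * star t - T * star T ∈ Y := G6_mul hY (G6_symm hTt) (G6_star hY (G6_symm hTt))
    rw [h2] at a1
    exact G6_trans a1 h4
  -- `|c| = 1`
  have hcn : ‖c‖ = 1 := by
    have b1 : star (t * t) * (t * t) - star (c • P0) * (c • P0) ∈ Y :=
      G6_mul hY (G6_star hY hct) hct
    have b2 : star (c • P0) * (c • P0) = ((‖c‖ ^ 2 : ℝ) : ℂ) • P0 := by
      rw [star_smul, hsP0, smul_mul_smul_comm, hmP0]
      congr 1
      rw [Complex.star_def, ← Complex.normSq_eq_conj_mul_self, Complex.normSq_eq_norm_sq]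
    have b3 : star (t * t) * (t * t) - P0 ∈ Y := by
      have e1 : star (t * t) * (t * t) = star t * (star t * t) * t := by
        rw [star_mul]; simp only [mul_assoc]
      have e2 : star t * (star t * t) * t - star t * P0 * t ∈ Y := by
        have : star t * (star t * t) * t - star t * P0 * t = star t * (star t * t - P0) * t := by
          noncomm_ring
        rw [this]
        exact hY.mul_right _ (hY.mul_left _ hst)
      have e3 : star t * P0 * t = star t * t := by rw [mul_assoc, hPt]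
      rw [e1]
      rw [e3] at e2
      exact G6_trans e2 hst
    rw [b2] at b1
    have b4 : P0 - ((‖c‖ ^ 2 : ℝ) : ℂ) • P0 ∈ Y := G6_trans (G6_symm b3) b1
    have b5 : (1 - ((‖c‖ ^ 2 : ℝ) : ℂ)) • P0 ∈ Y := by rwa [sub_smul, one_smul]
    have b6 : (1 - ((‖c‖ ^ 2 : ℝ) : ℂ)) = 0 := by
      by_contra hne
      apply hn
      have := Y.smul_mem (1 - ((‖c‖ ^ 2 : ℝ) : ℂ))⁻¹ b5
      rwa [smul_smul, inv_mul_cancel₀ hne, one_smul] at this
    have b7 : (‖c‖ ^ 2 : ℝ) = 1 := by
      have := sub_eq_zero.1 b6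
      exact_mod_cast this.symm
    nlinarith [norm_nonneg c]
  obtain ⟨l, hl⟩ := IsAlgClosed.exists_pow_nat_eq c (n := 2) (by norm_num)
  have hln : ‖l‖ = 1 := by
    have : ‖l‖ ^ 2 = 1 := by rw [← norm_pow, hl, hcn]
    nlinarith [norm_nonneg l]
  have hll : (starRingEnd ℂ) l * l = 1 := by
    rw [← Complex.normSq_eq_conj_mul_self, Complex.normSq_eq_norm_sq, hln]; norm_num
  have hll' : l * (starRingEnd ℂ) l = 1 := by rw [mul_comm]; exact hll
  obtain ⟨k, hk⟩ : ∃ k, k = (starRingEnd ℂ) l • t := ⟨_, rfl⟩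
  have hsk : star k = l • star t := by
    rw [hk, star_smul]
    congr 1
    exact Complex.conj_conj l
  have hPk : P0 * k = k := by rw [hk, mul_smul_comm, hPt]
  have hkP : k * P0 = k := by rw [hk, smul_mul_assoc, htP]
  have hkk : k * k - P0 ∈ Y := by
    have : k * k - P0 = ((starRingEnd ℂ) l * (starRingEnd ℂ) l) • (t * t - c • P0) := by
      rw [hk, smul_mul_smul_comm, smul_sub, smul_smul]
      congr 1
      have : (starRingEnd ℂ) l * (starRingEnd ℂ) l * c = 1 := by
        rw [← hl, sq]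
        calc (starRingEnd ℂ) l * (starRingEnd ℂ) l * (l * l) =
            ((starRingEnd ℂ) l * l) * ((starRingEnd ℂ) l * l) := by ring
          _ = 1 := by rw [hll]; norm_num
      rw [this, one_smul]
    rw [this]
    exact Y.smul_mem _ hct
  have hskk : star k * k - P0 ∈ Y := by
    have : star k * k = star t * t := by
      rw [hsk, hk, smul_mul_smul_comm, hll', one_smul]
    rw [this]; exact hst
  have hksk : k * star k - P0 ∈ Y := by
    have : k * star k = t * star t := by
      rw [hsk, hk, smul_mul_smul_comm, hll, one_smul]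
    rw [this]; exact hts
  have hskP : star k * P0 = star k := by
    have := congrArg star hPk
    rwa [star_mul, hsP0] at this
  have hPsk : P0 * star k = star k := by
    have := congrArg star hkP
    rwa [star_mul, hsP0] at this
  have hkst : star k - k ∈ Y := by
    have a1 : star k * P0 - star k * (k * k) ∈ Y := by
      rw [← mul_sub]; exact hY.mul_left _ (G6_symm hkk)
    have a2 : star k * (k * k) - P0 * k ∈ Y := by
      rw [← mul_assoc, ← sub_mul]; exact hY.mul_right _ hskk
    rw [hskP] at a1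
    rw [hPk] at a2
    exact G6_trans a1 a2
  have hkn : ‖k‖ ≤ 1 := by
    rw [hk, norm_smul, RCLike.norm_conj, hln, one_mul]; exact htn
  obtain ⟨x, hx⟩ : ∃ x, x = (1 / 2 : ℂ) • (k + star k) := ⟨_, rfl⟩
  have hxs : star x = x := by
    rw [hx, star_smul, star_add, star_star]
    have : star (1 / 2 : ℂ) = 1 / 2 := by simp
    rw [this, add_comm]
  have hxn : ‖x‖ ≤ 1 := by
    rw [hx, norm_smul]
    have h1 : ‖(1 / 2 : ℂ)‖ = 1 / 2 := by simp
    have h2 : ‖k + star k‖ ≤ 2 := by
      refine (norm_add_le _ _).trans ?_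
      rw [norm_star]; linarith
    rw [h1]; linarith
  have hxk : x - k ∈ Y := by
    have : x - k = (1 / 2 : ℂ) • (star k - k) := by
      rw [hx, smul_add, smul_sub]
      have h2 : k = (1 / 2 : ℂ) • k + (1 / 2 : ℂ) • k := by
        rw [← add_smul]; norm_num
      nth_rewrite 3 [h2]
      abel
    rw [this]
    exact Y.smul_mem _ hkst
  have hPx : P0 * x = x := by rw [hx, mul_smul_comm, mul_add, hPk, hPsk]
  have hxP : x * P0 = x := by rw [hx, smul_mul_assoc, add_mul, hkP, hskP]
  have hxx : x * x - P0 ∈ Y := G6_trans (G6_mul hY hxk hxk) hkk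
  obtain ⟨s, hs1, hs2, hs3, hs4⟩ := G6_sqrt (P0 := P0) (x := x) hxs hxn
    (show P0 * x = x * P0 by rw [hPx, hxP])
  obtain ⟨r, hr⟩ : ∃ r, r = s * P0 := ⟨_, rfl⟩
  have hrs : star r = r := by rw [hr, star_mul, hsP0, hs1.star_eq, hs4]
  have hPr : P0 * r = r := by rw [hr, ← mul_assoc, hs4, mul_assoc, hmP0]
  have hrP : r * P0 = r := by rw [hr, mul_assoc, hmP0]
  have hrr : r * r = P0 - x * x := by
    calc r * r = s * (P0 * s) * P0 := by rw [hr]; simp only [mul_assoc]
      _ = s * s * (P0 * P0) := by rw [hs4]; simp only [mul_assoc]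
      _ = (1 - x * x) * P0 := by rw [hmP0, hs2]
      _ = P0 - x * x := by rw [sub_mul, one_mul, mul_assoc, hxP]
  have hrx : r * x = x * r := by
    calc r * x = s * (P0 * x) := by rw [hr, mul_assoc]
      _ = s * x := by rw [hPx]
      _ = x * s := hs3
      _ = x * P0 * s := by rw [hxP]
      _ = x * r := by rw [mul_assoc, hs4, hr]
  have hrY : r ∈ Y := by
    refine hY.of_star_mul_self ?_
    rw [hrs, hrr]
    exact G6_symm hxx
  obtain ⟨u, hu⟩ : ∃ u, u = x + Complex.I • r := ⟨_, rfl⟩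
  have hsu : star u = x - Complex.I • r := by
    rw [hu, star_add, star_smul, hxs, hrs]
    have : star Complex.I = -Complex.I := Complex.conj_I
    rw [this, neg_smul, sub_eq_add_neg]
  have hPu : P0 * u = u := by rw [hu, mul_add, mul_smul_comm, hPx, hPr]
  have huP : u * P0 = u := by rw [hu, add_mul, smul_mul_assoc, hxP, hrP]
  have hII : Complex.I • (Complex.I • (r * r)) = -(r * r) := by
    rw [smul_smul, Complex.I_mul_I, neg_smul, one_smul]
  have hsuu : star u * u = P0 := by
    rw [hsu, hu, sub_mul, mul_add, mul_add, mul_smul_comm, smul_mul_assoc, smul_mul_assoc,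
      mul_smul_comm, hrx, hII, hrr]
    abel
  have husu : u * star u = P0 := by
    rw [hsu, hu, add_mul, mul_sub, mul_sub, mul_smul_comm, smul_mul_assoc, smul_mul_assoc,
      mul_smul_comm, hrx, hII, hrr]
    abel
  have hPsu : P0 * star u = star u := by
    have := congrArg star huP
    rwa [star_mul, hsP0] at this
  have hsuP : star u * P0 = star u := by
    have := congrArg star hPu
    rwa [star_mul, hsP0] at this
  have huk : u - k ∈ Y := by
    refine G6_trans (b := x) ?_ hxk
    rw [hu, add_sub_cancel_left]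
    exact Y.smul_mem _ hrY
  obtain ⟨U, hU⟩ : ∃ U, U = u + (1 - P0) := ⟨_, rfl⟩
  have hsU : star U = star u + (1 - P0) := by
    rw [hU, star_add, star_sub, star_one, hsP0]
  have hUU : star U * U = 1 := by
    rw [hsU, hU, add_mul, mul_add, mul_add, hsuu, mul_sub, mul_one, hsuP, sub_mul, one_mul, hPu,
      mul_sub, mul_one, sub_mul, one_mul, hmP0]
    abel
  have hUU' : U * star U = 1 := by
    rw [hsU, hU, add_mul, mul_add, mul_add, husu, mul_sub, mul_one, huP, sub_mul, one_mul, hPsu,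
      mul_sub, mul_one, sub_mul, one_mul, hmP0]
    abel
  have hUP : U * P = P * U := by
    have e1 : u * P = u := by
      calc u * P = u * P0 * P := by rw [huP]
        _ = u := by rw [mul_assoc, hP0P, huP]
    have e2 : P * u = u := by
      calc P * u = P * (P0 * u) := by rw [hPu]
        _ = u := by rw [← mul_assoc, hPP, hPu]
    rw [hU, add_mul, mul_add, e1, e2, sub_mul, one_mul, hP0P, mul_sub, mul_one, hPP]
  refine ⟨(starRingEnd ℂ) l • (T * star U), ?_, ?_, ?_⟩
  · rw [star_smul, star_mul, star_star, smul_mul_smul_comm]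
    have e1 : star ((starRingEnd ℂ) l) * (starRingEnd ℂ) l = 1 := by
      have : star ((starRingEnd ℂ) l) = l := Complex.conj_conj l
      rw [this, hll']
    rw [e1, one_smul]
    calc U * star T * (T * star U) = U * (star T * T) * star U := by simp only [mul_assoc]
      _ = P * (U * star U) := by rw [h1, hUP, mul_assoc]
      _ = P := by rw [hUU', mul_one]
  · rw [star_smul, star_mul, star_star, smul_mul_smul_comm]
    have e1 : (starRingEnd ℂ) l * star ((starRingEnd ℂ) l) = 1 := by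
      have : star ((starRingEnd ℂ) l) = l := Complex.conj_conj l
      rw [this, hll]
    rw [e1, one_smul]
    calc T * star U * (U * star T) = T * (star U * U) * star T := by simp only [mul_assoc]
      _ = Q := by rw [hUU, mul_one, h2]
  · have f1 : (starRingEnd ℂ) l • (T * star U) - k * star U ∈ Y := by
      have : (starRingEnd ℂ) l • (T * star U) - k * star U =
          (starRingEnd ℂ) l • ((T - t) * star U) := by
        rw [sub_mul, smul_sub, hk, smul_mul_assoc]
      rw [this]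
      exact Y.smul_mem _ (hY.mul_right _ hTt)
    have f2 : k * star U = k * star u := by
      rw [hsU, mul_add, mul_sub, mul_one, hkP, sub_self, add_zero]
    have f3 : k * star u - k * star k ∈ Y := by
      rw [← mul_sub]
      exact hY.mul_left _ (G6_star hY huk)
    rw [f2] at f1
    exact G6_trans f1 (G6_trans f3 hksk)

end Helper19.BL
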