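import Pool.Agent.Helper19.BL.EDefs

/-! # Basic facts on projections, partial isometries and their classes -/

set_option linter.unusedSectionVars false

open scoped Matrix

namespace Helper19.BL

section PI

variable {A : Type*} [CStarAlgebra A]

lemma pjm {p : A} (hp : IsStarProjection p) : p * p = p := hp.isIdempotentElem.eq
lemma pjs {p : A} (hp : IsStarProjection p) : star p = p := hp.isSelfAdjoint.star_eq

lemma pj_mk {p : A} (h1 : p * p = p) (h2 : star p = p) : IsStarProjection p := ⟨h1, h2⟩

lemma pj_one : IsStarProjection (1 : A) := ⟨by simp [IsIdempotentElem], by simp [IsSelfAdjoint]⟩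
lemma pj_zero : IsStarProjection (0 : A) := ⟨by simp [IsIdempotentElem], by simp [IsSelfAdjoint]⟩

lemma pj_sub {p q : A} (hp : IsStarProjection p) (hq : IsStarProjection q) (h : p * q = q) :
    IsStarProjection (p - q) := by
  have h' : q * p = q := by
    have := congrArg star h
    rwa [star_mul, pjs hp, pjs hq] at this
  refine pj_mk ?_ (by rw [star_sub, pjs hp, pjs hq])
  rw [sub_mul, mul_sub, mul_sub, h, h', pjm hp, pjm hq]; abel

lemma pj_add {p q : A} (hp : IsStarProjection p) (hq : IsStarProjection q) (h : p * q = 0) :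
    IsStarProjection (p + q) := by
  have h' : q * p = 0 := by
    have := congrArg star h
    rwa [star_mul, pjs hp, pjs hq, star_zero] at this
  refine pj_mk ?_ (by rw [star_add, pjs hp, pjs hq])
  rw [add_mul, mul_add, mul_add, h, h', pjm hp, pjm hq]; abel

lemma pj_norm_le {p : A} (hp : IsStarProjection p) : ‖p‖ ≤ 1 := by
  have h : ‖p‖ * ‖p‖ = ‖p‖ := by
    rw [← CStarRing.norm_star_mul_self, pjs hp, pjm hp]
  nlinarith [norm_nonneg p, sq_nonneg (‖p‖ - 1)]

lemma pj_eq_zero {p : A} (hp : IsStarProjection p) (h : ‖p‖ < 1) : p = 0 := by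
  have h2 : ‖p‖ * ‖p‖ = ‖p‖ := by
    rw [← CStarRing.norm_star_mul_self, pjs hp, pjm hp]
  rw [← norm_eq_zero]
  nlinarith [norm_nonneg p]

/-- a subprojection at distance `< 1` is everything -/
lemma pj_eq_of_near {e q : A} (he : IsStarProjection e) (hq : IsStarProjection q)
    (h : q * e = e) (hn : ‖e - q‖ < 1) : e = q := by
  have := pj_eq_zero (pj_sub hq he h) (by rwa [norm_sub_rev])
  exact (sub_eq_zero.1 this).symm

/-- `v (v* v) = v` for a partial isometry -/
lemma pi_mul {v : A} (h : IsStarProjection (star v * v)) : v * (star v * v) = v := by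
  have : star (v * (star v * v) - v) * (v * (star v * v) - v) = 0 := by
    have h1 : star v * v * (star v * v) = star v * v := pjm h
    have h2 : star (v * (star v * v) - v) = (star v * v) * star v - star v := by
      rw [star_sub, star_mul, star_mul, star_star]
    rw [h2]
    have : (star v * v * star v - star v) * (v * (star v * v) - v) =
      star v * v * (star v * v) * (star v * v) - star v * v * (star v * v)
        - star v * v * (star v * v) + star v * v := by noncomm_ring
    rw [this, h1, h1]; abel
  exact sub_eq_zero.1 (CStarRing.star_mul_self_eq_zero_iff _ |>.1 this)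

lemma pi_mul' {v p : A} (hp : IsStarProjection p) (h : star v * v = p) : v * p = v := by
  rw [← h]; exact pi_mul (h ▸ hp)

lemma pi_range {v : A} (h : IsStarProjection (star v * v)) : IsStarProjection (v * star v) := by
  refine pj_mk ?_ (by rw [star_mul, star_star])
  calc v * star v * (v * star v) = v * (star v * v) * star v := by noncomm_ring
    _ = v * star v := by rw [pi_mul h]

lemma pi_range_mul {v : A} (h : IsStarProjection (star v * v)) : v * star v * v = v := by
  rw [mul_assoc]; exact pi_mul h

lemma pi_swap {v q : A} (hq : IsStarProjection q) (h : v * star v = q) : q * v = v := by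
  have := pi_mul' (v := star v) hq (by rw [star_star]; exact h)
  have h2 := congrArg star this
  rwa [star_mul, star_star, pjs hq] at h2

end PI

section Cls

variable {A B : Type*} [CStarAlgebra A] [CStarAlgebra B]

lemma cls1_eq_iff {p q : A} (hp : IsStarProjection p) (hq : IsStarProjection q) :
    cls1 p hp = cls1 q hq ↔ ∃ v : A, star v * v = p ∧ v * star v = q := by
  unfold cls1
  rw [cls_eq_iff]
  constructor
  · rintro ⟨v, h1, h2⟩
    refine ⟨v 0 0, ?_, ?_⟩
    · have := congrFun (congrFun h1 0) 0
      simpa [Matrix.mul_apply] using this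
    · have := congrFun (congrFun h2 0) 0
      simpa [Matrix.mul_apply] using this
  · rintro ⟨v, h1, h2⟩
    refine ⟨Matrix.of fun _ _ => v, ?_, ?_⟩
    · ext i j; simp [Matrix.mul_apply, h1]
    · ext i j; simp [Matrix.mul_apply, h2]

lemma cls1_congr {p q : A} (hp : IsStarProjection p) (hq : IsStarProjection q) (h : p = q) :
    cls1 p hp = cls1 q hq := by subst h; rfl

lemma cls1_zero : cls1 (0 : A) pj_zero = 0 := by
  unfold cls1
  have : (Matrix.of fun (_ _ : Fin 1) => (0 : A)) = 0 := by ext i j; simp
  rw [← cls_zero (A := A) (ι := Fin 1)]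
  congr

lemma cls1_add {p q : A} (hp : IsStarProjection p) (hq : IsStarProjection q)
    (hpq : IsStarProjection (p + q)) (h : p * q = 0) :
    cls1 (p + q) hpq = cls1 p hp + cls1 q hq := by
  unfold cls1
  rw [← cls_add (isPj_of1 hp) (isPj_of1 hq)
    (by
      have : (Matrix.of fun (_ _ : Fin 1) => p) + (Matrix.of fun (_ _ : Fin 1) => q) =
          (Matrix.of fun (_ _ : Fin 1) => p + q) := by ext i j; simp
      rw [this]; exact isPj_of1 hpq)
    (by ext i j; simp [Matrix.mul_apply, h])]
  congr

lemma cls1_sum {α : Type*} [DecidableEq α] (s : Finset α) (p : α → A)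
    (hp : ∀ a, IsStarProjection (p a))
    (h : ∀ a ∈ s, ∀ b ∈ s, a ≠ b → p a * p b = 0) (hs : IsStarProjection (∑ a ∈ s, p a)) :
    cls1 (∑ a ∈ s, p a) hs = ∑ a ∈ s, cls1 (p a) (hp a) := by
  induction s using Finset.induction_on with
  | empty => simp only [Finset.sum_empty]; exact cls1_zero
  | insert a s ha ih =>
    have h0 : p a * ∑ b ∈ s, p b = 0 := by
      rw [Finset.mul_sum]
      refine Finset.sum_eq_zero fun b hb => ?_
      exact h a (Finset.mem_insert_self _ _) b (Finset.mem_insert_of_mem hb)
        (fun e => ha (e ▸ hb))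
    have h1 : IsStarProjection (∑ b ∈ s, p b) := by
      refine pj_mk ?_ ?_
      · rw [Finset.sum_mul]
        refine Finset.sum_congr rfl fun b hb => ?_
        rw [Finset.mul_sum, Finset.sum_eq_single b]
        · exact pjm (hp b)
        · intro c hc hcb
          exact h b (Finset.mem_insert_of_mem hb) c (Finset.mem_insert_of_mem hc) (Ne.symm hcb)
        · intro hb'; exact absurd hb hb'
      · rw [star_sum]; exact Finset.sum_congr rfl fun b _ => pjs (hp b)
    have h2 := cls1_add (hp a) h1 (by rw [← Finset.sum_insert ha]; exact hs) h0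
    refine (cls1_congr _ _ (Finset.sum_insert ha)).trans (h2.trans ?_)
    rw [ih (fun b hb c hc => h b (Finset.mem_insert_of_mem hb) c
      (Finset.mem_insert_of_mem hc)) h1, Finset.sum_insert ha]

lemma Vmap_cls1 (f : A →⋆ₐ[ℂ] B) {p : A} (hp : IsStarProjection p)
    (hfp : IsStarProjection (f p)) : Vmap f (cls1 p hp) = cls1 (f p) hfp := by
  unfold cls1
  rw [Vmap_cls]
  congr

lemma pj_map (f : A →⋆ₐ[ℂ] B) {p : A} (hp : IsStarProjection p) : IsStarProjection (f p) :=
  pj_mk (by rw [← map_mul, pjm hp]) (by rw [← map_star, pjs hp])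

end Cls

section ClsM

variable {κ : Type*} {A B : Type*} [Fintype κ] [DecidableEq κ] [CStarAlgebra A] [CStarAlgebra B]

lemma clsM_eq_iff {x y : MM κ A} (hx : IsStarProjection x) (hy : IsStarProjection y) :
    clsM x hx = clsM y hy ↔ ∃ v : MM κ A, star v * v = x ∧ v * star v = y := by
  unfold clsM
  rw [cls_eq_iff]
  constructor
  · rintro ⟨v, h1, h2⟩
    exact ⟨MM.of v, h1, h2⟩
  · rintro ⟨v, h1, h2⟩
    exact ⟨v.mat, congrArg MM.mat h1, congrArg MM.mat h2⟩

lemma clsM_congr {x y : MM κ A} (hx : IsStarProjection x) (hy : IsStarProjection y) (h : x = y) :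
    clsM x hx = clsM y hy := by subst h; rfl

lemma clsM_add {x y : MM κ A} (hx : IsStarProjection x) (hy : IsStarProjection y)
    (hxy : IsStarProjection (x + y)) (h : x * y = 0) :
    clsM (x + y) hxy = clsM x hx + clsM y hy :=
  cls_add (isPj_mat hx) (isPj_mat hy) (isPj_mat hxy) (congrArg MM.mat h)

lemma clsM_zero (h : IsStarProjection (0 : MM κ A)) : clsM (0 : MM κ A) h = 0 :=
  cls_zero (A := A) (ι := κ)

lemma Vmap_clsM (f : A →⋆ₐ[ℂ] B) {x : MM κ A} (hx : IsStarProjection x)
    (hfx : IsStarProjection (MM.map f x)) : Vmap f (clsM x hx) = clsM (MM.map f x) hfx :=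
  Vmap_cls f (isPj_mat hx)

lemma pj_single (i : κ) {p : A} (hp : IsStarProjection p) :
    IsStarProjection (MM.single i i p : MM κ A) :=
  pj_mk (by rw [MM.single_mul_single, pjm hp]) (by rw [MM.star_single, pjs hp])

lemma clsM_single (i : κ) {p : A} (hp : IsStarProjection p) :
    clsM (MM.single i i p : MM κ A) (pj_single i hp) = cls1 p hp := by
  unfold clsM cls1
  rw [cls_eq_iff]
  refine ⟨Matrix.of fun _ j => if j = i then p else 0, ?_, ?_⟩
  · ext a b
    simp only [Matrix.mul_apply, Matrix.conjTranspose_apply, Matrix.of_apply, MM.single, MM.mat_of,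
      Matrix.single_apply, Finset.univ_unique, Finset.sum_singleton]
    by_cases ha : a = i <;> by_cases hb : b = i
    · subst ha; subst hb; simp [pjs hp, pjm hp]
    · subst ha; simp [hb, Ne.symm hb]
    · subst hb; simp [ha, Ne.symm ha]
    · simp [ha, Ne.symm ha]
  · ext a b
    simp only [Matrix.mul_apply, Matrix.conjTranspose_apply, Matrix.of_apply]
    rw [Finset.sum_eq_single i]
    · simp [pjs hp, pjm hp]
    · intro j _ hj; simp [hj]
    · intro h; exact absurd (Finset.mem_univ _) h

/-- diagonal matrices -/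
noncomputable def MM.diag (d : κ → A) : MM κ A := MM.of (Matrix.diagonal d)

@[simp] lemma MM.diag_mat (d : κ → A) : (MM.diag d : MM κ A).mat = Matrix.diagonal d := rfl

lemma MM.diag_mul (d d' : κ → A) : MM.diag d * MM.diag d' = MM.diag (fun i => d i * d' i) := by
  apply MM.mat_injective
  simp [Matrix.diagonal_mul_diagonal]

lemma MM.star_diag (d : κ → A) : star (MM.diag d) = MM.diag (fun i => star (d i)) := by
  apply MM.mat_injective
  rw [MM.mat_star, MM.diag_mat, Matrix.diagonal_conjTranspose]; rfl

lemma MM.diag_eq_sum (d : κ → A) : MM.diag d = ∑ i, MM.single i i (d i) := by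
  apply MM.mat_injective
  rw [MM.mat_sum]
  ext a b
  rw [Matrix.sum_apply]
  by_cases h : a = b
  · subst h
    simp [MM.single, Matrix.single_apply]
  · simp [MM.single, Matrix.single_apply, h]
    rw [Finset.sum_eq_zero]
    intro i _
    rw [if_neg]
    rintro ⟨rfl, rfl⟩; exact h rfl

lemma MM.map_diag (f : A →⋆ₐ[ℂ] B) (d : κ → A) : MM.map f (MM.diag d) = MM.diag (fun i => f (d i)) := by
  apply MM.ext'
  intro i j
  by_cases h : i = j
  · subst h; simp
  · simp [Matrix.diagonal_apply_ne _ h]

lemma MM.map_single (f : A →⋆ₐ[ℂ] B) (i j : κ) (a : A) :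
    MM.map f (MM.single i j a) = MM.single i j (f a) := by
  apply MM.ext'
  intro k l
  simp only [MM.map_apply, MM.single, MM.mat_of, Matrix.single_apply]
  split_ifs <;> simp

lemma pj_diag {d : κ → A} (hd : ∀ i, IsStarProjection (d i)) : IsStarProjection (MM.diag d) :=
  pj_mk (by rw [MM.diag_mul]; congr; funext i; exact pjm (hd i))
    (by rw [MM.star_diag]; congr; funext i; exact pjs (hd i))

lemma clsM_sum {α : Type*} [DecidableEq α] (s : Finset α) (p : α → MM κ A)
    (hp : ∀ a, IsStarProjection (p a))
    (h : ∀ a ∈ s, ∀ b ∈ s, a ≠ b → p a * p b = 0) (hs : IsStarProjection (∑ a ∈ s, p a)) :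
    clsM (∑ a ∈ s, p a) hs = ∑ a ∈ s, clsM (p a) (hp a) := by
  induction s using Finset.induction_on with
  | empty => simp only [Finset.sum_empty]; exact clsM_zero _
  | insert a s ha ih =>
    have h0 : p a * ∑ b ∈ s, p b = 0 := by
      rw [Finset.mul_sum]
      refine Finset.sum_eq_zero fun b hb => ?_
      exact h a (Finset.mem_insert_self _ _) b (Finset.mem_insert_of_mem hb)
        (fun e => ha (e ▸ hb))
    have h1 : IsStarProjection (∑ b ∈ s, p b) := by
      refine pj_mk ?_ ?_
      · rw [Finset.sum_mul]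
        refine Finset.sum_congr rfl fun b hb => ?_
        rw [Finset.mul_sum, Finset.sum_eq_single b]
        · exact pjm (hp b)
        · intro c hc hcb
          exact h b (Finset.mem_insert_of_mem hb) c (Finset.mem_insert_of_mem hc) (Ne.symm hcb)
        · intro hb'; exact absurd hb hb'
      · rw [star_sum]; exact Finset.sum_congr rfl fun b _ => pjs (hp b)
    have h2 := clsM_add (hp a) h1 (by rw [← Finset.sum_insert ha]; exact hs) h0
    refine (clsM_congr _ _ (Finset.sum_insert ha)).trans (h2.trans ?_)
    rw [ih (fun b hb c hc => h b (Finset.mem_insert_of_mem hb) c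
      (Finset.mem_insert_of_mem hc)) h1, Finset.sum_insert ha]

lemma clsM_diag {d : κ → A} (hd : ∀ i, IsStarProjection (d i)) :
    clsM (MM.diag d) (pj_diag hd) = ∑ i, cls1 (d i) (hd i) := by
  have hs : IsStarProjection (∑ i, (MM.single i i (d i) : MM κ A)) := by
    rw [← MM.diag_eq_sum]; exact pj_diag hd
  rw [clsM_congr (pj_diag hd) hs (MM.diag_eq_sum d),
    clsM_sum Finset.univ _ (fun i => pj_single i (hd i)) (fun a _ b _ hab => by
      rw [MM.single_mul_single_ne _ _ _ _ _ _ hab]) hs]
  exact Finset.sum_congr rfl fun i _ => clsM_single i (hd i)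

end ClsM

end Helper19.BL
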