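import Pool.Agent.Helper19.BL.Defs

/-! # Closed star ideals and small general definitions for MP_9b0829_an -/

set_option linter.unusedSectionVars false

open scoped Matrix

namespace Helper19.BL

/-- A closed two-sided star ideal of a C*-algebra. -/
structure IsCI {R : Type*} [CStarAlgebra R] (I : Submodule ℂ R) : Prop where
  closed : IsClosed (I : Set R)
  mul_left : ∀ (a : R) {x : R}, x ∈ I → a * x ∈ I
  mul_right : ∀ (a : R) {x : R}, x ∈ I → x * a ∈ I
  star_mem : ∀ {x : R}, x ∈ I → star x ∈ I

lemma IsCI.inf {R : Type*} [CStarAlgebra R] {I J : Submodule ℂ R} (hI : IsCI I) (hJ : IsCI J) :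
    IsCI (I ⊓ J) where
  closed := by
    rw [Submodule.coe_inf]
    exact hI.closed.inter hJ.closed
  mul_left a _ h := ⟨hI.mul_left a h.1, hJ.mul_left a h.2⟩
  mul_right a _ h := ⟨hI.mul_right a h.1, hJ.mul_right a h.2⟩
  star_mem h := ⟨hI.star_mem h.1, hJ.star_mem h.2⟩

/-- the ideal of matrices with entries in `I` -/
noncomputable def MJ (κ : Type*) [Fintype κ] [DecidableEq κ] {R : Type*} [CStarAlgebra R] (I : Submodule ℂ R) :
    Submodule ℂ (MM κ R) where
  carrier := {X | ∀ i j, X.mat i j ∈ I}
  zero_mem' := fun i j => by simp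
  add_mem' := fun {X Y} hX hY i j => by
    simpa using I.add_mem (hX i j) (hY i j)
  smul_mem' := fun c X hX i j => by
    simpa using I.smul_mem c (hX i j)

lemma mem_MJ {κ : Type*} [Fintype κ] [DecidableEq κ] {R : Type*} [CStarAlgebra R]
    {I : Submodule ℂ R} {X : MM κ R} : X ∈ MJ κ I ↔ ∀ i j, X.mat i j ∈ I := Iff.rfl

lemma IsCI.MJ {κ : Type*} [Fintype κ] [DecidableEq κ] {R : Type*} [CStarAlgebra R]
    {I : Submodule ℂ R} (hI : IsCI I) : IsCI (MJ κ I) where
  closed := by
    have : ((Helper19.BL.MJ κ I : Submodule ℂ (MM κ R)) : Set (MM κ R)) =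
        ⋂ i, ⋂ j, {X : MM κ R | X.mat i j ∈ I} := by
      ext X; simp [mem_MJ]
    rw [this]
    exact isClosed_iInter fun i => isClosed_iInter fun j =>
      hI.closed.preimage (MM.continuous_entry i j)
  mul_left a x hx i j := by
    rw [MM.mat_mul, Matrix.mul_apply]
    exact I.sum_mem fun k _ => hI.mul_left _ (hx k j)
  mul_right a x hx i j := by
    rw [MM.mat_mul, Matrix.mul_apply]
    exact I.sum_mem fun k _ => hI.mul_right _ (hx i k)
  star_mem hx i j := by
    rw [MM.mat_star, Matrix.conjTranspose_apply]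
    exact hI.star_mem (hx j i)

/-- the closed two-sided ideal generated by a family -/
noncomputable def Kid {R : Type*} [CStarAlgebra R] {τ : Type*} (f : τ → R) : Submodule ℂ R :=
  (Submodule.span ℂ {x : R | ∃ t a b, x = a * f t * b}).topologicalClosure

/-- the fixed point algebra of an automorphism -/
noncomputable def FixA {M : Type*} [CStarAlgebra M] (Θ : M ≃⋆ₐ[ℂ] M) : StarSubalgebra ℂ M where
  carrier := {x | Θ x = x}
  mul_mem' := fun {x y} hx hy => by
    change Θ (x * y) = x * y
    rw [map_mul, show Θ x = x from hx, show Θ y = y from hy]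
  add_mem' := fun {x y} hx hy => by
    change Θ (x + y) = x + y
    rw [map_add, show Θ x = x from hx, show Θ y = y from hy]
  algebraMap_mem' := fun c => by
    change Θ _ = _
    rw [Algebra.algebraMap_eq_smul_one, map_smul, map_one]
  star_mem' := fun {x} hx => by
    change Θ (star x) = star x
    rw [map_star, show Θ x = x from hx]

instance {M : Type*} [CStarAlgebra M] (Θ : M ≃⋆ₐ[ℂ] M) : IsClosed ((FixA Θ : StarSubalgebra ℂ M) : Set M) := by
  have h : Isometry Θ := by
    have := NonUnitalStarAlgHom.isometry (Θ : M →⋆ₙₐ[ℂ] M) Θ.injective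
    exact this
  exact isClosed_eq h.continuous continuous_id

end Helper19.BL
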