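import Pool.Agent.Helper19.BL.Fano

/-! # MODULE H0: arithmetic of the Fano diagram

`fano_contra`: in `ZMod 2`/integers: sum the hypotheses over all `(l,i)` with `l`-th coordinate of the point `i` equal to 1 (points
`100,010,001,110,101,011,111`): the `p`-part and the `η`-part have even coefficients, the `R`-part is odd.  `omega` from the 12 instances, or
`decide`-free linear arithmetic.

`arith_C`: `z : VV → ℤ`; `y := z T + z S`, `(y T^K) = (κ T^K)` with `κ = ∑ k_i e_i`.  The `x`-coordinates are preserved by `T` (`(y T)_x = y_x`), so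
`2 z_{x l} = y_{x l} = κ_{x l} = 0`.  On vectors with vanishing `x`-coordinates the functionals `ε_i(y) = y_{e i} - ∑_j M_{ji} y_{m j 2}` are `T`-invariant:
`(yT)_{m j 0} = 2 y_{m j 0} + y_{m j 1}`, `(yT)_{m j 1} = y_{m j 1} + 2 y_{m j 2}`, `(yT)_{m j 2} = y_{m j 0} + y_{m j 1} + y_{m j 2}`,
`(yT)_{e i} = y_{e i} + ∑_j M_{ji} (y_{m j 0} + y_{m j 1})`.  So `ε_i(y) = ε_i(κ) = k_i`, and for `y = zT + zS`:
`ε_i(y) = ε_i(z) + (z_{e i} - ∑_j M_{ji} z_{m j 0}) = 2 z_{e i} - ∑_j M_{ji} (z_{m j 2} + z_{m j 0})`.  Take `η_j = z_{m j 2} + z_{m j 0}`.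

`arith_e`: `T e_i = e_i`: linear independence of the `e_i` after `T^K`. -/

namespace Helper19.BL

open VV

set_option maxRecDepth 100000 in
theorem SM_mul_TM : SM * TM = TM * SM := by
  have h : ∀ v w, (∑ k, SS v k * TT k w) = ∑ k, TT v k * SS k w := by decide +kernel
  ext v w
  rw [Matrix.mul_apply, Matrix.mul_apply]
  exact h v w

set_option maxRecDepth 100000 in
theorem SM_mul_SM : SM * SM = TM * TM := by
  have h : ∀ v w, (∑ k, SS v k * SS k w) = ∑ k, TT v k * TT k w := by decide +kernel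
  ext v w
  rw [Matrix.mul_apply, Matrix.mul_apply]
  exact h v w

/-- sizes of level 0 of the diagram -/
def dd (w : VV) : ℕ :=
  ∑ v : VV, (match v with
    | x _ => 2
    | m j s => if s = 0 then 0 else ∑ l, Nn l j
    | e _ => 0) * TT v w

set_option maxRecDepth 100000 in
theorem dd_pos (w : VV) : 0 < dd w := by
  revert w
  decide +kernel

set_option maxRecDepth 100000 in
theorem dd_SS (w : VV) : ∑ v, dd v * SS v w = ∑ v, dd v * TT v w := by
  revert w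
  decide +kernel

theorem TT_diag (v : VV) : 0 < TT v v := by
  revert v
  decide +kernel

theorem fano_contra (p : Fin 7 → Fin 7 → ℤ) (η : Fin 3 → Fin 7 → ℤ)
    (h : ∀ l i, ∃ c : ℤ, ∑ j, (Nn l j : ℤ) * (Mn j i : ℤ) * p j i - (Rn l i : ℤ) -
      ∑ j, (Mn j i : ℤ) * η l j = 2 * c) : False := by
  obtain ⟨c1, h1⟩ := h 0 0
  obtain ⟨c2, h2⟩ := h 0 3
  obtain ⟨c3, h3⟩ := h 0 4
  obtain ⟨c4, h4⟩ := h 0 6
  obtain ⟨c5, h5⟩ := h 1 1
  obtain ⟨c6, h6⟩ := h 1 3
  obtain ⟨c7, h7⟩ := h 1 5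
  obtain ⟨c8, h8⟩ := h 1 6
  obtain ⟨c9, h9⟩ := h 2 2
  obtain ⟨c10, h10⟩ := h 2 4
  obtain ⟨c11, h11⟩ := h 2 5
  obtain ⟨c12, h12⟩ := h 2 6
  simp [Fin.sum_univ_succ, Mn, Nn, Rn, inc, Fin.ext_iff] at h1 h2 h3 h4 h5 h6 h7 h8 h9 h10 h11 h12
  omega

/-- sums over the vertices -/
def H0_eqv : (Fin 3 ⊕ (Fin 7 × Fin 3)) ⊕ Fin 7 ≃ VV where
  toFun
    | Sum.inl (Sum.inl l) => x l
    | Sum.inl (Sum.inr q) => m q.1 q.2
    | Sum.inr i => e i
  invFun
    | x l => Sum.inl (Sum.inl l)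
    | m j s => Sum.inl (Sum.inr (j, s))
    | e i => Sum.inr i
  left_inv := by rintro ((_ | _) | _) <;> rfl
  right_inv := by rintro (_ | _ | _) <;> rfl

theorem H0_sum {α : Type*} [AddCommMonoid α] (f : VV → α) :
    ∑ v, f v = ∑ l, f (x l) + ∑ j, ∑ s, f (m j s) + ∑ i, f (e i) := by
  rw [← H0_eqv.sum_comp f, Fintype.sum_sum_type, Fintype.sum_sum_type, Fintype.sum_prod_type]
  rfl

/-- the action of `T` on row vectors -/
def H0_act (u : VV → ℤ) : VV → ℤ := fun w => ∑ v, u v * (TT v w : ℤ)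

theorem H0_vecMul (u : VV → ℤ) (K : ℕ) :
    Matrix.vecMul u ((TM ^ K).map (Nat.cast : ℕ → ℤ)) = H0_act^[K] u := by
  have h1 : ∀ K : ℕ, (TM ^ K).map (Nat.cast : ℕ → ℤ) = (TM.map (Nat.cast : ℕ → ℤ)) ^ K := by
    intro K
    exact Matrix.map_pow TM (Nat.castRingHom ℤ) K
  rw [h1]
  induction K generalizing u with
  | zero => simp
  | succ K ih =>
    rw [Function.iterate_succ_apply, ← ih, pow_succ', ← Matrix.vecMul_vecMul]
    rfl

theorem H0_act_x (u : VV → ℤ) (l : Fin 3) : H0_act u (x l) = u (x l) := by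
  unfold H0_act
  rw [H0_sum]
  simp [TT]

theorem H0_iter_x (u : VV → ℤ) (K : ℕ) (l : Fin 3) : H0_act^[K] u (x l) = u (x l) := by
  induction K generalizing u with
  | zero => rfl
  | succ K ih => rw [Function.iterate_succ_apply, ih, H0_act_x]

/-- invariant functional -/
def H0_eps (i : Fin 7) (u : VV → ℤ) : ℤ := u (e i) - ∑ j, (Mn j i : ℤ) * u (m j 2)

theorem H0_act_m (u : VV → ℤ) (hu : ∀ l, u (x l) = 0) (j : Fin 7) :
    H0_act u (m j 2) = u (m j 0) + u (m j 1) + u (m j 2) := by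
  unfold H0_act
  rw [H0_sum]
  simp [TT, hu, Fin.sum_univ_succ (n := 2), Finset.sum_add_distrib]
  ring

theorem H0_act_e (u : VV → ℤ) (hu : ∀ l, u (x l) = 0) (i : Fin 7) :
    H0_act u (e i) = u (e i) + ∑ j, (Mn j i : ℤ) * (u (m j 0) + u (m j 1)) := by
  unfold H0_act
  rw [H0_sum]
  simp [TT, hu, Fin.sum_univ_succ (n := 2)]
  rw [add_comm]
  congr 1
  exact Finset.sum_congr rfl fun j _ => by ring

theorem H0_eps_act (u : VV → ℤ) (hu : ∀ l, u (x l) = 0) (i : Fin 7) :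
    H0_eps i (H0_act u) = H0_eps i u := by
  unfold H0_eps
  rw [H0_act_e u hu, add_sub_assoc, ← Finset.sum_sub_distrib, sub_eq_add_neg,
    ← Finset.sum_neg_distrib]
  congr 1
  refine Finset.sum_congr rfl fun j _ => ?_
  rw [H0_act_m u hu]
  ring

theorem H0_eps_iter (u : VV → ℤ) (hu : ∀ l, u (x l) = 0) (i : Fin 7) (K : ℕ) :
    H0_eps i (H0_act^[K] u) = H0_eps i u := by
  induction K generalizing u with
  | zero => rfl
  | succ K ih =>
    rw [Function.iterate_succ_apply, ih, H0_eps_act u hu]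
    intro l
    rw [H0_act_x, hu]

/-- the action of `T + S` on row vectors -/
def H0_actS (u : VV → ℤ) : VV → ℤ := fun w => ∑ v, u v * ((TT v w : ℤ) + (SS v w : ℤ))

theorem H0_actS_x (u : VV → ℤ) (l : Fin 3) : H0_actS u (x l) = 2 * u (x l) := by
  unfold H0_actS
  rw [H0_sum]
  simp [TT, SS, mul_add, Finset.sum_add_distrib]
  ring

theorem H0_actS_m (u : VV → ℤ) (hu : ∀ l, u (x l) = 0) (j : Fin 7) :
    H0_actS u (m j 2) = 2 * (u (m j 0) + u (m j 1) + u (m j 2)) := by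
  unfold H0_actS
  rw [H0_sum]
  simp [TT, SS, hu, Fin.sum_univ_succ (n := 2), Finset.sum_add_distrib, mul_add, Fin.rev]
  ring

theorem H0_actS_e (u : VV → ℤ) (hu : ∀ l, u (x l) = 0) (i : Fin 7) :
    H0_actS u (e i) = 2 * u (e i) +
      ∑ j, (Mn j i : ℤ) * (u (m j 0) + 2 * u (m j 1) + u (m j 2)) := by
  unfold H0_actS
  rw [H0_sum]
  simp [TT, SS, hu, Fin.sum_univ_succ (n := 2), mul_add, Fin.rev, Finset.sum_add_distrib]
  have h2 : ∑ j, (Mn j i : ℤ) * (2 * u (m j 1)) = 2 * ∑ j, (Mn j i : ℤ) * u (m j 1) := by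
    rw [Finset.mul_sum]
    exact Finset.sum_congr rfl fun j _ => by ring
  rw [h2]
  simp only [mul_comm]
  ring

theorem H0_eps_actS (u : VV → ℤ) (hu : ∀ l, u (x l) = 0) (i : Fin 7) :
    H0_eps i (H0_actS u) = 2 * u (e i) - ∑ j, (Mn j i : ℤ) * (u (m j 0) + u (m j 2)) := by
  unfold H0_eps
  rw [H0_actS_e u hu, add_sub_assoc, ← Finset.sum_sub_distrib, sub_eq_add_neg (2 * u (e i)),
    ← Finset.sum_neg_distrib]
  congr 1
  refine Finset.sum_congr rfl fun j _ => ?_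
  rw [H0_actS_m u hu]
  ring

theorem H0_eps_kap (k : Fin 7 → ℤ) (i : Fin 7) :
    H0_eps i (fun w => match w with | e i => k i | _ => 0) = k i := by
  unfold H0_eps
  simp

theorem arith_C (k : Fin 7 → ℤ) (z : VV → ℤ) (K : ℕ)
    (h : Matrix.vecMul (fun w => match w with | e i => k i | _ => 0)
        ((TM ^ K).map (Nat.cast : ℕ → ℤ)) =
      Matrix.vecMul (fun w => ∑ v, z v * ((TT v w : ℤ) + (SS v w : ℤ)))
        ((TM ^ K).map (Nat.cast : ℕ → ℤ))) :
    ∃ η : Fin 7 → ℤ, ∀ i, ∃ c : ℤ, k i - ∑ j, (Mn j i : ℤ) * η j = 2 * c := by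
  rw [H0_vecMul, H0_vecMul] at h
  have hz : ∀ l, z (x l) = 0 := by
    intro l
    have h1 := congrFun h (x l)
    rw [H0_iter_x, H0_iter_x] at h1
    have h2 : (0 : ℤ) = 2 * z (x l) := h1.trans (H0_actS_x z l)
    omega
  have hx : ∀ l, H0_actS z (x l) = 0 := fun l => by rw [H0_actS_x, hz, mul_zero]
  refine ⟨fun j => -(z (m j 0) + z (m j 2)), fun i => ⟨z (e i), ?_⟩⟩
  have h1 := congrArg (H0_eps i) h
  rw [H0_eps_iter _ (fun l => rfl), H0_eps_kap] at h1
  have h2 : k i = H0_eps i (H0_act^[K] (H0_actS z)) := h1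
  rw [H0_eps_iter _ hx, H0_eps_actS z hz] at h2
  rw [h2]
  have h3 : ∑ j, (Mn j i : ℤ) * -(z (m j 0) + z (m j 2)) =
      -∑ j, (Mn j i : ℤ) * (z (m j 0) + z (m j 2)) := by
    rw [← Finset.sum_neg_distrib]
    exact Finset.sum_congr rfl fun j _ => by ring
  rw [h3]
  ring

theorem arith_e (k k' : Fin 7 → ℤ) (K : ℕ)
    (h : Matrix.vecMul (fun w => match w with | e i => k i | _ => 0)
        ((TM ^ K).map (Nat.cast : ℕ → ℤ)) =
      Matrix.vecMul (fun w => match w with | e i => k' i | _ => 0)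
        ((TM ^ K).map (Nat.cast : ℕ → ℤ))) : k = k' := by
  rw [H0_vecMul, H0_vecMul] at h
  funext i
  have h1 := congrArg (H0_eps i) h
  rw [H0_eps_iter _ (fun l => rfl), H0_eps_iter _ (fun l => rfl), H0_eps_kap, H0_eps_kap] at h1
  exact h1

end Helper19.BL
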