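import Pool.Agent.Helper19.BL.H0
import Pool.Agent.Helper19.BL.E2
import Pool.Agent.Helper19.BL.E3
import Pool.Agent.Helper19.BL.B6

/-! # Data of the final argument: hereditary sets, the structure `Dat` -/

set_option linter.unusedSectionVars false

namespace Helper19.BL

open VV

/-- the sinks -/
def setI : Set VV := {v | ∃ i, v = e i}
/-- the ideal of the line `j` -/
def setP (j : Fin 7) : Set VV := {v | (∃ s, v = m j s) ∨ ∃ i, inc j i = true ∧ v = e i}
/-- the sinks on the line `j` -/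
def setW (j : Fin 7) : Set VV := {v | ∃ i, inc j i = true ∧ v = e i}
/-- everything below `x l` -/
def setY (l : Fin 3) : Set VV := {v | (∃ j s, Nn l j = 1 ∧ v = m j s) ∨ ∃ i, v = e i}
/-- the pieces of `setY l` -/
def setQ (l : Fin 3) : Option (Fin 7) → Set VV
  | none => setI
  | some j => if Nn l j = 1 then setP j else ∅

/-- All data of the situation: `φ` is an involutive automorphism inducing `α`, with invariant minimal
projections `f i` of the ideals `K_i`. -/
structure Dat (A : Type) [CStarAlgebra A] where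
  B : Brat VV TT A
  φ : A ≃⋆ₐ[ℂ] A
  hφ : ∀ a, φ (φ a) = a
  hα : ∀ n v, Vmap (φ : A →⋆ₐ[ℂ] A) (B.u n v) = ∑ w, SS v w • B.u (n + 1) w
  f : Fin 7 → A
  hf : MinFam f
  hinv : ∀ i, φ (f i) = f i
  hfu : ∀ i, ∃ (μ : B.P 0 (e i)) (u : A), star u * u = B.e 0 (e i) μ μ ∧ u * star u = f i

variable {A : Type} [CStarAlgebra A]

namespace Dat

variable (D : Dat A)

/-- class of `ι (unit of vertex v, level 1)` in `K0 (EE φ)` -/
noncomputable def U (v : VV) : K0 (EE D.φ) := Vto (EE D.φ) (Vmap (iota D.φ D.hφ) (D.B.u 1 v))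

/-- class of `f_i^±` -/
noncomputable def F (i : Fin 7) (s : Bool) : K0 (EE D.φ) :=
  Vto (EE D.φ) (cls1 (fpm D.φ D.hφ (D.f i) s) (fpm_proj D.φ D.hφ (D.hf.proj i) (D.hinv i) s))

end Dat

end Helper19.BL
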