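import Pool.Agent.Helper19.BL.H1

/-! # MODULE H2: hereditary sets of the Fano diagram

Sets: unfold `Brat.Her`, `setP`, ..; cases on the vertices; `TT`, `SS` are given by pattern matching (`simp [TT, SS, Mn, Nn, Rn]`), or make the
sets decidable and use `decide`. -/

set_option linter.unusedSectionVars false

namespace Helper19.BL

open VV

section mem

theorem H2_I_x (l : Fin 3) : x l ∉ setI := by
  rintro ⟨i, hi⟩
  cases hi

theorem H2_I_m (j : Fin 7) (s : Fin 3) : m j s ∉ setI := by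
  rintro ⟨i, hi⟩
  cases hi

theorem H2_I_e (i : Fin 7) : e i ∈ setI := ⟨i, rfl⟩

theorem H2_P_x (j : Fin 7) (l : Fin 3) : x l ∉ setP j := by
  rintro (⟨s, hs⟩ | ⟨i, _, hi⟩)
  · cases hs
  · cases hi

theorem H2_P_m (j k : Fin 7) (s : Fin 3) : m k s ∈ setP j ↔ k = j := by
  constructor
  · rintro (⟨s, hs⟩ | ⟨i, _, hi⟩)
    · cases hs
      rfl
    · cases hi
  · rintro rfl
    exact Or.inl ⟨s, rfl⟩

theorem H2_P_e (j i : Fin 7) : e i ∈ setP j ↔ inc j i = true := by
  constructor
  · rintro (⟨s, hs⟩ | ⟨i, h, hi⟩)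
    · cases hs
    · cases hi
      exact h
  · intro h
    exact Or.inr ⟨i, h, rfl⟩

theorem H2_W_x (j : Fin 7) (l : Fin 3) : x l ∉ setW j := by
  rintro ⟨i, _, hi⟩
  cases hi

theorem H2_W_m (j k : Fin 7) (s : Fin 3) : m k s ∉ setW j := by
  rintro ⟨i, _, hi⟩
  cases hi

theorem H2_W_e (j i : Fin 7) : e i ∈ setW j ↔ inc j i = true := by
  constructor
  · rintro ⟨i, h, hi⟩
    cases hi
    exact h
  · intro h
    exact ⟨i, h, rfl⟩

theorem H2_Y_x (l l' : Fin 3) : x l' ∉ setY l := by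
  rintro (⟨j, s, _, hs⟩ | ⟨i, hi⟩)
  · cases hs
  · cases hi

theorem H2_Y_m (l : Fin 3) (k : Fin 7) (s : Fin 3) : m k s ∈ setY l ↔ Nn l k = 1 := by
  constructor
  · rintro (⟨j, s, h, hs⟩ | ⟨i, hi⟩)
    · cases hs
      exact h
    · cases hi
  · intro h
    exact Or.inl ⟨k, s, h, rfl⟩

theorem H2_Y_e (l : Fin 3) (i : Fin 7) : e i ∈ setY l := Or.inr ⟨i, rfl⟩

theorem H2_Mn (j i : Fin 7) (h : 0 < Mn j i) : inc j i = true := by
  unfold Mn at h
  split_ifs at h with h1
  · exact h1
  · exact absurd h (lt_irrefl 0)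

theorem H2_em (j k : Fin 7) (s s' : Fin 3) (h : 0 < TT (m j s) (m k s')) : k = j := by
  by_contra hne
  have : TT (m j s) (m k s') = 0 := by
    simp only [TT]
    rw [if_neg (Ne.symm hne)]
  rw [this] at h
  exact absurd h (lt_irrefl 0)

theorem H2_me (j i : Fin 7) (s : Fin 3) (h : 0 < TT (m j s) (e i)) : inc j i = true := by
  have h1 : TT (m j s) (e i) = if s = 2 then 0 else Mn j i := rfl
  rw [h1] at h
  split_ifs at h with h2
  · exact absurd h (lt_irrefl 0)
  · exact H2_Mn j i h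

theorem H2_ee (i i' : Fin 7) (h : 0 < TT (e i) (e i')) : i' = i := by
  have h1 : TT (e i) (e i') = if i = i' then 1 else 0 := rfl
  rw [h1] at h
  split_ifs at h with h2
  · exact h2.symm
  · exact absurd h (lt_irrefl 0)

theorem H2_mx (j : Fin 7) (s : Fin 3) (l : Fin 3) (h : 0 < TT (m j s) (x l)) : False :=
  absurd h (lt_irrefl 0)

theorem H2_ex (i : Fin 7) (l : Fin 3) (h : 0 < TT (e i) (x l)) : False :=
  absurd h (lt_irrefl 0)

theorem H2_emm (i j : Fin 7) (s : Fin 3) (h : 0 < TT (e i) (m j s)) : False :=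
  absurd h (lt_irrefl 0)

end mem

theorem her_setI : Brat.Her TT setI := by
  rintro v ⟨i, rfl⟩ w hw
  cases w with
  | x l => exact (H2_ex i l hw).elim
  | m j s => exact (H2_emm i j s hw).elim
  | e i' => exact H2_I_e i'

theorem her_setP (j : Fin 7) : Brat.Her TT (setP j) := by
  rintro v (⟨s, rfl⟩ | ⟨i, hi, rfl⟩) w hw
  · cases w with
    | x l => exact (H2_mx j s l hw).elim
    | m k s' => exact (H2_P_m j k s').2 (H2_em j k s s' hw)
    | e i => exact (H2_P_e j i).2 (H2_me j i s hw)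
  · cases w with
    | x l => exact (H2_ex i l hw).elim
    | m k s => exact (H2_emm i k s hw).elim
    | e i' =>
      rw [H2_ee i i' hw]
      exact (H2_P_e j i).2 hi

theorem her_setW (j : Fin 7) : Brat.Her TT (setW j) := by
  rintro v ⟨i, hi, rfl⟩ w hw
  cases w with
  | x l => exact (H2_ex i l hw).elim
  | m k s => exact (H2_emm i k s hw).elim
  | e i' =>
    rw [H2_ee i i' hw]
    exact (H2_W_e j i).2 hi

theorem her_setY (l : Fin 3) : Brat.Her TT (setY l) := by
  rintro v (⟨j, s, hj, rfl⟩ | ⟨i, rfl⟩) w hw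
  · cases w with
    | x l => exact (H2_mx j s l hw).elim
    | m k s' =>
      rw [H2_em j k s s' hw]
      exact (H2_Y_m l j s').2 hj
    | e i => exact H2_Y_e l i
  · cases w with
    | x l => exact (H2_ex i l hw).elim
    | m k s => exact (H2_emm i k s hw).elim
    | e i' => exact H2_Y_e l i'

theorem her_setQ (l : Fin 3) (o : Option (Fin 7)) : Brat.Her TT (setQ l o) := by
  cases o with
  | none => exact her_setI
  | some j =>
    show Brat.Her TT (if Nn l j = 1 then setP j else ∅)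
    split_ifs
    · exact her_setP j
    · intro v hv
      exact hv.elim

theorem herS_setI : Brat.Her SS setI := by
  rintro v ⟨i, rfl⟩ w hw
  exact her_setI (e i) ⟨i, rfl⟩ w hw

theorem herS_setP (j : Fin 7) : Brat.Her SS (setP j) := by
  rintro v (⟨s, rfl⟩ | ⟨i, hi, rfl⟩) w hw
  · exact her_setP j (m j s.rev) ((H2_P_m j j _).2 rfl) w hw
  · exact her_setP j (e i) ((H2_P_e j i).2 hi) w hw

theorem herS_setY (l : Fin 3) : Brat.Her SS (setY l) := by
  rintro v (⟨j, s, hj, rfl⟩ | ⟨i, rfl⟩) w hw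
  · exact her_setY l (m j s.rev) ((H2_Y_m l j _).2 hj) w hw
  · exact her_setY l (e i) (H2_Y_e l i) w hw

theorem setQ_le (l : Fin 3) (j : Fin 7) : setQ l (some j) ⊆ setP j := by
  show (if Nn l j = 1 then setP j else ∅) ⊆ setP j
  split_ifs
  · exact subset_rfl
  · exact Set.empty_subset _

theorem H2_inc_Y : ∀ (l : Fin 3) (j : Fin 7), Nn l j = 1 ∨ Nn l j = 0 := by
  decide

theorem iUnion_setQ (l : Fin 3) : (⋃ o, setQ l o) = setY l := by
  ext v
  rw [Set.mem_iUnion]
  constructor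
  · rintro ⟨o, ho⟩
    cases o with
    | none =>
      obtain ⟨i, rfl⟩ := ho
      exact H2_Y_e l i
    | some j =>
      have ho' : v ∈ (if Nn l j = 1 then setP j else ∅) := ho
      split_ifs at ho' with h1
      · rcases ho' with ⟨s, rfl⟩ | ⟨i, _, rfl⟩
        · exact (H2_Y_m l j s).2 h1
        · exact H2_Y_e l i
      · exact ho'.elim
  · rintro (⟨j, s, hj, rfl⟩ | ⟨i, rfl⟩)
    · refine ⟨some j, ?_⟩
      show m j s ∈ (if Nn l j = 1 then setP j else ∅)
      rw [if_pos hj]
      exact (H2_P_m j j s).2 rfl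
    · exact ⟨none, H2_I_e i⟩

theorem setP_inter_ne {j k : Fin 7} (h : j ≠ k) : setP j ∩ setP k ⊆ setI := by
  rintro v ⟨h1, h2⟩
  cases v with
  | x l => exact absurd h1 (H2_P_x j l)
  | m i s => exact absurd (((H2_P_m j i s).1 h1).symm.trans ((H2_P_m k i s).1 h2)) h
  | e i => exact H2_I_e i

theorem setP_inter_setI (j : Fin 7) : setP j ∩ setI = setW j := by
  ext v
  constructor
  · rintro ⟨h1, h2⟩
    obtain ⟨i, rfl⟩ := h2
    exact (H2_W_e j i).2 ((H2_P_e j i).1 h1)
  · rintro ⟨i, hi, rfl⟩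
    exact ⟨(H2_P_e j i).2 hi, H2_I_e i⟩

theorem x_notMem (l : Fin 3) : x l ∉ setY l := H2_Y_x l l

theorem TT_x (l : Fin 3) : TT (x l) (x l) = 1 ∧ ∀ w, w ≠ x l → 0 < TT (x l) w → w ∈ setY l := by
  refine ⟨?_, ?_⟩
  · show (if l = l then 1 else 0) = 1
    rw [if_pos rfl]
  · intro w hne hw
    cases w with
    | x l' =>
      have h1 : TT (x l) (x l') = if l = l' then 1 else 0 := rfl
      rw [h1] at hw
      split_ifs at hw with h2
      · rw [h2] at hne
        exact absurd rfl hne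
      · exact absurd hw (lt_irrefl 0)
    | m j s =>
      have h1 : TT (x l) (m j s) = if s = 1 then 0 else Nn l j := rfl
      rw [h1] at hw
      split_ifs at hw with h2
      · exact absurd hw (lt_irrefl 0)
      · refine (H2_Y_m l j s).2 ?_
        rcases H2_inc_Y l j with h3 | h3
        · exact h3
        · rw [h3] at hw
          exact absurd hw (lt_irrefl 0)
    | e i => exact H2_Y_e l i

theorem TT_e (i : Fin 7) : TT (e i) (e i) = 1 ∧ ∀ w, w ≠ e i → TT (e i) w = 0 := by
  refine ⟨?_, ?_⟩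
  · show (if i = i then 1 else 0) = 1
    rw [if_pos rfl]
  · intro w hne
    cases w with
    | x l => rfl
    | m j s => rfl
    | e i' =>
      have h1 : TT (e i) (e i') = if i = i' then 1 else 0 := rfl
      rw [h1, if_neg]
      rintro rfl
      exact hne rfl

end Helper19.BL
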