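import Pool.Agent.Helper19.BL.H1
import Pool.Agent.Helper19.BL.E4
import Pool.Agent.Helper59.BL.Ideal2

/-! # MODULE H3: existence of `Dat`; the `K0` computations (S2) and `p + q = 1` -/

set_option linter.unusedSectionVars false

namespace Helper19.BL

open VV

variable {A : Type} [CStarAlgebra A]

theorem H3_TT_e (i : Fin 7) : TT (e i) (e i) = 1 ∧ ∀ w, w ≠ e i → TT (e i) w = 0 := by
  constructor
  · simp [TT]
  · intro w hw
    cases w with
    | x l => rfl
    | m j s => rfl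
    | e i' =>
      simp only [TT]
      rw [if_neg]
      intro h; exact hw (by rw [h])

theorem H3_her_e (i : Fin 7) : Brat.Her TT {v | v = e i} := by
  intro v hv w hw
  change v = e i at hv
  change w = e i
  by_contra h
  rw [hv, (H3_TT_e i).2 w h] at hw
  exact lt_irrefl _ hw

theorem exists_dat (B : Brat VV TT A) (φ : A ≃⋆ₐ[ℂ] A) (hφ : ∀ a, φ (φ a) = a)
    (hα : ∀ n v, Vmap (φ : A →⋆ₐ[ℂ] A) (B.u n v) = ∑ w, SS v w • B.u (n + 1) w) :
    Nonempty (Dat A) := by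
  have key : ∀ i : Fin 7, ∃ (μ : B.P 0 (e i)) (g u : A), IsStarProjection g ∧ φ g = g ∧
      star u * u = B.e 0 (e i) μ μ ∧ u * star u = g := by
    intro i
    let μ : B.P 0 (e i) := Classical.arbitrary _
    have hp := B.e_proj 0 (e i) μ
    have hφp : IsStarProjection (φ (B.e 0 (e i) μ μ)) := pj_map (φ : A →⋆ₐ[ℂ] A) hp
    have hmin : ∀ a, ∃ c : ℂ, B.e 0 (e i) μ μ * a * B.e 0 (e i) μ μ = c • B.e 0 (e i) μ μ :=
      fun a => B.compress_sink (e i) (H3_TT_e i).1 (H3_TT_e i).2 0 μ a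
    have heq : ∃ w, star w * w = B.e 0 (e i) μ μ ∧ w * star w = φ (B.e 0 (e i) μ μ) := by
      rw [← cls1_eq_iff hp hφp, B.cls1_unit 0 (e i) μ hp]
      have h1 : cls1 (φ (B.e 0 (e i) μ μ)) hφp = Vmap (φ : A →⋆ₐ[ℂ] A) (B.u 0 (e i)) := by
        rw [← B.cls1_unit 0 (e i) μ hp]
        exact (Vmap_cls1 (φ : A →⋆ₐ[ℂ] A) hp hφp).symm
      rw [h1, hα, B.u_succ 0 (e i)]
      rfl
    obtain ⟨g, u, h1, h2, h3, h4⟩ := exists_inv_proj φ hφ hp hmin heq
    exact ⟨μ, g, u, h1, h2, h3, h4⟩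
  choose μ g u h1 h2 h3 h4 using key
  have hu : ∀ i, u i * B.e 0 (e i) (μ i) (μ i) = u i := fun i =>
    pi_mul' (B.e_proj 0 (e i) (μ i)) (h3 i)
  have hu' : ∀ i, B.e 0 (e i) (μ i) (μ i) * star (u i) = star (u i) := by
    intro i
    have := congrArg star (hu i)
    rwa [star_mul, pjs (B.e_proj 0 (e i) (μ i))] at this
  have hgJ : ∀ i, g i ∈ B.J {v | v = e i} := by
    intro i
    have e1 : g i = u i * (B.e 0 (e i) (μ i) (μ i) * star (u i)) := by rw [hu' i, h4 i]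
    have e2 : B.e 0 (e i) (μ i) (μ i) ∈ B.J {v | v = e i} :=
      B.e_mem_J 0 (show e i ∈ {v | v = e i} from rfl) _ _
    rw [e1]
    exact B.J_mul_left (H3_her_e i) (u i) (B.J_mul_right (H3_her_e i) (star (u i)) e2)
  refine ⟨{ B := B, φ := φ, hφ := hφ, hα := hα, f := g, hf := ⟨h1, ?_, ?_⟩, hinv := h2,
            hfu := fun i => ⟨μ i, u i, h3 i, h4 i⟩ }⟩
  · intro i a
    obtain ⟨c, hc⟩ := B.compress_sink (e i) (H3_TT_e i).1 (H3_TT_e i).2 0 (μ i)
      (star (u i) * a * u i)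
    refine ⟨c, ?_⟩
    have e1 : B.e 0 (e i) (μ i) (μ i) * (star (u i) * a * u i) * B.e 0 (e i) (μ i) (μ i)
        = star (u i) * a * u i := by
      calc B.e 0 (e i) (μ i) (μ i) * (star (u i) * a * u i) * B.e 0 (e i) (μ i) (μ i)
          = (B.e 0 (e i) (μ i) (μ i) * star (u i)) * a * (u i * B.e 0 (e i) (μ i) (μ i)) := by
            noncomm_ring
        _ = star (u i) * a * u i := by rw [hu', hu]
    rw [e1] at hc
    calc g i * a * g i = u i * (star (u i) * a * u i) * star (u i) := by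
          rw [← h4 i]; noncomm_ring
      _ = c • (u i * B.e 0 (e i) (μ i) (μ i) * star (u i)) := by
          rw [hc, mul_smul_comm, smul_mul_assoc]
      _ = c • g i := by rw [hu, h4]
  · intro t s hts a
    refine B.J_mul_eq_zero (H3_her_e t) (H3_her_e s) ?_ (B.J_mul_right (H3_her_e t) a (hgJ t))
      (hgJ s)
    ext v
    simp only [Set.mem_inter_iff, Set.mem_ofPred_eq, Set.mem_empty_iff_false, iff_false, not_and]
    intro ha hb
    rw [ha] at hb
    exact hts (by injection hb)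

theorem H3_u_e (B : Brat VV TT A) (i : Fin 7) (n : ℕ) : B.u 0 (e i) = B.u n (e i) := by
  induction n with
  | zero => rfl
  | succ n ih =>
    rw [ih, B.u_succ n (e i), Finset.sum_eq_single (e i)]
    · rw [(H3_TT_e i).1, one_smul]
    · intro w _ hw
      rw [(H3_TT_e i).2 w hw, zero_smul]
    · intro h; exact absurd (Finset.mem_univ _) h

theorem Dat.cls_f (D : Dat A) (i : Fin 7) (n : ℕ) :
    cls1 (D.f i) (D.hf.proj i) = D.B.u n (e i) := by
  rw [← H3_u_e D.B i n]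
  obtain ⟨μ, u, h1, h2⟩ := D.hfu i
  rw [← D.B.cls1_unit 0 (e i) μ (D.B.e_proj 0 (e i) μ), eq_comm, cls1_eq_iff]
  exact ⟨u, h1, h2⟩

theorem Dat.H3_Ue (D : Dat A) (i : Fin 7) : D.U (e i) = D.F i true + D.F i false := by
  unfold Dat.U Dat.F
  rw [← D.cls_f i 1, cls1_iota D.φ D.hφ (D.hf.proj i) (D.hinv i), map_add]

theorem Dat.S2 (D : Dat A) (l : Fin 3) :
    ∑ j, (Nn l j : ℤ) • (D.U (m j 1) - D.U (m j 0)) =
      ∑ i, (Rn l i : ℤ) • (D.F i true + D.F i false) := by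
  have h0 : ∑ w, SS (x l) w • D.U w = ∑ w, TT (x l) w • D.U w := by
    have h1 := Vmap_iota_phi D.φ D.hφ (D.B.u 0 (x l))
    rw [D.hα] at h1
    conv_rhs at h1 => rw [D.B.u_succ 0 (x l)]
    rw [map_sum, map_sum] at h1
    have h2 := congrArg (Vto (EE D.φ)) h1
    rw [map_sum, map_sum] at h2
    simp only [map_nsmul] at h2
    exact h2
  rw [H0_sum, H0_sum] at h0
  have e1 : ∀ j : Fin 7, ∑ s, SS (x l) (m j s) • D.U (m j s)
      = Nn l j • D.U (m j 1) + Nn l j • D.U (m j 2) := by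
    intro j
    rw [Fin.sum_univ_three]
    simp [SS]
  have e2 : ∀ j : Fin 7, ∑ s, TT (x l) (m j s) • D.U (m j s)
      = Nn l j • D.U (m j 0) + Nn l j • D.U (m j 2) := by
    intro j
    rw [Fin.sum_univ_three]
    simp [TT]
  have e3 : ∑ l', SS (x l) (x l') • D.U (x l') = ∑ l', TT (x l) (x l') • D.U (x l') := rfl
  have e4 : ∑ i, SS (x l) (e i) • D.U (e i) = 0 := by
    apply Finset.sum_eq_zero
    intro i _
    change 0 • D.U (e i) = 0
    exact zero_smul _ _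
  have e5 : ∑ i, TT (x l) (e i) • D.U (e i) = ∑ i, (Rn l i : ℤ) • (D.F i true + D.F i false) := by
    refine Finset.sum_congr rfl fun i _ => ?_
    rw [D.H3_Ue i, natCast_zsmul]
    rfl
  rw [e3, e4, e5, Finset.sum_congr rfl fun j _ => e1 j, Finset.sum_congr rfl fun j _ => e2 j,
    Finset.sum_add_distrib, Finset.sum_add_distrib, add_zero] at h0
  have e6 : ∑ j, (Nn l j : ℤ) • (D.U (m j 1) - D.U (m j 0))
      = ∑ j, Nn l j • D.U (m j 1) - ∑ j, Nn l j • D.U (m j 0) := by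
    rw [← Finset.sum_sub_distrib]
    refine Finset.sum_congr rfl fun j _ => ?_
    rw [natCast_zsmul, smul_sub]
  rw [e6]
  have h1 := h0
  rw [← sub_eq_zero] at h1 ⊢
  rw [← h1]
  abel

theorem Dat.H3_res_U (D : Dat A) (v : VV) :
    K0lift (res D.φ) (D.U v) = ∑ w, ((TT v w : ℤ) + (SS v w : ℤ)) • Vto A (D.B.u 2 w) := by
  unfold Dat.U
  rw [K0lift_Vto, res_iota, D.hα, map_add]
  conv_lhs => rw [D.B.u_succ 1 v]
  rw [map_sum, map_sum, ← Finset.sum_add_distrib]
  refine Finset.sum_congr rfl fun w _ => ?_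
  rw [map_nsmul, map_nsmul, add_smul, natCast_zsmul, natCast_zsmul]

theorem Dat.H3_res_F (D : Dat A) (i : Fin 7) (s : Bool) :
    K0lift (res D.φ) (D.F i s) = Vto A (D.B.u 2 (e i)) := by
  unfold Dat.F
  rw [K0lift_Vto, res_fpm D.φ D.hφ (D.hf.proj i) (D.hinv i), D.cls_f i 2]

theorem H3_sum_e {G : Type*} [AddCommGroup G] (k : Fin 7 → ℤ) (F : VV → G) :
    ∑ w, (match w with | e i => k i | _ => 0 : ℤ) • F w = ∑ i, k i • F (e i) := by
  rw [H0_sum]
  simp

theorem Dat.pq (D : Dat A) (j : Fin 7) (p q : Fin 7 → ℤ)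
    (h : D.U (m j 1) - D.U (m j 0) = ∑ i, (p i • D.F i true + q i • D.F i false)) (i : Fin 7) :
    p i + q i = Mn j i := by
  have h1 := congrArg (K0lift (res D.φ)) h
  rw [map_sub, D.H3_res_U, D.H3_res_U, map_sum, ← Finset.sum_sub_distrib] at h1
  have e1 : ∀ i, K0lift (res D.φ) (p i • D.F i true + q i • D.F i false)
      = (p i + q i) • Vto A (D.B.u 2 (e i)) := by
    intro i
    rw [map_add, map_zsmul, map_zsmul, D.H3_res_F, D.H3_res_F, add_smul]
  rw [Finset.sum_congr rfl fun i _ => e1 i] at h1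
  have e2 : ∀ w, ((TT (m j 1) w : ℤ) + (SS (m j 1) w : ℤ)) • Vto A (D.B.u 2 w) -
      ((TT (m j 0) w : ℤ) + (SS (m j 0) w : ℤ)) • Vto A (D.B.u 2 w)
      = (match w with | e i => (Mn j i : ℤ) | _ => 0 : ℤ) • Vto A (D.B.u 2 w) := by
    intro w
    rw [← sub_smul]
    congr 1
    cases w with
    | x l => simp [TT, SS]
    | m j' s' =>
      by_cases hj : j = j'
      · fin_cases s' <;> simp [TT, SS, hj, Fin.rev]
      · simp [TT, SS, hj]
    | e i' => simp [TT, SS, Fin.rev]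
  rw [Finset.sum_congr rfl fun w _ => e2 w] at h1
  have e3 : ∑ i, (p i + q i) • Vto A (D.B.u 2 (e i))
      = ∑ w, (match w with | e i => (p i + q i) | _ => 0 : ℤ) • Vto A (D.B.u 2 w) :=
    (H3_sum_e (fun i => p i + q i) (fun w => Vto A (D.B.u 2 w))).symm
  rw [e3] at h1
  obtain ⟨K, hK⟩ := D.B.K0_inj 2 _ _ h1
  have h2 := arith_e (fun i => (Mn j i : ℤ)) (fun i => p i + q i) K hK
  exact (congrFun h2 i).symm

end Helper19.BL
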