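import Pool.Agent.Helper19.BL.H3
import Pool.Agent.Helper19.BL.E6

/-! # MODULE H4: parity constraint (C') -/

set_option linter.unusedSectionVars false

namespace Helper19.BL

open VV

variable {A : Type} [CStarAlgebra A]

theorem Dat.parity (D : Dat A) (k : Fin 7 → ℤ)
    (h : ∑ i, k i • (D.F i true - D.F i false) = 0) :
    ∃ η : Fin 7 → ℤ, ∀ i, ∃ c : ℤ, k i - ∑ j, (Mn j i : ℤ) * η j = 2 * c := by
  obtain ⟨g, hg⟩ := cprime D.B D.φ D.hφ D.hf.proj D.hinv k h
  obtain ⟨n, z, -, hz⟩ := D.B.K0_gen g 0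
  have h1 : ∑ i, |k i| • Vto A (cls1 (D.f i) (D.hf.proj i))
      = ∑ w, (match w with | e i => |k i| | _ => 0 : ℤ) • Vto A (D.B.u (n + 1) w) := by
    refine Eq.trans ?_ (H3_sum_e (fun i => |k i|) (fun w => Vto A (D.B.u (n + 1) w))).symm
    refine Finset.sum_congr rfl fun i _ => ?_
    rw [D.cls_f i (n + 1)]
  have h2 : g = ∑ w, (∑ v, z v * (TT v w : ℤ)) • Vto A (D.B.u (n + 1) w) := by
    rw [hz]
    simp only [Finset.sum_smul]
    rw [Finset.sum_comm]
    refine Finset.sum_congr rfl fun v _ => ?_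
    conv_lhs => rw [D.B.u_succ n v, map_sum, Finset.smul_sum]
    refine Finset.sum_congr rfl fun w _ => ?_
    rw [map_nsmul, ← natCast_zsmul, smul_smul]
  have h3 : K0map (D.φ : A →⋆ₐ[ℂ] A) g
      = ∑ w, (∑ v, z v * (SS v w : ℤ)) • Vto A (D.B.u (n + 1) w) := by
    rw [hz, map_sum]
    simp only [Finset.sum_smul]
    rw [Finset.sum_comm]
    refine Finset.sum_congr rfl fun v _ => ?_
    rw [map_zsmul, K0map_Vto, D.hα, map_sum, Finset.smul_sum]
    refine Finset.sum_congr rfl fun w _ => ?_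
    rw [map_nsmul, ← natCast_zsmul, smul_smul]
  have h4 : ∑ w, (match w with | e i => |k i| | _ => 0 : ℤ) • Vto A (D.B.u (n + 1) w)
      = ∑ w, (∑ v, z v * ((TT v w : ℤ) + (SS v w : ℤ))) • Vto A (D.B.u (n + 1) w) := by
    rw [← h1, hg, h3, ← sub_eq_zero]
    rw [h2] 
    rw [← Finset.sum_add_distrib, ← Finset.sum_sub_distrib]
    apply Finset.sum_eq_zero
    intro w _
    rw [← add_smul, ← sub_smul, ← Finset.sum_add_distrib, ← Finset.sum_sub_distrib]
    rw [Finset.sum_eq_zero, zero_smul]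
    intro v _
    ring
  obtain ⟨K, hK⟩ := D.B.K0_inj (n + 1) _ _ h4
  obtain ⟨η, hη⟩ := arith_C (fun i => |k i|) z K hK
  refine ⟨η, fun i => ?_⟩
  obtain ⟨c, hc⟩ := hη i
  change |k i| - ∑ j, (Mn j i : ℤ) * η j = 2 * c at hc
  rcases abs_choice (k i) with h5 | h5
  · exact ⟨c, by rw [← hc, h5]⟩
  · exact ⟨c + k i, by rw [h5] at hc; linarith⟩

end Helper19.BL
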