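import Pool.Agent.Helper19.BL.H2
import Pool.Agent.Helper19.BL.H3
import Pool.Agent.Helper19.BL.G6

/-! # MODULE H5: the partial isometry `T'` (existence)

Slots `K = Option (Fin 7 ⊕ Fin 7)`.  `p0 = e 0 (x l)`, `β j = e 1 (m j 1)`, `β' j = e 1 (m j 0)` (arbitrary diagonal units).
(1) In `MM K A` let `X = diag (p0; β_j if N = 1; 0)`, `Y = diag (φ p0; β'_j if N = 1; f_i if R = 1)`.  `clsM X = clsM Y` (`clsM_diag`, sum over `Option (Fin 7 ⊕ Fin 7)`):
`[p0] = u 0 (x l) = ∑ TT (x l) w • u 1 w`, `[φ p0] = ∑ SS (x l) w • u 1 w`, `[β j] = u 1 (m j 1)`, `[β' j] = u 1 (m j 0)`, `[f i] = u 1 (e i)` (`cls_f`);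
both sides are `u 1 (x l) + ∑_j N (u 1 (m j 0) + u 1 (m j 1) + u 1 (m j 2)) + ∑_i R u 1 (e i)`.  So there is `s ∈ MM K A` with `s* s = X`, `s s* = Y` (`clsM_eq_iff`).
(2) `T0 := diag (z at none, 1 elsewhere) * MM.map ι s`.  `T0* T0 = MM.map ι X = diag dP`, `T0 T0* = diag dQ` (`z ι(φ p0) z = ι p0`: `zed_iota`, `zed_mul_zed`, `hφ`).
(3) `𝒴 := MJ K (EJ φ (B.J (setY l)))` is `IsCI` (`IsCI.MJ`, `IsCI.EJ`, `Brat.J_isCI`, `Brat.map_mem_J'` with `SS`, `herS_setY`).  `t0 := single none none (z * ι (s none none))`;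
`T0 - t0 ∈ 𝒴`: for `b ≠ none`, `s a b = s a b * X b b` with `X b b ∈ J (setY l)` (`e_mem_J`); for `a ≠ none`, `s a b = Y a a * s a b` (`pi_mul'`, `pi_swap` entrywise).
(4) `t0 * t0 = single none none (ι (φ s00 * s00))`, `s00 = φ p0 * s00 * p0`, so `φ s00 * s00 ∈ p0 A p0 ⊂ ℂ p0 + J (setY l)` (`Brat.compress`, `TT_x`).
(5) `P0 = single none none (ι p0) ∉ 𝒴` (`Brat.e_mem_J_iff` with `TT_diag`, `x_notMem`).
(6) `correct_pi`. -/

set_option linter.unusedSectionVars false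

namespace Helper19.BL

open VV

variable {A : Type} [CStarAlgebra A]

/-- slots -/
abbrev Slot : Type := Option (Fin 7 ⊕ Fin 7)

/-- an arbitrary diagonal matrix unit of vertex `v` at level `n` -/
noncomputable def Brat.un1 {V0 : Type} [Fintype V0] [DecidableEq V0] {T : V0 → V0 → ℕ}
    {A : Type*} [CStarAlgebra A] (B : Brat V0 T A) (n : ℕ) (v : V0) : A :=
  B.e n v (Classical.arbitrary _) (Classical.arbitrary _)

namespace Dat

variable (D : Dat A)

/-- initial diagonal -/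
noncomputable def dP (l : Fin 3) : Slot → EE D.φ
  | none => iota D.φ D.hφ (D.B.un1 0 (x l))
  | some (Sum.inl j) => if Nn l j = 1 then iota D.φ D.hφ (D.B.un1 1 (m j 1)) else 0
  | some (Sum.inr _) => 0

/-- final diagonal -/
noncomputable def dQ (l : Fin 3) : Slot → EE D.φ
  | none => iota D.φ D.hφ (D.B.un1 0 (x l))
  | some (Sum.inl j) => if Nn l j = 1 then iota D.φ D.hφ (D.B.un1 1 (m j 0)) else 0
  | some (Sum.inr i) => if Rn l i = 1 then iota D.φ D.hφ (D.f i) else 0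

/-- initial diagonal in `A` -/
noncomputable def H5_X (l : Fin 3) : Slot → A
  | none => D.B.un1 0 (x l)
  | some (Sum.inl j) => if Nn l j = 1 then D.B.un1 1 (m j 1) else 0
  | some (Sum.inr _) => 0

/-- final diagonal in `A` -/
noncomputable def H5_Y (l : Fin 3) : Slot → A
  | none => D.φ (D.B.un1 0 (x l))
  | some (Sum.inl j) => if Nn l j = 1 then D.B.un1 1 (m j 0) else 0
  | some (Sum.inr i) => if Rn l i = 1 then D.f i else 0

theorem H5_un1 (n : ℕ) (v : VV) : IsStarProjection (D.B.un1 n v) := D.B.e_proj n v _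

theorem H5_phi {p : A} (hp : IsStarProjection p) : IsStarProjection (D.φ p) :=
  pj_mk (by rw [← map_mul, pjm hp]) (by rw [← map_star, pjs hp])

theorem H5_X_pj (l : Fin 3) (o : Slot) : IsStarProjection (D.H5_X l o) := by
  rcases o with _ | j | i
  · exact D.H5_un1 _ _
  · show IsStarProjection (if Nn l j = 1 then D.B.un1 1 (m j 1) else 0)
    split_ifs
    · exact D.H5_un1 _ _
    · exact pj_zero
  · exact pj_zero

theorem H5_Y_pj (l : Fin 3) (o : Slot) : IsStarProjection (D.H5_Y l o) := by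
  rcases o with _ | j | i
  · exact D.H5_phi (D.H5_un1 _ _)
  · show IsStarProjection (if Nn l j = 1 then D.B.un1 1 (m j 0) else 0)
    split_ifs
    · exact D.H5_un1 _ _
    · exact pj_zero
  · show IsStarProjection (if Rn l i = 1 then D.f i else 0)
    split_ifs
    · exact D.hf.proj i
    · exact pj_zero

theorem H5_Nn (l : Fin 3) (j : Fin 7) : Nn l j = 1 ∨ Nn l j = 0 := H2_inc_Y l j

theorem H5_Rn : ∀ (l : Fin 3) (i : Fin 7), Rn l i = 1 ∨ Rn l i = 0 := by decide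

theorem H5_cls_ite {n : ℕ} (hn : n = 1 ∨ n = 0) {p : A} (hp : IsStarProjection p)
    (h : IsStarProjection (if n = 1 then p else 0)) :
    cls1 (if n = 1 then p else 0) h = n • cls1 p hp := by
  rcases hn with rfl | rfl
  · rw [one_smul]; exact cls1_congr _ _ (if_pos rfl)
  · rw [zero_smul, ← cls1_zero]; exact cls1_congr _ _ (if_neg (by decide))

theorem H5_cls_X (l : Fin 3) : ∑ o, cls1 (D.H5_X l o) (D.H5_X_pj l o) =
    D.B.u 0 (x l) + ∑ j, Nn l j • D.B.u 1 (m j 1) := by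
  rw [Fintype.sum_option, Fintype.sum_sum_type]
  have h1 : ∀ i : Fin 7, cls1 (D.H5_X l (some (Sum.inr i))) (D.H5_X_pj l _) = 0 :=
    fun i => cls1_zero
  have h2 : ∀ j : Fin 7, cls1 (D.H5_X l (some (Sum.inl j))) (D.H5_X_pj l _) =
      Nn l j • D.B.u 1 (m j 1) :=
    fun j => H5_cls_ite (H5_Nn l j) (D.H5_un1 1 (m j 1)) _
  simp only [h1, h2, Finset.sum_const_zero, add_zero]
  rfl

theorem H5_cls_Y (l : Fin 3) : ∑ o, cls1 (D.H5_Y l o) (D.H5_Y_pj l o) =
    ∑ w, SS (x l) w • D.B.u 1 w + (∑ j, Nn l j • D.B.u 1 (m j 0) +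
      ∑ i, Rn l i • D.B.u 1 (e i)) := by
  rw [Fintype.sum_option, Fintype.sum_sum_type]
  have h1 : ∀ i : Fin 7, cls1 (D.H5_Y l (some (Sum.inr i))) (D.H5_Y_pj l _) =
      Rn l i • D.B.u 1 (e i) := fun i => by
    rw [← D.cls_f i 1]
    exact H5_cls_ite (H5_Rn l i) (D.hf.proj i) _
  have h2 : ∀ j : Fin 7, cls1 (D.H5_Y l (some (Sum.inl j))) (D.H5_Y_pj l _) =
      Nn l j • D.B.u 1 (m j 0) :=
    fun j => H5_cls_ite (H5_Nn l j) (D.H5_un1 1 (m j 0)) _
  have h3 : cls1 (D.H5_Y l none) (D.H5_Y_pj l none) = ∑ w, SS (x l) w • D.B.u 1 w := by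
    rw [← D.hα 0 (x l)]
    exact (Vmap_cls1 (D.φ : A →⋆ₐ[ℂ] A) (D.H5_un1 0 (x l)) _).symm
  simp only [h1, h2, h3]

theorem H5_cls (l : Fin 3) : ∑ o, cls1 (D.H5_X l o) (D.H5_X_pj l o) =
    ∑ o, cls1 (D.H5_Y l o) (D.H5_Y_pj l o) := by
  rw [D.H5_cls_X, D.H5_cls_Y, D.B.u_succ 0 (x l), H0_sum, H0_sum]
  have hT : ∀ j : Fin 7, ∑ s, TT (x l) (m j s) • D.B.u (0 + 1) (m j s) =
      Nn l j • D.B.u 1 (m j 0) + Nn l j • D.B.u 1 (m j 2) := by
    intro j
    rw [Fin.sum_univ_three]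
    show Nn l j • D.B.u 1 (m j 0) + 0 • D.B.u 1 (m j 1) + Nn l j • D.B.u 1 (m j 2) = _
    rw [zero_smul, add_zero]
  have hS : ∀ j : Fin 7, ∑ s, SS (x l) (m j s) • D.B.u 1 (m j s) =
      Nn l j • D.B.u 1 (m j 1) + Nn l j • D.B.u 1 (m j 2) := by
    intro j
    rw [Fin.sum_univ_three]
    show 0 • D.B.u 1 (m j 0) + Nn l j • D.B.u 1 (m j 1) + Nn l j • D.B.u 1 (m j 2) = _
    rw [zero_smul, zero_add]
  have hSe : ∀ i : Fin 7, SS (x l) (e i) • D.B.u 1 (e i) = 0 := fun i => zero_smul ℕ _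
  have hTe : ∀ i : Fin 7, TT (x l) (e i) • D.B.u (0 + 1) (e i) = Rn l i • D.B.u 1 (e i) :=
    fun i => rfl
  have hxx : ∀ l' : Fin 3, TT (x l) (x l') • D.B.u (0 + 1) (x l') =
      SS (x l) (x l') • D.B.u 1 (x l') := fun l' => rfl
  simp only [hT, hS, hSe, hTe, hxx, Finset.sum_const_zero, Finset.sum_add_distrib, add_zero]
  abel

/-- the partial isometry in `MM Slot A` -/
theorem H5_s (l : Fin 3) : ∃ s : MM Slot A,
    star s * s = MM.diag (D.H5_X l) ∧ s * star s = MM.diag (D.H5_Y l) := by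
  refine (clsM_eq_iff (pj_diag (D.H5_X_pj l)) (pj_diag (D.H5_Y_pj l))).1 ?_
  rw [clsM_diag (D.H5_X_pj l), clsM_diag (D.H5_Y_pj l)]
  exact D.H5_cls l

theorem H5_dP (l : Fin 3) : MM.map (iota D.φ D.hφ) (MM.diag (D.H5_X l)) = MM.diag (D.dP l) := by
  rw [MM.map_diag]
  congr 1
  funext o
  rcases o with _ | j | i
  · rfl
  · show iota D.φ D.hφ (if Nn l j = 1 then D.B.un1 1 (m j 1) else 0) =
      if Nn l j = 1 then iota D.φ D.hφ (D.B.un1 1 (m j 1)) else 0
    split_ifs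
    · rfl
    · exact map_zero _
  · exact map_zero (iota D.φ D.hφ)

/-- the diagonal symmetry `(z, 1, 1, ...)` -/
noncomputable def H5_zz : Slot → EE D.φ
  | none => zed D.φ D.hφ
  | some _ => 1

theorem H5_zz_star : star (MM.diag D.H5_zz) = MM.diag D.H5_zz := by
  rw [MM.star_diag]
  congr 1
  funext o
  rcases o with _ | o
  · exact star_zed D.φ D.hφ
  · exact star_one _

theorem H5_zz_sq : MM.diag D.H5_zz * MM.diag D.H5_zz = 1 := by
  rw [MM.diag_mul]
  apply MM.mat_injective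
  rw [MM.diag_mat, MM.mat_one, ← Matrix.diagonal_one]
  congr 1
  funext o
  rcases o with _ | o
  · exact zed_mul_zed D.φ D.hφ
  · exact one_mul _

theorem H5_dQ (l : Fin 3) : MM.diag D.H5_zz * MM.map (iota D.φ D.hφ) (MM.diag (D.H5_Y l)) *
    MM.diag D.H5_zz = MM.diag (D.dQ l) := by
  rw [MM.map_diag, MM.diag_mul, MM.diag_mul]
  congr 1
  funext o
  rcases o with _ | j | i
  · show zed D.φ D.hφ * iota D.φ D.hφ (D.φ (D.B.un1 0 (x l))) * zed D.φ D.hφ =
      iota D.φ D.hφ (D.B.un1 0 (x l))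
    rw [zed_iota, mul_assoc, zed_mul_zed, mul_one, D.hφ]
  · show 1 * iota D.φ D.hφ (if Nn l j = 1 then D.B.un1 1 (m j 0) else 0) * 1 =
      if Nn l j = 1 then iota D.φ D.hφ (D.B.un1 1 (m j 0)) else 0
    rw [one_mul, mul_one]
    split_ifs
    · rfl
    · exact map_zero _
  · show 1 * iota D.φ D.hφ (if Rn l i = 1 then D.f i else 0) * 1 =
      if Rn l i = 1 then iota D.φ D.hφ (D.f i) else 0
    rw [one_mul, mul_one]
    split_ifs
    · rfl
    · exact map_zero _

theorem H5_phi_J (l : Fin 3) : ∀ a ∈ D.B.J (setY l), D.φ a ∈ D.B.J (setY l) := fun _ ha =>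
  D.B.map_mem_J' (her_setY l) SS (herS_setY l) (D.φ : A →⋆ₐ[ℂ] A) D.hα ha

theorem H5_IsCI_E (l : Fin 3) : IsCI (EJ D.φ (D.B.J (setY l))) :=
  (D.B.J_isCI (her_setY l)).EJ D.φ (D.H5_phi_J l)

theorem H5_iota_mem {l : Fin 3} {a : A} (ha : a ∈ D.B.J (setY l)) :
    iota D.φ D.hφ a ∈ EJ D.φ (D.B.J (setY l)) :=
  ⟨ha, by rw [eb_iota]; exact Submodule.zero_mem _⟩

theorem H5_X_mem (l : Fin 3) (o : Fin 7 ⊕ Fin 7) : D.H5_X l (some o) ∈ D.B.J (setY l) := by
  rcases o with j | i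
  · show (if Nn l j = 1 then D.B.un1 1 (m j 1) else 0) ∈ D.B.J (setY l)
    split_ifs with h
    · exact D.B.e_mem_J 1 ((H2_Y_m l j 1).2 h) _ _
    · exact Submodule.zero_mem _
  · exact Submodule.zero_mem _

theorem H5_f_mem (l : Fin 3) (i : Fin 7) : D.f i ∈ D.B.J (setY l) := by
  obtain ⟨μ, u, h1, h2⟩ := D.hfu i
  have h3 : D.f i = u * D.B.e 0 (e i) μ μ * star u := by
    rw [← h1]
    calc D.f i = D.f i * D.f i := (pjm (D.hf.proj i)).symm
      _ = (u * star u) * (u * star u) := by rw [h2]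
      _ = u * (star u * u) * star u := by noncomm_ring
  rw [h3]
  exact (D.B.J_isCI (her_setY l)).mul_right _
    ((D.B.J_isCI (her_setY l)).mul_left _ (D.B.e_mem_J 0 (H2_Y_e l i) _ _))

theorem H5_Y_mem (l : Fin 3) (o : Fin 7 ⊕ Fin 7) : D.H5_Y l (some o) ∈ D.B.J (setY l) := by
  rcases o with j | i
  · show (if Nn l j = 1 then D.B.un1 1 (m j 0) else 0) ∈ D.B.J (setY l)
    split_ifs with h
    · exact D.B.e_mem_J 1 ((H2_Y_m l j 0).2 h) _ _
    · exact Submodule.zero_mem _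
  · show (if Rn l i = 1 then D.f i else 0) ∈ D.B.J (setY l)
    split_ifs with h
    · exact D.H5_f_mem l i
    · exact Submodule.zero_mem _

/-- a diagonal matrix minus its `none` entry -/
theorem H5_diag_sub {R : Type*} [CStarAlgebra R] {I : Submodule ℂ R} (d : Slot → R)
    (hd : ∀ o, d (some o) ∈ I) :
    MM.diag d - MM.single none none (d none) ∈ MJ Slot I := by
  intro a b
  rw [MM.mat_sub, MM.diag_mat, MM.single, MM.mat_of, Matrix.sub_apply, Matrix.diagonal_apply,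
    Matrix.single_apply]
  rcases a with _ | a
  · rcases b with _ | b
    · simp
    · simp
  · rcases b with _ | b
    · simp
    · by_cases h : some a = some b
      · rw [if_pos h, if_neg (by simp), sub_zero]
        exact hd a
      · rw [if_neg h, if_neg (by simp), sub_zero]
        exact I.zero_mem

theorem exists_T (l : Fin 3) : ∃ T : MM Slot (EE D.φ),
    star T * T = MM.diag (D.dP l) ∧ T * star T = MM.diag (D.dQ l) ∧
      T - MM.single none none (iota D.φ D.hφ (D.B.un1 0 (x l))) ∈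
        MJ Slot (EJ D.φ (D.B.J (setY l))) := by
  obtain ⟨s, hs1, hs2⟩ := D.H5_s l
  have hsX : s * MM.diag (D.H5_X l) = s := pi_mul' (pj_diag (D.H5_X_pj l)) hs1
  have hYs : MM.diag (D.H5_Y l) * s = s := pi_swap (pj_diag (D.H5_Y_pj l)) hs2
  have hsX' : ∀ a b, s.mat a b * D.H5_X l b = s.mat a b := by
    intro a b
    have := congrFun (congrFun (congrArg MM.mat hsX) a) b
    rwa [MM.mat_mul, MM.diag_mat, Matrix.mul_diagonal] at this
  have hYs' : ∀ a b, D.H5_Y l a * s.mat a b = s.mat a b := by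
    intro a b
    have := congrFun (congrFun (congrArg MM.mat hYs) a) b
    rwa [MM.mat_mul, MM.diag_mat, Matrix.diagonal_mul] at this
  have hCA := D.B.J_isCI (her_setY l)
  have hCE := D.H5_IsCI_E l
  set p0 : A := D.B.un1 0 (x l) with hp0
  have hpj0 : IsStarProjection p0 := D.H5_un1 0 (x l)
  set a0 : A := s.mat none none with ha0
  have ha1 : a0 * p0 = a0 := hsX' none none
  have ha2 : D.φ p0 * a0 = a0 := hYs' none none
  have hιpj : ∀ {p : A}, IsStarProjection p → IsStarProjection (iota D.φ D.hφ p) :=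
    fun hp => pj_map (iota D.φ D.hφ) hp
  have hdP : IsStarProjection (MM.diag (D.dP l)) := by
    rw [← D.H5_dP l]
    exact pj_map (MM.map (iota D.φ D.hφ)) (pj_diag (D.H5_X_pj l))
  -- the first candidate
  set T0 : MM Slot (EE D.φ) := MM.diag D.H5_zz * MM.map (iota D.φ D.hφ) s with hT0
  have hT1 : star T0 * T0 = MM.diag (D.dP l) := by
    rw [hT0, star_mul, D.H5_zz_star, ← D.H5_dP l, ← hs1, map_mul, map_star]
    calc star (MM.map (iota D.φ D.hφ) s) * MM.diag D.H5_zz *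
          (MM.diag D.H5_zz * MM.map (iota D.φ D.hφ) s) =
        star (MM.map (iota D.φ D.hφ) s) * (MM.diag D.H5_zz * MM.diag D.H5_zz) *
          MM.map (iota D.φ D.hφ) s := by noncomm_ring
      _ = star (MM.map (iota D.φ D.hφ) s) * MM.map (iota D.φ D.hφ) s := by
        rw [D.H5_zz_sq, mul_one]
  have hT2 : T0 * star T0 = MM.diag (D.dQ l) := by
    rw [← D.H5_dQ l, ← hs2, hT0, star_mul, D.H5_zz_star, map_mul, map_star]
    noncomm_ring
  have hdQ : IsStarProjection (MM.diag (D.dQ l)) := by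
    rw [← hT2]
    exact pi_range (by rw [hT1]; exact hdP)
  have hP0 : IsStarProjection (MM.single none none (iota D.φ D.hφ p0) : MM Slot (EE D.φ)) :=
    pj_single none (hιpj hpj0)
  obtain ⟨c, hc⟩ := D.B.compress (her_setY l) (x l) (TT_x l).1 (TT_x l).2 0
    (Classical.arbitrary _) (D.φ a0 * a0)
  refine correct_pi (MJ Slot (EJ D.φ (D.B.J (setY l)))) hCE.MJ
    (P0 := MM.single none none (iota D.φ D.hφ p0)) (P := MM.diag (D.dP l))
    (Q := MM.diag (D.dQ l)) (T := T0)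
    (t0 := MM.single none none (zed D.φ D.hφ * iota D.φ D.hφ a0)) hP0 hdP hdQ ?_ hT1 hT2
    ?_ ?_ ?_ ?_ (c := c) ?_ ?_
  · -- P * P0 = P0
    apply MM.ext'
    intro a b
    rw [MM.mat_mul, MM.diag_mat, Matrix.diagonal_mul, MM.single, MM.mat_of, Matrix.single_apply]
    split_ifs with h
    · rw [← h.1]
      exact pjm (hιpj hpj0)
    · exact mul_zero _
  · refine H5_diag_sub (D.dP l) ?_
    rintro (j | i)
    · show (if Nn l j = 1 then iota D.φ D.hφ (D.B.un1 1 (m j 1)) else 0) ∈ _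
      split_ifs with h
      · exact D.H5_iota_mem (D.B.e_mem_J 1 ((H2_Y_m l j 1).2 h) _ _)
      · exact Submodule.zero_mem _
    · exact Submodule.zero_mem _
  · refine H5_diag_sub (D.dQ l) ?_
    rintro (j | i)
    · show (if Nn l j = 1 then iota D.φ D.hφ (D.B.un1 1 (m j 0)) else 0) ∈ _
      split_ifs with h
      · exact D.H5_iota_mem (D.B.e_mem_J 1 ((H2_Y_m l j 0).2 h) _ _)
      · exact Submodule.zero_mem _
    · show (if Rn l i = 1 then iota D.φ D.hφ (D.f i) else 0) ∈ _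
      split_ifs with h
      · exact D.H5_iota_mem (D.H5_f_mem l i)
      · exact Submodule.zero_mem _
  · -- P0 * t0 * P0 = t0
    rw [MM.single_mul_single, MM.single_mul_single]
    congr 1
    have e1 : iota D.φ D.hφ p0 * zed D.φ D.hφ = zed D.φ D.hφ * iota D.φ D.hφ (D.φ p0) := by
      rw [zed_iota, D.hφ]
    calc iota D.φ D.hφ p0 * (zed D.φ D.hφ * iota D.φ D.hφ a0) * iota D.φ D.hφ p0 =
        (iota D.φ D.hφ p0 * zed D.φ D.hφ) * iota D.φ D.hφ a0 * iota D.φ D.hφ p0 := by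
          noncomm_ring
      _ = zed D.φ D.hφ * iota D.φ D.hφ (D.φ p0 * a0 * p0) := by
          rw [e1, map_mul, map_mul]; noncomm_ring
      _ = _ := by rw [ha2, ha1]
  · -- T0 - t0
    intro a b
    have hent : T0.mat a b = D.H5_zz a * iota D.φ D.hφ (s.mat a b) := by
      rw [hT0, MM.mat_mul, MM.diag_mat, Matrix.diagonal_mul, MM.map_apply]
    rw [MM.mat_sub, Matrix.sub_apply, hent, MM.single, MM.mat_of, Matrix.single_apply]
    rcases a with _ | a
    · rcases b with _ | b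
      · rw [if_pos ⟨rfl, rfl⟩]
        show zed D.φ D.hφ * iota D.φ D.hφ (s.mat none none) - _ ∈ _
        rw [← ha0, sub_self]
        exact Submodule.zero_mem _
      · rw [if_neg (by simp), sub_zero, ← hsX' none (some b)]
        exact hCE.mul_left _ (D.H5_iota_mem (hCA.mul_left _ (D.H5_X_mem l b)))
    · rw [if_neg (by simp), sub_zero, ← hYs' (some a) b]
      exact hCE.mul_left _ (D.H5_iota_mem (hCA.mul_right _ (D.H5_Y_mem l a)))
  · -- t0 * t0 - c P0
    have hc' : p0 * (D.φ a0 * a0) * p0 - c • p0 ∈ D.B.J (setY l) := hc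
    have e1 : p0 * D.φ a0 = D.φ a0 := by
      have := congrArg D.φ ha2
      rwa [map_mul, D.hφ] at this
    have e2 : p0 * (D.φ a0 * a0) * p0 = D.φ a0 * a0 := by
      rw [← mul_assoc, e1, mul_assoc, ha1]
    rw [e2] at hc'
    have e3 : zed D.φ D.hφ * iota D.φ D.hφ a0 * (zed D.φ D.hφ * iota D.φ D.hφ a0) =
        iota D.φ D.hφ (D.φ a0 * a0) := by
      calc zed D.φ D.hφ * iota D.φ D.hφ a0 * (zed D.φ D.hφ * iota D.φ D.hφ a0) =
          iota D.φ D.hφ (D.φ a0) * zed D.φ D.hφ * (zed D.φ D.hφ * iota D.φ D.hφ a0) := by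
            rw [← zed_iota]
        _ = iota D.φ D.hφ (D.φ a0) * (zed D.φ D.hφ * zed D.φ D.hφ) * iota D.φ D.hφ a0 := by
            noncomm_ring
        _ = _ := by rw [zed_mul_zed, mul_one, map_mul]
    rw [MM.single_mul_single, e3, ← E2_single_smul, ← map_smul]
    have e4 : (MM.single none none (iota D.φ D.hφ (D.φ a0 * a0)) : MM Slot (EE D.φ)) -
        MM.single none none (iota D.φ D.hφ (c • p0)) =
        MM.single none none (iota D.φ D.hφ (D.φ a0 * a0 - c • p0)) := by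
      rw [map_sub, sub_eq_iff_eq_add, ← E2_single_add, sub_add_cancel]
    rw [e4]
    intro a b
    rw [MM.single, MM.mat_of, Matrix.single_apply]
    split_ifs
    · exact D.H5_iota_mem hc'
    · exact Submodule.zero_mem _
  · -- P0 not in the ideal
    intro h
    have h1 := h none none
    rw [MM.single, MM.mat_of, Matrix.single_apply, if_pos ⟨rfl, rfl⟩] at h1
    have h2 : p0 ∈ D.B.J (setY l) := h1.1
    exact x_notMem l ((D.B.e_mem_J_iff TT_diag (her_setY l) 0 (x l) _).1 h2)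

end Dat

end Helper19.BL
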