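import Pool.Agent.Helper19.BL.H5
import Pool.Agent.Helper19.BL.G5
import Pool.Agent.Helper19.BL.G4

/-! # MODULE H6: the relation (S4)

`T` from `exists_T`.  `T - P0 ∈ MJ (EJ (J (setY l)))`, `setY l = ⋃ o, setQ l o` (`iUnion_setQ`); `Brat.J_iUnion`, `MJ_EJ_sum` (index `Option (Fin 7)`) give
`T - P0 = ∑_o F o`, `F o ∈ MJ (EJ (J (setQ l o)))`; `y j := F (some j)` (in `MJ (EJ (J (setP j)))` by `setQ_le`), `ye := F none`.
`split_pi` with `PJ j := MJ Slot (EJ φ (B.J (setP j)))`, `I := MJ Slot (EJ φ (B.J setI))`, `P0 := single none none (ι p0)`, `P j := single (some (inl j)) (some (inl j)) (dP l (some (inl j)))`,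
`Q j` the same with `dQ`, `Qe := ∑_i single (some (inr i)) (some (inr i)) (dQ l (some (inr i)))` (`MM.diag_eq_sum`, sums over `Option (Fin 7 ⊕ Fin 7)`);
`hprod`: `MJ_EJ_mul` with `Brat.J_mul`, `setP_inter_ne`, `Brat.J_mono`; invariance `Brat.map_mem_J'`, `herS_setP`, `herS_setI`.
The result `x` satisfies `P0 + P_j - x* x ∈ PJ j ⊓ I = MJ (EJ (J (setP j) ⊓ J setI)) = MJ (EJ (J (setW j)))` (`MJ_EJ_inf`, `Brat.J_inf`, `setP_inter_setI`)
`≤ MJ (EJ (Kid f'))`, `f' : {i // inc j i = true} → A`, `f' i = f i` (`Brat.J_le_Kid`, `TT_e`, `hfu`) `≤ Kid (single none none ∘ fpm)` (`MJ_EJ_le_Kid`).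
`fredholm` in `R = MM Slot (EE φ)` (`MinFam.single`, `MinFam.fpm`, `MinFam.restrict`) gives integers `c_{(i,s)}`; apply `K0lift (flat Slot (EE φ))`
(`flat_cls1`, `clsM_add`, `clsM_single`): `[P0 + P_j] - [P0 + Q_j] = U (m j 1) - U (m j 0)`, right side `∑ c_{(i,s)} F i s`.
`p i := if h : inc j i then c (⟨i,h⟩, true) else 0`, `q i` with `false`. -/

set_option linter.unusedSectionVars false

namespace Helper19.BL

open VV

variable {A : Type} [CStarAlgebra A]

theorem H6_single_mem {κ : Type*} [Fintype κ] [DecidableEq κ] {R : Type*} [CStarAlgebra R]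
    {I : Submodule ℂ R} (i j : κ) {a : R} (ha : a ∈ I) : (MM.single i j a : MM κ R) ∈ MJ κ I := by
  intro k l
  simp only [MM.single, MM.mat_of, Matrix.single_apply]
  split_ifs
  · exact ha
  · exact I.zero_mem

theorem H6_single_zero {κ : Type*} [Fintype κ] [DecidableEq κ] {R : Type*} [CStarAlgebra R]
    (i j : κ) : (MM.single i j 0 : MM κ R) = 0 := by
  apply MM.mat_injective
  simp [MM.single]

theorem H6_iota_mem (φ : A ≃⋆ₐ[ℂ] A) (hφ : ∀ a, φ (φ a) = a) {I : Submodule ℂ A} {a : A}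
    (ha : a ∈ I) : iota φ hφ a ∈ EJ φ I := by
  refine ⟨?_, ?_⟩
  · rw [ea_iota]
    exact ha
  · rw [eb_iota]
    exact I.zero_mem

namespace Dat

variable (D : Dat A)

theorem H6_un1_proj (n : ℕ) (v : VV) : IsStarProjection (D.B.un1 n v) := D.B.e_proj n v _

theorem H6_un1_mem (n : ℕ) {W : Set VV} {v : VV} (hv : v ∈ W) : D.B.un1 n v ∈ D.B.J W :=
  D.B.e_mem_J n hv _ _

theorem H6_cls (n : ℕ) (v : VV) (h : IsStarProjection (iota D.φ D.hφ (D.B.un1 n v))) :
    cls1 (iota D.φ D.hφ (D.B.un1 n v)) h = Vmap (iota D.φ D.hφ) (D.B.u n v) :=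
  (Vmap_cls1 (iota D.φ D.hφ) (D.H6_un1_proj n v) h).symm

theorem H6_f_mem (i : Fin 7) {W : Set VV} (hW : Brat.Her TT W) (h : e i ∈ W) : D.f i ∈ D.B.J W := by
  obtain ⟨μ, u, h1, h2⟩ := D.hfu i
  have h3 : IsStarProjection (star u * u) := by
    rw [h1]
    exact D.B.e_proj 0 (e i) μ
  have h4 : D.f i = u * (star u * u) * star u := by
    rw [pi_mul h3, h2]
  rw [h4, h1]
  exact (D.B.J_isCI hW).mul_right _ ((D.B.J_isCI hW).mul_left _ (D.B.e_mem_J 0 h μ μ))

theorem H6_dP_proj (l : Fin 3) (o : Slot) : IsStarProjection (D.dP l o) := by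
  rcases o with _ | (j | i)
  · exact pj_map _ (D.H6_un1_proj _ _)
  · show IsStarProjection (if Nn l j = 1 then iota D.φ D.hφ (D.B.un1 1 (m j 1)) else 0)
    split_ifs
    · exact pj_map _ (D.H6_un1_proj _ _)
    · exact pj_zero
  · exact pj_zero

theorem H6_dQ_proj (l : Fin 3) (o : Slot) : IsStarProjection (D.dQ l o) := by
  rcases o with _ | (j | i)
  · exact pj_map _ (D.H6_un1_proj _ _)
  · show IsStarProjection (if Nn l j = 1 then iota D.φ D.hφ (D.B.un1 1 (m j 0)) else 0)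
    split_ifs
    · exact pj_map _ (D.H6_un1_proj _ _)
    · exact pj_zero
  · show IsStarProjection (if Rn l i = 1 then iota D.φ D.hφ (D.f i) else 0)
    split_ifs
    · exact pj_map _ (D.hf.proj i)
    · exact pj_zero

theorem H6_dP_mem (l : Fin 3) (j : Fin 7) :
    D.dP l (some (Sum.inl j)) ∈ EJ D.φ (D.B.J (setP j)) := by
  show (if Nn l j = 1 then iota D.φ D.hφ (D.B.un1 1 (m j 1)) else 0) ∈ EJ D.φ (D.B.J (setP j))
  split_ifs
  · exact H6_iota_mem _ _ (D.H6_un1_mem 1 ((H2_P_m j j 1).2 rfl))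
  · exact Submodule.zero_mem _

theorem H6_dQ_mem (l : Fin 3) (j : Fin 7) :
    D.dQ l (some (Sum.inl j)) ∈ EJ D.φ (D.B.J (setP j)) := by
  show (if Nn l j = 1 then iota D.φ D.hφ (D.B.un1 1 (m j 0)) else 0) ∈ EJ D.φ (D.B.J (setP j))
  split_ifs
  · exact H6_iota_mem _ _ (D.H6_un1_mem 1 ((H2_P_m j j 0).2 rfl))
  · exact Submodule.zero_mem _

theorem H6_dQe_mem (l : Fin 3) (i : Fin 7) :
    D.dQ l (some (Sum.inr i)) ∈ EJ D.φ (D.B.J setI) := by
  show (if Rn l i = 1 then iota D.φ D.hφ (D.f i) else 0) ∈ EJ D.φ (D.B.J setI)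
  split_ifs
  · exact H6_iota_mem _ _ (D.H6_f_mem i her_setI (H2_I_e i))
  · exact Submodule.zero_mem _

/-- the projection `P0` -/
noncomputable def H6_P0 (l : Fin 3) : MM Slot (EE D.φ) :=
  MM.single none none (iota D.φ D.hφ (D.B.un1 0 (x l)))

/-- the projections `P_j` -/
noncomputable def H6_P (l : Fin 3) (j : Fin 7) : MM Slot (EE D.φ) :=
  MM.single (some (Sum.inl j)) (some (Sum.inl j)) (D.dP l (some (Sum.inl j)))

/-- the projections `Q_j` -/
noncomputable def H6_Q (l : Fin 3) (j : Fin 7) : MM Slot (EE D.φ) :=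
  MM.single (some (Sum.inl j)) (some (Sum.inl j)) (D.dQ l (some (Sum.inl j)))

/-- the projection `Q_e` -/
noncomputable def H6_Qe (l : Fin 3) : MM Slot (EE D.φ) :=
  ∑ i, MM.single (some (Sum.inr i)) (some (Sum.inr i)) (D.dQ l (some (Sum.inr i)))

theorem H6_diagP (l : Fin 3) : MM.diag (D.dP l) = D.H6_P0 l + ∑ j, D.H6_P l j := by
  rw [MM.diag_eq_sum, Fintype.sum_option, Fintype.sum_sum_type]
  have h : ∑ i : Fin 7, (MM.single (some (Sum.inr i)) (some (Sum.inr i))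
      (D.dP l (some (Sum.inr i))) : MM Slot (EE D.φ)) = 0 :=
    Finset.sum_eq_zero fun i _ => H6_single_zero _ _
  rw [h, add_zero]
  rfl

theorem H6_diagQ (l : Fin 3) : MM.diag (D.dQ l) = D.H6_P0 l + ∑ j, D.H6_Q l j + D.H6_Qe l := by
  rw [MM.diag_eq_sum, Fintype.sum_option, Fintype.sum_sum_type, add_assoc]
  rfl

end Dat

theorem Dat.S4 (D : Dat A) (l : Fin 3) (j : Fin 7) (hlj : Nn l j = 1) :
    ∃ p q : Fin 7 → ℤ, (∀ i, inc j i = false → p i = 0 ∧ q i = 0) ∧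
      D.U (m j 1) - D.U (m j 0) = ∑ i, (p i • D.F i true + q i • D.F i false) := by
  have hinvP : ∀ k, ∀ a ∈ D.B.J (setP k), D.φ a ∈ D.B.J (setP k) := fun k a ha =>
    D.B.map_mem_J' (her_setP k) SS (herS_setP k) (D.φ : A →⋆ₐ[ℂ] A) D.hα ha
  have hinvI : ∀ a ∈ D.B.J setI, D.φ a ∈ D.B.J setI := fun a ha =>
    D.B.map_mem_J' her_setI SS herS_setI (D.φ : A →⋆ₐ[ℂ] A) D.hα ha
  set PJ : Fin 7 → Submodule ℂ (MM Slot (EE D.φ)) := fun k =>
    MJ Slot (EJ D.φ (D.B.J (setP k))) with hPJd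
  set I : Submodule ℂ (MM Slot (EE D.φ)) := MJ Slot (EJ D.φ (D.B.J setI)) with hId
  have hPJ : ∀ k, IsCI (PJ k) := fun k =>
    (IsCI.EJ D.φ (D.B.J_isCI (her_setP k)) (hinvP k)).MJ
  have hI : IsCI I := (IsCI.EJ D.φ (D.B.J_isCI her_setI) hinvI).MJ
  have hprod : ∀ i k, i ≠ k → ∀ a ∈ PJ i, ∀ b ∈ PJ k, a * b ∈ I := by
    intro i k hik a ha b hb
    exact MJ_EJ_mul D.φ Slot (fun c hc d hd => D.B.J_mono (setP_inter_ne hik)
      (D.B.J_mul (her_setP i) (her_setP k) hc hd)) (hinvP k) ha hb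
  obtain ⟨T, hT1, hT2, hT3⟩ := D.exists_T l
  rw [D.H6_diagP] at hT1
  rw [D.H6_diagQ] at hT2
  obtain ⟨F, hF1, hF2⟩ := MJ_EJ_sum D.φ D.hφ Slot (ι := Option (Fin 7))
    (J := fun o => D.B.J (setQ l o)) (fun a ha => D.B.J_iUnion (her_setQ l) (by
      rw [iUnion_setQ]
      exact ha)) hT3
  rw [Fintype.sum_option, add_comm] at hF2
  have hy : ∀ k, F (some k) ∈ PJ k := fun k =>
    MJ_mono Slot (EJ_mono D.φ (D.B.J_mono (setQ_le l k))) (hF1 (some k))
  have hye : F none ∈ I := hF1 none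
  have hP0p : IsStarProjection (D.H6_P0 l) := pj_single _ (pj_map _ (D.H6_un1_proj _ _))
  have hPp : ∀ k, IsStarProjection (D.H6_P l k) := fun k => pj_single _ (D.H6_dP_proj l _)
  have hQp : ∀ k, IsStarProjection (D.H6_Q l k) := fun k => pj_single _ (D.H6_dQ_proj l _)
  have h0P : ∀ k, D.H6_P0 l * D.H6_P l k = 0 := fun k =>
    MM.single_mul_single_ne _ _ _ _ _ _ (by simp)
  have h0Q : ∀ k, D.H6_P0 l * D.H6_Q l k = 0 := fun k =>
    MM.single_mul_single_ne _ _ _ _ _ _ (by simp)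
  obtain ⟨y, hy1, hy2, hy3⟩ := split_pi PJ I hPJ hI hprod (P := D.H6_P l) (Q := D.H6_Q l)
    (fun k => H6_single_mem _ _ (D.H6_dP_mem l k)) (fun k => H6_single_mem _ _ (D.H6_dQ_mem l k))
    (Submodule.sum_mem _ fun i _ => H6_single_mem _ _ (D.H6_dQe_mem l i)) hP0p hPp hQp h0P h0Q
    hT1 hT2 hy hye hF2 j
  -- the ideal generated by the minimal projections
  set f' : {i // inc j i = true} → A := fun i => D.f i.1 with hf'
  have hle : PJ j ⊓ I ≤ Kid (fun ts : {i // inc j i = true} × Bool =>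
      (MM.single none none (fpm D.φ D.hφ (f' ts.1) ts.2) : MM Slot (EE D.φ))) := by
    have h1 : PJ j ⊓ I = MJ Slot (EJ D.φ (D.B.J (setW j))) := by
      rw [hPJd, hId]
      simp only
      rw [MJ_EJ_inf, D.B.J_inf (her_setP j) her_setI, setP_inter_setI]
    rw [h1]
    refine le_trans (MJ_mono Slot (EJ_mono D.φ (D.B.J_le_Kid (W := setW j) ?_ f' ?_)))
      (MJ_EJ_le_Kid D.φ D.hφ Slot none)
    · rintro v ⟨i, _, rfl⟩
      exact TT_e i
    · rintro v ⟨i, hi, rfl⟩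
      obtain ⟨μ, u, h2, h3⟩ := D.hfu i
      exact ⟨⟨i, hi⟩, μ, u, h2, h3⟩
  have hmf : MinFam (fun ts : {i // inc j i = true} × Bool =>
      (MM.single none none (fpm D.φ D.hφ (f' ts.1) ts.2) : MM Slot (EE D.φ))) :=
    MinFam.single Slot none (MinFam.fpm D.φ D.hφ
      (D.hf.restrict Subtype.val Subtype.val_injective) fun t => D.hinv _)
  have hPP : IsStarProjection (D.H6_P0 l + D.H6_P l j) := pj_add hP0p (hPp j) (h0P j)
  have hQQ : IsStarProjection (D.H6_P0 l + D.H6_Q l j) := pj_add hP0p (hQp j) (h0Q j)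
  obtain ⟨c, hc⟩ := fredholm hmf hPP hQQ hy1 (hle hy2) (hle hy3)
  have hc' := congrArg (K0lift (flat Slot (EE D.φ))) hc
  rw [map_sub, map_sum, K0lift_Vto, K0lift_Vto, flat_cls1, flat_cls1,
    clsM_add hP0p (hPp j) hPP (h0P j), clsM_add hP0p (hQp j) hQQ (h0Q j), map_add, map_add,
    add_sub_add_left_eq_sub] at hc'
  have e1 : Vto (EE D.φ) (clsM (D.H6_P l j) (hPp j)) = D.U (m j 1) := by
    have h1 : D.dP l (some (Sum.inl j)) = iota D.φ D.hφ (D.B.un1 1 (m j 1)) := by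
      show (if Nn l j = 1 then iota D.φ D.hφ (D.B.un1 1 (m j 1)) else 0) = _
      rw [if_pos hlj]
    have h2 : clsM (D.H6_P l j) (hPp j) = cls1 (D.dP l (some (Sum.inl j))) (D.H6_dP_proj l _) :=
      clsM_single _ _
    rw [h2, cls1_congr _ (pj_map _ (D.H6_un1_proj _ _)) h1, D.H6_cls]
    rfl
  have e2 : Vto (EE D.φ) (clsM (D.H6_Q l j) (hQp j)) = D.U (m j 0) := by
    have h1 : D.dQ l (some (Sum.inl j)) = iota D.φ D.hφ (D.B.un1 1 (m j 0)) := by
      show (if Nn l j = 1 then iota D.φ D.hφ (D.B.un1 1 (m j 0)) else 0) = _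
      rw [if_pos hlj]
    have h2 : clsM (D.H6_Q l j) (hQp j) = cls1 (D.dQ l (some (Sum.inl j))) (D.H6_dQ_proj l _) :=
      clsM_single _ _
    rw [h2, cls1_congr _ (pj_map _ (D.H6_un1_proj _ _)) h1, D.H6_cls]
    rfl
  rw [e1, e2] at hc'
  refine ⟨fun i => if h : inc j i = true then c (⟨i, h⟩, true) else 0,
    fun i => if h : inc j i = true then c (⟨i, h⟩, false) else 0, ?_, ?_⟩
  · intro i hi
    have hi' : ¬ inc j i = true := by
      rw [hi]
      decide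
    exact ⟨dif_neg hi', dif_neg hi'⟩
  · rw [hc', ← Fintype.sum_subtype_add_sum_subtype (fun i : Fin 7 => inc j i = true),
      Fintype.sum_prod_type]
    have h0 : ∑ i : {i : Fin 7 // ¬ inc j i = true},
        ((if h : inc j i.1 = true then c (⟨i.1, h⟩, true) else 0) • D.F i.1 true +
          (if h : inc j i.1 = true then c (⟨i.1, h⟩, false) else 0) • D.F i.1 false) = 0 :=
      Finset.sum_eq_zero fun i _ => by
        rw [dif_neg i.2, dif_neg i.2, zero_smul, zero_smul, add_zero]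
    rw [h0, add_zero]
    refine Finset.sum_congr rfl fun i _ => ?_
    change _ = (if h : inc j i.1 = true then c (⟨i.1, h⟩, true) else 0) • D.F i.1 true +
      (if h : inc j i.1 = true then c (⟨i.1, h⟩, false) else 0) • D.F i.1 false
    rw [Fintype.sum_bool, dif_pos i.2, dif_pos i.2, map_zsmul, map_zsmul, K0lift_Vto, K0lift_Vto,
      flat_cls1, flat_cls1]
    congr 2
    · exact congrArg (Vto (EE D.φ)) (clsM_single _ _)
    · exact congrArg (Vto (EE D.φ)) (clsM_single _ _)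

end Helper19.BL
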