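import Pool.Agent.Helper19.BL.H4
import Pool.Agent.Helper19.BL.H6

/-! # The final contradiction -/

set_option linter.unusedSectionVars false

namespace Helper19.BL

open VV

variable {A : Type} [CStarAlgebra A]

lemma exists_line (j : Fin 7) : ∃ l : Fin 3, Nn l j = 1 := by
  revert j; decide

lemma NM (l : Fin 3) (i : Fin 7) : ∑ j, Nn l j * Mn j i = 2 * Rn l i := by
  revert l i; decide

lemma Mn_of_not {j i : Fin 7} (h : inc j i = false) : Mn j i = 0 := by simp [Mn, h]
lemma Mn_of {j i : Fin 7} (h : inc j i = true) : Mn j i = 1 := by simp [Mn, h]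

/-- There is no involutive automorphism inducing `α`. -/
theorem Dat.contra (D : Dat A) : False := by
  choose l hl using exists_line
  have key := fun j => D.S4 (l j) j (hl j)
  choose p q h0 h1 using key
  have hpq : ∀ j i, q j i = (Mn j i : ℤ) - p j i := fun j i => by
    have := D.pq j (p j) (q j) (h1 j) i
    linarith
  have hp : ∀ j i, (Mn j i : ℤ) * p j i = p j i := by
    intro j i
    cases h : inc j i
    · rw [(h0 j i h).1, mul_zero]
    · rw [Mn_of h]; simp
  -- the relation for each `l`
  have key2 : ∀ l : Fin 3, ∑ i, (∑ j, (Nn l j : ℤ) * p j i - (Rn l i : ℤ)) •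
      (D.F i true - D.F i false) = 0 := by
    intro l
    have h2 := D.S2 l
    have h3 : ∑ j, (Nn l j : ℤ) • (D.U (m j 1) - D.U (m j 0)) =
        ∑ i, ((∑ j, (Nn l j : ℤ) * p j i) • D.F i true + (∑ j, (Nn l j : ℤ) * q j i) • D.F i false) := by
      calc ∑ j, (Nn l j : ℤ) • (D.U (m j 1) - D.U (m j 0))
          = ∑ j, ∑ i, (((Nn l j : ℤ) * p j i) • D.F i true + ((Nn l j : ℤ) * q j i) • D.F i false) := by
            refine Finset.sum_congr rfl fun j _ => ?_
            rw [h1 j, Finset.smul_sum]
            refine Finset.sum_congr rfl fun i _ => ?_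
            rw [smul_add, smul_smul, smul_smul]
        _ = _ := by
            rw [Finset.sum_comm]
            refine Finset.sum_congr rfl fun i _ => ?_
            rw [Finset.sum_add_distrib, Finset.sum_smul, Finset.sum_smul]
    have h4 : ∀ i, ∑ j, (Nn l j : ℤ) * q j i = 2 * (Rn l i : ℤ) - ∑ j, (Nn l j : ℤ) * p j i := by
      intro i
      have := NM l i
      have h5 : ∑ j, (Nn l j : ℤ) * (Mn j i : ℤ) = 2 * (Rn l i : ℤ) := by exact_mod_cast this
      rw [← h5, ← Finset.sum_sub_distrib]
      refine Finset.sum_congr rfl fun j _ => ?_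
      rw [hpq]; ring
    rw [h3] at h2
    have h5 : ∑ i, (∑ j, (Nn l j : ℤ) * p j i - (Rn l i : ℤ)) • (D.F i true - D.F i false) =
        ∑ i, ((∑ j, (Nn l j : ℤ) * p j i) • D.F i true + (∑ j, (Nn l j : ℤ) * q j i) • D.F i false) -
        ∑ i, (Rn l i : ℤ) • (D.F i true + D.F i false) := by
      rw [← Finset.sum_sub_distrib]
      refine Finset.sum_congr rfl fun i _ => ?_
      rw [h4 i]
      module
    rw [h5, h2, sub_self]
  choose η hη using fun l => D.parity (fun i => ∑ j, (Nn l j : ℤ) * p j i - (Rn l i : ℤ)) (key2 l)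
  refine fano_contra p η fun l i => ?_
  obtain ⟨c, hc⟩ := hη l i
  refine ⟨c, ?_⟩
  rw [← hc]
  congr 2
  refine Finset.sum_congr rfl fun j _ => ?_
  rw [mul_assoc, hp]

end Helper19.BL
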