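import Pool.Agent.Helper19.BL.H7
import Pool.Agent.Helper19.BL.B11
import Pool.Agent.Helper59.BL.Exist

/-! # The final statement -/

set_option linter.unusedSectionVars false

namespace Helper19.BL

open VV

instance : Nonempty VV := ⟨VV.x 0⟩

lemma K0map_id {A : Type*} [CStarAlgebra A] (g : K0 A) :
    K0map ((StarAlgEquiv.refl ℂ A : A ≃⋆ₐ[ℂ] A) : A →⋆ₐ[ℂ] A) g = g := by
  have h : K0map ((StarAlgEquiv.refl ℂ A : A ≃⋆ₐ[ℂ] A) : A →⋆ₐ[ℂ] A) = AddMonoidHom.id (K0 A) := by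
    refine K0_hom_ext fun x => ?_
    rw [K0map_Vto, AddMonoidHom.id_apply]
    congr 1
    exact Vmap_id x
  rw [h, AddMonoidHom.id_apply]

theorem main : ∃ (A : Type) (_ : CStarAlgebra A), IsAF A ∧
    ∃ α : K0 A ≃+ K0 A, α '' K0pos A = K0pos A ∧ α '' K0scale A = K0scale A ∧
      (∀ g, α (α g) = g) ∧ (∃ g, α g ≠ g) ∧
      ∀ φ : A ≃⋆ₐ[ℂ] A, (∀ a, φ (φ a) = a) → ∃ g, K0map (φ : A →⋆ₐ[ℂ] A) g ≠ α g := by
  obtain ⟨A, instA, B, hB⟩ := brat_exists TT TT_diag dd dd_pos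
  obtain ⟨αV, hαV, hαV2⟩ := B.exists_alphaV SS SM_mul_TM SM_mul_SM
  have h1 : αV (cls1 (1 : A) pj_one) = cls1 (1 : A) pj_one := by
    rw [B.cls_one, map_sum]
    have e1 : ∀ v, αV (Fintype.card (B.P 0 v) • B.u 0 v) = ∑ w, (dd v * SS v w) • B.u 1 w := by
      intro v
      rw [map_nsmul, hαV, hB, Finset.smul_sum]
      exact Finset.sum_congr rfl fun w _ => (mul_nsmul' _ _ _).symm
    have e2 : ∀ v, Fintype.card (B.P 0 v) • B.u 0 v = ∑ w, (dd v * TT v w) • B.u 1 w := by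
      intro v
      rw [B.u_succ 0 v, hB, Finset.smul_sum]
      exact Finset.sum_congr rfl fun w _ => (mul_nsmul' _ _ _).symm
    rw [Finset.sum_congr rfl fun v _ => e1 v, Finset.sum_congr rfl fun v _ => e2 v,
      Finset.sum_comm, Finset.sum_comm (s := Finset.univ) (t := Finset.univ)
        (f := fun v w => (dd v * TT v w) • B.u 1 w)]
    refine Finset.sum_congr rfl fun w _ => ?_
    rw [← Finset.sum_smul, ← Finset.sum_smul, dd_SS]
  obtain ⟨α, hα1, hα2, hα3, hα4⟩ := exists_alphaK αV hαV2 h1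
  have key : ∀ φ : A ≃⋆ₐ[ℂ] A, (∀ a, φ (φ a) = a) → ∃ g, K0map (φ : A →⋆ₐ[ℂ] A) g ≠ α g := by
    intro φ hφ
    by_contra hcon
    push Not at hcon
    obtain ⟨D⟩ := exists_dat B φ hφ (fun n v => by
      apply B.Vto_inj
      rw [← K0map_Vto, hcon, hα1, hαV])
    exact D.contra
  refine ⟨A, instA, B.isAF, α, hα3, hα4, hα2, ?_, key⟩
  obtain ⟨g, hg⟩ := key (StarAlgEquiv.refl ℂ A) (fun a => rfl)
  refine ⟨g, fun h => hg ?_⟩
  rw [K0map_id, h]

end Helper19.BL
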