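import Mathlib

/-! # Murray-von Neumann semigroup `V(A)` and `K_0(A)` of a unital star ring

`V A` = Murray-von Neumann equivalence classes of projections in matrices over `A`,
`K0 A` = its Grothendieck group.  Used for unital C*-algebras `A`.
-/

open scoped Matrix

namespace Helper19.BL

section Basic

variable {A : Type*} [Ring A] [StarRing A]

/-- `p` is a projection (self-adjoint idempotent) in a matrix algebra over `A`. -/
def IsPj {ι : Type*} [Fintype ι] (p : Matrix ι ι A) : Prop := p * p = p ∧ pᴴ = p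

/-- Murray-von Neumann equivalence of two (square, possibly of different size) matrices over `A`. -/
def MvN {ι κ : Type*} [Fintype ι] [Fintype κ] (p : Matrix ι ι A) (q : Matrix κ κ A) : Prop :=
  ∃ v : Matrix κ ι A, vᴴ * v = p ∧ v * vᴴ = q

variable {ι κ μ ν : Type*} [Fintype ι] [Fintype κ] [Fintype μ] [Fintype ν]

lemma MvN.refl {p : Matrix ι ι A} (hp : IsPj p) : MvN p p :=
  ⟨p, by rw [hp.2, hp.1], by rw [hp.2, hp.1]⟩

lemma MvN.symm {p : Matrix ι ι A} {q : Matrix κ κ A} (h : MvN p q) : MvN q p := by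
  obtain ⟨v, h1, h2⟩ := h
  exact ⟨vᴴ, by rw [Matrix.conjTranspose_conjTranspose, h2],
    by rw [Matrix.conjTranspose_conjTranspose, h1]⟩

lemma MvN.trans {p : Matrix ι ι A} {q : Matrix κ κ A} {r : Matrix μ μ A}
    (hp : IsPj p) (hr : IsPj r) (h : MvN p q) (h' : MvN q r) : MvN p r := by
  obtain ⟨v, h1, h2⟩ := h
  obtain ⟨w, h3, h4⟩ := h'
  refine ⟨w * v, ?_, ?_⟩
  · calc (w * v)ᴴ * (w * v) = vᴴ * (wᴴ * w) * v := by
          rw [Matrix.conjTranspose_mul]; simp only [Matrix.mul_assoc]
      _ = (vᴴ * v) * (vᴴ * v) := by rw [h3, ← h2]; simp only [Matrix.mul_assoc]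
      _ = p := by rw [h1, hp.1]
  · calc (w * v) * (w * v)ᴴ = w * (v * vᴴ) * wᴴ := by
          rw [Matrix.conjTranspose_mul]; simp only [Matrix.mul_assoc]
      _ = (w * wᴴ) * (w * wᴴ) := by rw [h2, ← h3]; simp only [Matrix.mul_assoc]
      _ = r := by rw [h4, hr.1]

/-- a nice implementing partial isometry -/
lemma MvN.nice {p : Matrix ι ι A} {q : Matrix κ κ A} (hp : IsPj p) (hq : IsPj q)
    (h : MvN p q) : ∃ v : Matrix κ ι A, vᴴ * v = p ∧ v * vᴴ = q ∧ v * p = v ∧ q * v = v := by
  obtain ⟨v, h1, h2⟩ := h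
  refine ⟨q * v * p, ?_, ?_, ?_, ?_⟩
  · have : (q * v * p)ᴴ * (q * v * p) = p * (vᴴ * (q * q) * v) * p := by
      simp only [Matrix.conjTranspose_mul, hp.2, hq.2, Matrix.mul_assoc]
    rw [this, hq.1]
    have : vᴴ * q * v = (vᴴ * v) * (vᴴ * v) := by rw [← h2]; simp only [Matrix.mul_assoc]
    rw [this, h1]; simp only [hp.1]
  · have : (q * v * p) * (q * v * p)ᴴ = q * (v * (p * p) * vᴴ) * q := by
      simp only [Matrix.conjTranspose_mul, hp.2, hq.2, Matrix.mul_assoc]
    rw [this, hp.1]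
    have : v * p * vᴴ = (v * vᴴ) * (v * vᴴ) := by rw [← h1]; simp only [Matrix.mul_assoc]
    rw [this, h2]; simp only [hq.1]
  · rw [Matrix.mul_assoc, hp.1]
  · rw [← Matrix.mul_assoc, ← Matrix.mul_assoc, hq.1]

lemma IsPj.zero : IsPj (0 : Matrix ι ι A) := ⟨by simp, by simp⟩

lemma IsPj.blocks {p : Matrix ι ι A} {q : Matrix κ κ A} (hp : IsPj p) (hq : IsPj q) :
    IsPj (Matrix.fromBlocks p 0 0 q) := by
  constructor
  · rw [Matrix.fromBlocks_multiply]; simp [hp.1, hq.1]
  · rw [Matrix.fromBlocks_conjTranspose]; simp [hp.2, hq.2]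

lemma IsPj.submatrix {p : Matrix ι ι A} (hp : IsPj p) (e : κ ≃ ι) : IsPj (p.submatrix e e) := by
  constructor
  · rw [Matrix.submatrix_mul_equiv, hp.1]
  · rw [Matrix.conjTranspose_submatrix, hp.2]

lemma MvN.submatrix {p : Matrix ι ι A} (hp : IsPj p) (e : κ ≃ ι) :
    MvN p (p.submatrix e e) := by
  refine ⟨p.submatrix e id, ?_, ?_⟩
  · rw [Matrix.conjTranspose_submatrix, hp.2]
    have := Matrix.submatrix_mul_equiv p p (id : ι → ι) e (id : ι → ι)
    rw [this, hp.1]; rfl
  · rw [Matrix.conjTranspose_submatrix, hp.2]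
    have := Matrix.submatrix_mul_equiv p p (e : κ → ι) (Equiv.refl ι) (e : κ → ι)
    simp only [Equiv.coe_refl] at this
    rw [this, hp.1]

lemma MvN.blocks {p : Matrix ι ι A} {q : Matrix κ κ A} {p' : Matrix μ μ A} {q' : Matrix ν ν A}
    (h : MvN p p') (h' : MvN q q') :
    MvN (Matrix.fromBlocks p 0 0 q) (Matrix.fromBlocks p' 0 0 q') := by
  obtain ⟨v, h1, h2⟩ := h
  obtain ⟨w, h3, h4⟩ := h'
  refine ⟨Matrix.fromBlocks v 0 0 w, ?_, ?_⟩
  · rw [Matrix.fromBlocks_conjTranspose, Matrix.fromBlocks_multiply]; simp [h1, h3]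
  · rw [Matrix.fromBlocks_conjTranspose, Matrix.fromBlocks_multiply]; simp [h2, h4]

/-- orthogonal sum inside one matrix algebra is equivalent to the block sum -/
lemma MvN.add_blocks {p q : Matrix ι ι A} (hp : IsPj p) (hq : IsPj q) (h : p * q = 0) :
    MvN (Matrix.fromBlocks p 0 0 q) (p + q) := by
  have h' : q * p = 0 := by
    have := congrArg Matrix.conjTranspose h
    rwa [Matrix.conjTranspose_mul, hp.2, hq.2, Matrix.conjTranspose_zero] at this
  refine ⟨Matrix.fromCols p q, ?_, ?_⟩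
  · rw [Matrix.conjTranspose_fromCols_eq_fromRows_conjTranspose, hp.2, hq.2,
      Matrix.fromRows_mul_fromCols, hp.1, hq.1, h, h']
  · rw [Matrix.conjTranspose_fromCols_eq_fromRows_conjTranspose, hp.2, hq.2,
      Matrix.fromCols_mul_fromRows, hp.1, hq.1]

end Basic

/-- a projection in a matrix algebra `M_n(A)` -/
structure PjM (A : Type*) [Ring A] [StarRing A] where
  /-- the size -/
  n : ℕ
  /-- the projection -/
  p : Matrix (Fin n) (Fin n) A
  hp : IsPj p

instance PjM.setoid (A : Type*) [Ring A] [StarRing A] : Setoid (PjM A) where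
  r a b := MvN a.p b.p
  iseqv :=
    { refl := fun a => MvN.refl a.hp
      symm := fun h => h.symm
      trans := fun {a _ c} h h' => MvN.trans a.hp c.hp h h' }

/-- The Murray-von Neumann semigroup of `A`. -/
def V (A : Type*) [Ring A] [StarRing A] : Type _ := Quotient (PjM.setoid A)

section VV

variable {A : Type*} [Ring A] [StarRing A]
variable {ι κ μ ν : Type*} [Fintype ι] [Fintype κ] [Fintype μ] [Fintype ν]

/-- a projection indexed by any finite type, moved to `Fin n` -/
noncomputable def PjM.mk' (p : Matrix ι ι A) (hp : IsPj p) : PjM A :=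
  ⟨Fintype.card ι, p.submatrix (Fintype.equivFin ι).symm (Fintype.equivFin ι).symm,
      hp.submatrix _⟩

/-- class of an element of `PjM A` -/
def V.mk (a : PjM A) : V A := Quotient.mk (PjM.setoid A) a

lemma V.mk_eq {a b : PjM A} : V.mk a = V.mk b ↔ MvN a.p b.p :=
  ⟨fun h => Quotient.exact (s := PjM.setoid A) h, fun h => Quotient.sound (s := PjM.setoid A) h⟩

/-- The class of a projection in a matrix algebra over `A`. -/
noncomputable def cls (p : Matrix ι ι A) (hp : IsPj p) : V A := V.mk (PjM.mk' p hp)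

lemma cls_eq_iff {p : Matrix ι ι A} {q : Matrix κ κ A} (hp : IsPj p) (hq : IsPj q) :
    cls p hp = cls q hq ↔ MvN p q := by
  unfold cls
  rw [V.mk_eq]
  have h1 := MvN.submatrix hp (Fintype.equivFin ι).symm
  have h2 := MvN.submatrix hq (Fintype.equivFin κ).symm
  constructor
  · intro h
    exact MvN.trans hp hq h1 (MvN.trans (hp.submatrix _) hq h h2.symm)
  · intro h
    exact MvN.trans (hp.submatrix _) (hq.submatrix _) h1.symm
      (MvN.trans hp (hq.submatrix _) h h2)

lemma V.ind {P : V A → Prop}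
    (h : ∀ (n : ℕ) (p : Matrix (Fin n) (Fin n) A) (hp : IsPj p), P (cls p hp)) (x : V A) : P x := by
  induction x using Quotient.inductionOn with
  | h a =>
    have : V.mk a = cls a.p a.hp := by
      unfold cls
      rw [V.mk_eq]
      exact MvN.submatrix a.hp _
    exact (this ▸ h a.n a.p a.hp : P (V.mk a))

lemma V.exists_rep (x : V A) :
    ∃ (n : ℕ) (p : Matrix (Fin n) (Fin n) A) (hp : IsPj p), x = cls p hp := by
  induction x using V.ind with
  | h n p hp => exact ⟨n, p, hp, rfl⟩

noncomputable instance : Zero (V A) := ⟨cls (0 : Matrix (Fin 0) (Fin 0) A) IsPj.zero⟩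

/-- block sum -/
noncomputable def PjM.add (a b : PjM A) : PjM A :=
  ⟨a.n + b.n,
    (Matrix.fromBlocks a.p 0 0 b.p).submatrix finSumFinEquiv.symm finSumFinEquiv.symm,
    (a.hp.blocks b.hp).submatrix _⟩

lemma PjM.add_spec (a b : PjM A) : MvN (Matrix.fromBlocks a.p 0 0 b.p) (a.add b).p :=
  MvN.submatrix (a.hp.blocks b.hp) _

noncomputable def V.add : V A → V A → V A :=
  Quotient.map₂ PjM.add
    (by
      intro a a' h b b' h'
      have h0 : MvN (Matrix.fromBlocks a.p 0 0 b.p) (Matrix.fromBlocks a'.p 0 0 b'.p) :=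
        MvN.blocks h h'
      exact MvN.trans (a.add b).hp (a'.add b').hp (a.add_spec b).symm
        (MvN.trans (a.hp.blocks b.hp) (a'.add b').hp h0 (a'.add_spec b')))

noncomputable instance : Add (V A) := ⟨V.add⟩

lemma cls_add_cls {p : Matrix ι ι A} {q : Matrix κ κ A} (hp : IsPj p) (hq : IsPj q) :
    cls p hp + cls q hq = cls (Matrix.fromBlocks p 0 0 q) (hp.blocks hq) := by
  change V.add _ _ = _
  have h1 : MvN p (PjM.mk' p hp).p := MvN.submatrix hp (Fintype.equivFin ι).symm
  have h2 : MvN q (PjM.mk' q hq).p := MvN.submatrix hq (Fintype.equivFin κ).symm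
  have h3 := (MvN.blocks h1 h2).symm
  have h4 := PjM.add_spec (PjM.mk' p hp) (PjM.mk' q hq)
  have h5 : MvN (Matrix.fromBlocks p 0 0 q) (PjM.mk' _ (hp.blocks hq)).p :=
    MvN.submatrix (hp.blocks hq) _
  have e : V.add (cls p hp) (cls q hq) = V.mk ((PjM.mk' p hp).add (PjM.mk' q hq)) := rfl
  rw [e]
  unfold cls
  rw [V.mk_eq]
  exact MvN.trans (PjM.hp _) (PjM.hp _) h4.symm
    (MvN.trans ((PjM.hp _).blocks (PjM.hp _)) (PjM.hp _) h3 h5)

lemma cls_add {p q : Matrix ι ι A} (hp : IsPj p) (hq : IsPj q) (hpq : IsPj (p + q))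
    (h : p * q = 0) : cls (p + q) hpq = cls p hp + cls q hq := by
  rw [cls_add_cls, cls_eq_iff]
  exact (MvN.add_blocks hp hq h).symm

lemma cls_zero : cls (0 : Matrix ι ι A) IsPj.zero = 0 := by
  change _ = cls (0 : Matrix (Fin 0) (Fin 0) A) IsPj.zero
  rw [cls_eq_iff]
  exact ⟨0, by simp, by simp⟩

noncomputable instance : AddCommMonoid (V A) where
  add_assoc x y z := by
    induction x using V.ind with
    | h n p hp =>
    induction y using V.ind with
    | h m q hq =>
    induction z using V.ind with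
    | h k r hr =>
    rw [cls_add_cls, cls_add_cls, cls_add_cls, cls_add_cls, cls_eq_iff]
    have h0 := MvN.submatrix ((hp.blocks hq).blocks hr) (Equiv.sumAssoc (Fin n) (Fin m) (Fin k)).symm
    have e : (Matrix.fromBlocks (Matrix.fromBlocks p 0 0 q) 0 0 r).submatrix
        (Equiv.sumAssoc (Fin n) (Fin m) (Fin k)).symm (Equiv.sumAssoc (Fin n) (Fin m) (Fin k)).symm
        = Matrix.fromBlocks p 0 0 (Matrix.fromBlocks q 0 0 r) := by
      ext i j
      rcases i with i | i | i <;> rcases j with j | j | j <;> rfl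
    rwa [e] at h0
  zero_add x := by
    induction x using V.ind with
    | h n p hp =>
    change cls (0 : Matrix (Fin 0) (Fin 0) A) IsPj.zero + _ = _
    rw [cls_add_cls, cls_eq_iff]
    have h0 := MvN.submatrix hp (Equiv.emptySum (Fin 0) (Fin n))
    have e : p.submatrix (Equiv.emptySum (Fin 0) (Fin n)) (Equiv.emptySum (Fin 0) (Fin n))
        = Matrix.fromBlocks (0 : Matrix (Fin 0) (Fin 0) A) 0 0 p := by
      ext i j
      rcases i with i | i
      · exact i.elim0
      rcases j with j | j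
      · exact j.elim0
      rfl
    rw [e] at h0
    exact h0.symm
  add_zero x := by
    induction x using V.ind with
    | h n p hp =>
    change _ + cls (0 : Matrix (Fin 0) (Fin 0) A) IsPj.zero = _
    rw [cls_add_cls, cls_eq_iff]
    have h0 := MvN.submatrix hp (Equiv.sumEmpty (Fin n) (Fin 0))
    have e : p.submatrix (Equiv.sumEmpty (Fin n) (Fin 0)) (Equiv.sumEmpty (Fin n) (Fin 0))
        = Matrix.fromBlocks p 0 0 (0 : Matrix (Fin 0) (Fin 0) A) := by
      ext i j
      rcases i with i | i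
      · rcases j with j | j
        · rfl
        · exact j.elim0
      · exact i.elim0
    rw [e] at h0
    exact h0.symm
  add_comm x y := by
    induction x using V.ind with
    | h n p hp =>
    induction y using V.ind with
    | h m q hq =>
    rw [cls_add_cls, cls_add_cls, cls_eq_iff]
    have h0 := MvN.submatrix (hp.blocks hq) (Equiv.sumComm (Fin m) (Fin n))
    have e : (Matrix.fromBlocks p 0 0 q).submatrix (Equiv.sumComm (Fin m) (Fin n))
        (Equiv.sumComm (Fin m) (Fin n)) = Matrix.fromBlocks q 0 0 p := by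
      ext i j
      rcases i with i | i <;> rcases j with j | j <;> rfl
    rwa [e] at h0
  nsmul := nsmulRec

end VV

/-- `K_0` of a unital star ring (C*-algebra): the Grothendieck group of `V A`. -/
abbrev K0 (A : Type*) [Ring A] [StarRing A] : Type _ := Algebra.GrothendieckAddGroup (V A)

section KK

variable {A : Type*} [Ring A] [StarRing A]

/-- the canonical map `V A → K0 A` -/
noncomputable def Vto (A : Type*) [Ring A] [StarRing A] : V A →+ K0 A :=
  Algebra.GrothendieckAddGroup.of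

lemma K0.exists_sub (g : K0 A) : ∃ x y : V A, g = Vto A x - Vto A y := by
  obtain ⟨⟨x, y⟩, h⟩ := (AddLocalization.addMonoidOf (⊤ : AddSubmonoid (V A))).surj g
  refine ⟨x, y, ?_⟩
  rw [eq_sub_iff_add_eq]
  exact h

lemma Vto_eq_iff {x y : V A} : Vto A x = Vto A y ↔ ∃ c, c + x = c + y := by
  constructor
  · intro h
    obtain ⟨c, hc⟩ := (AddLocalization.addMonoidOf (⊤ : AddSubmonoid (V A))).eq_iff_exists.1 h
    exact ⟨c, hc⟩
  · rintro ⟨c, hc⟩
    have := congrArg (Vto A) hc
    rw [map_add, map_add] at this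
    exact add_left_cancel this

end KK

section Maps

variable {A B C : Type*} [Ring A] [StarRing A] [Algebra ℂ A] [Ring B] [StarRing B] [Algebra ℂ B]
  [Ring C] [StarRing C] [Algebra ℂ C]
variable {ι κ : Type*} [Fintype ι] [Fintype κ]

lemma IsPj.map {p : Matrix ι ι A} (hp : IsPj p) (f : A →⋆ₐ[ℂ] B) : IsPj (p.map f) := by
  constructor
  · rw [← Matrix.map_mul (f := f), hp.1]
  · rw [← Matrix.conjTranspose_map f (fun a => (map_star f a)), hp.2]

lemma MvN.map {p : Matrix ι ι A} {q : Matrix κ κ A} (h : MvN p q) (f : A →⋆ₐ[ℂ] B) :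
    MvN (p.map f) (q.map f) := by
  obtain ⟨v, h1, h2⟩ := h
  refine ⟨v.map f, ?_, ?_⟩
  · rw [← Matrix.conjTranspose_map f (fun a => (map_star f a)), ← Matrix.map_mul (f := f), h1]
  · rw [← Matrix.conjTranspose_map f (fun a => (map_star f a)), ← Matrix.map_mul (f := f), h2]

/-- image of a projection -/
def PjM.map (f : A →⋆ₐ[ℂ] B) (a : PjM A) : PjM B := ⟨a.n, a.p.map f, a.hp.map f⟩

/-- functoriality of `V` (the function) -/
noncomputable def VmapFun (f : A →⋆ₐ[ℂ] B) : V A → V B :=
  Quotient.map (PjM.map f) (fun _ _ h => MvN.map h f)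

lemma VmapFun_cls (f : A →⋆ₐ[ℂ] B) {p : Matrix ι ι A} (hp : IsPj p) :
    VmapFun f (cls p hp) = cls (p.map f) (hp.map f) := rfl

/-- functoriality of `V` -/
noncomputable def Vmap (f : A →⋆ₐ[ℂ] B) : V A →+ V B where
  toFun := VmapFun f
  map_zero' := by
    rw [← cls_zero (A := A) (ι := Fin 0), VmapFun_cls, ← cls_zero (A := B) (ι := Fin 0), cls_eq_iff]
    exact ⟨0, by ext i; exact i.elim0, by ext i; exact i.elim0⟩
  map_add' x y := by
    induction x using V.ind with
    | h n p hp =>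
    induction y using V.ind with
    | h m q hq =>
    rw [cls_add_cls, VmapFun_cls, VmapFun_cls, VmapFun_cls, cls_add_cls, cls_eq_iff]
    rw [Matrix.fromBlocks_map]
    have e1 : (0 : Matrix (Fin n) (Fin m) A).map f = 0 := by ext i j; simp
    have e2 : (0 : Matrix (Fin m) (Fin n) A).map f = 0 := by ext i j; simp
    rw [e1, e2]
    exact MvN.refl ((hp.map f).blocks (hq.map f))

lemma Vmap_cls (f : A →⋆ₐ[ℂ] B) {p : Matrix ι ι A} (hp : IsPj p) :
    Vmap f (cls p hp) = cls (p.map f) (hp.map f) := VmapFun_cls f hp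

lemma Vmap_comp (g : B →⋆ₐ[ℂ] C) (f : A →⋆ₐ[ℂ] B) (x : V A) :
    Vmap (g.comp f) x = Vmap g (Vmap f x) := by
  induction x using V.ind with
  | h n p hp => rw [Vmap_cls, Vmap_cls, Vmap_cls]; rfl

lemma Vmap_id (x : V A) : Vmap (StarAlgHom.id ℂ A) x = x := by
  induction x using V.ind with
  | h n p hp => rw [Vmap_cls]; rfl

/-- functoriality of `K0` -/
noncomputable def K0map (f : A →⋆ₐ[ℂ] B) : K0 A →+ K0 B :=
  Algebra.GrothendieckAddGroup.lift
    ((Algebra.GrothendieckAddGroup.of : V B →+ K0 B).comp (Vmap f))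

lemma K0map_Vto (f : A →⋆ₐ[ℂ] B) (x : V A) : K0map f (Vto A x) = Vto B (Vmap f x) := by
  have := Algebra.GrothendieckAddGroup.lift.symm_apply_apply
    ((Algebra.GrothendieckAddGroup.of : V B →+ K0 B).comp (Vmap f))
  exact congrArg (fun h : V A →+ K0 B => h x) this

end Maps

end Helper19.BL
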