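import Pool.Agent.Helper19.BL.H8

/-! # The scaled ordered group `K_0(A)` of a unital C*-algebra: short names for the final statement -/

set_option linter.unusedSectionVars false

namespace Helper19.BL

/-- The Murray-von Neumann monoid of a unital C*-algebra. -/
def VC (A : Type*) [CStarAlgebra A] : Type _ := V A

noncomputable instance (A : Type*) [CStarAlgebra A] : AddCommMonoid (VC A) :=
  inferInstanceAs (AddCommMonoid (V A))

/-- `K_0(A)`: the Grothendieck group of `VC A`. -/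
def KC (A : Type*) [CStarAlgebra A] : Type _ := Algebra.GrothendieckAddGroup (VC A)

noncomputable instance (A : Type*) [CStarAlgebra A] : AddCommGroup (KC A) :=
  inferInstanceAs (AddCommGroup (Algebra.GrothendieckAddGroup (VC A)))

/-- the canonical map `VC A → KC A` -/
noncomputable def KCof (A : Type*) [CStarAlgebra A] : VC A →+ KC A :=
  Algebra.GrothendieckAddGroup.of

/-- The positive cone of `K_0(A)`: classes of projections in matrix algebras over `A`. -/
def KCpos (A : Type*) [CStarAlgebra A] : Set (KC A) := {g | ∃ x : VC A, g = KCof A x}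

/-- the class in `VC A` of a projection of `A` -/
noncomputable def VCcls {A : Type*} [CStarAlgebra A] (p : A) (hp : IsStarProjection p) : VC A :=
  cls1 p hp

/-- The scale of `K_0(A)`: classes of projections of `A`. -/
def KCscale (A : Type*) [CStarAlgebra A] : Set (KC A) :=
  {g | ∃ (p : A) (hp : IsStarProjection p), g = KCof A (VCcls p hp)}

/-- the map `V(A) → V(B)` induced by a unital star homomorphism -/
noncomputable def VCmap {A B : Type*} [CStarAlgebra A] [CStarAlgebra B] (f : A →⋆ₐ[ℂ] B) :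
    VC A →+ VC B := Vmap f

/-- the map `K_0(f) : K_0(A) → K_0(B)` induced by a unital star homomorphism -/
noncomputable def KCmap {A B : Type*} [CStarAlgebra A] [CStarAlgebra B] (f : A →⋆ₐ[ℂ] B) :
    KC A →+ KC B := Algebra.GrothendieckAddGroup.lift ((KCof B).comp (VCmap f))

/-- `K_0(φ)` for a star automorphism `φ` of `A` -/
noncomputable def KCaut {A : Type*} [CStarAlgebra A] (φ : A ≃⋆ₐ[ℂ] A) : KC A →+ KC A :=
  KCmap (φ : A →⋆ₐ[ℂ] A)

/-- `φ ∘ φ = id` -/
def IsInvol {A : Type*} [CStarAlgebra A] (φ : A ≃⋆ₐ[ℂ] A) : Prop := ∀ a, φ (φ a) = a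

/-- `K_0(φ) = α` -/
def Induces {A : Type*} [CStarAlgebra A] (φ : A ≃⋆ₐ[ℂ] A) (α : KC A ≃+ KC A) : Prop :=
  ∀ g, KCaut φ g = α g

/-- `α` is an automorphism of the scaled ordered group `(K_0(A), K_0(A)^+, Σ(A))`. -/
def IsScaledOrderAut {A : Type*} [CStarAlgebra A] (α : KC A ≃+ KC A) : Prop :=
  α '' KCpos A = KCpos A ∧ α '' KCscale A = KCscale A

theorem main' : ∃ (A : Type) (_ : CStarAlgebra A), IsAF A ∧
    ∃ α : KC A ≃+ KC A, IsScaledOrderAut α ∧ (∀ g, α (α g) = g) ∧ (∃ g, α g ≠ g) ∧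
      ∀ φ : A ≃⋆ₐ[ℂ] A, IsInvol φ → ¬ Induces φ α := by
  obtain ⟨A, instA, hAF, α, h1, h2, h3, h4, h5⟩ := main
  have e1 : (K0pos A : Set (K0 A)) = (KCpos A : Set (KC A)) := by
    ext g
    constructor
    · rintro ⟨x, hx⟩; exact ⟨x, hx.symm⟩
    · rintro ⟨x, hx⟩; exact ⟨x, hx.symm⟩
  refine ⟨A, instA, hAF, α, ⟨?_, ?_⟩, h3, h4, ?_⟩
  · rw [← e1]; exact h1
  · exact h2
  · intro φ hφ hα
    obtain ⟨g, hg⟩ := h5 φ hφ
    exact hg (hα g)

end Helper19.BL
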